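import Mathlib

/-!
# Part D, J2: an abstract lemma on spaces of ends
-/

namespace Pool.Agent.BorelManifold

open Set Topology Filter

/-- A description of the ends of the space `M` by the points of the space `E`. -/
structure IsEndSystem {M E ι : Type*} [TopologicalSpace M] [TopologicalSpace E]
    (F : E → Filter M) (O : ι → Set E) (W : ι → Set M) : Prop where
  neBot : ∀ x, (F x).NeBot
  conn : ∀ x, ∀ B ∈ F x, ∃ A ∈ F x, A ⊆ B ∧ IsPreconnected A
  frontier : ∀ i, ∃ K, IsCompact K ∧ frontier (W i) ⊆ K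
  mem : ∀ i x, x ∈ O i → W i ∈ F x
  notMem : ∀ i x, x ∉ O i → (W i)ᶜ ∈ F x
  sep : ∀ x y, x ≠ y → ∃ i, ¬ (x ∈ O i ↔ y ∈ O i)
  away : ∀ x K, IsCompact K → Kᶜ ∈ F x
  cpt : ∀ U : Ultrafilter M, (∀ K, IsCompact K → Kᶜ ∈ U) → ∃ x, (U : Filter M) ≤ F x
  cont : ∀ x, ∀ B ∈ F x, ∀ᶠ y in 𝓝 x, B ∈ F y
  top : ‹TopologicalSpace E› = TopologicalSpace.generateFrom {U | ∃ i, U = O i ∨ U = (O i)ᶜ}

theorem subset_or_subset_compl {M : Type*} [TopologicalSpace M] {A C : Set M}
    (hA : IsPreconnected A) (h : A ∩ _root_.frontier C = ∅) : A ⊆ C ∨ A ⊆ Cᶜ := by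
  by_contra hno
  push Not at hno
  obtain ⟨h1, h2⟩ := hno
  rw [Set.not_subset] at h1 h2
  obtain ⟨x, hx, hxC⟩ := h1
  obtain ⟨y, hy, hyC⟩ := h2
  rw [Set.mem_compl_iff, not_not] at hyC
  have hi : A ⊆ interior C ∪ interior Cᶜ := by
    intro z hz
    by_contra hn
    rw [Set.mem_union, not_or] at hn
    have : z ∈ A ∩ _root_.frontier C := by
      refine ⟨hz, ?_⟩
      rw [frontier_eq_closure_inter_closure]
      refine ⟨?_, ?_⟩
      · rw [← compl_compl (closure C), ← interior_compl]; exact hn.2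
      · rw [closure_compl]; exact hn.1
    rw [h] at this
    exact this
  have h3 := hA (interior C) (interior Cᶜ) isOpen_interior isOpen_interior hi
    ⟨y, hy, by
      rcases hi hy with h4 | h4
      · exact h4
      · exact absurd (interior_subset h4) (by simpa using hyC)⟩
    ⟨x, hx, by
      rcases hi hx with h4 | h4
      · exact absurd (interior_subset h4) hxC
      · exact h4⟩
  obtain ⟨z, -, h4, h5⟩ := h3
  exact (interior_subset h5) (interior_subset h4)

section

variable {M E ι M' E' ι' : Type*} [TopologicalSpace M] [TopologicalSpace E] [TopologicalSpace M']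
  [TopologicalSpace E'] {F : E → Filter M} {O : ι → Set E} {W : ι → Set M}
  {F' : E' → Filter M'} {O' : ι' → Set E'} {W' : ι' → Set M'}

theorem IsEndSystem.exists_image (S : IsEndSystem F O W) (S' : IsEndSystem F' O' W')
    (h : M ≃ₜ M') (x : E) : ∃ x', map h (F x) ≤ F' x' := by
  have := S.neBot x
  have haway : ∀ K, IsCompact K → Kᶜ ∈ map h (F x) := by
    intro K hK
    rw [mem_map, preimage_compl]
    apply S.away
    exact h.isCompact_preimage.mpr hK
  obtain ⟨x', hx'⟩ := S'.cpt (Ultrafilter.of (map h (F x)))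
    (fun K hK => Ultrafilter.of_le _ (haway K hK))
  refine ⟨x', ?_⟩
  intro B hB
  by_contra hno
  -- another ultrafilter
  have hne : (map h (F x) ⊓ 𝓟 Bᶜ).NeBot :=
    ⟨fun hbot => hno (Filter.mem_iff_inf_principal_compl.mpr hbot)⟩
  obtain ⟨x'', hx''⟩ := S'.cpt (Ultrafilter.of (map h (F x) ⊓ 𝓟 Bᶜ))
    (fun K hK => Ultrafilter.of_le _ (mem_inf_of_left (haway K hK)))
  have hne' : x' ≠ x'' := by
    rintro rfl
    have h1 : B ∈ Ultrafilter.of (map h (F x) ⊓ 𝓟 Bᶜ) := hx'' hB
    have h2 : Bᶜ ∈ Ultrafilter.of (map h (F x) ⊓ 𝓟 Bᶜ) :=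
      Ultrafilter.of_le _ (mem_inf_of_right (mem_principal_self _))
    exact Ultrafilter.compl_mem_iff_notMem.mp h2 h1
  obtain ⟨i, hi⟩ := S'.sep x' x'' hne'
  -- a separating set with compact frontier
  obtain ⟨K, hK, hKW⟩ := S'.frontier i
  have hsplit : W' i ∈ map h (F x) ∨ (W' i)ᶜ ∈ map h (F x) := by
    obtain ⟨A, hA, hAB, hAc⟩ := S.conn x (h ⁻¹' Kᶜ) (haway K hK)
    have hA' : h '' A ∈ map h (F x) := image_mem_map hA
    have hAc' : IsPreconnected (h '' A) := hAc.image _ h.continuous.continuousOn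
    have hd : h '' A ∩ _root_.frontier (W' i) = ∅ := by
      rw [Set.eq_empty_iff_forall_notMem]
      rintro _ ⟨⟨a, ha, rfl⟩, hf⟩
      exact hAB ha (hKW hf)
    rcases subset_or_subset_compl hAc' hd with h1 | h1
    · exact Or.inl (mem_of_superset hA' h1)
    · exact Or.inr (mem_of_superset hA' h1)
  -- both ultrafilters refine the image filter
  have hu1 : ∀ C, C ∈ map h (F x) → C ∈ Ultrafilter.of (map h (F x)) :=
    fun C hC => Ultrafilter.of_le _ hC
  have hu2 : ∀ C, C ∈ map h (F x) → C ∈ Ultrafilter.of (map h (F x) ⊓ 𝓟 Bᶜ) :=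
    fun C hC => Ultrafilter.of_le _ (mem_inf_of_left hC)
  apply hi
  constructor
  · intro hin
    by_contra hout
    have h1 : W' i ∈ Ultrafilter.of (map h (F x)) := hx' (S'.mem i x' hin)
    have h2 : (W' i)ᶜ ∈ Ultrafilter.of (map h (F x) ⊓ 𝓟 Bᶜ) := hx'' (S'.notMem i x'' hout)
    rcases hsplit with h3 | h3
    · exact Ultrafilter.compl_mem_iff_notMem.mp h2 (hu2 _ h3)
    · exact Ultrafilter.compl_mem_iff_notMem.mp (hu1 _ h3) h1
  · intro hin
    by_contra hout
    have h1 : (W' i)ᶜ ∈ Ultrafilter.of (map h (F x)) := hx' (S'.notMem i x' hout)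
    have h2 : W' i ∈ Ultrafilter.of (map h (F x) ⊓ 𝓟 Bᶜ) := hx'' (S'.mem i x'' hin)
    rcases hsplit with h3 | h3
    · exact Ultrafilter.compl_mem_iff_notMem.mp h1 (hu1 _ h3)
    · exact Ultrafilter.compl_mem_iff_notMem.mp (hu2 _ h3) h2

theorem IsEndSystem.eq_of_le (S : IsEndSystem F O W) {x y : E} (h : F x ≤ F y) : x = y := by
  by_contra hne
  obtain ⟨i, hi⟩ := S.sep x y hne
  have := S.neBot x
  apply hi
  constructor
  · intro hin
    by_contra hout
    have h1 := S.mem i x hin
    have h2 := h (S.notMem i y hout)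
    exact (this.ne (Filter.empty_mem_iff_bot.mp (by simpa using Filter.inter_mem h1 h2)))
  · intro hin
    by_contra hout
    have h1 := S.notMem i x hout
    have h2 := h (S.mem i y hin)
    exact (this.ne (Filter.empty_mem_iff_bot.mp (by simpa using Filter.inter_mem h1 h2)))

theorem IsEndSystem.continuous_of (S : IsEndSystem F O W) (S' : IsEndSystem F' O' W')
    (h : M ≃ₜ M') (g : E → E') (hg : ∀ x, map h (F x) ≤ F' (g x)) : Continuous g := by
  have key : ∀ (x : E) (C : Set M'), C ∈ F' (g x) → ∀ᶠ y in 𝓝 x, C ∈ map h (F y) := by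
    intro x C hC
    exact S.cont x _ (hg x hC)
  rw [S'.top, continuous_generateFrom_iff]
  rintro U ⟨i, rfl | rfl⟩
  · rw [isOpen_iff_mem_nhds]
    intro x hx
    filter_upwards [key x _ (S'.mem i _ hx)] with y hy
    by_contra hout
    have h1 := hg y (S'.notMem i _ hout)
    have := S.neBot y
    exact (this.map h).ne (Filter.empty_mem_iff_bot.mp (by simpa using Filter.inter_mem hy h1))
  · rw [isOpen_iff_mem_nhds]
    intro x hx
    filter_upwards [key x _ (S'.notMem i _ hx)] with y hy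
    intro hin
    have h1 := hg y (S'.mem i _ hin)
    have := S.neBot y
    exact (this.map h).ne (Filter.empty_mem_iff_bot.mp (by simpa using Filter.inter_mem hy h1))

/-- Homeomorphic spaces have homeomorphic spaces of ends. -/
theorem IsEndSystem.homeo (S : IsEndSystem F O W) (S' : IsEndSystem F' O' W') (h : M ≃ₜ M') :
    Nonempty (E ≃ₜ E') := by
  choose g hg using S.exists_image S' h
  choose g' hg' using S'.exists_image S h.symm
  have hgg : ∀ x, g' (g x) = x := by
    intro x
    symm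
    apply S.eq_of_le
    have h1 := Filter.map_mono (m := h.symm) (hg x)
    rw [Filter.map_map] at h1
    have h2 : (h.symm ∘ h : M → M) = id := by ext z; simp
    rw [h2, Filter.map_id] at h1
    exact h1.trans (hg' (g x))
  have hgg' : ∀ x, g (g' x) = x := by
    intro x
    symm
    apply S'.eq_of_le
    have h1 := Filter.map_mono (m := h) (hg' x)
    rw [Filter.map_map] at h1
    have h2 : (h ∘ h.symm : M' → M') = id := by ext z; simp
    rw [h2, Filter.map_id] at h1
    exact h1.trans (hg (g' x))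
  exact ⟨⟨⟨g, g', hgg, hgg'⟩, S.continuous_of S' h g hg, S'.continuous_of S h.symm g' hg'⟩⟩

end

end Pool.Agent.BorelManifold
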