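import Pool.Agent.Lib.BorelManifold.TreeSpec

/-!
# Part D: definitions

Nodes are lists of natural numbers, LAST coordinate first: the children of `s` are `j :: s`.
-/

namespace Pool.Agent.BorelManifold

open Set Topology
open scoped ContDiff

/-! ## Geometry: the open subset `NT T` of `ℝ^(k+2)` -/

variable {k : ℕ}

/-- The centre `3 (j+1) e₁` of the `j`-th hole. -/
noncomputable def ctr (k : ℕ) (j : ℕ) : Eu (k + 2) :=
  EuclideanSpace.single (0 : Fin (k + 2)) (3 * ((j : ℝ) + 1))

/-- `tau j y = ctr j + y / ‖y‖²`: maps `{‖y‖ > 1}` onto the punctured unit ball at `ctr j`. -/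
noncomputable def tau (j : ℕ) (y : Eu (k + 2)) : Eu (k + 2) :=
  ctr k j + (‖y‖ ^ 2)⁻¹ • y

/-- Its inverse: `sig j x = (x - ctr j) / ‖x - ctr j‖²`. -/
noncomputable def sig (j : ℕ) (x : Eu (k + 2)) : Eu (k + 2) :=
  (‖x - ctr k j‖ ^ 2)⁻¹ • (x - ctr k j)

/-- The coordinate map of the node `s`. -/
noncomputable def iota : List ℕ → Eu (k + 2) → Eu (k + 2)
  | [], y => y
  | j :: s, y => iota s (tau j y)

/-- The piece of the node `s`, in the coordinates of `s`: outside the unit ball (except for the
root) and outside the unit balls around the centres of the live children. -/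
def pieceSet (T : Set (List ℕ)) (s : List ℕ) : Set (Eu (k + 2)) :=
  {z | (s = [] ∨ 1 < ‖z‖) ∧ ∀ j, j :: s ∈ T → z ∉ Metric.ball (ctr k j) 1}

/-- The open set `NT T ⊆ ℝ^(k+2)`: the union of the pieces of the nodes in `T`. -/
def NT (k : ℕ) (T : Set (List ℕ)) : Set (Eu (k + 2)) :=
  {x | ∃ s ∈ T, ∃ z ∈ (pieceSet T s : Set (Eu (k + 2))), iota s z = x}

/-- `T` is a tree containing the root. -/
def IsTree (T : Set (List ℕ)) : Prop := [] ∈ T ∧ ∀ j s, j :: s ∈ T → s ∈ T

/-- `Φ` is an automorphism of the full tree of finite sequences. -/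
def IsTreeAut (Φ : List ℕ ≃ List ℕ) : Prop := Φ [] = [] ∧ ∀ s j, ∃ j', Φ (j :: s) = j' :: Φ s

/-! ## The space of ends -/

/-- The initial segment of length `n` of an infinite sequence, last coordinate first. -/
def pref (b : ℕ → ℕ) : ℕ → List ℕ
  | 0 => []
  | n + 1 => b n :: pref b n

/-- Points of the end space of the tree `T`: nodes and infinite branches. -/
def EndPt (T : Set (List ℕ)) : Type :=
  {x : List ℕ ⊕ (ℕ → ℕ) // (∀ s, x = Sum.inl s → s ∈ T) ∧ ∀ b, x = Sum.inr b → ∀ n, pref b n ∈ T}

/-- The points in the subtree of the node `s`. -/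
def cone (T : Set (List ℕ)) (s : List ℕ) : Set (EndPt T) :=
  {x | (∃ t, x.1 = Sum.inl (t ++ s)) ∨ ∃ b, x.1 = Sum.inr b ∧ pref b s.length = s}

/-- The topology of the end space: all cones are clopen. -/
instance (T : Set (List ℕ)) : TopologicalSpace (EndPt T) :=
  TopologicalSpace.generateFrom {U | ∃ s ∈ T, U = cone T s ∨ U = (cone T s)ᶜ}

/-! ## The tree coding a labelled tree -/

/-- States of the coding: real nodes (with a node of the labelled tree) and markers. -/
inductive CState where
  | real (s : List ℕ) : CState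
  | q (k : ℕ) : CState
  | o (k : ℕ) : CState
  | full : CState

/-- The state of the `j`-th child; `none` means that there is no such child. -/
def CState.child (lam : LTree) : CState → ℕ → Option CState
  | .real s, j =>
    if j % 3 = 0 then (if (lam ((j / 3) :: s)).isSome then some (.real ((j / 3) :: s)) else none)
    else if j % 3 = 1 then (lam s).map .q
    else none
  | .q k, j => if j % 2 = 0 then some (.o k) else some .full
  | .o 0, _ => none
  | .o (k + 1), _ => some (.o k)
  | .full, _ => some .full

/-- The state of a node of the coding tree. -/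
def cstate (lam : LTree) : List ℕ → Option CState
  | [] => some (.real [])
  | j :: l => (cstate lam l).bind fun σ => σ.child lam j

/-- The tree coding the labelled tree `lam`. -/
def codeTree (lam : LTree) : Set (List ℕ) := {l | (cstate lam l).isSome}

/-! ## The three statements to prove -/

/-- (J3) Combinatorial topology: the labelled tree can be recovered, up to weak isomorphism, from
the end space of its coding tree. -/
def StatementJ3 : Prop :=
  ∀ lam lam' : LTree, lam.Valid → lam'.Valid →
    Nonempty (EndPt (codeTree lam) ≃ₜ EndPt (codeTree lam')) → lam.WeakIso lam'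

/-- (J2) The end space is determined by the homeomorphism type of `NT T`. -/
def StatementJ2 (k : ℕ) : Prop :=
  ∀ T T' : Set (List ℕ), IsTree T → IsTree T' →
    Nonempty (NT k T ≃ₜ NT k T') → Nonempty (EndPt T ≃ₜ EndPt T')

/-- (J1) Geometry: `NT T` is properly embedded as a closed submanifold of `ℝ^N`, measurably
in `T`; tree automorphisms induce diffeomorphisms. -/
def StatementJ1 (k N : ℕ) : Prop :=
  ∃ 𝒩 : Set (List ℕ) → ManifoldSpace (k + 2) N,
    (∀ (Ω : Type) [MeasurableSpace Ω] (L : Ω → Set (List ℕ)), (∀ w, IsTree (L w)) →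
      (∀ s, MeasurableSet {w | s ∈ L w}) → Measurable fun w => 𝒩 (L w)) ∧
    (∀ T, IsTree T → Nonempty ((𝒩 T).1 ≃ₜ NT k T)) ∧
    (∀ (T : Set (List ℕ)) (Φ : List ℕ ≃ List ℕ), IsTree T → IsTreeAut Φ →
      Diffeomorphic (𝒩 T) (𝒩 (Φ '' T)))

end Pool.Agent.BorelManifold
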