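import Mathlib
import Pool.Agent.Lib.BorelManifold.TreeDefs

/-!
# Part D: basic facts on the coordinate maps and on the open sets `NT k T`
-/

namespace Pool.Agent.BorelManifold

open Set Topology

variable {k : ℕ}

/-- the subtree of `T` at `s` -/
def subT (T : Set (List ℕ)) (s : List ℕ) : Set (List ℕ) := {t | t ++ s ∈ T}

theorem subT_nil (T : Set (List ℕ)) : subT T [] = T := by
  ext t; simp [subT]

theorem subT_subT (T : Set (List ℕ)) (s t : List ℕ) : subT (subT T s) t = subT T (t ++ s) := by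
  ext u; simp [subT]

theorem IsTree.suffix_j {T : Set (List ℕ)} (hT : IsTree T) {t s : List ℕ} (h : t ++ s ∈ T) :
    s ∈ T := by
  induction t with
  | nil => exact h
  | cons j t ih => exact ih (hT.2 j _ h)

theorem IsTree.subT {T : Set (List ℕ)} (hT : IsTree T) {s : List ℕ} (hs : s ∈ T) :
    IsTree (subT T s) :=
  ⟨hs, fun j t h => hT.2 j (t ++ s) h⟩

/-! ### The maps `tau` and `sig` -/

theorem norm_ctr_j (j : ℕ) : ‖ctr k j‖ = 3 * ((j : ℝ) + 1) := by
  unfold ctr
  rw [PiLp.norm_single, Real.norm_of_nonneg (by positivity)]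

theorem ctr_sub (i j : ℕ) : ctr k i - ctr k j =
    EuclideanSpace.single (0 : Fin (k + 2)) (3 * ((i : ℝ) - j)) := by
  unfold ctr
  ext l
  by_cases hl : l = 0
  · subst hl; simp; ring
  · simp [hl]

theorem dist_ctr {i j : ℕ} (h : i ≠ j) : 3 ≤ ‖ctr k i - ctr k j‖ := by
  rw [ctr_sub, PiLp.norm_single, Real.norm_eq_abs, abs_mul, abs_of_pos (by norm_num : (0:ℝ) < 3)]
  have : (1 : ℝ) ≤ |(i : ℝ) - j| := by
    have h1 : (1 : ℤ) ≤ |(i : ℤ) - j| := by
      apply Int.one_le_abs
      omega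
    exact_mod_cast h1
  linarith

theorem norm_inv_smul {E : Type*} [NormedAddCommGroup E] [NormedSpace ℝ E] (y : E) :
    ‖(‖y‖ ^ 2)⁻¹ • y‖ = ‖y‖⁻¹ := by
  rw [norm_smul, norm_inv, norm_pow, norm_norm]
  by_cases hy : ‖y‖ = 0
  · simp [hy]
  · field_simp

theorem inv_inv_smul {E : Type*} [NormedAddCommGroup E] [NormedSpace ℝ E] {y : E} (hy : y ≠ 0) :
    (‖(‖y‖ ^ 2)⁻¹ • y‖ ^ 2)⁻¹ • ((‖y‖ ^ 2)⁻¹ • y) = y := by
  rw [norm_inv_smul, smul_smul]
  have : ‖y‖ ≠ 0 := norm_ne_zero_iff.mpr hy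
  have h : ((‖y‖⁻¹ ^ 2)⁻¹ * (‖y‖ ^ 2)⁻¹) = 1 := by field_simp
  rw [h, one_smul]

theorem tau_sub (j : ℕ) (y : Eu (k + 2)) : tau j y - ctr k j = (‖y‖ ^ 2)⁻¹ • y := by
  unfold tau; abel

theorem norm_tau_sub_j (j : ℕ) (y : Eu (k + 2)) : ‖tau j y - ctr k j‖ = ‖y‖⁻¹ := by
  rw [tau_sub, norm_inv_smul]

theorem norm_sig_j (j : ℕ) (x : Eu (k + 2)) : ‖sig j x‖ = ‖x - ctr k j‖⁻¹ := by
  unfold sig; rw [norm_inv_smul]

theorem sig_tau_j (j : ℕ) {y : Eu (k + 2)} (hy : y ≠ 0) : sig j (tau j y) = y := by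
  unfold sig
  rw [tau_sub, inv_inv_smul hy]

theorem tau_sig_j (j : ℕ) {x : Eu (k + 2)} (hx : x ≠ ctr k j) : tau j (sig j x) = x := by
  unfold tau sig
  rw [inv_inv_smul (sub_ne_zero.mpr hx)]
  abel

theorem ne_zero_of_one_le {y : Eu (k + 2)} (h : 1 ≤ ‖y‖) : y ≠ 0 := by
  rintro rfl
  simp at h
  linarith

theorem tau_mem_ball (j : ℕ) {y : Eu (k + 2)} (h : 1 < ‖y‖) : tau j y ∈ Metric.ball (ctr k j) 1 := by
  rw [Metric.mem_ball, dist_eq_norm, norm_tau_sub_j]
  exact inv_lt_one_of_one_lt₀ h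

theorem norm_ge_of_mem_ball {j : ℕ} {x : Eu (k + 2)} (h : ‖x - ctr k j‖ ≤ 1) :
    3 * (j : ℝ) + 2 ≤ ‖x‖ := by
  have h1 := norm_sub_norm_le (ctr k j) x
  rw [norm_sub_rev, norm_ctr_j] at h1
  linarith

theorem norm_le_of_mem_ball {j : ℕ} {x : Eu (k + 2)} (h : ‖x - ctr k j‖ ≤ 1) :
    ‖x‖ ≤ 3 * (j : ℝ) + 4 := by
  have h1 := norm_sub_norm_le x (ctr k j)
  rw [norm_ctr_j] at h1
  linarith

theorem norm_tau_ge (j : ℕ) {y : Eu (k + 2)} (h : 1 ≤ ‖y‖) : 3 * (j : ℝ) + 2 ≤ ‖tau j y‖ := by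
  apply norm_ge_of_mem_ball
  rw [norm_tau_sub_j]
  exact inv_le_one_of_one_le₀ h

theorem two_le_norm_tau (j : ℕ) {y : Eu (k + 2)} (h : 1 ≤ ‖y‖) : 2 ≤ ‖tau j y‖ := by
  have := norm_tau_ge j h
  have h2 : (0 : ℝ) ≤ j := Nat.cast_nonneg j
  linarith

theorem ball_disj {i j : ℕ} {x : Eu (k + 2)} (h1 : x ∈ Metric.ball (ctr k i) 1)
    (h2 : ‖x - ctr k j‖ ≤ 1) : i = j := by
  by_contra hne
  have h3 := dist_ctr (k := k) hne
  rw [Metric.mem_ball, dist_eq_norm] at h1
  have h4 : ‖ctr k i - ctr k j‖ ≤ ‖x - ctr k i‖ + ‖x - ctr k j‖ := by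
    have : ctr k i - ctr k j = -(x - ctr k i) + (x - ctr k j) := by abel
    rw [this]
    exact (norm_add_le _ _).trans (by rw [norm_neg])
  linarith

theorem tau_continuousOn (j : ℕ) : ContinuousOn (tau j : Eu (k + 2) → Eu (k + 2)) {y | y ≠ 0} := by
  have h1 : ContinuousOn (fun y : Eu (k + 2) => (‖y‖ ^ 2)⁻¹) {y | y ≠ 0} := by
    apply ContinuousOn.inv₀ (by fun_prop)
    intro y hy
    exact pow_ne_zero _ (norm_ne_zero_iff.mpr hy)
  exact continuousOn_const.add (h1.smul continuousOn_id)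

theorem sig_continuousOn (j : ℕ) :
    ContinuousOn (sig j : Eu (k + 2) → Eu (k + 2)) {x | x ≠ ctr k j} := by
  have h1 : ContinuousOn (fun y : Eu (k + 2) => (‖y - ctr k j‖ ^ 2)⁻¹) {x | x ≠ ctr k j} := by
    apply ContinuousOn.inv₀ (by fun_prop)
    intro y hy
    exact pow_ne_zero _ (norm_ne_zero_iff.mpr (sub_ne_zero.mpr hy))
  exact h1.smul (by fun_prop)

theorem tau_inj {i j : ℕ} {y z : Eu (k + 2)} (hy : 1 < ‖y‖) (hz : 1 ≤ ‖z‖)
    (h : tau i y = tau j z) : i = j ∧ y = z := by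
  have hij : i = j := by
    apply ball_disj (tau_mem_ball i hy)
    rw [h, norm_tau_sub_j]
    exact inv_le_one_of_one_le₀ hz
  subst hij
  refine ⟨rfl, ?_⟩
  rw [← sig_tau_j i (ne_zero_of_one_le hy.le), h, sig_tau_j i (ne_zero_of_one_le hz)]

/-! ### The maps `iota` -/

theorem iota_append (t s : List ℕ) (y : Eu (k + 2)) : iota (t ++ s) y = iota s (iota t y) := by
  induction t generalizing y with
  | nil => rfl
  | cons j t ih => exact ih (tau j y)

theorem iota_concat (s : List ℕ) (j : ℕ) (y : Eu (k + 2)) :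
    iota (s ++ [j]) y = tau j (iota s y) := iota_append s [j] y

theorem two_le_norm_iota {s : List ℕ} (hs : s ≠ []) {y : Eu (k + 2)} (h : 1 ≤ ‖y‖) :
    2 ≤ ‖iota s y‖ := by
  induction s generalizing y with
  | nil => exact absurd rfl hs
  | cons j s ih =>
    show 2 ≤ ‖iota s (tau j y)‖
    have h2 := two_le_norm_tau j h
    cases s with
    | nil => exact h2
    | cons i s => exact ih (by simp) (by linarith)

theorem one_le_norm_iota (s : List ℕ) {y : Eu (k + 2)} (h : 1 ≤ ‖y‖) : 1 ≤ ‖iota s y‖ := by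
  cases s with
  | nil => exact h
  | cons j s => have := two_le_norm_iota (s := j :: s) (by simp) h; linarith

theorem one_lt_norm_iota (s : List ℕ) {y : Eu (k + 2)} (h : 1 < ‖y‖) : 1 < ‖iota s y‖ := by
  cases s with
  | nil => exact h
  | cons j s => have := two_le_norm_iota (s := j :: s) (by simp) h.le; linarith

theorem iota_inj (s : List ℕ) {y z : Eu (k + 2)} (hy : 1 ≤ ‖y‖) (hz : 1 ≤ ‖z‖)
    (h : iota s y = iota s z) : y = z := by
  induction s generalizing y z with
  | nil => exact h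
  | cons j s ih =>
    have h1 := ih (by have := two_le_norm_tau j hy; linarith)
      (by have := two_le_norm_tau j hz; linarith) h
    rw [← sig_tau_j j (ne_zero_of_one_le hy), h1, sig_tau_j j (ne_zero_of_one_le hz)]

theorem iota_continuousOn (s : List ℕ) :
    ContinuousOn (iota s : Eu (k + 2) → Eu (k + 2)) {y | 1 ≤ ‖y‖} := by
  induction s with
  | nil => exact continuousOn_id
  | cons j s ih =>
    show ContinuousOn (fun y => iota s (tau j y)) {y : Eu (k + 2) | 1 ≤ ‖y‖}
    apply ih.comp ((tau_continuousOn j).mono fun y hy => ne_zero_of_one_le hy)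
    intro y hy
    have := two_le_norm_tau j (show 1 ≤ ‖y‖ from hy)
    show 1 ≤ ‖tau j y‖
    linarith

theorem tau_image_open (j : ℕ) {U : Set (Eu (k + 2))} (hU : IsOpen U) (h0 : ∀ y ∈ U, 1 < ‖y‖) :
    IsOpen (tau j '' U) := by
  have h : tau j '' U = {x | x ≠ ctr k j} ∩ sig j ⁻¹' U := by
    ext x
    constructor
    · rintro ⟨y, hy, rfl⟩
      have hy0 := ne_zero_of_one_le (h0 y hy).le
      refine ⟨?_, ?_⟩
      · show tau j y ≠ ctr k j
        intro he
        have h1 := norm_tau_sub_j j y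
        rw [he, sub_self, norm_zero] at h1
        have h2 : ‖y‖ ≠ 0 := norm_ne_zero_iff.mpr hy0
        exact (inv_ne_zero h2) h1.symm
      · show sig j (tau j y) ∈ U
        rw [sig_tau_j j hy0]; exact hy
    · rintro ⟨h1, h2⟩
      exact ⟨sig j x, h2, tau_sig_j j h1⟩
  rw [h]
  exact (sig_continuousOn j).isOpen_inter_preimage isOpen_ne hU

theorem iota_image_open (s : List ℕ) {U : Set (Eu (k + 2))} (hU : IsOpen U)
    (h0 : ∀ y ∈ U, 1 < ‖y‖) : IsOpen (iota s '' U) := by
  induction s generalizing U with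
  | nil => simpa [iota] using hU
  | cons j s ih =>
    have h : iota (j :: s) '' U = iota s '' (tau j '' U) := by
      rw [Set.image_image]; rfl
    rw [h]
    apply ih (tau_image_open j hU h0)
    rintro _ ⟨y, hy, rfl⟩
    have := two_le_norm_tau j (h0 y hy).le
    linarith

/-- comparison of coordinates -/
theorem iota_cmp (s t : List ℕ) {z w : Eu (k + 2)} (hz : 1 < ‖z‖) (hw : 1 ≤ ‖w‖)
    (h : iota t z = iota s w) :
    (∃ u, t = u ++ s ∧ iota u z = w) ∨ ∃ u, s = u ++ t ∧ z = iota u w := by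
  induction s using List.reverseRecOn generalizing t with
  | nil => exact Or.inl ⟨t, by simp, h⟩
  | append_singleton s j ih =>
    induction t using List.reverseRecOn with
    | nil => exact Or.inr ⟨s ++ [j], by simp, h⟩
    | append_singleton t i _ =>
      rw [iota_concat, iota_concat] at h
      obtain ⟨hij, h'⟩ := tau_inj (one_lt_norm_iota t hz) (one_le_norm_iota s hw) h
      subst hij
      rcases ih t h' with ⟨u, hu, hu'⟩ | ⟨u, hu, hu'⟩
      · exact Or.inl ⟨u, by rw [hu, List.append_assoc], hu'⟩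
      · exact Or.inr ⟨u, by rw [hu, List.append_assoc], hu'⟩

/-! ### The sets `NT` -/

theorem mem_NT_of_piece {T : Set (List ℕ)} {s : List ℕ} (hs : s ∈ T) {z : Eu (k + 2)}
    (hz : z ∈ pieceSet T s) : iota s z ∈ NT k T := ⟨s, hs, z, hz, rfl⟩

/-- membership in `NT` in the coordinates of a child of the root -/
theorem tau_mem_NT {T : Set (List ℕ)} {j : ℕ} (hj : [j] ∈ T) {z : Eu (k + 2)}
    (hz : 1 < ‖z‖) : tau j z ∈ NT k T ↔ z ∈ NT k (subT T [j]) := by
  constructor
  · rintro ⟨s, hs, w, hw, he⟩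
    induction s using List.reverseRecOn with
    | nil =>
      exfalso
      have he' : w = tau j z := he
      exact hw.2 j hj (he' ▸ tau_mem_ball j hz)
    | append_singleton s i _ =>
      rw [iota_concat] at he
      have hw1 : 1 < ‖w‖ := by
        rcases hw.1 with h | h
        · simp at h
        · exact h
      obtain ⟨hij, he'⟩ := tau_inj (one_lt_norm_iota s hw1) hz.le he
      subst hij
      refine ⟨s, hs, w, ⟨Or.inr hw1, ?_⟩, he'⟩
      intro j' hj'
      apply hw.2 j'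
      exact hj'
  · rintro ⟨s, hs, w, hw, rfl⟩
    rw [← iota_concat]
    refine mem_NT_of_piece (T := T) (s := s ++ [j]) hs ⟨Or.inr ?_, ?_⟩
    · rcases hw.1 with h | h
      · subst h; exact hz
      · exact h
    · intro j' hj'
      exact hw.2 j' hj'

/-- membership in `NT` in the coordinates of the node `s` -/
theorem iota_mem_NT {T : Set (List ℕ)} (hT : IsTree T) {s : List ℕ} (hs : s ∈ T)
    {z : Eu (k + 2)} (hz : s = [] ∨ 1 < ‖z‖) : iota s z ∈ NT k T ↔ z ∈ NT k (subT T s) := by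
  induction s using List.reverseRecOn generalizing T with
  | nil => rw [subT_nil]; rfl
  | append_singleton s j ih =>
    have hz1 : 1 < ‖z‖ := by
      rcases hz with h | h
      · simp at h
      · exact h
    have hj : [j] ∈ T := hT.suffix_j hs
    rw [iota_concat, tau_mem_NT hj (one_lt_norm_iota s hz1), ih (hT.subT hj) hs (Or.inr hz1),
      subT_subT]

theorem ctr_notMem_NT {T : Set (List ℕ)} {j : ℕ} (hj : [j] ∈ T) : ctr k j ∉ NT k T := by
  rintro ⟨s, hs, w, hw, he⟩
  induction s using List.reverseRecOn with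
  | nil =>
    have he' : w = ctr k j := he
    exact hw.2 j hj (he' ▸ Metric.mem_ball_self one_pos)
  | append_singleton s i _ =>
    rw [iota_concat] at he
    have hw1 : 1 < ‖w‖ := by
      rcases hw.1 with h | h
      · simp at h
      · exact h
    have h1 := tau_mem_ball i (one_lt_norm_iota s hw1)
    have hij : i = j := ball_disj h1 (by rw [he]; simp)
    subst hij
    have h2 := norm_tau_sub_j i (iota s w)
    rw [he, sub_self, norm_zero] at h2
    have h3 := one_lt_norm_iota s hw1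
    exact (inv_ne_zero (by linarith : ‖iota s w‖ ≠ 0)) h2.symm

theorem iota_ctr_notMem_NT {T : Set (List ℕ)} (hT : IsTree T) {s : List ℕ} {j : ℕ}
    (hs : j :: s ∈ T) : iota s (ctr k j) ∉ NT k T := by
  have hs' : s ∈ T := hT.2 j s hs
  rw [iota_mem_NT hT hs' (Or.inr (by rw [norm_ctr_j]; have : (0:ℝ) ≤ j := Nat.cast_nonneg j; linarith))]
  exact ctr_notMem_NT hs

/-- points outside the open unit balls of the live children of the root -/
theorem mem_NT_root {T : Set (List ℕ)} (hT : IsTree T) {z : Eu (k + 2)}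
    (hz : ∀ j, [j] ∈ T → z ∉ Metric.ball (ctr k j) 1) : z ∈ NT k T :=
  mem_NT_of_piece (s := []) hT.1 ⟨Or.inl rfl, hz⟩

/-- the closed pieces are contained in `NT` -/
theorem closedPiece_mem_NT {T : Set (List ℕ)} (hT : IsTree T) {s : List ℕ} (hs : s ∈ T)
    {z : Eu (k + 2)} (h1 : 1 ≤ ‖z‖) (h2 : ∀ j, j :: s ∈ T → z ∉ Metric.ball (ctr k j) 1) :
    iota s z ∈ NT k T := by
  rcases h1.eq_or_lt with h | h
  · cases s with
    | nil => exact mem_NT_root hT h2
    | cons j s =>
      have hs' : s ∈ T := hT.2 j s hs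
      have h3 := two_le_norm_tau j h.le
      show iota s (tau j z) ∈ NT k T
      rw [iota_mem_NT hT hs' (Or.inr (by linarith))]
      apply mem_NT_root (hT.subT hs')
      intro i _ hi
      have hij : i = j := ball_disj hi (by rw [norm_tau_sub_j, ← h]; norm_num)
      subst hij
      rw [Metric.mem_ball, dist_eq_norm, norm_tau_sub_j, ← h] at hi
      norm_num at hi
  · exact mem_NT_of_piece hs ⟨Or.inr h, h2⟩

theorem coord_le_norm (z : Eu (k + 2)) (i : Fin (k + 2)) : |z i| ≤ ‖z‖ := by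
  have := EuclideanSpace.norm_eq z
  rw [this]
  apply Real.abs_le_sqrt
  have h2 : z i ^ 2 = ‖z i‖ ^ 2 := by rw [Real.norm_eq_abs, sq_abs]
  rw [h2]
  exact Finset.single_le_sum (f := fun i => ‖z i‖ ^ 2) (fun i _ => by positivity) (Finset.mem_univ i)

theorem ctr_one_j (j : ℕ) : ctr k j 1 = 0 := by
  unfold ctr
  simp

/-- points off the axis belong to `NT` -/
theorem mem_NT_of_coord {T : Set (List ℕ)} (hT : IsTree T) {z : Eu (k + 2)} (hz : z 1 ≠ 0) :
    z ∈ NT k T := by
  have key : ∀ n : ℕ, ∀ T : Set (List ℕ), IsTree T → ∀ z : Eu (k + 2), 1 ≤ |z 1| * 4 ^ n →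
      z ∈ NT k T := by
    intro n
    induction n with
    | zero =>
      intro T hT z hz
      apply mem_NT_root hT
      intro j _ hj
      rw [Metric.mem_ball, dist_eq_norm] at hj
      have h1 := coord_le_norm (z - ctr k j) 1
      have h2 : (z - ctr k j) 1 = z 1 := by
        rw [PiLp.sub_apply, ctr_one_j, sub_zero]
      rw [h2] at h1
      simp at hz
      linarith
    | succ n ih =>
      intro T hT z hz
      by_cases h : ∀ j, [j] ∈ T → z ∉ Metric.ball (ctr k j) 1
      · exact mem_NT_root hT h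
      · push Not at h
        obtain ⟨j, hj, hzj⟩ := h
        rw [Metric.mem_ball, dist_eq_norm] at hzj
        have hz1 : 0 < |z 1| := by
          by_contra h0
          have : |z 1| = 0 := le_antisymm (not_lt.mp h0) (abs_nonneg _)
          rw [this, zero_mul] at hz
          linarith
        have hne : z ≠ ctr k j := by
          intro he
          rw [he, ctr_one_j, abs_zero] at hz1
          exact lt_irrefl _ hz1
        have hpos : 0 < ‖z - ctr k j‖ := norm_pos_iff.mpr (sub_ne_zero.mpr hne)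
        have hs1 : 1 < ‖sig j z‖ := by
          rw [norm_sig_j]
          exact (one_lt_inv₀ hpos).mpr hzj
        rw [← tau_sig_j j hne, tau_mem_NT hj hs1]
        by_cases h' : ∀ i, [i] ∈ subT T [j] → sig j z ∉ Metric.ball (ctr k i) 1
        · exact mem_NT_root (hT.subT hj) h'
        · push Not at h'
          obtain ⟨i, hi, hzi⟩ := h'
          apply ih _ (hT.subT hj)
          have h2 : 2 ≤ ‖sig j z‖ := by
            rw [Metric.mem_ball, dist_eq_norm] at hzi
            have := norm_ge_of_mem_ball hzi.le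
            have h0 : (0 : ℝ) ≤ i := Nat.cast_nonneg i
            linarith
          have h3 : (sig j z) 1 = ‖sig j z‖ ^ 2 * z 1 := by
            rw [norm_sig_j]
            unfold sig
            rw [PiLp.smul_apply, PiLp.sub_apply, ctr_one_j, sub_zero, smul_eq_mul, inv_pow]
          rw [h3, abs_mul, abs_of_nonneg (by positivity : (0:ℝ) ≤ ‖sig j z‖ ^ 2)]
          have h4 : (4 : ℝ) ≤ ‖sig j z‖ ^ 2 := by nlinarith
          have h5 : |z 1| * 4 ^ (n + 1) = 4 * (|z 1| * 4 ^ n) := by ring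
          have h6 : ‖sig j z‖ ^ 2 * |z 1| * 4 ^ n = ‖sig j z‖ ^ 2 * (|z 1| * 4 ^ n) := by ring
          rw [h6]
          rw [h5] at hz
          have h7 : 0 ≤ |z 1| * 4 ^ n := by positivity
          nlinarith
  have hz1 : 0 < |z 1| := abs_pos.mpr hz
  obtain ⟨n, hn⟩ := pow_unbounded_of_one_lt (|z 1|⁻¹) (by norm_num : (1 : ℝ) < 4)
  apply key n T hT z
  have : |z 1| * |z 1|⁻¹ ≤ |z 1| * 4 ^ n := mul_le_mul_of_nonneg_left hn.le hz1.le
  rwa [mul_inv_cancel₀ hz1.ne'] at this

end Pool.Agent.BorelManifold
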