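import Mathlib
import Pool.Agent.Lib.BorelManifold.TreeJ2Basic

/-!
# Part D, J2: connectedness of the ends of `NT k T`
-/

namespace Pool.Agent.BorelManifold

open Set Topology

variable {k : ℕ}

theorem coord_continuous (i : Fin (k + 2)) : Continuous fun z : Eu (k + 2) => z i := by
  fun_prop

/-- the upper half of the complement of a ball -/
theorem preconn_upper {R : ℝ} (hR : 0 < R) :
    IsPreconnected {z : Eu (k + 2) | 0 < z 1 ∧ R < ‖z‖} := by
  have h : {z : Eu (k + 2) | 0 < z 1 ∧ R < ‖z‖} =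
      (fun y : Eu (k + 2) => (‖y‖ ^ 2)⁻¹ • y) '' ({y : Eu (k + 2) | 0 < y 1} ∩
        Metric.ball 0 R⁻¹) := by
    ext z
    constructor
    · rintro ⟨h1, h2⟩
      have hz : z ≠ 0 := by rintro rfl; simp at h1
      refine ⟨(‖z‖ ^ 2)⁻¹ • z, ⟨?_, ?_⟩, inv_inv_smul hz⟩
      · show 0 < ((‖z‖ ^ 2)⁻¹ • z) 1
        rw [PiLp.smul_apply, smul_eq_mul]
        have : 0 < ‖z‖ := norm_pos_iff.mpr hz
        positivity
      · rw [mem_ball_zero_iff, norm_inv_smul]
        exact inv_strictAnti₀ hR h2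
    · rintro ⟨y, ⟨h1, h2⟩, rfl⟩
      have hy : y ≠ 0 := by rintro rfl; simp at h1
      have hy' : 0 < ‖y‖ := norm_pos_iff.mpr hy
      refine ⟨?_, ?_⟩
      · show 0 < ((‖y‖ ^ 2)⁻¹ • y) 1
        rw [PiLp.smul_apply, smul_eq_mul]
        have h1' : 0 < y 1 := h1
        positivity
      · show R < ‖(‖y‖ ^ 2)⁻¹ • y‖
        rw [norm_inv_smul]
        rw [mem_ball_zero_iff] at h2
        rw [lt_inv_comm₀ hR hy']
        exact h2
  rw [h]
  apply IsPreconnected.image
  · apply Convex.isPreconnected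
    apply Convex.inter
    · intro x hx y hy a b ha hb hab
      have hx' : 0 < x 1 := hx
      have hy' : 0 < y 1 := hy
      show 0 < (a • x + b • y) 1
      rw [PiLp.add_apply, PiLp.smul_apply, PiLp.smul_apply, smul_eq_mul, smul_eq_mul]
      rcases ha.eq_or_lt with h0 | h0
      · have : b = 1 := by rw [← h0, zero_add] at hab; exact hab
        rw [← h0, this]; simpa using hy'
      · have h1 : 0 ≤ b * y 1 := mul_nonneg hb hy'.le
        have h2 : 0 < a * x 1 := mul_pos h0 hx'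
        linarith
    · exact convex_ball _ _
  · have h1 : ContinuousOn (fun y : Eu (k + 2) => (‖y‖ ^ 2)⁻¹)
        ({y : Eu (k + 2) | 0 < y 1} ∩ Metric.ball 0 R⁻¹) := by
      apply ContinuousOn.inv₀ (by fun_prop)
      rintro y ⟨hy, -⟩
      apply pow_ne_zero
      rw [norm_ne_zero_iff]
      rintro rfl
      simp at hy
    exact h1.smul continuousOn_id

theorem preconn_lower {R : ℝ} (hR : 0 < R) :
    IsPreconnected {z : Eu (k + 2) | z 1 < 0 ∧ R < ‖z‖} := by
  have h : {z : Eu (k + 2) | z 1 < 0 ∧ R < ‖z‖} =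
      (fun y : Eu (k + 2) => -y) '' {z : Eu (k + 2) | 0 < z 1 ∧ R < ‖z‖} := by
    ext z
    constructor
    · rintro ⟨h1, h2⟩
      refine ⟨-z, ⟨?_, ?_⟩, neg_neg z⟩
      · show 0 < (-z) 1
        rw [PiLp.neg_apply]; linarith
      · rwa [norm_neg]
    · rintro ⟨y, ⟨h1, h2⟩, rfl⟩
      refine ⟨?_, ?_⟩
      · show (-y) 1 < 0
        rw [PiLp.neg_apply]; linarith
      · show R < ‖-y‖
        rwa [norm_neg]
  rw [h]
  exact (preconn_upper hR).image _ continuous_neg.continuousOn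

/-- the unit vector in the second direction -/
noncomputable def e2 (k : ℕ) : Eu (k + 2) := EuclideanSpace.single (1 : Fin (k + 2)) 1

/-- the negative axis point -/
noncomputable def negPt (k : ℕ) (R : ℝ) : Eu (k + 2) := EuclideanSpace.single (0 : Fin (k + 2)) (-R)

theorem norm_negPt {R : ℝ} (hR : 0 ≤ R) : ‖negPt k R‖ = R := by
  unfold negPt
  rw [PiLp.norm_single, norm_neg, Real.norm_of_nonneg hR]

theorem negPt_one (R : ℝ) : (negPt k R) 1 = 0 := by
  unfold negPt; simp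

theorem negPt_notMem_ball {R : ℝ} (hR : 0 ≤ R) (j : ℕ) :
    negPt k R ∉ Metric.ball (ctr k j) 1 := by
  rw [Metric.mem_ball, dist_eq_norm]
  have h : negPt k R - ctr k j = EuclideanSpace.single (0 : Fin (k + 2)) (-(R + 3 * ((j : ℝ) + 1))) := by
    unfold negPt ctr
    ext l
    by_cases hl : l = 0
    · subst hl; simp; ring
    · simp [hl]
  rw [h, PiLp.norm_single, norm_neg, Real.norm_of_nonneg (by positivity)]
  have : (0 : ℝ) ≤ j := Nat.cast_nonneg j
  linarith

theorem negPt_mem_NT {T : Set (List ℕ)} (hT : IsTree T) {R : ℝ} (hR : 0 ≤ R) :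
    negPt k R ∈ NT k T := mem_NT_root hT fun j _ => negPt_notMem_ball hR j

theorem mem_closure_upper {R : ℝ} {z : Eu (k + 2)} (hz : 0 ≤ z 1) (hz' : R < ‖z‖) :
    z ∈ closure {z : Eu (k + 2) | 0 < z 1 ∧ R < ‖z‖} := by
  have hc : Continuous fun ε : ℝ => z + ε • e2 k := by fun_prop
  have h0 : Filter.Tendsto (fun ε : ℝ => z + ε • e2 k) (𝓝[>] 0) (𝓝 z) := by
    have := (hc.tendsto 0).mono_left (nhdsWithin_le_nhds (s := Ioi 0))
    simpa using this
  apply mem_closure_of_tendsto h0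
  have h1 : ∀ᶠ ε : ℝ in 𝓝[>] 0, R < ‖z + ε • e2 k‖ :=
    (h0.norm).eventually (lt_mem_nhds hz')
  filter_upwards [h1, self_mem_nhdsWithin] with ε h2 h3
  refine ⟨?_, h2⟩
  show 0 < (z + ε • e2 k) 1
  rw [PiLp.add_apply, PiLp.smul_apply]
  unfold e2
  have h3' : (0 : ℝ) < ε := h3
  simp
  linarith

theorem mem_closure_lower {R : ℝ} {z : Eu (k + 2)} (hz : z 1 ≤ 0) (hz' : R < ‖z‖) :
    z ∈ closure {z : Eu (k + 2) | z 1 < 0 ∧ R < ‖z‖} := by
  have hc : Continuous fun ε : ℝ => z - ε • e2 k := by fun_prop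
  have h0 : Filter.Tendsto (fun ε : ℝ => z - ε • e2 k) (𝓝[>] 0) (𝓝 z) := by
    have := (hc.tendsto 0).mono_left (nhdsWithin_le_nhds (s := Ioi 0))
    simpa using this
  apply mem_closure_of_tendsto h0
  have h1 : ∀ᶠ ε : ℝ in 𝓝[>] 0, R < ‖z - ε • e2 k‖ :=
    (h0.norm).eventually (lt_mem_nhds hz')
  filter_upwards [h1, self_mem_nhdsWithin] with ε h2 h3
  refine ⟨?_, h2⟩
  show (z - ε • e2 k) 1 < 0
  rw [PiLp.sub_apply, PiLp.smul_apply]
  unfold e2
  have h3' : (0 : ℝ) < ε := h3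
  simp
  linarith

/-- the part of `NT k T` outside a ball is connected -/
theorem preconn_outer {T : Set (List ℕ)} (hT : IsTree T) {R : ℝ} (hR : 0 < R) :
    IsPreconnected {z : Eu (k + 2) | z ∈ NT k T ∧ R < ‖z‖} := by
  set U := {z : Eu (k + 2) | 0 < z 1 ∧ R < ‖z‖}
  set L := {z : Eu (k + 2) | z 1 < 0 ∧ R < ‖z‖}
  have hp1 : R < ‖negPt k (R + 1)‖ := by rw [norm_negPt (by linarith)]; linarith
  have hpU : negPt k (R + 1) ∈ closure U := mem_closure_upper (by rw [negPt_one]) hp1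
  have hpL : negPt k (R + 1) ∈ closure L := mem_closure_lower (by rw [negPt_one]) hp1
  have h1 : IsPreconnected (insert (negPt k (R + 1)) U) :=
    (preconn_upper hR).subset_closure (subset_insert _ _)
      (insert_subset hpU subset_closure)
  have h2 : IsPreconnected (insert (negPt k (R + 1)) L) :=
    (preconn_lower hR).subset_closure (subset_insert _ _)
      (insert_subset hpL subset_closure)
  have h3 : IsPreconnected (insert (negPt k (R + 1)) U ∪ insert (negPt k (R + 1)) L) :=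
    IsPreconnected.union (negPt k (R + 1)) (mem_insert _ _) (mem_insert _ _) h1 h2
  apply h3.subset_closure
  · rintro z ((rfl | ⟨h4, h5⟩) | (rfl | ⟨h4, h5⟩))
    · exact ⟨negPt_mem_NT hT (by linarith), hp1⟩
    · exact ⟨mem_NT_of_coord hT h4.ne', h5⟩
    · exact ⟨negPt_mem_NT hT (by linarith), hp1⟩
    · exact ⟨mem_NT_of_coord hT h4.ne, h5⟩
  · rintro z ⟨-, hz⟩
    rcases le_total 0 (z 1) with h4 | h4
    · exact closure_mono (fun y hy => Or.inl (mem_insert_of_mem _ hy)) (mem_closure_upper h4 hz)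
    · exact closure_mono (fun y hy => Or.inr (mem_insert_of_mem _ hy)) (mem_closure_lower h4 hz)

/-- the region of the node `s` beyond the radius `R`, as a subset of `NT k T` -/
def BB (k : ℕ) (T : Set (List ℕ)) (s : List ℕ) (R : ℝ) : Set (NT k T) :=
  {p | ∃ z : Eu (k + 2), R < ‖z‖ ∧ iota s z = p}

theorem BB_image {T : Set (List ℕ)} (hT : IsTree T) {s : List ℕ} (hs : s ∈ T) {R : ℝ}
    (hR : 1 ≤ R) : (Subtype.val '' BB k T s R : Set (Eu (k + 2))) =
      iota s '' {z : Eu (k + 2) | z ∈ NT k (subT T s) ∧ R < ‖z‖} := by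
  ext x
  constructor
  · rintro ⟨p, ⟨z, hz, he⟩, rfl⟩
    refine ⟨z, ⟨?_, hz⟩, he⟩
    rw [← iota_mem_NT hT hs (Or.inr (by linarith)), he]
    exact p.2
  · rintro ⟨z, ⟨h1, h2⟩, rfl⟩
    exact ⟨⟨iota s z, (iota_mem_NT hT hs (Or.inr (by linarith))).mpr h1⟩, ⟨z, h2, rfl⟩, rfl⟩

theorem BB_preconnected {T : Set (List ℕ)} (hT : IsTree T) {s : List ℕ} (hs : s ∈ T) {R : ℝ}
    (hR : 1 ≤ R) : IsPreconnected (BB k T s R) := by
  rw [← IsInducing.subtypeVal.isPreconnected_image, BB_image hT hs hR]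
  apply (preconn_outer (hT.subT hs) (by linarith)).image
  exact (iota_continuousOn s).mono fun z hz => (hR.trans hz.2.le)

theorem BB_nonempty {T : Set (List ℕ)} (hT : IsTree T) {s : List ℕ} (hs : s ∈ T) {R : ℝ}
    (hR : 1 ≤ R) : (BB k T s R).Nonempty := by
  have h1 : 1 < ‖negPt k (R + 1)‖ := by rw [norm_negPt (by linarith)]; linarith
  refine ⟨⟨iota s (negPt k (R + 1)), ?_⟩, negPt k (R + 1), ?_, rfl⟩
  · rw [iota_mem_NT hT hs (Or.inr h1)]
    exact negPt_mem_NT (hT.subT hs) (by linarith)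
  · rw [norm_negPt (by linarith)]; linarith

end Pool.Agent.BorelManifold
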