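import Mathlib
import Pool.Agent.Lib.BorelManifold.TreeJ2Abs
import Pool.Agent.Lib.BorelManifold.TreeJ2Conn

/-!
# Part D, J2: the space of ends of `NT k T`
-/

namespace Pool.Agent.BorelManifold

open Set Topology

variable {k : ℕ} {T : Set (List ℕ)}

/-! ### Initial segments -/

theorem pref_length (b : ℕ → ℕ) (n : ℕ) : (pref b n).length = n := by
  induction n with
  | zero => rfl
  | succ n ih => simp [pref, ih]

theorem pref_add (b : ℕ → ℕ) (n m : ℕ) : ∃ u, pref b (n + m) = u ++ pref b n := by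
  induction m with
  | zero => exact ⟨[], rfl⟩
  | succ m ih =>
    obtain ⟨u, hu⟩ := ih
    exact ⟨b (n + m) :: u, by
      show b (n + m) :: pref b (n + m) = _
      rw [hu]; rfl⟩

theorem pref_le (b : ℕ → ℕ) {n m : ℕ} (h : n ≤ m) : ∃ u, pref b m = u ++ pref b n := by
  obtain ⟨c, rfl⟩ := Nat.exists_eq_add_of_le h
  exact pref_add b n c

theorem eq_pref_of_append {b : ℕ → ℕ} {m : ℕ} {u s : List ℕ} (h : pref b m = u ++ s) :
    pref b s.length = s := by
  have hlen := congrArg List.length h
  rw [pref_length, List.length_append] at hlen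
  obtain ⟨v, hv⟩ := pref_le b (show s.length ≤ m by omega)
  rw [h] at hv
  exact (List.append_inj_right' hv (by rw [pref_length])).symm

/-! ### Cones -/

theorem cone_nil (T : Set (List ℕ)) (x : EndPt T) : x ∈ cone T [] := by
  obtain ⟨x | b, hx⟩ := x
  · exact Or.inl ⟨x, by simp⟩
  · exact Or.inr ⟨b, rfl, rfl⟩

theorem mem_cone_inl {s : List ℕ} {x : EndPt T} {t : List ℕ} (hx : x.1 = Sum.inl t) :
    x ∈ cone T s ↔ ∃ u, t = u ++ s := by
  constructor
  · rintro (⟨u, hu⟩ | ⟨b, hb, -⟩)
    · rw [hx] at hu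
      exact ⟨u, Sum.inl.inj hu⟩
    · rw [hx] at hb
      simp at hb
  · rintro ⟨u, rfl⟩
    exact Or.inl ⟨u, hx⟩

theorem mem_cone_inr {s : List ℕ} {x : EndPt T} {b : ℕ → ℕ} (hx : x.1 = Sum.inr b) :
    x ∈ cone T s ↔ pref b s.length = s := by
  constructor
  · rintro (⟨u, hu⟩ | ⟨b', hb, h⟩)
    · rw [hx] at hu
      simp at hu
    · rw [hx] at hb
      rw [Sum.inr.inj hb]; exact h
  · intro h
    exact Or.inr ⟨b, hx, h⟩

theorem inl_mem (x : EndPt T) {s : List ℕ} (hx : x.1 = Sum.inl s) : s ∈ T := x.2.1 s hx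

theorem inr_mem (x : EndPt T) {b : ℕ → ℕ} (hx : x.1 = Sum.inr b) (n : ℕ) : pref b n ∈ T :=
  x.2.2 b hx n

/-- a point of the cone of `s` other than `s` lies in the cone of a child -/
theorem cone_cases (hT : IsTree T) {s : List ℕ} {x : EndPt T} (hx : x ∈ cone T s) :
    x.1 = Sum.inl s ∨ ∃ j, j :: s ∈ T ∧ x ∈ cone T (j :: s) := by
  rcases hx' : x.1 with t | b
  · rw [mem_cone_inl hx'] at hx
    obtain ⟨u, rfl⟩ := hx
    induction u using List.reverseRecOn with
    | nil => exact Or.inl rfl
    | append_singleton u j _ =>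
      right
      refine ⟨j, ?_, ?_⟩
      · have h1 := inl_mem x hx'
        rw [List.append_assoc] at h1
        exact hT.suffix_j h1
      · rw [mem_cone_inl hx']
        exact ⟨u, by simp⟩
  · right
    rw [mem_cone_inr hx'] at hx
    refine ⟨b s.length, ?_, ?_⟩
    · have := inr_mem x hx' (s.length + 1)
      rw [pref, hx] at this
      exact this
    · rw [mem_cone_inr hx', List.length_cons, pref, hx]

theorem cone_sep (x y : EndPt T) (hxy : x ≠ y) :
    ∃ s ∈ T, ¬ (x ∈ cone T s ↔ y ∈ cone T s) := by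
  have hne : x.1 ≠ y.1 := fun h => hxy (Subtype.ext h)
  rcases hx : x.1 with s | b <;> rcases hy : y.1 with t | c
  · rw [hx, hy] at hne
    have hst : s ≠ t := fun h => hne (by rw [h])
    by_cases h1 : ∃ u, t = u ++ s
    · refine ⟨t, inl_mem y hy, ?_⟩
      rw [mem_cone_inl hx, mem_cone_inl hy]
      intro h
      obtain ⟨v, hv⟩ := h.mpr ⟨[], rfl⟩
      obtain ⟨u, hu⟩ := h1
      have h2 := congrArg List.length hv
      have h3 := congrArg List.length hu
      rw [List.length_append] at h2 h3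
      have h4 : u.length = 0 := by omega
      rw [List.length_eq_zero_iff] at h4
      rw [h4, List.nil_append] at hu
      exact hst hu.symm
    · refine ⟨s, inl_mem x hx, ?_⟩
      rw [mem_cone_inl hx, mem_cone_inl hy]
      intro h
      exact h1 (h.mp ⟨[], rfl⟩)
  · by_cases h1 : pref c s.length = s
    · refine ⟨pref c (s.length + 1), inr_mem y hy _, ?_⟩
      rw [mem_cone_inl hx, mem_cone_inr hy, pref_length]
      intro h
      obtain ⟨u, hu⟩ := h.mpr rfl
      have h2 := congrArg List.length hu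
      rw [List.length_append, pref_length] at h2
      omega
    · refine ⟨s, inl_mem x hx, ?_⟩
      rw [mem_cone_inl hx, mem_cone_inr hy]
      intro h
      exact h1 (h.mp ⟨[], rfl⟩)
  · by_cases h1 : pref b t.length = t
    · refine ⟨pref b (t.length + 1), inr_mem x hx _, ?_⟩
      rw [mem_cone_inr hx, mem_cone_inl hy, pref_length]
      intro h
      obtain ⟨u, hu⟩ := h.mp rfl
      have h2 := congrArg List.length hu
      rw [List.length_append, pref_length] at h2
      omega
    · refine ⟨t, inl_mem y hy, ?_⟩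
      rw [mem_cone_inr hx, mem_cone_inl hy]
      intro h
      exact h1 (h.mpr ⟨[], rfl⟩)
  · rw [hx, hy] at hne
    have hbc : b ≠ c := fun h => hne (by rw [h])
    obtain ⟨n, hn⟩ : ∃ n, b n ≠ c n := by
      by_contra h
      push Not at h
      exact hbc (funext h)
    refine ⟨pref b (n + 1), inr_mem x hx _, ?_⟩
    rw [mem_cone_inr hx, mem_cone_inr hy, pref_length]
    intro h
    have h1 := h.mp rfl
    have h2 : c n :: pref c n = b n :: pref b n := h1
    exact hn (List.cons_eq_cons.mp h2).1.symm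

/-! ### The regions -/

theorem BB_anti {s : List ℕ} {R R' : ℝ} (h : R ≤ R') : BB k T s R' ⊆ BB k T s R := by
  rintro p ⟨z, hz, he⟩
  exact ⟨z, h.trans_lt hz, he⟩

theorem BB_append {s t : List ℕ} : BB k T (t ++ s) 1 ⊆ BB k T s 1 := by
  rintro p ⟨z, hz, he⟩
  exact ⟨iota t z, one_lt_norm_iota t hz, by rw [← iota_append]; exact he⟩

theorem BB_append' {s t : List ℕ} (ht : t ≠ []) : BB k T (t ++ s) 1 ⊆ BB k T s (3 / 2) := by
  rintro p ⟨z, hz, he⟩
  refine ⟨iota t z, ?_, by rw [← iota_append]; exact he⟩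
  have := two_le_norm_iota ht hz.le
  linarith

theorem BB_child {s : List ℕ} {j : ℕ} {R : ℝ} (h : R < 3 * (j : ℝ) + 2) :
    BB k T (j :: s) 1 ⊆ BB k T s R := by
  rintro p ⟨z, hz, he⟩
  exact ⟨tau j z, h.trans_le (norm_tau_ge j hz.le), he⟩

theorem BB_open {s : List ℕ} {R : ℝ} (hR : 1 ≤ R) : IsOpen (BB k T s R) := by
  have h : BB k T s R = Subtype.val ⁻¹' (iota s '' {z : Eu (k + 2) | R < ‖z‖}) := by
    ext p
    constructor
    · rintro ⟨z, hz, he⟩
      exact ⟨z, hz, he⟩
    · rintro ⟨z, hz, he⟩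
      exact ⟨z, hz, he⟩
  rw [h]
  apply IsOpen.preimage continuous_subtype_val
  apply iota_image_open s
  · exact isOpen_lt continuous_const continuous_norm
  · intro y hy
    exact hR.trans_lt hy

/-- the closed regions -/
def GG (k : ℕ) (T : Set (List ℕ)) (s : List ℕ) (R : ℝ) : Set (NT k T) :=
  {p | ∃ z : Eu (k + 2), R ≤ ‖z‖ ∧ iota s z = p}

theorem BB_sub_GG {s : List ℕ} {R : ℝ} : BB k T s R ⊆ GG k T s R := by
  rintro p ⟨z, hz, he⟩
  exact ⟨z, hz.le, he⟩

theorem GG_closed (hT : IsTree T) {s : List ℕ} (hs : s ∈ T) {R : ℝ} (hR : 1 ≤ R) :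
    IsClosed (GG k T s R) := by
  cases s with
  | nil =>
    have h : GG k T [] R = {p : NT k T | R ≤ ‖(p : Eu (k + 2))‖} := by
      ext p
      constructor
      · rintro ⟨z, hz, he⟩
        have he' : z = p := he
        rw [he'] at hz
        exact hz
      · intro h
        exact ⟨p, h, rfl⟩
    rw [h]
    exact isClosed_le continuous_const (continuous_norm.comp continuous_subtype_val)
  | cons j s =>
    have hR0 : 0 < R := by linarith
    have hcomp : IsCompact (iota s '' Metric.closedBall (ctr k j) R⁻¹) := by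
      apply (isCompact_closedBall _ _).image_of_continuousOn
      apply (iota_continuousOn s).mono
      intro z hz
      rw [Metric.mem_closedBall, dist_eq_norm] at hz
      have h1 := norm_ge_of_mem_ball (hz.trans (inv_le_one_of_one_le₀ hR))
      have h2 : (0 : ℝ) ≤ j := Nat.cast_nonneg j
      show 1 ≤ ‖z‖
      linarith
    have h : GG k T (j :: s) R =
        Subtype.val ⁻¹' (iota s '' Metric.closedBall (ctr k j) R⁻¹) := by
      ext p
      constructor
      · rintro ⟨z, hz, he⟩
        refine ⟨tau j z, ?_, he⟩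
        rw [Metric.mem_closedBall, dist_eq_norm, norm_tau_sub_j]
        exact inv_anti₀ hR0 hz
      · rintro ⟨z, hz, he⟩
        rw [Metric.mem_closedBall, dist_eq_norm] at hz
        by_cases hzc : z = ctr k j
        · exfalso
          rw [hzc] at he
          exact iota_ctr_notMem_NT hT hs (he ▸ p.2)
        · refine ⟨sig j z, ?_, ?_⟩
          · rw [norm_sig_j]
            have hpos : 0 < ‖z - ctr k j‖ := norm_pos_iff.mpr (sub_ne_zero.mpr hzc)
            exact (le_inv_comm₀ hR0 hpos).mpr hz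
          · show iota s (tau j (sig j z)) = p
            rw [tau_sig_j j hzc]
            exact he
    rw [h]
    exact hcomp.isClosed.preimage continuous_subtype_val

theorem frontier_BB (hT : IsTree T) {s : List ℕ} (hs : s ∈ T) :
    ∃ K, IsCompact K ∧ frontier (BB k T s 1) ⊆ K := by
  refine ⟨{p : NT k T | ∃ z : Eu (k + 2), ‖z‖ = 1 ∧ iota s z = p}, ?_, ?_⟩
  · rw [Subtype.isCompact_iff]
    have h : (Subtype.val '' {p : NT k T | ∃ z : Eu (k + 2), ‖z‖ = 1 ∧ iota s z = p} :
        Set (Eu (k + 2))) = iota s '' Metric.sphere 0 1 := by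
      ext x
      constructor
      · rintro ⟨p, ⟨z, hz, he⟩, rfl⟩
        exact ⟨z, by simpa using hz, he⟩
      · rintro ⟨z, hz, rfl⟩
        rw [mem_sphere_zero_iff_norm] at hz
        refine ⟨⟨iota s z, ?_⟩, ⟨z, hz, rfl⟩, rfl⟩
        apply closedPiece_mem_NT hT hs hz.ge
        intro j _ hj
        rw [Metric.mem_ball, dist_eq_norm] at hj
        have h1 := norm_ge_of_mem_ball hj.le
        have h2 : (0 : ℝ) ≤ j := Nat.cast_nonneg j
        linarith
    rw [h]
    apply (isCompact_sphere _ _).image_of_continuousOn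
    apply (iota_continuousOn s).mono
    intro z hz
    rw [mem_sphere_zero_iff_norm] at hz
    exact hz.ge
  · intro p hp
    have h1 : p ∈ GG k T s 1 :=
      closure_minimal BB_sub_GG (GG_closed hT hs le_rfl) (frontier_subset_closure hp)
    have h2 : p ∉ BB k T s 1 := by
      rw [(BB_open le_rfl).frontier_eq] at hp
      exact hp.2
    obtain ⟨z, hz, he⟩ := h1
    refine ⟨z, ?_, he⟩
    rcases hz.eq_or_lt with h | h
    · exact h.symm
    · exact absurd ⟨z, h, he⟩ h2

/-! ### The filters -/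

/-- the basic sets of the filter of an end -/
def base (k : ℕ) (T : Set (List ℕ)) (x : EndPt T) (n : ℕ) : Set (NT k T) :=
  match x.1 with
  | Sum.inl s => BB k T s (n + 1)
  | Sum.inr b => BB k T (pref b (n + 1)) 1

theorem base_inl {x : EndPt T} {s : List ℕ} (hx : x.1 = Sum.inl s) (n : ℕ) :
    base k T x n = BB k T s (n + 1) := by
  unfold base; rw [hx]

theorem base_inr {x : EndPt T} {b : ℕ → ℕ} (hx : x.1 = Sum.inr b) (n : ℕ) :
    base k T x n = BB k T (pref b (n + 1)) 1 := by
  unfold base; rw [hx]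

theorem base_anti (x : EndPt T) {n m : ℕ} (h : n ≤ m) : base k T x m ⊆ base k T x n := by
  rcases hx : x.1 with s | b
  · rw [base_inl hx, base_inl hx]
    apply BB_anti
    have : (n : ℝ) ≤ m := by exact_mod_cast h
    linarith
  · rw [base_inr hx, base_inr hx]
    obtain ⟨u, hu⟩ := pref_le b (Nat.add_le_add_right h 1)
    rw [hu]
    exact BB_append

/-- the filter of an end -/
def endF (k : ℕ) (T : Set (List ℕ)) (x : EndPt T) : Filter (NT k T) where
  sets := {B | ∃ n, base k T x n ⊆ B}
  univ_sets := ⟨0, subset_univ _⟩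
  sets_of_superset := by
    rintro B C ⟨n, hn⟩ hBC
    exact ⟨n, hn.trans hBC⟩
  inter_sets := by
    rintro B C ⟨n, hn⟩ ⟨m, hm⟩
    exact ⟨max n m, subset_inter ((base_anti x (le_max_left _ _)).trans hn)
      ((base_anti x (le_max_right _ _)).trans hm)⟩

theorem mem_endF {x : EndPt T} {B : Set (NT k T)} : B ∈ endF k T x ↔ ∃ n, base k T x n ⊆ B :=
  Iff.rfl

theorem base_mem (x : EndPt T) (n : ℕ) : base k T x n ∈ endF k T x := ⟨n, Subset.rfl⟩

theorem endF_mem {s : List ℕ} {x : EndPt T} (hx : x ∈ cone T s) : BB k T s 1 ∈ endF k T x := by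
  rcases hx' : x.1 with t | b
  · rw [mem_cone_inl hx'] at hx
    obtain ⟨u, rfl⟩ := hx
    refine ⟨0, ?_⟩
    rw [base_inl hx']
    simp only [Nat.cast_zero, zero_add]
    exact BB_append
  · rw [mem_cone_inr hx'] at hx
    refine ⟨s.length, ?_⟩
    rw [base_inr hx', pref, hx]
    exact BB_append (t := [b s.length])

theorem endF_mem' {s : List ℕ} {x : EndPt T} (hx : x ∈ cone T s) :
    BB k T s (3 / 2) ∈ endF k T x := by
  rcases hx' : x.1 with t | b
  · rw [mem_cone_inl hx'] at hx
    obtain ⟨u, rfl⟩ := hx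
    by_cases hu : u = []
    · subst hu
      refine ⟨1, ?_⟩
      rw [base_inl hx', List.nil_append]
      apply BB_anti
      norm_num
    · refine ⟨0, ?_⟩
      rw [base_inl hx']
      simp only [Nat.cast_zero, zero_add]
      exact BB_append' hu
  · rw [mem_cone_inr hx'] at hx
    refine ⟨s.length, ?_⟩
    rw [base_inr hx', pref, hx]
    exact BB_append' (t := [b s.length]) (by simp)

theorem endF_notMem {s : List ℕ} {x : EndPt T} (hx : x ∉ cone T s) :
    (BB k T s 1)ᶜ ∈ endF k T x := by
  rcases hx' : x.1 with t | b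
  · rw [mem_cone_inl hx'] at hx
    -- the case of a proper ancestor needs a radius
    by_cases hanc : ∃ u i, s = (u ++ [i]) ++ t
    · obtain ⟨u, i, rfl⟩ := hanc
      refine ⟨3 * i + 4, ?_⟩
      rw [base_inl hx']
      rintro p ⟨z, hz, he⟩ ⟨w, hw, he'⟩
      rw [iota_append] at he'
      have hz1 : 1 ≤ ‖z‖ := by
        push_cast at hz
        have : (0 : ℝ) ≤ i := Nat.cast_nonneg i
        linarith
      have h1 : z = iota (u ++ [i]) w :=
        iota_inj t hz1 (one_le_norm_iota _ hw.le) (he.trans he'.symm)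
      rw [iota_concat] at h1
      have h2 : ‖z‖ ≤ 3 * (i : ℝ) + 4 := by
        apply norm_le_of_mem_ball
        rw [h1, norm_tau_sub_j]
        exact inv_le_one_of_one_le₀ (one_le_norm_iota u hw.le)
      push_cast at hz
      linarith
    · refine ⟨0, ?_⟩
      rw [base_inl hx']
      rintro p ⟨z, hz, he⟩ ⟨w, hw, he'⟩
      have hz1 : 1 < ‖z‖ := by simpa using hz
      rcases iota_cmp s t hz1 hw.le (he.trans he'.symm) with ⟨u, hu, -⟩ | ⟨u, hu, -⟩
      · exact hx ⟨u, hu⟩
      · induction u using List.reverseRecOn with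
        | nil => exact hx ⟨[], by simpa using hu.symm⟩
        | append_singleton u i _ => exact hanc ⟨u, i, hu⟩
  · rw [mem_cone_inr hx'] at hx
    refine ⟨s.length, ?_⟩
    rw [base_inr hx']
    rintro p ⟨z, hz, he⟩ ⟨w, hw, he'⟩
    rcases iota_cmp s (pref b (s.length + 1)) hz hw.le (he.trans he'.symm) with
      ⟨u, hu, -⟩ | ⟨u, hu, -⟩
    · exact hx (eq_pref_of_append hu)
    · have h1 := congrArg List.length hu
      rw [List.length_append, pref_length] at h1
      omega

/-! ### The system of ends -/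

theorem endF_away (hT : IsTree T) (x : EndPt T) {K : Set (NT k T)} (hK : IsCompact K) :
    Kᶜ ∈ endF k T x := by
  refine hK.induction_on (p := fun S => Sᶜ ∈ endF k T x) ?_ ?_ ?_ ?_
  · rw [compl_empty]; exact Filter.univ_mem
  · intro S S' hSS' h
    exact Filter.mem_of_superset h (compl_subset_compl.mpr hSS')
  · intro S S' h h'
    rw [compl_union]
    exact Filter.inter_mem h h'
  · intro p _
    -- it suffices to find a closed set in the filter avoiding `p`
    suffices h : ∃ C, IsClosed C ∧ C ∈ endF k T x ∧ p ∉ C by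
      obtain ⟨C, hC, hCx, hp⟩ := h
      refine ⟨Cᶜ, mem_nhdsWithin_of_mem_nhds (hC.isOpen_compl.mem_nhds hp), ?_⟩
      rw [compl_compl]; exact hCx
    obtain ⟨s, hs, z, hz, he⟩ := p.2
    by_cases hx : x ∈ cone T s
    · rcases cone_cases hT hx with h | ⟨j, hj, h⟩
      · -- the end is the node `s` itself
        refine ⟨GG k T s (‖z‖ + 1), GG_closed hT hs (by linarith [norm_nonneg z]), ?_, ?_⟩
        · obtain ⟨n, hn⟩ := exists_nat_ge ‖z‖
          refine ⟨n, ?_⟩
          rw [base_inl h]
          exact (BB_anti (by linarith)).trans BB_sub_GG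
        · rintro ⟨w, hw, he'⟩
          rcases hz.1 with h1 | h1
          · subst h1
            have h2 : w = z := he'.trans he.symm
            rw [h2] at hw
            linarith
          · have h2 : w = z := iota_inj s (by linarith) h1.le (he'.trans he.symm)
            rw [h2] at hw
            linarith
      · refine ⟨GG k T (j :: s) (3 / 2), GG_closed hT hj (by norm_num), ?_, ?_⟩
        · exact Filter.mem_of_superset (endF_mem' h) BB_sub_GG
        · rintro ⟨w, hw, he'⟩
          have hw1 : 1 < ‖w‖ := by linarith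
          have h2 : tau j w = z := by
            rcases hz.1 with h1 | h1
            · subst h1
              exact he'.trans he.symm
            · exact iota_inj s (by have := two_le_norm_tau j hw1.le; linarith) h1.le
                (he'.trans he.symm)
          exact hz.2 j hj (h2 ▸ tau_mem_ball j hw1)
    · refine ⟨(BB k T s 1)ᶜ, (BB_open le_rfl).isClosed_compl, endF_notMem hx, ?_⟩
      rw [mem_compl_iff, not_not]
      rcases hz.1 with h1 | h1
      · subst h1
        exact absurd (cone_nil T x) hx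
      · exact ⟨z, h1, he⟩

/-- one step of the descent -/
theorem descent_step (hT : IsTree T) (U : Ultrafilter (NT k T))
    (hU : ∀ K, IsCompact K → Kᶜ ∈ U) {s : List ℕ} (hs : s ∈ T) (hsU : BB k T s 1 ∈ U) :
    (∃ j, j :: s ∈ T ∧ BB k T (j :: s) 1 ∈ U) ∨ ∀ n : ℕ, BB k T s (n + 1) ∈ U := by
  by_contra hno
  push Not at hno
  obtain ⟨hno1, n, hn⟩ := hno
  -- a compact set in the ultrafilter
  let Z : Set (Eu (k + 2)) := {z | 1 ≤ ‖z‖ ∧ ‖z‖ ≤ n + 1 ∧
    ∀ j, j :: s ∈ T → z ∉ Metric.ball (ctr k j) 1}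
  have hZc : IsCompact Z := by
    apply Metric.isCompact_of_isClosed_isBounded
    · have h : Z = {z | 1 ≤ ‖z‖} ∩ ({z | ‖z‖ ≤ n + 1} ∩
          ⋂ j, ⋂ (_ : j :: s ∈ T), (Metric.ball (ctr k j) 1)ᶜ) := by
        ext z
        simp [Z]
      rw [h]
      refine (isClosed_le continuous_const continuous_norm).inter
        ((isClosed_le continuous_norm continuous_const).inter ?_)
      exact isClosed_iInter fun j => isClosed_iInter fun _ => Metric.isOpen_ball.isClosed_compl
    · refine (Metric.isBounded_closedBall (x := (0 : Eu (k + 2))) (r := n + 1)).subset ?_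
      intro z hz
      rw [mem_closedBall_zero_iff]
      exact hz.2.1
  have hZN : ∀ z ∈ Z, iota s z ∈ NT k T := fun z hz => closedPiece_mem_NT hT hs hz.1 hz.2.2
  let K : Set (NT k T) := {p | ∃ z ∈ Z, iota s z = p}
  have hKc : IsCompact K := by
    rw [Subtype.isCompact_iff]
    have h : (Subtype.val '' K : Set (Eu (k + 2))) = iota s '' Z := by
      ext x
      constructor
      · rintro ⟨p, ⟨z, hz, he⟩, rfl⟩
        exact ⟨z, hz, he⟩
      · rintro ⟨z, hz, rfl⟩
        exact ⟨⟨iota s z, hZN z hz⟩, ⟨z, hz, rfl⟩, rfl⟩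
    rw [h]
    apply hZc.image_of_continuousOn
    exact (iota_continuousOn s).mono fun z hz => hz.1
  have hfin : ∀ J : ℕ, {p : NT k T | ∀ j < J, j :: s ∈ T → p ∉ BB k T (j :: s) 1} ∈ U := by
    intro J
    induction J with
    | zero =>
      have : {p : NT k T | ∀ j < 0, j :: s ∈ T → p ∉ BB k T (j :: s) 1} = univ := by
        ext p; simp
      rw [this]; exact Filter.univ_mem
    | succ J ih =>
      by_cases hJ : J :: s ∈ T
      · have h1 : (BB k T (J :: s) 1)ᶜ ∈ U :=
          Ultrafilter.compl_mem_iff_notMem.mpr (hno1 J hJ)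
        filter_upwards [ih, h1] with p h2 h3 j hj hjT
        rcases Nat.lt_succ_iff_lt_or_eq.mp hj with h4 | h4
        · exact h2 j h4 hjT
        · subst h4; exact h3
      · filter_upwards [ih] with p h2 j hj hjT
        rcases Nat.lt_succ_iff_lt_or_eq.mp hj with h4 | h4
        · exact h2 j h4 hjT
        · subst h4; exact absurd hjT hJ
  have hn' : (BB k T s (n + 1))ᶜ ∈ U := Ultrafilter.compl_mem_iff_notMem.mpr hn
  have hKU : K ∈ U := by
    filter_upwards [hsU, hn', hfin (n + 1)] with p h1 h2 h3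
    obtain ⟨z, hz, he⟩ := h1
    refine ⟨z, ⟨hz.le, ?_, ?_⟩, he⟩
    · by_contra h4
      exact h2 ⟨z, not_le.mp h4, he⟩
    · intro j hj hzj
      by_cases hzc : z = ctr k j
      · rw [hzc] at he
        exact iota_ctr_notMem_NT hT hj (he ▸ p.2)
      · rw [Metric.mem_ball, dist_eq_norm] at hzj
        have hpos : 0 < ‖z - ctr k j‖ := norm_pos_iff.mpr (sub_ne_zero.mpr hzc)
        have h5 : p ∈ BB k T (j :: s) 1 := by
          refine ⟨sig j z, ?_, ?_⟩
          · rw [norm_sig_j]
            exact (one_lt_inv₀ hpos).mpr hzj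
          · show iota s (tau j (sig j z)) = p
            rw [tau_sig_j j hzc]; exact he
        by_cases hjn : j < n + 1
        · exact h3 j hjn hj h5
        · have h6 := norm_ge_of_mem_ball hzj.le
          have h7 : ‖z‖ ≤ n + 1 := by
            by_contra h4
            exact h2 ⟨z, not_le.mp h4, he⟩
          have h8 : ((n : ℝ) + 1) ≤ j := by exact_mod_cast not_lt.mp hjn
          have h9 : (0 : ℝ) ≤ n := Nat.cast_nonneg n
          linarith
  exact Ultrafilter.compl_mem_iff_notMem.mp (hU K hKc) hKU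

theorem closedBall_compact_NT (hT : IsTree T) :
    IsCompact {p : NT k T | ‖(p : Eu (k + 2))‖ ≤ 1} := by
  rw [Subtype.isCompact_iff]
  have h : (Subtype.val '' {p : NT k T | ‖(p : Eu (k + 2))‖ ≤ 1} : Set (Eu (k + 2))) =
      Metric.closedBall 0 1 := by
    ext x
    constructor
    · rintro ⟨p, hp, rfl⟩
      rw [mem_closedBall_zero_iff]; exact hp
    · intro hx
      rw [mem_closedBall_zero_iff] at hx
      refine ⟨⟨x, mem_NT_root hT ?_⟩, hx, rfl⟩
      intro j _ hj
      rw [Metric.mem_ball, dist_eq_norm] at hj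
      have h1 := norm_ge_of_mem_ball hj.le
      have h2 : (0 : ℝ) ≤ j := Nat.cast_nonneg j
      linarith
  rw [h]
  exact isCompact_closedBall _ _

theorem endF_cpt (hT : IsTree T) (U : Ultrafilter (NT k T))
    (hU : ∀ K, IsCompact K → Kᶜ ∈ U) : ∃ x, (U : Filter (NT k T)) ≤ endF k T x := by
  have hroot : BB k T [] 1 ∈ U := by
    filter_upwards [hU _ (closedBall_compact_NT hT)] with p hp
    exact ⟨p, not_le.mp hp, rfl⟩
  by_cases hex : ∃ s ∈ T, ∀ n : ℕ, BB k T s (n + 1) ∈ U
  · obtain ⟨s, hs, hn⟩ := hex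
    have hmem : (∀ t, (Sum.inl s : List ℕ ⊕ (ℕ → ℕ)) = Sum.inl t → t ∈ T) ∧
        ∀ b, (Sum.inl s : List ℕ ⊕ (ℕ → ℕ)) = Sum.inr b → ∀ n, pref b n ∈ T :=
      ⟨fun t ht => Sum.inl.inj ht ▸ hs, fun b hb => (Sum.inl_ne_inr hb).elim⟩
    obtain ⟨x, hx⟩ : ∃ x : EndPt T, x.1 = Sum.inl s := ⟨⟨Sum.inl s, hmem⟩, rfl⟩
    refine ⟨x, ?_⟩
    rintro B ⟨n, hB⟩
    rw [base_inl hx] at hB
    exact Filter.mem_of_superset (hn n) hB
  · push Not at hex
    have hstep : ∀ s : {s : List ℕ // s ∈ T ∧ BB k T s 1 ∈ U},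
        ∃ j, j :: s.1 ∈ T ∧ BB k T (j :: s.1) 1 ∈ U := by
      rintro ⟨s, hs, hsU⟩
      rcases descent_step hT U hU hs hsU with h | h
      · exact h
      · obtain ⟨n, hn⟩ := hex s hs
        exact absurd (h n) hn
    choose f hf using hstep
    let seq : ℕ → {s : List ℕ // s ∈ T ∧ BB k T s 1 ∈ U} := fun n =>
      Nat.rec ⟨[], hT.1, hroot⟩ (fun _ s => ⟨f s :: s.1, hf s⟩) n
    let b : ℕ → ℕ := fun n => f (seq n)
    have hpref : ∀ n, pref b n = (seq n).1 := by
      intro n
      induction n with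
      | zero => rfl
      | succ n ih =>
        show b n :: pref b n = _
        rw [ih]
    have hmem : (∀ t, (Sum.inr b : List ℕ ⊕ (ℕ → ℕ)) = Sum.inl t → t ∈ T) ∧
        ∀ c, (Sum.inr b : List ℕ ⊕ (ℕ → ℕ)) = Sum.inr c → ∀ n, pref c n ∈ T := by
      refine ⟨fun t ht => (Sum.inr_ne_inl ht).elim, fun c hc n => ?_⟩
      rw [← Sum.inr.inj hc, hpref]; exact (seq n).2.1
    obtain ⟨x, hx⟩ : ∃ x : EndPt T, x.1 = Sum.inr b := ⟨⟨Sum.inr b, hmem⟩, rfl⟩
    refine ⟨x, ?_⟩
    rintro B ⟨n, hB⟩
    rw [base_inr hx] at hB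
    refine Filter.mem_of_superset ?_ hB
    rw [hpref]
    exact (seq (n + 1)).2.2

theorem cone_open {s : List ℕ} (hs : s ∈ T) : IsOpen (cone T s) :=
  TopologicalSpace.isOpen_generateFrom_of_mem ⟨s, hs, Or.inl rfl⟩

theorem cone_compl_open {s : List ℕ} (hs : s ∈ T) : IsOpen (cone T s)ᶜ :=
  TopologicalSpace.isOpen_generateFrom_of_mem ⟨s, hs, Or.inr rfl⟩

theorem endF_cont (hT : IsTree T) (x : EndPt T) (B : Set (NT k T)) (hB : B ∈ endF k T x) :
    ∀ᶠ y in 𝓝 x, B ∈ endF k T y := by
  obtain ⟨n, hn⟩ := hB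
  rcases hx : x.1 with s | b
  · rw [base_inl hx] at hn
    have hs := inl_mem x hx
    have hfin : ∀ J : ℕ, ∀ᶠ y in 𝓝 x, ∀ j < J, j :: s ∈ T → y ∉ cone T (j :: s) := by
      intro J
      induction J with
      | zero => exact Filter.Eventually.of_forall (fun y j hj => by omega)
      | succ J ih =>
        by_cases hJ : J :: s ∈ T
        · have h1 : (cone T (J :: s))ᶜ ∈ 𝓝 x := by
            apply (cone_compl_open hJ).mem_nhds
            rw [mem_compl_iff, mem_cone_inl hx]
            rintro ⟨u, hu⟩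
            have := congrArg List.length hu
            rw [List.length_append, List.length_cons] at this
            omega
          filter_upwards [ih, h1] with y h2 h3 j hj hjT
          rcases Nat.lt_succ_iff_lt_or_eq.mp hj with h4 | h4
          · exact h2 j h4 hjT
          · subst h4; exact h3
        · filter_upwards [ih] with y h2 j hj hjT
          rcases Nat.lt_succ_iff_lt_or_eq.mp hj with h4 | h4
          · exact h2 j h4 hjT
          · subst h4; exact absurd hjT hJ
    have hcone : ∀ᶠ y in 𝓝 x, y ∈ cone T s :=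
      (cone_open hs).mem_nhds ((mem_cone_inl hx).mpr ⟨[], rfl⟩)
    filter_upwards [hfin (n + 1), hcone] with y h1 h2
    rcases cone_cases hT h2 with h3 | ⟨j, hj, h3⟩
    · refine ⟨n, ?_⟩
      rw [base_inl h3]; exact hn
    · have hjn : n + 1 ≤ j := by
        by_contra h4
        exact h1 j (by omega) hj h3
      refine Filter.mem_of_superset (endF_mem h3) ((BB_child ?_).trans hn)
      have h8 : ((n : ℝ) + 1) ≤ j := by exact_mod_cast hjn
      have h9 : (0 : ℝ) ≤ n := Nat.cast_nonneg n
      linarith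
  · rw [base_inr hx] at hn
    have hb := inr_mem x hx (n + 1)
    have hcone : ∀ᶠ y in 𝓝 x, y ∈ cone T (pref b (n + 1)) := by
      apply (cone_open hb).mem_nhds
      rw [mem_cone_inr hx, pref_length]
    filter_upwards [hcone] with y hy
    exact Filter.mem_of_superset (endF_mem hy) hn

theorem isEndSystem (hT : IsTree T) :
    IsEndSystem (endF k T) (fun s : {s : List ℕ // s ∈ T} => cone T s.1)
      (fun s : {s : List ℕ // s ∈ T} => BB k T s.1 1) where
  neBot x := by
    rw [Filter.neBot_iff, Ne, ← Filter.empty_mem_iff_bot]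
    rintro ⟨n, hn⟩
    rcases hx : x.1 with s | b
    · rw [base_inl hx] at hn
      exact (BB_nonempty hT (inl_mem x hx) (by
        have : (0 : ℝ) ≤ n := Nat.cast_nonneg n
        linarith)).not_subset_empty hn
    · rw [base_inr hx] at hn
      exact (BB_nonempty hT (inr_mem x hx _) le_rfl).not_subset_empty hn
  conn x B hB := by
    obtain ⟨n, hn⟩ := hB
    refine ⟨base k T x n, base_mem x n, hn, ?_⟩
    rcases hx : x.1 with s | b
    · rw [base_inl hx]
      exact BB_preconnected hT (inl_mem x hx) (by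
        have : (0 : ℝ) ≤ n := Nat.cast_nonneg n
        linarith)
    · rw [base_inr hx]
      exact BB_preconnected hT (inr_mem x hx _) le_rfl
  frontier s := frontier_BB hT s.2
  mem s x hx := endF_mem hx
  notMem s x hx := endF_notMem hx
  sep x y hxy := by
    obtain ⟨s, hs, h⟩ := cone_sep x y hxy
    exact ⟨⟨s, hs⟩, h⟩
  away x K hK := endF_away hT x hK
  cpt U hU := endF_cpt hT U hU
  cont x B hB := endF_cont hT x B hB
  top := by
    have h : {U : Set (EndPt T) | ∃ s ∈ T, U = cone T s ∨ U = (cone T s)ᶜ} =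
        {U | ∃ i : {s : List ℕ // s ∈ T}, U = cone T i.1 ∨ U = (cone T i.1)ᶜ} := by
      ext U
      constructor
      · rintro ⟨s, hs, h⟩
        exact ⟨⟨s, hs⟩, h⟩
      · rintro ⟨⟨s, hs⟩, h⟩
        exact ⟨s, hs, h⟩
    rw [← h]
    rfl

/-- (J2) The end space is determined by the homeomorphism type of `NT T`. -/
theorem statementJ2 (k : ℕ) : StatementJ2 k := by
  rintro T T' hT hT' ⟨h⟩
  exact (isEndSystem (k := k) hT).homeo (isEndSystem (k := k) hT') h

end Pool.Agent.BorelManifold
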