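import Pool.Agent.Lib.BorelManifold.TreeDefs

/-!
# (J3) The labelled tree can be recovered from the end space of its coding tree
-/

namespace Pool.Agent.BorelManifold

namespace J3

open Set Topology

variable {T : Set (List ℕ)}

/-- a raw point lies in the subtree of `s` -/
def InC (x : List ℕ ⊕ (ℕ → ℕ)) (s : List ℕ) : Prop :=
  (∃ t, x = Sum.inl (t ++ s)) ∨ ∃ b, x = Sum.inr b ∧ pref b s.length = s

lemma mem_cone {x : EndPt T} {s : List ℕ} : x ∈ cone T s ↔ InC x.1 s := Iff.rfl

lemma length_pref (b : ℕ → ℕ) (n : ℕ) : (pref b n).length = n := by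
  induction n with
  | zero => rfl
  | succ n ih => simp [pref, ih]

lemma pref_suffix (b : ℕ → ℕ) {n m : ℕ} (h : n ≤ m) : pref b n <:+ pref b m := by
  induction m, h using Nat.le_induction with
  | base => exact List.suffix_refl _
  | succ m _ ih => exact ih.trans (List.suffix_cons _ _)

lemma InC.of_suffix {x : List ℕ ⊕ (ℕ → ℕ)} {s t : List ℕ} (h : InC x t) (hst : s <:+ t) :
    InC x s := by
  rcases h with ⟨u, rfl⟩ | ⟨b, rfl, hb⟩
  · obtain ⟨v, rfl⟩ := hst
    exact Or.inl ⟨u ++ v, by simp⟩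
  · refine Or.inr ⟨b, rfl, ?_⟩
    have h1 : pref b s.length <:+ t := by
      rw [← hb]; exact pref_suffix b hst.length_le
    exact (List.suffix_of_suffix_length_le h1 hst (by rw [length_pref])).eq_of_length
      (length_pref _ _)

lemma InC.suffix {x : List ℕ ⊕ (ℕ → ℕ)} {s t : List ℕ} (hs : InC x s) (ht : InC x t)
    (hl : s.length ≤ t.length) : s <:+ t := by
  rcases hs with ⟨u, rfl⟩ | ⟨b, rfl, hb⟩
  · rcases ht with ⟨v, hv⟩ | ⟨b, hb, _⟩
    · have hv := Sum.inl.inj hv
      exact List.suffix_of_suffix_length_le ⟨u, rfl⟩ ⟨v, hv.symm⟩ hl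
    · cases hb
  · rcases ht with ⟨v, hv⟩ | ⟨b', hb', hb2⟩
    · cases hv
    · cases hb'
      rw [← hb, ← hb2]
      exact pref_suffix b hl

lemma InC.eq {x : List ℕ ⊕ (ℕ → ℕ)} {s t : List ℕ} (hs : InC x s) (ht : InC x t)
    (hl : s.length = t.length) : s = t :=
  (hs.suffix ht hl.le).eq_of_length hl

lemma inC_inl {l s : List ℕ} : InC (Sum.inl l) s ↔ s <:+ l := by
  constructor
  · rintro (⟨t, ht⟩ | ⟨b, hb, _⟩)
    · exact ⟨t, (Sum.inl.inj ht).symm⟩
    · cases hb
  · rintro ⟨t, rfl⟩
    exact Or.inl ⟨t, rfl⟩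

lemma inC_inr {b : ℕ → ℕ} {s : List ℕ} : InC (Sum.inr b) s ↔ pref b s.length = s := by
  constructor
  · rintro (⟨t, ht⟩ | ⟨b', hb, h⟩)
    · cases ht
    · cases hb; exact h
  · intro h
    exact Or.inr ⟨b, rfl, h⟩

lemma inC_pref {b : ℕ → ℕ} (n : ℕ) : InC (Sum.inr b) (pref b n) := by
  rw [inC_inr, length_pref]

lemma IsTree.suffix (hT : IsTree T) {s t : List ℕ} (ht : t ∈ T) (h : s <:+ t) : s ∈ T := by
  obtain ⟨u, rfl⟩ := h
  induction u with
  | nil => exact ht
  | cons j u ih => exact ih (hT.2 _ _ ht)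

lemma isOpen_cone {s : List ℕ} (hs : s ∈ T) : IsOpen (cone T s) :=
  TopologicalSpace.isOpen_generateFrom_of_mem ⟨s, hs, Or.inl rfl⟩

lemma isOpen_cone_compl {s : List ℕ} (hs : s ∈ T) : IsOpen (cone T s)ᶜ :=
  TopologicalSpace.isOpen_generateFrom_of_mem ⟨s, hs, Or.inr rfl⟩

lemma nhd_node {x : EndPt T} {t : List ℕ} (hx : x.1 = Sum.inl t) {U : Set (EndPt T)}
    (hU : IsOpen U) (hxU : x ∈ U) :
    ∃ F : Finset ℕ, ∀ y ∈ cone T t, (∀ j ∈ F, y ∉ cone T (j :: t)) → y ∈ U := by
  induction hU with
  | basic U hU =>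
    obtain ⟨s, hs, rfl | rfl⟩ := hU
    · refine ⟨∅, fun y hy _ => ?_⟩
      rw [mem_cone, hx, inC_inl] at hxU
      exact InC.of_suffix (mem_cone.1 hy) hxU
    · have hst : ¬ s <:+ t := by
        intro h
        apply hxU
        rw [mem_cone, hx, inC_inl]
        exact h
      by_cases hts : t <:+ s
      · obtain ⟨u, rfl⟩ := hts
        rcases List.eq_nil_or_concat u with rfl | ⟨u', j, rfl⟩
        · exact absurd (List.suffix_refl _) hst
        · refine ⟨{j}, fun y _ hj hys => hj j (Finset.mem_singleton_self j) ?_⟩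
          refine InC.of_suffix (mem_cone.1 hys) ⟨u', ?_⟩
          simp
      · refine ⟨∅, fun y hy _ hys => ?_⟩
        rcases le_total s.length t.length with h | h
        · exact hst (InC.suffix hys hy h)
        · exact hts (InC.suffix hy hys h)
  | univ => exact ⟨∅, fun _ _ _ => mem_univ _⟩
  | inter U V _ _ ihU ihV =>
    obtain ⟨F, hF⟩ := ihU hxU.1
    obtain ⟨G, hG⟩ := ihV hxU.2
    classical
    exact ⟨F ∪ G, fun y hy h => ⟨hF y hy fun j hj => h j (Finset.mem_union_left _ hj),
      hG y hy fun j hj => h j (Finset.mem_union_right _ hj)⟩⟩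
  | sUnion S _ ih =>
    obtain ⟨V, hV, hxV⟩ := hxU
    obtain ⟨F, hF⟩ := ih V hV hxV
    exact ⟨F, fun y hy h => ⟨V, hV, hF y hy h⟩⟩

lemma nhd_branch {x : EndPt T} {b : ℕ → ℕ} (hx : x.1 = Sum.inr b) {U : Set (EndPt T)}
    (hU : IsOpen U) (hxU : x ∈ U) : ∃ n, cone T (pref b n) ⊆ U := by
  induction hU with
  | basic U hU =>
    obtain ⟨s, hs, rfl | rfl⟩ := hU
    · refine ⟨s.length, fun y hy => ?_⟩
      rw [mem_cone, hx, inC_inr] at hxU
      rwa [hxU] at hy
    · refine ⟨s.length, fun y hy hys => hxU ?_⟩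
      rw [mem_cone, hx, inC_inr]
      exact InC.eq hy hys (length_pref _ _)
  | univ => exact ⟨0, subset_univ _⟩
  | inter U V _ _ ihU ihV =>
    obtain ⟨n, hn⟩ := ihU hxU.1
    obtain ⟨m, hm⟩ := ihV hxU.2
    refine ⟨max n m, fun y hy => ⟨hn ?_, hm ?_⟩⟩
    · exact InC.of_suffix hy (pref_suffix b (le_max_left _ _))
    · exact InC.of_suffix hy (pref_suffix b (le_max_right _ _))
  | sUnion S _ ih =>
    obtain ⟨V, hV, hxV⟩ := hxU
    obtain ⟨n, hn⟩ := ih V hV hxV
    exact ⟨n, fun y hy => ⟨V, hV, hn hy⟩⟩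

/-- the point of a node -/
def nd {s : List ℕ} (hs : s ∈ T) : EndPt T :=
  ⟨Sum.inl s, fun s' h => by cases h; exact hs, fun b h => by cases h⟩

lemma mem_of_inl {x : EndPt T} {s : List ℕ} (hx : x.1 = Sum.inl s) : s ∈ T := x.2.1 s hx

lemma mem_of_inr {x : EndPt T} {b : ℕ → ℕ} (hx : x.1 = Sum.inr b) (n : ℕ) : pref b n ∈ T :=
  x.2.2 b hx n

/-- the set of points given by a set of nodes -/
def pts (T : Set (List ℕ)) (S : Set (List ℕ)) : Set (EndPt T) := {x | ∃ l ∈ S, x.1 = Sum.inl l}

lemma mem_closure_node (hT : IsTree T) {S : Set (List ℕ)} (hS : S ⊆ T) {x : EndPt T} {t : List ℕ}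
    (hx : x.1 = Sum.inl t) :
    x ∈ closure (pts T S) ↔ t ∈ S ∨ {j | ∃ u, u ++ j :: t ∈ S}.Infinite := by
  rw [mem_closure_iff]
  constructor
  · intro h
    by_contra hcon
    push Not at hcon
    obtain ⟨h1, h2⟩ := hcon
    set F := h2.toFinset with hF
    have hopen : IsOpen (cone T t ∩ ⋂ j ∈ F, (cone T (j :: t))ᶜ) := by
      apply (isOpen_cone (mem_of_inl hx)).inter
      apply isOpen_biInter_finset
      intro j hj
      rw [hF, Set.Finite.mem_toFinset] at hj
      obtain ⟨u, hu⟩ := hj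
      exact isOpen_cone_compl (IsTree.suffix hT (hS hu) ⟨u, rfl⟩)
    obtain ⟨y, ⟨hy1, hy2⟩, l, hl, hyl⟩ := h _ hopen (by
      refine ⟨?_, ?_⟩
      · rw [mem_cone, hx, inC_inl]
      · rw [mem_iInter₂]
        intro j _ hj
        rw [mem_cone, hx, inC_inl] at hj
        have := hj.length_le
        simp at this)
    rw [mem_cone, hyl, inC_inl] at hy1
    obtain ⟨v, rfl⟩ := hy1
    rcases List.eq_nil_or_concat v with rfl | ⟨u, j, rfl⟩
    · exact h1 hl
    · have hl' : u ++ j :: t ∈ S := by simpa using hl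
      rw [mem_iInter₂] at hy2
      refine hy2 j ?_ ?_
      · rw [hF, Set.Finite.mem_toFinset]
        exact ⟨u, hl'⟩
      · rw [mem_cone, hyl, inC_inl]
        exact ⟨u, by simp⟩
  · rintro h U hU hxU
    rcases h with h | h
    · exact ⟨x, hxU, t, h, hx⟩
    · obtain ⟨F, hF⟩ := nhd_node hx hU hxU
      obtain ⟨j, ⟨u, hu⟩, hj⟩ := h.exists_notMem_finset F
      refine ⟨nd (hS hu), hF _ ?_ ?_, _, hu, rfl⟩
      · rw [mem_cone]
        exact inC_inl.2 ⟨u ++ [j], by simp⟩
      · intro j' hj' hc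
        have h1 : InC (Sum.inl (u ++ j :: t)) (j' :: t) := hc
        have h2 : InC (Sum.inl (u ++ j :: t)) (j :: t) := inC_inl.2 ⟨u, rfl⟩
        have h3 := InC.eq h1 h2 (by simp)
        have h4 : j' = j := by simpa using h3
        exact hj (h4 ▸ hj')

lemma mem_closure_branch {S : Set (List ℕ)} (hS : S ⊆ T) {x : EndPt T} {b : ℕ → ℕ}
    (hx : x.1 = Sum.inr b) :
    x ∈ closure (pts T S) ↔ ∀ n, ∃ u, u ++ pref b n ∈ S := by
  rw [mem_closure_iff]
  constructor
  · intro h n
    obtain ⟨y, hy, l, hl, hyl⟩ := h _ (isOpen_cone (mem_of_inr hx n)) (by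
      rw [mem_cone, hx]; exact inC_pref n)
    rw [mem_cone, hyl, inC_inl] at hy
    obtain ⟨u, rfl⟩ := hy
    exact ⟨u, hl⟩
  · intro h U hU hxU
    obtain ⟨n, hn⟩ := nhd_branch hx hU hxU
    obtain ⟨u, hu⟩ := h n
    refine ⟨nd (hS hu), hn ?_, _, hu, rfl⟩
    rw [mem_cone]
    exact inC_inl.2 ⟨u, rfl⟩

/-- points isolated in the complement of `D` -/
def iso {X : Type*} [TopologicalSpace X] (D : Set X) : Set X :=
  {x | x ∉ D ∧ ∃ U, IsOpen U ∧ x ∈ U ∧ ∀ y ∈ U, y ∉ D → y = x}

/-- the sets removed in the first `n` steps -/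
def rem (X : Type*) [TopologicalSpace X] : ℕ → Set X
  | 0 => ∅
  | n + 1 => rem X n ∪ iso (rem X n)

/-- corresponding sets -/
def Corr {X Y : Type*} (h : X → Y) (A : Set X) (B : Set Y) : Prop := ∀ x, x ∈ A ↔ h x ∈ B

section corr

variable {X Y : Type*} [TopologicalSpace X] [TopologicalSpace Y] (h : X ≃ₜ Y)

lemma Corr.closure {h : X ≃ₜ Y} {A : Set X} {B : Set Y} (hc : Corr h A B) :
    Corr h (closure A) (closure B) := by
  have h1 : A = h ⁻¹' B := by ext x; exact hc x
  intro x
  rw [h1, ← h.preimage_closure]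
  rfl

lemma Corr.iso {h : X ≃ₜ Y} {A : Set X} {B : Set Y} (hc : Corr h A B) :
    Corr h (iso A) (iso B) := by
  intro x
  constructor
  · rintro ⟨h1, U, hU, hx, h2⟩
    refine ⟨fun h3 => h1 ((hc x).2 h3), h.symm ⁻¹' U, hU.preimage h.symm.continuous,
      by simpa using hx, fun y hy hyB => ?_⟩
    have := h2 (h.symm y) hy (fun h4 => hyB (by have := (hc _).1 h4; simpa using this))
    rw [← this]; simp
  · rintro ⟨h1, U, hU, hx, h2⟩
    refine ⟨fun h3 => h1 ((hc x).1 h3), h ⁻¹' U, hU.preimage h.continuous, hx, fun y hy hyA => ?_⟩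
    exact h.injective (h2 (h y) hy fun h4 => hyA ((hc y).2 h4))

lemma Corr.union {h : X ≃ₜ Y} {A A' : Set X} {B B' : Set Y} (hc : Corr h A B)
    (hc' : Corr h A' B') : Corr h (A ∪ A') (B ∪ B') := fun x => by
  rw [mem_union, mem_union, hc x, hc' x]

lemma Corr.inter {h : X ≃ₜ Y} {A A' : Set X} {B B' : Set Y} (hc : Corr h A B)
    (hc' : Corr h A' B') : Corr h (A ∩ A') (B ∩ B') := fun x => by
  rw [mem_inter_iff, mem_inter_iff, hc x, hc' x]

lemma Corr.compl {h : X ≃ₜ Y} {A : Set X} {B : Set Y} (hc : Corr h A B) :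
    Corr h Aᶜ Bᶜ := fun x => by
  rw [mem_compl_iff, mem_compl_iff, hc x]

lemma corr_rem (n : ℕ) : Corr h (rem X n) (rem Y n) := by
  induction n with
  | zero => intro x; simp [rem]
  | succ n ih => exact ih.union ih.iso

end corr

/-! ## States -/

section code

variable {lam : LTree}

lemma isTree_codeTree (lam : LTree) : IsTree (codeTree lam) := by
  constructor
  · show (cstate lam []).isSome
    rfl
  · intro j s h
    have h : ((cstate lam s).bind fun σ => σ.child lam j).isSome := h
    show (cstate lam s).isSome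
    rcases hs : cstate lam s with _ | σ
    · rw [hs] at h; simp at h
    · rfl

lemma exists_state {l : List ℕ} (h : l ∈ codeTree lam) : ∃ σ, cstate lam l = some σ :=
  Option.isSome_iff_exists.1 h

lemma mem_codeTree {l : List ℕ} {σ : CState} (h : cstate lam l = some σ) : l ∈ codeTree lam := by
  show (cstate lam l).isSome
  rw [h]; rfl

/-- the state reached from `σ` along a path -/
def run (lam : LTree) (σ : CState) : List ℕ → Option CState
  | [] => some σ
  | j :: u => (run lam σ u).bind fun τ => τ.child lam j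

lemma cstate_append (u l : List ℕ) :
    cstate lam (u ++ l) = (cstate lam l).bind fun σ => run lam σ u := by
  induction u with
  | nil => simp [run]
  | cons j u ih =>
    show (cstate lam (u ++ l)).bind _ = _
    rw [ih]
    rcases cstate lam l with _ | σ
    · rfl
    · rfl

lemma cstate_append_of {l : List ℕ} {σ : CState} (h : cstate lam l = some σ) (u : List ℕ) :
    cstate lam (u ++ l) = run lam σ u := by
  rw [cstate_append, h]; rfl

lemma cstate_cons_of {l : List ℕ} {σ : CState} (h : cstate lam l = some σ) (j : ℕ) :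
    cstate lam (j :: l) = σ.child lam j := by
  show (cstate lam l).bind _ = _
  rw [h]; rfl

lemma run_append (σ : CState) (u v : List ℕ) :
    run lam σ (u ++ v) = (run lam σ v).bind fun τ => run lam τ u := by
  induction u with
  | nil => simp [run]
  | cons j u ih =>
    show (run lam σ (u ++ v)).bind _ = _
    rw [ih]
    rcases run lam σ v with _ | σ
    · rfl
    · rfl

lemma run_single (σ : CState) (j : ℕ) : run lam σ [j] = σ.child lam j := rfl

/-- some state with property `p` can be reached from `σ` -/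
def Has (lam : LTree) (p : CState → Prop) (σ : CState) : Prop :=
  ∃ u τ, run lam σ u = some τ ∧ p τ

lemma Has.self {p : CState → Prop} {σ : CState} (h : p σ) : Has lam p σ := ⟨[], σ, rfl, h⟩

lemma Has.of_child {p : CState → Prop} {σ τ : CState} {j : ℕ} (h : σ.child lam j = some τ)
    (hτ : Has lam p τ) : Has lam p σ := by
  obtain ⟨u, ρ, h1, h2⟩ := hτ
  refine ⟨u ++ [j], ρ, ?_, h2⟩
  rw [run_append, run_single, h]
  exact h1

lemma Has.of_run {p : CState → Prop} {σ τ : CState} {v : List ℕ} (h : run lam σ v = some τ)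
    (hτ : Has lam p τ) : Has lam p σ := by
  obtain ⟨u, ρ, h1, h2⟩ := hτ
  refine ⟨u ++ v, ρ, ?_, h2⟩
  rw [run_append, h]
  exact h1

lemma reach_inv {P : CState → Prop} (hP : ∀ σ, P σ → ∀ j τ, σ.child lam j = some τ → P τ)
    {σ : CState} (hσ : P σ) : ∀ (u : List ℕ) (τ : CState), run lam σ u = some τ → P τ := by
  intro u
  induction u with
  | nil => intro τ h; cases h; exact hσ
  | cons j u ih =>
    intro τ h
    have h : (run lam σ u).bind (fun τ => τ.child lam j) = some τ := h
    rw [Option.bind_eq_some_iff] at h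
    obtain ⟨ρ, h1, h2⟩ := h
    exact hP ρ (ih ρ h1) j τ h2

/-- the nodes with state in `p` -/
def SP (lam : LTree) (p : CState → Prop) : Set (List ℕ) := {l | ∃ σ, cstate lam l = some σ ∧ p σ}

lemma SP_sub (p : CState → Prop) : SP lam p ⊆ codeTree lam := by
  rintro l ⟨σ, h, _⟩
  exact mem_codeTree h

lemma mem_pts_SP {p : CState → Prop} {x : EndPt (codeTree lam)} {l : List ℕ} {σ : CState}
    (hx : x.1 = Sum.inl l) (hσ : cstate lam l = some σ) : x ∈ pts _ (SP lam p) ↔ p σ := by
  constructor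
  · rintro ⟨l', ⟨σ', h1, h2⟩, h3⟩
    rw [hx] at h3
    cases h3
    rw [hσ] at h1
    cases h1
    exact h2
  · intro h
    exact ⟨l, ⟨σ, hσ, h⟩, hx⟩

lemma notMem_pts_branch {S : Set (List ℕ)} {x : EndPt T} {b : ℕ → ℕ} (hx : x.1 = Sum.inr b) :
    x ∉ pts T S := by
  rintro ⟨l, _, h⟩
  rw [hx] at h
  cases h

/-- the closure criterion for nodes -/
def CM (lam : LTree) (p : CState → Prop) (σ : CState) : Prop :=
  p σ ∨ {j | ∃ τ, σ.child lam j = some τ ∧ Has lam p τ}.Infinite

lemma closure_node {p : CState → Prop} {x : EndPt (codeTree lam)} {l : List ℕ} {σ : CState}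
    (hx : x.1 = Sum.inl l) (hσ : cstate lam l = some σ) :
    x ∈ closure (pts _ (SP lam p)) ↔ CM lam p σ := by
  rw [mem_closure_node (isTree_codeTree lam) (SP_sub p) hx]
  have h1 : l ∈ SP lam p ↔ p σ := by
    constructor
    · rintro ⟨σ', h1, h2⟩
      rw [hσ] at h1; cases h1; exact h2
    · intro h; exact ⟨σ, hσ, h⟩
  have h2 : {j | ∃ u, u ++ j :: l ∈ SP lam p} =
      {j | ∃ τ, σ.child lam j = some τ ∧ Has lam p τ} := by
    ext j
    constructor
    · rintro ⟨u, ρ, h1, h2⟩
      rw [cstate_append] at h1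
      rw [Option.bind_eq_some_iff] at h1
      obtain ⟨τ, h3, h4⟩ := h1
      rw [cstate_cons_of hσ] at h3
      exact ⟨τ, h3, u, ρ, h4, h2⟩
    · rintro ⟨τ, h3, u, ρ, h4, h2⟩
      refine ⟨u, ρ, ?_, h2⟩
      rw [← cstate_cons_of hσ] at h3
      rw [cstate_append_of h3, h4]
  rw [h1, h2]
  rfl

lemma closure_branch {p : CState → Prop} {x : EndPt (codeTree lam)} {b : ℕ → ℕ}
    (hx : x.1 = Sum.inr b) :
    x ∈ closure (pts _ (SP lam p)) ↔ ∀ n σ, cstate lam (pref b n) = some σ → Has lam p σ := by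
  rw [mem_closure_branch (SP_sub p) hx]
  constructor
  · intro h n σ hσ
    obtain ⟨u, ρ, h1, h2⟩ := h n
    rw [cstate_append_of hσ] at h1
    exact ⟨u, ρ, h1, h2⟩
  · intro h n
    obtain ⟨σ, hσ⟩ := exists_state (mem_of_inr hx n)
    obtain ⟨u, ρ, h1, h2⟩ := h n σ hσ
    exact ⟨u, ρ, by rw [cstate_append_of hσ, h1], h2⟩

/-! ### Runs from the different states -/

lemma run_o {k : ℕ} : ∀ (u : List ℕ) (τ : CState), run lam (.o k) u = some τ →
    ∃ i, τ = .o i ∧ i + u.length = k := by
  intro u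
  induction u with
  | nil => intro τ h; cases h; exact ⟨k, rfl, rfl⟩
  | cons j u ih =>
    intro τ h
    have h : (run lam (.o k) u).bind (fun τ => τ.child lam j) = some τ := h
    rw [Option.bind_eq_some_iff] at h
    obtain ⟨ρ, h1, h2⟩ := h
    obtain ⟨i, rfl, hi⟩ := ih ρ h1
    rcases i with _ | i
    · cases h2
    · cases h2
      exact ⟨i, rfl, by simp; omega⟩

lemma run_full : ∀ (u : List ℕ) (τ : CState), run lam .full u = some τ → τ = .full :=
  reach_inv (P := fun τ => τ = .full) (by rintro σ rfl j τ h; cases h; rfl) rfl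

lemma run_q {k : ℕ} : ∀ (u : List ℕ) (τ : CState), run lam (.q k) u = some τ →
    τ = .q k ∨ (∃ i, i ≤ k ∧ τ = .o i) ∨ τ = .full := by
  apply reach_inv (P := fun τ => τ = .q k ∨ (∃ i, i ≤ k ∧ τ = .o i) ∨ τ = .full)
  · rintro σ (rfl | ⟨i, hi, rfl⟩ | rfl) j τ h
    · by_cases hj : j % 2 = 0
      · have h' : (if j % 2 = 0 then some (CState.o k) else some .full) = some τ := h
        rw [if_pos hj] at h'
        cases h'
        exact Or.inr (Or.inl ⟨k, le_rfl, rfl⟩)
      · have h' : (if j % 2 = 0 then some (CState.o k) else some .full) = some τ := h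
        rw [if_neg hj] at h'
        cases h'
        exact Or.inr (Or.inr rfl)
    · rcases i with _ | i
      · cases h
      · cases h
        exact Or.inr (Or.inl ⟨i, by omega, rfl⟩)
    · cases h
      exact Or.inr (Or.inr rfl)
  · exact Or.inl rfl

lemma child_q_even (k j : ℕ) : (CState.q k).child lam (2 * j) = some (.o k) := by
  show (if (2 * j) % 2 = 0 then some (CState.o k) else some .full) = _
  rw [if_pos (by omega)]

lemma child_q_odd (k j : ℕ) : (CState.q k).child lam (2 * j + 1) = some .full := by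
  show (if (2 * j + 1) % 2 = 0 then some (CState.o k) else some .full) = _
  rw [if_neg (by omega)]

lemma child_real_q {s : List ℕ} {k : ℕ} (hs : lam s = some k) (j : ℕ) :
    (CState.real s).child lam (3 * j + 1) = some (.q k) := by
  show (if (3 * j + 1) % 3 = 0 then (if (lam (((3 * j + 1) / 3) :: s)).isSome then
    some (CState.real (((3 * j + 1) / 3) :: s)) else none)
    else if (3 * j + 1) % 3 = 1 then (lam s).map .q else none) = _
  rw [if_neg (by omega), if_pos (by omega), hs]
  rfl

lemma child_real_real {s : List ℕ} {j : ℕ} (hs : lam (j :: s) ≠ none) :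
    (CState.real s).child lam (3 * j) = some (.real (j :: s)) := by
  show (if (3 * j) % 3 = 0 then (if (lam (((3 * j) / 3) :: s)).isSome then
    some (CState.real (((3 * j) / 3) :: s)) else none)
    else if (3 * j) % 3 = 1 then (lam s).map .q else none) = _
  have h1 : 3 * j / 3 = j := by omega
  rw [if_pos (by omega), h1, if_pos (Option.isSome_iff_ne_none.2 hs)]

lemma child_real {s : List ℕ} {j : ℕ} {τ : CState}
    (h : (CState.real s).child lam j = some τ) :
    (∃ i, j = 3 * i ∧ lam (i :: s) ≠ none ∧ τ = .real (i :: s)) ∨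
      (∃ k, lam s = some k ∧ τ = .q k) := by
  have h : (if j % 3 = 0 then (if (lam ((j / 3) :: s)).isSome then
    some (CState.real ((j / 3) :: s)) else none)
    else if j % 3 = 1 then (lam s).map .q else none) = some τ := h
  split_ifs at h with h1 h2 h3
  · cases h
    exact Or.inl ⟨j / 3, by omega, Option.isSome_iff_ne_none.1 h2, rfl⟩
  · rw [Option.map_eq_some_iff] at h
    obtain ⟨k, hk, rfl⟩ := h
    exact Or.inr ⟨k, hk, rfl⟩

lemma run_from_real {s : List ℕ} : ∀ (u : List ℕ) (τ : CState),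
    run lam (.real s) u = some τ → (∃ v, τ = .real (v ++ s)) ∨
      (∃ v k, lam (v ++ s) = some k ∧ τ = .q k) ∨ (∃ i, τ = .o i) ∨ τ = .full := by
  apply reach_inv (P := fun τ => (∃ v, τ = .real (v ++ s)) ∨
      (∃ v k, lam (v ++ s) = some k ∧ τ = .q k) ∨ (∃ i, τ = .o i) ∨ τ = .full)
  · rintro σ (⟨v, rfl⟩ | ⟨v, k, hk, rfl⟩ | ⟨i, rfl⟩ | rfl) j τ h
    · rcases child_real h with ⟨i, _, _, rfl⟩ | ⟨k, hk, rfl⟩
      · exact Or.inl ⟨i :: v, rfl⟩
      · exact Or.inr (Or.inl ⟨v, k, hk, rfl⟩)
    · rcases run_q (lam := lam) [j] τ h with rfl | ⟨i, _, rfl⟩ | rfl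
      · exact Or.inr (Or.inl ⟨v, k, hk, rfl⟩)
      · exact Or.inr (Or.inr (Or.inl ⟨i, rfl⟩))
      · exact Or.inr (Or.inr (Or.inr rfl))
    · obtain ⟨i', rfl, _⟩ := run_o (lam := lam) [j] τ h
      exact Or.inr (Or.inr (Or.inl ⟨i', rfl⟩))
    · cases h
      exact Or.inr (Or.inr (Or.inr rfl))
  · exact Or.inl ⟨[], rfl⟩

/-- the path in the coding tree -/
def cd (v : List ℕ) : List ℕ := v.map fun j => 3 * j

lemma cd_injective : Function.Injective cd :=
  List.map_injective_iff.2 fun a b h => by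
    have h : 3 * a = 3 * b := h
    omega

lemma length_cd (v : List ℕ) : (cd v).length = v.length := List.length_map _

section valid

variable (hv : lam.Valid)

include hv

lemma Valid.suffix {v s : List ℕ} (h : lam (v ++ s) ≠ none) : lam s ≠ none := by
  induction v with
  | nil => exact h
  | cons j v ih => exact ih (hv.parent _ _ h)

lemma run_real {s v : List ℕ} (h : lam (v ++ s) ≠ none) :
    run lam (.real s) (cd v) = some (.real (v ++ s)) := by
  induction v with
  | nil => rfl
  | cons j v ih =>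
    show (run lam (.real s) (cd v)).bind (fun τ => τ.child lam (3 * j)) = _
    rw [ih (hv.parent _ _ h)]
    exact child_real_real h

lemma cstate_cd {s : List ℕ} (h : lam s ≠ none) : cstate lam (cd s) = some (.real s) := by
  have h1 := run_real hv (s := []) (v := s) (by simpa using h)
  have h2 : cstate lam [] = some (.real []) := rfl
  have h3 := cstate_append_of h2 (cd s)
  rw [List.append_nil] at h3
  rw [h3, h1, List.append_nil]

omit hv in
lemma cstate_real {l s : List ℕ} (h : cstate lam l = some (.real s)) :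
    l = cd s ∧ (s = [] ∨ lam s ≠ none) := by
  induction l generalizing s with
  | nil =>
    cases h
    exact ⟨rfl, Or.inl rfl⟩
  | cons j l ih =>
    have h : (cstate lam l).bind (fun τ => τ.child lam j) = some (.real s) := h
    rw [Option.bind_eq_some_iff] at h
    obtain ⟨ρ, h1, h2⟩ := h
    rcases ρ with s' | k | k | _
    · rcases child_real h2 with ⟨i, rfl, hi, hs⟩ | ⟨k, _, hs⟩
      · cases hs
        obtain ⟨rfl, _⟩ := ih h1
        exact ⟨rfl, Or.inr hi⟩
      · cases hs
    · rcases run_q (lam := lam) [j] _ h2 with h3 | ⟨i, _, h3⟩ | h3 <;> cases h3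
    · obtain ⟨i, h3, _⟩ := run_o (lam := lam) [j] _ h2
      cases h3
    · cases h2

lemma cstate_real' {l s : List ℕ} (h : cstate lam l = some (.real s)) :
    l = cd s ∧ lam s ≠ none := by
  obtain ⟨h1, h2⟩ := cstate_real h
  refine ⟨h1, ?_⟩
  rcases h2 with rfl | h2
  · exact hv.root
  · exact h2

lemma exists_long {s : List ℕ} (hs : lam s ≠ none) (n : ℕ) :
    ∃ v : List ℕ, v.length = n ∧ lam (v ++ s) ≠ none := by
  induction n with
  | zero => exact ⟨[], rfl, hs⟩
  | succ n ih =>
    obtain ⟨v, h1, h2⟩ := ih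
    obtain ⟨j, hj⟩ := hv.child _ h2
    exact ⟨j :: v, by simp [h1], hj⟩

lemma label_ge {s : List ℕ} {k : ℕ} (h : lam s = some k) : s.length ≤ k := by
  rw [← hv.level s k h]
  exact Nat.unpair_left_le k

/-! ### Reachability of the marked states -/

omit hv in
lemma has_o_o {m k : ℕ} : Has lam (· = .o m) (.o k) ↔ m ≤ k := by
  constructor
  · rintro ⟨u, τ, h1, h2⟩
    obtain ⟨i, h3, h4⟩ := run_o u τ h1
    rw [h2] at h3
    cases h3
    omega
  · intro h
    induction k with
    | zero =>
      have : m = 0 := by omega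
      subst this
      exact Has.self rfl
    | succ k ih =>
      rcases Nat.lt_or_ge k m with h1 | h1
      · have : m = k + 1 := by omega
        subst this
        exact Has.self rfl
      · exact Has.of_child (j := 0) (τ := .o k) rfl (ih h1)

omit hv in
lemma not_has_o_full {m : ℕ} : ¬ Has lam (· = .o m) .full := by
  rintro ⟨u, τ, h1, h2⟩
  rw [run_full u τ h1] at h2
  cases h2

omit hv in
lemma has_o_q {m k : ℕ} : Has lam (· = .o m) (.q k) ↔ m ≤ k := by
  constructor
  · rintro ⟨u, τ, h1, h2⟩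
    rcases run_q u τ h1 with h3 | ⟨i, hi, h3⟩ | h3
    · rw [h2] at h3; cases h3
    · rw [h2] at h3; cases h3; exact hi
    · rw [h2] at h3; cases h3
  · intro h
    exact Has.of_child (child_q_even k 0) (has_o_o.2 h)

lemma has_o_real {m : ℕ} {s : List ℕ} (hs : lam s ≠ none) : Has lam (· = .o m) (.real s) := by
  obtain ⟨v, h1, h2⟩ := exists_long hv hs m
  obtain ⟨k, hk⟩ := Option.ne_none_iff_exists'.1 h2
  have h3 := label_ge hv hk
  rw [List.length_append] at h3
  refine Has.of_run (run_real hv h2) (Has.of_child (child_real_q hk 0) (has_o_q.2 (by omega)))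

omit hv in
lemma not_has_full_o {k : ℕ} : ¬ Has lam (· = .full) (.o k) := by
  rintro ⟨u, τ, h1, h2⟩
  obtain ⟨i, h3, _⟩ := run_o u τ h1
  rw [h2] at h3
  cases h3

omit hv in
lemma has_full_q {k : ℕ} : Has lam (· = .full) (.q k) :=
  Has.of_child (child_q_odd k 0) (Has.self rfl)

omit hv in
lemma has_q_o {m k : ℕ} : ¬ Has lam (· = .q m) (.o k) := by
  rintro ⟨u, τ, h1, h2⟩
  obtain ⟨i, h3, _⟩ := run_o u τ h1
  rw [h2] at h3
  cases h3

omit hv in
lemma has_q_full {m : ℕ} : ¬ Has lam (· = .q m) .full := by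
  rintro ⟨u, τ, h1, h2⟩
  rw [run_full u τ h1] at h2
  cases h2

omit hv in
lemma has_q_q {m k : ℕ} : Has lam (· = .q m) (.q k) ↔ m = k := by
  constructor
  · rintro ⟨u, τ, h1, h2⟩
    rcases run_q u τ h1 with h3 | ⟨i, hi, h3⟩ | h3
    · rw [h2] at h3; cases h3; rfl
    · rw [h2] at h3; cases h3
    · rw [h2] at h3; cases h3
  · rintro rfl
    exact Has.self rfl

lemma has_q_real {m : ℕ} {s : List ℕ} :
    Has lam (· = .q m) (.real s) ↔ ∃ v, lam (v ++ s) = some m := by
  constructor
  · rintro ⟨u, τ, h1, h2⟩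
    rcases run_from_real u τ h1 with ⟨v, h3⟩ | ⟨v, k, hk, h3⟩ | ⟨i, h3⟩ | h3
    · rw [h2] at h3; cases h3
    · rw [h2] at h3; cases h3; exact ⟨v, hk⟩
    · rw [h2] at h3; cases h3
    · rw [h2] at h3; cases h3
  · rintro ⟨v, hk⟩
    exact Has.of_run (run_real hv (by rw [hk]; simp)) (Has.of_child (child_real_q hk 0)
      (Has.self rfl))

/-! ### Closures -/

omit hv in
lemma infinite_of_inj {A : Set ℕ} (f : ℕ → ℕ) (hf : Function.Injective f) {B : Set ℕ}
    (hB : B.Infinite) (h : ∀ j ∈ B, f j ∈ A) : A.Infinite :=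
  (hB.image hf.injOn).mono (by rintro _ ⟨j, hj, rfl⟩; exact h j hj)

omit hv in
lemma CM_o_o {m k : ℕ} : CM lam (· = .o m) (.o k) ↔ m ≤ k := by
  constructor
  · rintro (h | h)
    · cases h; exact le_rfl
    · obtain ⟨j, τ, h1, h2⟩ := h.nonempty
      exact has_o_o.1 (Has.of_child h1 h2)
  · intro h
    rcases h.lt_or_eq with h | rfl
    · right
      obtain ⟨k, rfl⟩ : ∃ k', k = k' + 1 := ⟨k - 1, by omega⟩
      refine Set.infinite_univ.mono fun j _ => ⟨.o k, rfl, has_o_o.2 (by omega)⟩
    · exact Or.inl rfl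

omit hv in
lemma CM_has {p : CState → Prop} {σ : CState} (h : CM lam p σ) : Has lam p σ := by
  rcases h with h | h
  · exact Has.self h
  · obtain ⟨j, τ, h1, h2⟩ := h.nonempty
    exact Has.of_child h1 h2

omit hv in
lemma CM_o_q {m k : ℕ} : CM lam (· = .o m) (.q k) ↔ m ≤ k := by
  constructor
  · intro h; exact has_o_q.1 (CM_has h)
  · intro h
    right
    refine infinite_of_inj (fun j => 2 * j) (fun a b h => by
      have h : 2 * a = 2 * b := h
      omega) Set.infinite_univ fun j _ => ⟨.o k, child_q_even k j, has_o_o.2 h⟩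

lemma CM_o_real {m : ℕ} {s : List ℕ} (hs : lam s ≠ none) : CM lam (· = .o m) (.real s) := by
  right
  obtain ⟨j, hj⟩ := hv.child s hs
  refine infinite_of_inj (fun j => 3 * j) (fun a b h => by
      have h : 3 * a = 3 * b := h
      omega) (hv.rep s j hj) fun i hi => ?_
  have h1 : lam (i :: s) ≠ none := by
    have := hi []
    simp only [List.nil_append] at this
    rw [this]; exact hj
  exact ⟨.real (i :: s), child_real_real h1, has_o_real hv h1⟩

omit hv in
lemma CM_full_q {k : ℕ} : CM lam (· = .full) (.q k) := by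
  right
  refine infinite_of_inj (fun j => 2 * j + 1) (fun a b h => by
      have h : 2 * a + 1 = 2 * b + 1 := h
      omega) Set.infinite_univ fun j _ => ⟨.full, child_q_odd k j, Has.self rfl⟩

omit hv in
lemma CM_full_real {s : List ℕ} (hs : lam s ≠ none) : CM lam (· = .full) (.real s) := by
  right
  obtain ⟨k, hk⟩ := Option.ne_none_iff_exists'.1 hs
  refine infinite_of_inj (fun j => 3 * j + 1) (fun a b h => by
      have h : 3 * a + 1 = 3 * b + 1 := h
      omega) Set.infinite_univ fun j _ => ⟨.q k, child_real_q hk j, has_full_q⟩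

lemma CM_q_real {m : ℕ} {s : List ℕ} :
    CM lam (· = .q m) (.real s) ↔ ∃ v, lam (v ++ s) = some m := by
  constructor
  · intro h
    exact (has_q_real hv).1 (CM_has h)
  · rintro ⟨v, hk⟩
    right
    rcases List.eq_nil_or_concat v with rfl | ⟨u, i, rfl⟩
    · refine infinite_of_inj (fun j => 3 * j + 1) (fun a b h => by
        have h : 3 * a + 1 = 3 * b + 1 := h
        omega) Set.infinite_univ fun j _ => ⟨.q m, child_real_q hk j, Has.self rfl⟩
    · have hk' : lam (u ++ i :: s) = some m := by simpa using hk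
      have hi : lam (i :: s) ≠ none := Valid.suffix hv (v := u) (by rw [hk']; simp)
      refine infinite_of_inj (fun j => 3 * j) (fun a b h => by
        have h : 3 * a = 3 * b := h
        omega) (hv.rep s i hi) fun i' hi' => ?_
      have h1 : lam (i' :: s) ≠ none := by
        have := hi' []
        simp only [List.nil_append] at this
        rw [this]; exact hi
      exact ⟨.real (i' :: s), child_real_real h1, (has_q_real hv).2 ⟨u, by rw [hi' u, hk']⟩⟩

end valid

/-! ### Branches -/

/-- states on a branch are never of type `o` -/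
lemma branch_not_o {x : EndPt (codeTree lam)} {b : ℕ → ℕ} (hx : x.1 = Sum.inr b) {n k : ℕ} :
    cstate lam (pref b n) ≠ some (.o k) := by
  intro h
  have h1 := pref_suffix b (Nat.le_add_right n (k + 1))
  obtain ⟨u, hu⟩ := h1
  obtain ⟨σ, hσ⟩ := exists_state (mem_of_inr hx (n + (k + 1)))
  rw [← hu, cstate_append_of h] at hσ
  obtain ⟨i, _, hi⟩ := run_o u σ hσ
  have h2 := congrArg List.length hu
  rw [List.length_append, length_pref, length_pref] at h2
  omega

lemma branch_full {x : EndPt (codeTree lam)} {b : ℕ → ℕ} (hx : x.1 = Sum.inr b) :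
    (∀ n, ∃ s, cstate lam (pref b n) = some (.real s)) ∨
      ∃ n, cstate lam (pref b n) = some .full := by
  by_cases h : ∀ n, ∃ s, cstate lam (pref b n) = some (.real s)
  · exact Or.inl h
  · right
    push Not at h
    obtain ⟨n, hn⟩ := h
    obtain ⟨σ, hσ⟩ := exists_state (mem_of_inr hx n)
    rcases σ with s | k | k | _
    · exact absurd hσ (hn s)
    · obtain ⟨τ, hτ⟩ := exists_state (mem_of_inr hx (n + 1))
      have h1 : (CState.q k).child lam (b n) = some τ := by
        rw [← cstate_cons_of hσ]; exact hτ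
      rcases run_q (lam := lam) [b n] τ h1 with rfl | ⟨i, _, rfl⟩ | rfl
      · exfalso
        have h2 : (if (b n) % 2 = 0 then some (CState.o k) else some .full) =
          some (CState.q k) := h1
        split_ifs at h2 <;> cases h2
      · exact absurd hτ (branch_not_o hx)
      · exact ⟨n + 1, hτ⟩
    · exact absurd hσ (branch_not_o hx)
    · exact ⟨n, hσ⟩

/-! ### The isolated points -/

/-- the nodes of type `o i` with `i < n` -/
def low (n : ℕ) (σ : CState) : Prop := ∃ i, i < n ∧ σ = .o i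

lemma not_isolated {n : ℕ} {x : EndPt (codeTree lam)} {l : List ℕ} {σ : CState}
    (hx : x.1 = Sum.inl l) (hσ : cstate lam l = some σ)
    (h : {j | ∃ τ, σ.child lam j = some τ ∧ ¬ low n τ}.Infinite) :
    x ∉ iso (pts _ (SP lam (low n))) := by
  rintro ⟨_, U, hU, hxU, h2⟩
  obtain ⟨F, hF⟩ := nhd_node hx hU hxU
  obtain ⟨j, ⟨τ, hτ, hτ2⟩, hj⟩ := h.exists_notMem_finset F
  have hc : cstate lam (j :: l) = some τ := by rw [cstate_cons_of hσ, hτ]
  set y : EndPt (codeTree lam) := nd (mem_codeTree hc) with hy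
  have hy1 : y.1 = Sum.inl (j :: l) := rfl
  have h3 : y ∈ U := by
    apply hF
    · rw [mem_cone, hy1]
      exact inC_inl.2 (List.suffix_cons _ _)
    · intro j' hj' hc
      rw [mem_cone, hy1, inC_inl] at hc
      have h4 := hc.eq_of_length (by simp)
      have h5 : j' = j := by simpa using h4
      exact hj (h5 ▸ hj')
  have h4 := h2 y h3 (by
    rw [mem_pts_SP hy1 hc]
    exact hτ2)
  have h5 : y.1 = x.1 := by rw [h4]
  rw [hy1, hx] at h5
  have h6 := congrArg List.length (Sum.inl.inj h5)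
  simp at h6

lemma iso_low (hv : lam.Valid) (n : ℕ) : iso (pts _ (SP lam (low n))) =
    pts (codeTree lam) (SP lam (· = .o n)) := by
  ext x
  constructor
  · intro h
    rcases hx : x.1 with l | b
    · obtain ⟨σ, hσ⟩ := exists_state (mem_of_inl hx)
      have hxD := h.1
      rw [mem_pts_SP hx hσ] at hxD
      rw [mem_pts_SP hx hσ]
      by_contra hcon
      refine not_isolated hx hσ ?_ h
      rcases σ with s | k | k | _
      · have hs := (cstate_real' hv hσ).2
        obtain ⟨k, hk⟩ := Option.ne_none_iff_exists'.1 hs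
        refine infinite_of_inj (fun j => 3 * j + 1) (fun a b h => by
          have h : 3 * a + 1 = 3 * b + 1 := h
          omega) Set.infinite_univ fun j _ => ⟨.q k, child_real_q hk j, ?_⟩
        rintro ⟨i, _, hi⟩
        cases hi
      · refine infinite_of_inj (fun j => 2 * j + 1) (fun a b h => by
          have h : 2 * a + 1 = 2 * b + 1 := h
          omega) Set.infinite_univ fun j _ => ⟨.full, child_q_odd k j, ?_⟩
        rintro ⟨i, _, hi⟩
        cases hi
      · have h1 : n ≤ k := by
          by_contra h2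
          exact hxD ⟨k, not_le.1 h2, rfl⟩
        have h2 : k ≠ n := by rintro rfl; exact hcon rfl
        obtain ⟨k, rfl⟩ : ∃ k', k = k' + 1 := ⟨k - 1, by omega⟩
        refine Set.infinite_univ.mono fun j _ => ⟨.o k, rfl, ?_⟩
        rintro ⟨i, h3, hi⟩
        cases hi
        omega
      · refine Set.infinite_univ.mono fun j _ => ⟨.full, rfl, ?_⟩
        rintro ⟨i, _, hi⟩
        cases hi
    · exfalso
      obtain ⟨_, U, hU, hxU, h2⟩ := h
      obtain ⟨m, hm⟩ := nhd_branch hx hU hxU
      set y : EndPt (codeTree lam) := nd (mem_of_inr hx m) with hy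
      have hy1 : y.1 = Sum.inl (pref b m) := rfl
      have h3 : y ∈ U := hm (by rw [mem_cone, hy1]; exact inC_inl.2 (List.suffix_refl _))
      obtain ⟨σ, hσ⟩ := exists_state (mem_of_inr hx m)
      have h4 := h2 y h3 (by
        rw [mem_pts_SP hy1 hσ]
        rintro ⟨i, _, rfl⟩
        exact branch_not_o hx hσ)
      have h5 : y.1 = x.1 := by rw [h4]
      rw [hy1, hx] at h5
      cases h5
  · rintro ⟨l, ⟨σ, hσ, rfl⟩, hx⟩
    refine ⟨?_, cone _ l, isOpen_cone (mem_of_inl hx), ?_, ?_⟩
    · rw [mem_pts_SP hx hσ]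
      rintro ⟨i, hi, h⟩
      cases h
      omega
    · rw [mem_cone, hx]; exact inC_inl.2 (List.suffix_refl _)
    · intro y hy hyD
      rw [mem_cone] at hy
      rcases hy with ⟨u, hu⟩ | ⟨b, hb, hbl⟩
      · obtain ⟨τ, hτ⟩ := exists_state (mem_of_inl hu)
        rw [mem_pts_SP hu hτ] at hyD
        rw [cstate_append_of hσ] at hτ
        obtain ⟨i, rfl, hi⟩ := run_o u τ hτ
        have h1 : ¬ i < n := fun h => hyD ⟨i, h, rfl⟩
        have h2 : u = [] := List.eq_nil_of_length_eq_zero (by omega)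
        subst h2
        apply Subtype.ext
        rw [hu, hx]
        rfl
      · exfalso
        rw [← hbl] at hσ
        exact branch_not_o hb hσ

lemma rem_eq (hv : lam.Valid) (n : ℕ) :
    rem (EndPt (codeTree lam)) n = pts _ (SP lam (low n)) := by
  induction n with
  | zero =>
    ext x
    simp only [rem, mem_empty_iff_false, false_iff]
    rintro ⟨l, ⟨σ, _, i, hi, _⟩, _⟩
    omega
  | succ n ih =>
    show rem _ n ∪ iso (rem _ n) = _
    rw [ih, iso_low hv]
    ext x
    constructor
    · rintro (⟨l, ⟨σ, h1, i, hi, rfl⟩, h2⟩ | ⟨l, ⟨σ, h1, rfl⟩, h2⟩)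
      · exact ⟨l, ⟨_, h1, i, by omega, rfl⟩, h2⟩
      · exact ⟨l, ⟨_, h1, n, by omega, rfl⟩, h2⟩
    · rintro ⟨l, ⟨σ, h1, i, hi, rfl⟩, h2⟩
      rcases Nat.lt_or_ge i n with h | h
      · exact Or.inl ⟨l, ⟨_, h1, i, h, rfl⟩, h2⟩
      · have : i = n := by omega
        subst this
        exact Or.inr ⟨l, ⟨_, h1, rfl⟩, h2⟩

/-- topological definition of the `q k` nodes -/
def Qs (X : Type*) [TopologicalSpace X] (k : ℕ) : Set X :=
  closure (iso (rem X k)) ∩ (closure (iso (rem X (k + 1))))ᶜ ∩
    closure (closure (iso (rem X 0)))ᶜ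

lemma corr_Qs {X Y : Type*} [TopologicalSpace X] [TopologicalSpace Y] (h : X ≃ₜ Y) (k : ℕ) :
    Corr h (Qs X k) (Qs Y k) :=
  ((corr_rem h k).iso.closure.inter (corr_rem h (k + 1)).iso.closure.compl).inter
    (corr_rem h 0).iso.closure.compl.closure

lemma Qs_eq (hv : lam.Valid) (k : ℕ) :
    Qs (EndPt (codeTree lam)) k = pts _ (SP lam (· = .q k)) := by
  unfold Qs
  simp only [rem_eq hv, iso_low hv]
  ext x
  rcases hx : x.1 with l | b
  · obtain ⟨σ, hσ⟩ := exists_state (mem_of_inl hx)
    rw [mem_pts_SP hx hσ, mem_inter_iff, mem_inter_iff, mem_compl_iff, closure_node hx hσ,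
      closure_node hx hσ]
    have hfull : pts (codeTree lam) (SP lam (· = .full)) ⊆
        (closure (pts (codeTree lam) (SP lam (· = .o 0))))ᶜ := by
      rintro y ⟨l', ⟨τ, hτ, rfl⟩, hy⟩
      rw [mem_compl_iff, closure_node hy hτ]
      exact fun h => not_has_o_full (CM_has h)
    rcases σ with s | i | i | _
    · -- real node
      have hs := (cstate_real' hv hσ).2
      constructor
      · rintro ⟨⟨_, h⟩, _⟩
        exact absurd (CM_o_real hv hs) h
      · intro h; cases h
    · constructor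
      · rintro ⟨⟨h1, h2⟩, _⟩
        rw [CM_o_q] at h1 h2
        have : i = k := by omega
        rw [this]
      · intro h
        cases h
        refine ⟨⟨CM_o_q.2 le_rfl, fun h => by rw [CM_o_q] at h; omega⟩, ?_⟩
        apply closure_mono hfull
        rw [closure_node hx hσ]
        exact CM_full_q
    · constructor
      · rintro ⟨_, h⟩
        exfalso
        rw [mem_closure_iff] at h
        obtain ⟨y, hy, hy2⟩ := h (cone _ l) (isOpen_cone (mem_of_inl hx)) (by
          rw [mem_cone, hx]; exact inC_inl.2 (List.suffix_refl _))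
        apply hy2
        rw [mem_cone] at hy
        rcases hy with ⟨u, hu⟩ | ⟨b, hb, hbl⟩
        · obtain ⟨τ, hτ⟩ := exists_state (mem_of_inl hu)
          have hτ' := hτ
          rw [cstate_append_of hσ] at hτ
          obtain ⟨i', rfl, hi⟩ := run_o u τ hτ
          rw [closure_node hu hτ']
          exact CM_o_o.2 (Nat.zero_le _)
        · exfalso
          rw [← hbl] at hσ
          exact branch_not_o hb hσ
      · intro h; cases h
    · constructor
      · rintro ⟨⟨h, _⟩, _⟩
        exact absurd (CM_has h) not_has_o_full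
      · intro h; cases h
  · constructor
    · rintro ⟨⟨h1, h2⟩, _⟩
      exfalso
      rw [closure_branch hx] at h1
      rw [mem_compl_iff, closure_branch hx] at h2
      rcases branch_full hx with h3 | ⟨n, h3⟩
      · apply h2
        intro n σ hσ
        obtain ⟨s, hs⟩ := h3 n
        rw [hσ] at hs
        cases hs
        exact has_o_real hv (cstate_real' hv hσ).2
      · exact not_has_o_full (h1 n _ h3)
    · intro h
      exact absurd h (notMem_pts_branch hx)

/-- the real nodes having a node with label `k` in their subtree -/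
lemma closure_Qs (hv : lam.Valid) (k : ℕ) (x : EndPt (codeTree lam)) :
    x ∈ closure (Qs (EndPt (codeTree lam)) k) \ Qs (EndPt (codeTree lam)) k ↔
      ∃ s, lam s ≠ none ∧ x.1 = Sum.inl (cd s) ∧ ∃ v, lam (v ++ s) = some k := by
  rw [Qs_eq hv]
  constructor
  · rintro ⟨h1, h2⟩
    rcases hx : x.1 with l | b
    · obtain ⟨σ, hσ⟩ := exists_state (mem_of_inl hx)
      rw [closure_node hx hσ] at h1
      rw [mem_pts_SP hx hσ] at h2
      rcases σ with s | i | i | _
      · obtain ⟨rfl, hs⟩ := cstate_real' hv hσ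
        exact ⟨s, hs, rfl, (CM_q_real hv).1 h1⟩
      · exfalso
        have := has_q_q.1 (CM_has h1)
        subst this
        exact h2 rfl
      · exact absurd (CM_has h1) has_q_o
      · exact absurd (CM_has h1) has_q_full
    · exfalso
      rw [closure_branch hx] at h1
      rcases branch_full hx with h3 | ⟨n, h3⟩
      · obtain ⟨s, hs⟩ := h3 ((Nat.unpair k).1 + 1)
        obtain ⟨v, hk⟩ := (has_q_real hv).1 (h1 _ _ hs)
        have h4 := hv.level _ _ hk
        have h5 := (cstate_real hs).1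
        have h6 := congrArg List.length h5
        rw [length_pref, length_cd] at h6
        rw [List.length_append] at h4
        omega
      · exact has_q_full (h1 n _ h3)
  · rintro ⟨s, hs, hx, hk⟩
    have hσ := cstate_cd hv hs
    refine ⟨?_, ?_⟩
    · rw [closure_node hx hσ]
      exact (CM_q_real hv).2 hk
    · rw [mem_pts_SP hx hσ]
      intro h
      cases h

end code

/-! ### The relation -/

section final

variable {lam lam' : LTree} (hv : lam.Valid) (hv' : lam'.Valid)
  (h : EndPt (codeTree lam) ≃ₜ EndPt (codeTree lam'))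

include hv hv'

lemma real_to_real {x : EndPt (codeTree lam)} {s : List ℕ} {k : ℕ} (hx : x.1 = Sum.inl (cd s))
    (hk : lam s = some k) :
    ∃ s' v, lam' s' ≠ none ∧ (h x).1 = Sum.inl (cd s') ∧ lam' (v ++ s') = some k := by
  have h1 : x ∈ closure (Qs (EndPt (codeTree lam)) k) \ Qs (EndPt (codeTree lam)) k :=
    (closure_Qs hv k x).2 ⟨s, by rw [hk]; simp, hx, [], hk⟩
  have h2 : h x ∈ closure (Qs (EndPt (codeTree lam')) k) \ Qs (EndPt (codeTree lam')) k :=
    ⟨((corr_Qs h k).closure x).1 h1.1, fun h3 => h1.2 ((corr_Qs h k x).2 h3)⟩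
  obtain ⟨s', h3, h4, v, h5⟩ := (closure_Qs hv' k (h x)).1 h2
  exact ⟨s', v, h3, h4, h5⟩

lemma real_real {x : EndPt (codeTree lam)} {s : List ℕ} (hx : x.1 = Sum.inl (cd s))
    (hs : lam s ≠ none) :
    ∃ s', lam' s' = lam s ∧ s'.length = s.length ∧ (h x).1 = Sum.inl (cd s') := by
  obtain ⟨k, hk⟩ := Option.ne_none_iff_exists'.1 hs
  obtain ⟨s', v, h1, h2, h3⟩ := real_to_real hv hv' h hx hk
  obtain ⟨k', hk'⟩ := Option.ne_none_iff_exists'.1 h1
  obtain ⟨s'', w, h4, h5, h6⟩ := real_to_real hv' hv h.symm h2 hk'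
  rw [Homeomorph.symm_apply_apply, hx] at h5
  have h7 : s = s'' := cd_injective (Sum.inl.inj h5)
  subst h7
  have e1 := hv.level _ _ hk
  have e2 := hv'.level _ _ h3
  have e3 := hv'.level _ _ hk'
  have e4 := hv.level _ _ h6
  rw [List.length_append] at e2 e4
  have e5 : v = [] := List.eq_nil_of_length_eq_zero (by omega)
  subst e5
  refine ⟨s', ?_, by omega, h2⟩
  rw [hk]
  exact h3

/-- one half of the condition on the children -/
lemma children {x : EndPt (codeTree lam)} {s s' : List ℕ} (hx : x.1 = Sum.inl (cd s))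
    (hs : lam s ≠ none) (hx' : (h x).1 = Sum.inl (cd s')) :
    ∀ᶠ j in Filter.cofinite, lam (j :: s) ≠ none → ∃ (j' : ℕ) (y : EndPt (codeTree lam)),
      y.1 = Sum.inl (cd (j :: s)) ∧ (h y).1 = Sum.inl (cd (j' :: s')) := by
  have hlen : s'.length = s.length := by
    obtain ⟨s'', _, h2, h3⟩ := real_real hv hv' h hx hs
    rw [hx'] at h3
    rw [cd_injective (Sum.inl.inj h3), h2]
  have hopen : IsOpen (h ⁻¹' cone _ (cd s')) :=
    (isOpen_cone (mem_of_inl hx')).preimage h.continuous
  obtain ⟨F, hF⟩ := nhd_node hx hopen (by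
    rw [mem_preimage, mem_cone, hx']; exact inC_inl.2 (List.suffix_refl _))
  have hfin : {j | 3 * j ∈ F}.Finite := by
    have hinj : Set.InjOn (fun j : ℕ => 3 * j) ((fun j : ℕ => 3 * j) ⁻¹' (F : Set ℕ)) :=
      fun a _ b _ h => by
        have h : 3 * a = 3 * b := h
        omega
    exact F.finite_toSet.preimage hinj
  rw [Filter.eventually_cofinite]
  refine hfin.subset fun j hj => ?_
  by_contra hcon
  apply hj
  intro hjs
  have hmem := mem_codeTree (cstate_cd hv hjs)
  refine ?_
  set y : EndPt (codeTree lam) := nd hmem with hy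
  have hy1 : y.1 = Sum.inl (cd (j :: s)) := rfl
  have h1 : y ∈ h ⁻¹' cone _ (cd s') := by
    apply hF
    · rw [mem_cone, hy1]
      exact inC_inl.2 (List.suffix_cons _ _)
    · intro i hi hc
      rw [mem_cone, hy1, inC_inl] at hc
      have h2 := hc.eq_of_length (by simp [cd])
      have h3 : i = 3 * j := by
        have h2 : i :: cd s = (3 * j) :: cd s := h2
        simpa using h2
      subst h3
      exact hcon hi
  obtain ⟨s'', h2, h3, h4⟩ := real_real hv hv' h hy1 hjs
  rw [mem_preimage, mem_cone, h4, inC_inl] at h1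
  obtain ⟨u, hu⟩ := h1
  rcases s'' with _ | ⟨j', t⟩
  · simp at h3
  · have hlen2 : t.length = s'.length := by
      simp at h3
      omega
    have h5 : u.length = 1 := by
      have := congrArg List.length hu
      rw [List.length_append, length_cd, length_cd] at this
      simp at this
      omega
    obtain ⟨c, rfl⟩ := List.length_eq_one_iff.1 h5
    have h6 : c :: cd s' = (3 * j') :: cd t := hu
    have h7 : cd s' = cd t := by
      have := congrArg List.tail h6
      exact this
    have h8 := cd_injective h7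
    subst h8
    exact ⟨j', y, hy1, h4⟩

end final

end J3

open J3 in
/-- **(J3)** the labelled tree can be recovered, up to weak isomorphism, from the end space. -/
theorem statementJ3 : StatementJ3 := by
  rintro lam lam' hv hv' ⟨h⟩
  refine ⟨fun s s' => lam s ≠ none ∧ lam' s' ≠ none ∧ ∃ x : EndPt (codeTree lam),
    x.1 = Sum.inl (cd s) ∧ (h x).1 = Sum.inl (cd s'), ?_, ?_⟩
  · refine ⟨hv.root, hv'.root, nd (mem_codeTree (cstate_cd hv hv.root)), rfl, ?_⟩
    obtain ⟨s', _, h2, h3⟩ := real_real hv hv' h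
      (x := nd (mem_codeTree (cstate_cd hv hv.root))) rfl hv.root
    rw [h3, List.eq_nil_of_length_eq_zero h2]
  · rintro s s' ⟨hs, hs', x, hx, hx'⟩
    refine ⟨?_, ?_, ?_⟩
    · obtain ⟨s'', h1, _, h3⟩ := real_real hv hv' h hx hs
      rw [hx'] at h3
      rw [cd_injective (Sum.inl.inj h3), h1]
    · filter_upwards [children hv hv' h hx hs hx'] with j hj hjs
      obtain ⟨j', y, hy, hy'⟩ := hj hjs
      refine ⟨j', hjs, ?_, y, hy, hy'⟩
      obtain ⟨s'', h1, _, h3⟩ := real_real hv hv' h hy hjs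
      rw [hy'] at h3
      rw [cd_injective (Sum.inl.inj h3), h1]
      exact hjs
    · have hx'' : (h.symm (h x)).1 = Sum.inl (cd s) := by
        rw [Homeomorph.symm_apply_apply]; exact hx
      filter_upwards [children hv' hv h.symm hx' hs' hx''] with j' hj' hjs'
      obtain ⟨j, y, hy, hy'⟩ := hj' hjs'
      refine ⟨j, ?_, hjs', h.symm y, hy', by rw [Homeomorph.apply_symm_apply]; exact hy⟩
      obtain ⟨s'', h1, _, h3⟩ := real_real hv' hv h.symm hy hjs'
      rw [hy'] at h3
      rw [cd_injective (Sum.inl.inj h3), h1]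
      exact hjs'

end Pool.Agent.BorelManifold
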