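import Pool.Agent.Lib.BorelManifold.TreeJ1
import Pool.Agent.Lib.BorelManifold.TreeJ2
import Pool.Agent.Lib.BorelManifold.TreeJ3

/-!
# Assembly of the coding of labelled trees by manifolds
-/

namespace Pool.Agent.BorelManifold

open Set Topology Filter Metric
open scoped ContDiff

section Perm

/-- The map of the full tree given by permutations at all nodes. -/
def permMap (ρ : List ℕ → ℕ ≃ ℕ) : List ℕ → List ℕ
  | [] => []
  | j :: w => ρ w j :: permMap ρ w

/-- The inverse map. -/
def permInv (ρ : List ℕ → ℕ ≃ ℕ) : List ℕ → List ℕ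
  | [] => []
  | j :: w => (ρ (permInv ρ w)).symm j :: permInv ρ w

theorem permInv_permMap (ρ : List ℕ → ℕ ≃ ℕ) (w : List ℕ) : permInv ρ (permMap ρ w) = w := by
  induction w with
  | nil => rfl
  | cons j w ih =>
    show (ρ (permInv ρ (permMap ρ w))).symm (ρ w j) :: permInv ρ (permMap ρ w) = j :: w
    rw [ih, Equiv.symm_apply_apply]

theorem permMap_permInv (ρ : List ℕ → ℕ ≃ ℕ) (w : List ℕ) : permMap ρ (permInv ρ w) = w := by
  induction w with
  | nil => rfl
  | cons j w ih =>
    show ρ (permInv ρ w) ((ρ (permInv ρ w)).symm j) :: permMap ρ (permInv ρ w) = j :: w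
    rw [ih, Equiv.apply_symm_apply]

/-- The automorphism of the full tree given by permutations at all nodes. -/
def permEquiv (ρ : List ℕ → ℕ ≃ ℕ) : List ℕ ≃ List ℕ :=
  ⟨permMap ρ, permInv ρ, permInv_permMap ρ, permMap_permInv ρ⟩

theorem isTreeAut_permEquiv (ρ : List ℕ → ℕ ≃ ℕ) : IsTreeAut (permEquiv ρ) :=
  ⟨rfl, fun s j => ⟨ρ s j, rfl⟩⟩

/-- A tree automorphism is given by permutations. -/
theorem exists_perm_of_aut {Φ : List ℕ ≃ List ℕ} (h0 : Φ [] = [])
    (h : ∀ s j, ∃ j', Φ (j :: s) = j' :: Φ s) (s : List ℕ) :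
    ∃ σ : ℕ ≃ ℕ, ∀ j, Φ (j :: s) = σ j :: Φ s := by
  choose f hf using h s
  have hinj : Function.Injective f := by
    intro i j hij
    have h1 : Φ (i :: s) = Φ (j :: s) := by rw [hf, hf, hij]
    exact (List.cons.inj (Φ.injective h1)).1
  have hsurj : Function.Surjective f := by
    intro j'
    cases hu : Φ.symm (j' :: Φ s) with
    | nil =>
      have h1 : Φ [] = j' :: Φ s := by rw [← hu, Equiv.apply_symm_apply]
      rw [h0] at h1
      exact absurd h1 (by simp)
    | cons j u =>
      have h1 : Φ (j :: u) = j' :: Φ s := by rw [← hu, Equiv.apply_symm_apply]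
      obtain ⟨j'', h2⟩ := h u j
      rw [h1] at h2
      have h3 : u = s := Φ.injective (List.cons.inj h2).2.symm
      subst h3
      refine ⟨j, ?_⟩
      rw [hf j] at h1
      exact (List.cons.inj h1).1
  exact ⟨Equiv.ofBijective f ⟨hinj, hsurj⟩, hf⟩

/-- The permutation `3 i ↦ 3 σ i` which fixes all numbers not divisible by `3`. -/
def triple (σ : ℕ → ℕ) (j : ℕ) : ℕ := if j % 3 = 0 then 3 * σ (j / 3) else j

theorem triple_triple {σ τ : ℕ → ℕ} (h : ∀ i, τ (σ i) = i) (j : ℕ) :
    triple τ (triple σ j) = j := by
  unfold triple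
  by_cases hj : j % 3 = 0
  · rw [if_pos hj]
    have h1 : 3 * σ (j / 3) % 3 = 0 := Nat.mul_mod_right 3 _
    have h2 : 3 * σ (j / 3) / 3 = σ (j / 3) := Nat.mul_div_cancel_left _ (by norm_num)
    rw [if_pos h1, h2, h]
    omega
  · rw [if_neg hj, if_neg hj]

/-- The permutation of the children of a state. -/
def stPerm (ρ : List ℕ → ℕ ≃ ℕ) : Option CState → ℕ ≃ ℕ
  | some (.real s) => ⟨triple (ρ s), triple (ρ s).symm,
      triple_triple fun i => (ρ s).symm_apply_apply i,
      triple_triple fun i => (ρ s).apply_symm_apply i⟩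
  | _ => Equiv.refl ℕ

/-- The image of a state. -/
def stMap (Φ : List ℕ → List ℕ) : CState → CState
  | .real s => .real (Φ s)
  | σ => σ

theorem child_stMap {lam lam' : LTree} {Φ : List ℕ ≃ List ℕ} {ρ : List ℕ → ℕ ≃ ℕ}
    (hρ : ∀ s j, Φ (j :: s) = ρ s j :: Φ s) (hlam : ∀ s, lam' (Φ s) = lam s)
    (σ : CState) (j : ℕ) :
    (stMap Φ σ).child lam' (stPerm ρ (some σ) j) = (σ.child lam j).map (stMap Φ) := by
  cases σ with
  | real s =>
    show CState.child lam' (.real (Φ s)) (triple (ρ s) j) = _
    unfold triple
    by_cases h0 : j % 3 = 0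
    · rw [if_pos h0]
      have h1 : 3 * ρ s (j / 3) % 3 = 0 := Nat.mul_mod_right 3 _
      have h2 : 3 * ρ s (j / 3) / 3 = ρ s (j / 3) := Nat.mul_div_cancel_left _ (by norm_num)
      simp only [CState.child, h0, h1, h2, if_true]
      rw [← hρ, hlam]
      split_ifs
      · rfl
      · rfl
    · rw [if_neg h0]
      simp only [CState.child, h0, if_false]
      by_cases h1 : j % 3 = 1
      · simp only [h1, if_true]
        rw [hlam]
        cases lam s <;> rfl
      · simp only [h1, if_false]
        rfl
  | q k =>
    show CState.child lam' (.q k) j = _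
    simp only [CState.child]
    split_ifs <;> rfl
  | o k =>
    show CState.child lam' (.o k) j = _
    cases k <;> rfl
  | full => rfl

/-- An isomorphism of labelled trees induces an isomorphism of the coding trees. -/
theorem exists_aut_of_iso {lam lam' : LTree} (h : lam.Iso lam') :
    ∃ Ψ : List ℕ ≃ List ℕ, IsTreeAut Ψ ∧ Ψ '' codeTree lam = codeTree lam' := by
  obtain ⟨Φ, h0, h1, h2⟩ := h
  choose ρ hρ using exists_perm_of_aut h0 h1
  let Ψ := permEquiv fun w => stPerm ρ (cstate lam w)
  have key : ∀ w, cstate lam' (Ψ w) = (cstate lam w).map (stMap Φ) := by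
    intro w
    induction w with
    | nil =>
      show some (CState.real []) = some (CState.real (Φ []))
      rw [h0]
    | cons j w ih =>
      show (cstate lam' (Ψ w)).bind (fun σ => σ.child lam' (stPerm ρ (cstate lam w) j)) =
        ((cstate lam w).bind fun σ => σ.child lam j).map (stMap Φ)
      rw [ih]
      cases hw : cstate lam w with
      | none => rfl
      | some σ =>
        show (stMap Φ σ).child lam' (stPerm ρ (some σ) j) = (σ.child lam j).map (stMap Φ)
        exact child_stMap hρ h2 σ j
  refine ⟨Ψ, isTreeAut_permEquiv _, ?_⟩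
  have hmem : ∀ w, Ψ w ∈ codeTree lam' ↔ w ∈ codeTree lam := by
    intro w
    show (cstate lam' (Ψ w)).isSome ↔ (cstate lam w).isSome
    rw [key w, Option.isSome_map]
  ext w
  constructor
  · rintro ⟨u, hu, rfl⟩
    exact (hmem u).mpr hu
  · intro hw
    refine ⟨Ψ.symm w, ?_, Ψ.apply_symm_apply w⟩
    rw [← hmem, Ψ.apply_symm_apply]
    exact hw

end Perm

section Meas

instance : Countable CState := by
  let f : CState → ℕ × List ℕ × ℕ := fun σ => match σ with
    | .real s => (0, s, 0)
    | .q k => (1, [], k)
    | .o k => (2, [], k)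
    | .full => (3, [], 0)
  have hf : Function.Injective f := by
    intro σ τ h
    cases σ <;> cases τ <;> simp_all [f]
  exact hf.countable

theorem measurableSet_child {Ω : Type*} [MeasurableSpace Ω] {L : Ω → LTree}
    (hL : ∀ s k, MeasurableSet {w | L w s = k}) (τ : CState) (j : ℕ) (σ : Option CState) :
    MeasurableSet {w | τ.child (L w) j = σ} := by
  cases τ with
  | real s =>
    by_cases h0 : j % 3 = 0
    · have h1 : {w | (CState.real s).child (L w) j = σ} =
          ({w | L w ((j / 3) :: s) = none} ∩ {_w | (none : Option CState) = σ}) ∪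
          ({w | L w ((j / 3) :: s) = none}ᶜ ∩
            {_w | some (CState.real ((j / 3) :: s)) = σ}) := by
        ext w
        simp only [CState.child, h0, if_true, mem_union, mem_inter_iff, mem_compl_iff]
        show (if (L w ((j / 3) :: s)).isSome then some (CState.real ((j / 3) :: s)) else none) = σ ↔
          (L w ((j / 3) :: s) = none ∧ none = σ) ∨ (¬ (L w ((j / 3) :: s) = none) ∧
            some (CState.real ((j / 3) :: s)) = σ)
        cases L w ((j / 3) :: s) <;> simp
      rw [h1]
      exact ((hL _ _).inter (MeasurableSet.const _)).union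
        ((hL _ _).compl.inter (MeasurableSet.const _))
    · by_cases h1 : j % 3 = 1
      · have h2 : {w | (CState.real s).child (L w) j = σ} =
            ⋃ q : Option ℕ, {w | L w s = q} ∩ {_w | q.map CState.q = σ} := by
          ext w
          simp only [CState.child, h1, if_true, mem_iUnion, mem_inter_iff]
          show (L w s).map CState.q = σ ↔ ∃ q, L w s = q ∧ q.map CState.q = σ
          constructor
          · intro h
            exact ⟨_, rfl, h⟩
          · rintro ⟨q, rfl, h⟩
            exact h
        rw [h2]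
        exact MeasurableSet.iUnion fun q => (hL _ _).inter (MeasurableSet.const _)
      · have h2 : {w | (CState.real s).child (L w) j = σ} = {_w | (none : Option CState) = σ} := by
          ext w
          simp only [CState.child, h0, h1, if_false]
        rw [h2]
        exact MeasurableSet.const _
  | q k =>
    have : {w | (CState.q k).child (L w) j = σ} =
        {_w | (CState.q k).child (fun _ => none) j = σ} := rfl
    rw [this]
    exact MeasurableSet.const _
  | o k =>
    have : {w | (CState.o k).child (L w) j = σ} =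
        {_w | (CState.o k).child (fun _ => none) j = σ} := by
      cases k <;> rfl
    rw [this]
    exact MeasurableSet.const _
  | full =>
    have : {w | CState.full.child (L w) j = σ} = {_w | some CState.full = σ} := rfl
    rw [this]
    exact MeasurableSet.const _

theorem measurableSet_cstate {Ω : Type*} [MeasurableSpace Ω] {L : Ω → LTree}
    (hL : ∀ s k, MeasurableSet {w | L w s = k}) (u : List ℕ) (σ : Option CState) :
    MeasurableSet {w | cstate (L w) u = σ} := by
  induction u generalizing σ with
  | nil => exact MeasurableSet.const (some (CState.real []) = σ)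
  | cons j u ih =>
    have h1 : {w | cstate (L w) (j :: u) = σ} =
        ({w | cstate (L w) u = none} ∩ {_w | (none : Option CState) = σ}) ∪
        ⋃ τ : CState, {w | cstate (L w) u = some τ} ∩ {w | τ.child (L w) j = σ} := by
      ext w
      simp only [mem_union, mem_iUnion, mem_inter_iff]
      show (cstate (L w) u).bind (fun τ => τ.child (L w) j) = σ ↔
        (cstate (L w) u = none ∧ none = σ) ∨
          ∃ τ, cstate (L w) u = some τ ∧ τ.child (L w) j = σ
      cases cstate (L w) u with
      | none => simp
      | some τ => simp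
    rw [h1]
    exact ((ih none).inter (MeasurableSet.const _)).union
      (MeasurableSet.iUnion fun τ => (ih (some τ)).inter (measurableSet_child hL τ j σ))

theorem measurableSet_codeTree {Ω : Type*} [MeasurableSpace Ω] {L : Ω → LTree}
    (hL : ∀ s k, MeasurableSet {w | L w s = k}) (u : List ℕ) :
    MeasurableSet {w | u ∈ codeTree (L w)} := by
  have h1 : {w | u ∈ codeTree (L w)} = {w | cstate (L w) u = none}ᶜ := by
    ext w
    show (cstate (L w) u).isSome ↔ ¬ (cstate (L w) u = none)
    cases cstate (L w) u <;> simp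
  rw [h1]
  exact (measurableSet_cstate hL u none).compl

end Meas

/-- Diffeomorphic manifolds are homeomorphic. -/
theorem Diffeomorphic.homeo {n N n' N' : ℕ} {M : ManifoldSpace n N} {M' : ManifoldSpace n' N'}
    (h : Diffeomorphic M M') : Nonempty (M.1 ≃ₜ M'.1) := by
  obtain ⟨f, g, hf, hg, h1, h2, h3, h4⟩ := h
  have hcont : ∀ {a b : ℕ} {f : Eu a → Eu b} {S : Set (Eu a)}, SmoothOnSet f S →
      ContinuousOn f S := by
    intro a b f S hf x hx
    obtain ⟨U, F, hU, hxU, hF, hFf⟩ := hf x hx
    have h5 : ContinuousWithinAt F S x :=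
      ((hF x hxU).continuousWithinAt.continuousAt (hU.mem_nhds hxU)).continuousWithinAt
    refine h5.congr_of_eventuallyEq ?_ (hFf x ⟨hx, hxU⟩).symm
    filter_upwards [self_mem_nhdsWithin, mem_nhdsWithin_of_mem_nhds (hU.mem_nhds hxU)]
      with z hz hzU
    exact (hFf z ⟨hz, hzU⟩).symm
  exact ⟨{
    toFun := fun x => ⟨f x.1, h1 x.2⟩
    invFun := fun y => ⟨g y.1, h2 y.2⟩
    left_inv := fun x => Subtype.ext (h3 x.1 x.2)
    right_inv := fun y => Subtype.ext (h4 y.1 y.2)
    continuous_toFun := ((continuousOn_iff_continuous_domRestrict.mp (hcont hf))).subtype_mk _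
    continuous_invFun := ((continuousOn_iff_continuous_domRestrict.mp (hcont hg))).subtype_mk _ }⟩

/-- **Part D**: labelled trees are coded by manifolds. -/
theorem treeCoding {k N : ℕ} (hN : k + 3 ≤ N) : TreeCoding (k + 2) N := by
  obtain ⟨𝒩, h1, h2, h3⟩ := statementJ1 k N hN
  refine ⟨fun lam => 𝒩 (codeTree lam), ?_, ?_, ?_⟩
  · intro Ω _ L hL
    exact h1 Ω (fun w => codeTree (L w)) (fun w => J3.isTree_codeTree _)
      (fun s => measurableSet_codeTree hL s)
  · intro lam lam' h
    obtain ⟨Ψ, hΨ, himg⟩ := exists_aut_of_iso h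
    have h4 := h3 (codeTree lam) Ψ (J3.isTree_codeTree lam) hΨ
    rw [himg] at h4
    exact h4
  · intro lam lam' hv hv' h
    obtain ⟨e⟩ := h.homeo
    obtain ⟨e1⟩ := h2 (codeTree lam) (J3.isTree_codeTree lam)
    obtain ⟨e2⟩ := h2 (codeTree lam') (J3.isTree_codeTree lam')
    exact statementJ3 lam lam' hv hv' (statementJ2 k _ _ (J3.isTree_codeTree lam)
      (J3.isTree_codeTree lam') ⟨(e1.symm.trans e).trans e2⟩)

end Pool.Agent.BorelManifold
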