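import Pool.Agent.Lib.BorelManifold.Emb

/-!
# Ambient isotopy classes of embeddings of compact pieces
-/

namespace Pool.Agent.BorelManifold

open Set Topology Filter Metric
open scoped ContDiff

variable {E : Type*} [NormedAddCommGroup E] [InnerProductSpace ℝ E] [FiniteDimensional ℝ E]

/-- Two germs of embeddings of `A` into `M` are equivalent if they differ by a diffeomorphism
of `M` which is compactly supported in `W`. -/
def Eqv (A : Set E) (r : ℝ) (M W : Set E) (y y' : E → E) : Prop :=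
  ∃ h : Diffc M W, GermEq A r (h.toFun ∘ y) y'

omit [FiniteDimensional ℝ E] in
theorem Eqv.of_germEq {A : Set E} {r : ℝ} {M W : Set E} {y y' : E → E}
    (h : GermEq A r y y') : Eqv A r M W y y' := ⟨Diffc.refl M W, h⟩

omit [FiniteDimensional ℝ E] in
theorem Eqv.refl (A : Set E) (r : ℝ) (M W : Set E) (y : E → E) : Eqv A r M W y y :=
  Eqv.of_germEq (GermEq.refl A r y)

omit [FiniteDimensional ℝ E] in
theorem Eqv.symm {A : Set E} {r : ℝ} {M W : Set E} {y y' : E → E} (hy : IsEmb A r M W y)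
    (h : Eqv A r M W y y') : Eqv A r M W y' y := by
  obtain ⟨h, t, ht, htt⟩ := h
  obtain ⟨s, hs, hst, -, h2, -⟩ := hy.shrink ht
  refine ⟨h.symm, s, hs, fun x hx => ?_⟩
  have hsub : x ∈ A ∩ ball (0 : E) t := ⟨hx.1, ball_subset_ball hst hx.2⟩
  show h.invFun (y' x) = y x
  rw [← htt x hsub]
  exact h.left_inv _ (h2 hx).1

omit [FiniteDimensional ℝ E] in
theorem Eqv.trans {A : Set E} {r : ℝ} {M W : Set E} {y y' y'' : E → E}
    (h : Eqv A r M W y y') (h' : Eqv A r M W y' y'') : Eqv A r M W y y'' := by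
  obtain ⟨h, hg⟩ := h
  obtain ⟨h', hg'⟩ := h'
  exact ⟨h'.comp h, (hg.comp_left h'.toFun).trans hg'⟩

omit [FiniteDimensional ℝ E] in
theorem Eqv.mono {A : Set E} {r : ℝ} {M W W' : Set E} {y y' : E → E}
    (h : Eqv A r M W y y') (hW : W ⊆ W') : Eqv A r M W' y y' := by
  obtain ⟨h, hg⟩ := h
  exact ⟨h.mono hW, hg⟩

theorem IsEmb.of_eqv {n : ℕ} {A M W : Set E} (hA : IsMfd n A) (hM : IsMfd n M) {r : ℝ}
    {y y' : E → E} (hy : IsEmb A r M W y) (h : Eqv A r M W y y') : IsEmb A r M W y' := by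
  obtain ⟨h, hg⟩ := h
  exact (hy.diffc_comp hA.closed hM h).congr hg.symm

omit [FiniteDimensional ℝ E] in
theorem GermEq.comp_right {A B : Set E} {r r' : ℝ} {W : Set E} {f g y : E → E}
    (h : GermEq B r' f g) (hy : IsEmb A r B W y) (hW : W ⊆ ball 0 r') :
    GermEq A r (f ∘ y) (g ∘ y) := by
  obtain ⟨t, ht, htt⟩ := h
  obtain ⟨s, hs, -, h2, -⟩ := hy
  refine ⟨s, hs, fun x hx => htt _ ⟨(h2 hx).1, ball_subset_ball ht.le (hW (h2 hx).2)⟩⟩

omit [FiniteDimensional ℝ E] in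
theorem Eqv.comp_right {A B M W : Set E} {r r' : ℝ} {z z' y : E → E}
    (h : Eqv B r' M W z z') (hy : IsEmb A r B (ball 0 r') y) :
    Eqv A r M W (z ∘ y) (z' ∘ y) := by
  obtain ⟨h, hg⟩ := h
  exact ⟨h, hg.comp_right hy subset_rfl⟩

theorem Eqv.comp_left {n : ℕ} {A B M W : Set E} (hB : IsMfd n B) (hM : IsMfd n M) {r r' : ℝ}
    {z y y' : E → E} (h : Eqv A r B (ball 0 r') y y') (hy : IsEmb A r B (ball 0 r') y)
    (hz : IsEmb B r' M W z) : Eqv A r M W (z ∘ y) (z ∘ y') := by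
  obtain ⟨h, t, ht, htt⟩ := h
  obtain ⟨s, hs, h1, h2, c, hc, h3⟩ := hz
  obtain ⟨U, g, hU, hpd⟩ := IsEmb.partDiffeo (r := r') hB hM h1 h2 hc h3
  obtain ⟨C, hC, hCW, hCs⟩ := h.supp
  have hball : ball (0 : E) r' ⊆ ball 0 s := ball_subset_ball hs.le
  obtain ⟨H, hH⟩ := hpd.transport hU hB.closed (h.mono hball) (W := W)
    ⟨C, hC, hCs, hCW.trans hball, fun x hx => (h2 ⟨hx.1, hball (hCW hx.2)⟩).2⟩
  obtain ⟨u, hu, hut, -, hy2, -⟩ := hy.shrink ht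
  refine ⟨H, u, hu, fun x hx => ?_⟩
  have h4 := hy2 hx
  show H.toFun (z (y x)) = z (y' x)
  rw [hH (y x) ⟨h4.1, hball h4.2⟩]
  have h5 := htt x ⟨hx.1, ball_subset_ball hut hx.2⟩
  show z (h.toFun (y x)) = z (y' x)
  rw [← h5]
  rfl

/-- Maps which are close (in the Lipschitz sense) to an embedding are equivalent to it. -/
theorem close_eqv {n : ℕ} {A M W : Set E} (hA : IsMfd n A) (hM : IsMfd n M) (hW : IsOpen W)
    {r s : ℝ} (hr : 0 ≤ r) (hrs : r < s) {y : E → E}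
    (h1 : ContDiffOn ℝ ∞ y (A ∩ ball 0 s)) (h2 : MapsTo y (A ∩ ball 0 s) (M ∩ W))
    {c : ℝ} (hc : 0 < c)
    (h3 : ∀ x ∈ A ∩ ball 0 s, ∀ x' ∈ A ∩ ball 0 s, c * ‖x - x'‖ ≤ ‖y x - y x'‖) :
    ∃ δ : ℝ, 0 < δ ∧ ∀ y' : E → E, ContDiffOn ℝ ∞ y' (A ∩ ball 0 s) →
      MapsTo y' (A ∩ ball 0 s) M → (∀ x ∈ A ∩ ball 0 s, ‖y' x - y x‖ ≤ δ) →
      (∀ x ∈ A ∩ ball 0 s, ∀ x' ∈ A ∩ ball 0 s,
        ‖(y' x - y x) - (y' x' - y x')‖ ≤ δ * ‖x - x'‖) → Eqv A r M W y y' := by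
  obtain ⟨U, g, hU, hpd⟩ := IsEmb.partDiffeo (r := r) hA hM h1 h2 hc h3
  have hsub : A ∩ closedBall (0 : E) r ⊆ A ∩ ball 0 s :=
    inter_subset_inter_right _ (closedBall_subset_ball hrs)
  have hK : IsCompact (y '' (A ∩ closedBall (0 : E) r)) :=
    ((isCompact_closedBall _ _).inter_left hA.closed).image_of_continuousOn
      (h1.continuousOn.mono hsub)
  have hKW : y '' (A ∩ closedBall (0 : E) r) ⊆ W ∩ U := by
    rintro _ ⟨x, hx, rfl⟩
    exact ⟨(h2 (hsub hx)).2, (hpd.maps (hsub hx)).2⟩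
  obtain ⟨δ, hδ, hpert⟩ := perturbation hM.sub hM.closed hM.conn hK (hW.inter hU) hKW
  refine ⟨min δ (c * δ), lt_min hδ (mul_pos hc hδ), ?_⟩
  intro y' hy'1 hy'2 hy'3 hy'4
  have hgmaps : MapsTo g (M ∩ (W ∩ U)) (A ∩ ball 0 s) := fun p hp =>
    hpd.maps_inv ⟨hp.1, hp.2.2⟩
  have hlip : ∀ p ∈ M ∩ U, ∀ q ∈ M ∩ U, c * ‖g p - g q‖ ≤ ‖p - q‖ := by
    intro p hp q hq
    have := h3 _ (hpd.maps_inv hp) _ (hpd.maps_inv hq)
    rwa [hpd.right_inv p hp, hpd.right_inv q hq] at this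
  obtain ⟨h, hh⟩ := hpert (y' ∘ g)
    (hy'1.comp (hpd.smooth_inv.mono (fun p hp => ⟨hp.1, hp.2.2⟩)) hgmaps)
    (hy'2.comp hgmaps)
    (by
      intro p hp
      have hp' : p ∈ M ∩ U := ⟨hp.1, hp.2.2⟩
      have := hy'3 _ (hgmaps hp)
      rw [hpd.right_inv p hp'] at this
      exact this.trans (min_le_left _ _))
    (by
      intro p hp q hq
      have hp' : p ∈ M ∩ U := ⟨hp.1, hp.2.2⟩
      have hq' : q ∈ M ∩ U := ⟨hq.1, hq.2.2⟩
      have h5 := hy'4 _ (hgmaps hp) _ (hgmaps hq)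
      rw [hpd.right_inv p hp', hpd.right_inv q hq'] at h5
      have h6 := hlip p hp' q hq'
      refine h5.trans ?_
      calc min δ (c * δ) * ‖g p - g q‖ ≤ (c * δ) * ‖g p - g q‖ := by
            gcongr
            exact min_le_right _ _
        _ = δ * (c * ‖g p - g q‖) := by ring
        _ ≤ δ * ‖p - q‖ := by gcongr)
  obtain ⟨V, hV, hKV, hVh⟩ := eventually_nhdsSet_iff_exists.mp hh
  obtain ⟨s', hs', hs's, hmap⟩ := exists_ball_mapsTo hA.closed hr hrs h1.continuousOn hV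
    (fun x hx => hKV (mem_image_of_mem y hx))
  refine ⟨h.mono inter_subset_left, s', hs', fun x hx => ?_⟩
  have hx' : x ∈ A ∩ ball (0 : E) s := ⟨hx.1, ball_subset_ball hs's hx.2⟩
  have h5 := hVh (y x) (hmap hx) (h2 hx').1
  show h.toFun (y x) = y' x
  rw [h5]
  show y' (g (y x)) = y' x
  rw [hpd.left_inv x hx']

end Pool.Agent.BorelManifold
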