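import Pool.Agent.Lib.BorelManifold.Ladder

/-!
# Manifolds are coded by labelled trees
-/

namespace Pool.Agent.BorelManifold

open Set Topology Filter Metric
open scoped ContDiff

variable {n N : ℕ}

/-- Smoothness on a submanifold, in terms of `ContDiffOn`. -/
theorem smoothOnSet_iff {M : Set (Eu N)} (hM : IsMfd n M) {f : Eu N → Eu N} :
    SmoothOnSet f M ↔ ContDiffOn ℝ ∞ f M := by
  constructor
  · intro h x hx
    obtain ⟨U, F, hU, hxU, hF, hFf⟩ := h x hx
    have h1 : ContDiffWithinAt ℝ ∞ F M x :=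
      ((hF x hxU).contDiffAt (hU.mem_nhds hxU)).contDiffWithinAt
    refine h1.congr_of_eventuallyEq ?_ (hFf x ⟨hx, hxU⟩).symm
    filter_upwards [self_mem_nhdsWithin, mem_nhdsWithin_of_mem_nhds (hU.mem_nhds hxU)]
      with z hz hzU
    exact (hFf z ⟨hz, hzU⟩).symm
  · intro h x hx
    obtain ⟨O, π, hπ⟩ := hM.exists_retr
    refine ⟨O, f ∘ π, hπ.isOpen, hπ.sub hx, h.comp hπ.smooth fun z _ => hπ.mem z, ?_⟩
    rintro z ⟨hz, -⟩
    show f (π z) = f z
    rw [hπ.id z hz]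

theorem diffeomorphic_iff (M M' : ManifoldSpace n N) :
    Diffeomorphic M M' ↔ ∃ f g : Eu N → Eu N, PartDiffeo M.1 univ M'.1 univ f g := by
  constructor
  · rintro ⟨f, g, hf, hg, h1, h2, h3, h4⟩
    refine ⟨f, g, ((smoothOnSet_iff M.isMfd).mp hf).mono inter_subset_left,
      ((smoothOnSet_iff M'.isMfd).mp hg).mono inter_subset_left,
      fun x hx => ⟨h1 hx.1, mem_univ _⟩, fun x hx => ⟨h2 hx.1, mem_univ _⟩,
      fun x hx => h3 x hx.1, fun x hx => h4 x hx.1⟩
  · rintro ⟨f, g, h⟩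
    refine ⟨f, g, (smoothOnSet_iff M.isMfd).mpr ?_, (smoothOnSet_iff M'.isMfd).mpr ?_,
      fun x hx => (h.maps ⟨hx, mem_univ _⟩).1, fun x hx => (h.maps_inv ⟨hx, mem_univ _⟩).1,
      fun x hx => h.left_inv x ⟨hx, mem_univ _⟩, fun x hx => h.right_inv x ⟨hx, mem_univ _⟩⟩
    · have := h.smooth
      rwa [inter_univ] at this
    · have := h.smooth_inv
      rwa [inter_univ] at this

/-- **Parts B and C**: classification of manifolds by labelled trees. -/
theorem exists_trees (n N : ℕ) : ∃ Lam : ManifoldSpace n N → LTree,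
    (∀ M, (Lam M).Valid) ∧ (∀ s q, MeasurableSet {M | Lam M s = q}) ∧
    (∀ M M', Diffeomorphic M M' → (Lam M).Iso (Lam M')) ∧
    (∀ M M', (Lam M).WeakIso (Lam M') → Diffeomorphic M M') := by
  classical
  by_cases hne : Nonempty (ManifoldSpace n N)
  · obtain ⟨M₀⟩ := hne
    obtain ⟨𝔖⟩ := exists_sys (E := Eu N) n ⟨M₀.1, M₀.isMfd⟩
    refine ⟨fun M => 𝔖.lamD (𝔖.idx M.1) (𝔖.jj M.1), fun M => 𝔖.lamD_valid (𝔖.validC M.isMfd),
      fun s q => 𝔖.measurableSet_lamD (fun k => 𝔖.measurable_idx k) (fun k => 𝔖.measurable_jj k)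
        s q, fun M M' h => ?_, fun M M' h => ?_⟩
    · obtain ⟨f, g, hfg⟩ := (diffeomorphic_iff M M').mp h
      exact 𝔖.iso_of_diffeo M.isMfd M'.isMfd hfg
    · exact (diffeomorphic_iff M M').mpr (𝔖.diffeo_of_weakIso M.isMfd M'.isMfd h)
  · refine ⟨fun M => (hne ⟨M⟩).elim, fun M => (hne ⟨M⟩).elim, fun s q => ?_,
      fun M => (hne ⟨M⟩).elim, fun M => (hne ⟨M⟩).elim⟩
    have : {M : ManifoldSpace n N | (fun M => (hne ⟨M⟩).elim : ManifoldSpace n N → LTree) M s = q}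
        = ∅ := by
      ext M
      exact (hne ⟨M⟩).elim
    rw [this]
    exact MeasurableSet.empty

/-- The reduction, given a coding of labelled trees by manifolds. -/
theorem borelReducible_of_treeCoding {m N' : ℕ} (h : TreeCoding m N') :
    BorelReducible (Diffeomorphic : ManifoldSpace n N → ManifoldSpace n N → Prop)
      (Diffeomorphic : ManifoldSpace m N' → ManifoldSpace m N' → Prop) := by
  obtain ⟨Lam, h1, h2, h3, h4⟩ := exists_trees n N
  obtain ⟨𝒩, h5, h6, h7⟩ := h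
  refine ⟨fun M => 𝒩 (Lam M), h5 _ Lam h2, fun M M' => ⟨fun h => h6 _ _ (h3 M M' h), fun h => ?_⟩⟩
  exact h4 M M' (h7 _ _ (h1 M) (h1 M') h)

end Pool.Agent.BorelManifold
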