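import Pool.Agent.Lib.BorelManifold.Trans

/-!
# Comparison of embeddings through the codes of the transition maps
-/

namespace Pool.Agent.BorelManifold

open Set Topology Filter Metric
open scoped ContDiff

variable {E : Type*} [NormedAddCommGroup E] [InnerProductSpace ℝ E] [FiniteDimensional ℝ E]

namespace Sys

variable {n : ℕ} (𝔖 : Sys n E)

/-- The composite of the coded transition maps from the `k`-th to the `m`-th piece. -/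
noncomputable def cmp (l j : ℕ → ℕ) (k : ℕ) : ℕ → E → E
  | 0 => id
  | m + 1 => if m < k then id else 𝔖.mor (l m) (l (m + 1)) (j m) ∘ cmp l j k m

theorem cmp_self (l j : ℕ → ℕ) (k : ℕ) : 𝔖.cmp l j k k = id := by
  cases k with
  | zero => rfl
  | succ k => simp [cmp]

theorem cmp_succ (l j : ℕ → ℕ) {k m : ℕ} (h : k ≤ m) :
    𝔖.cmp l j k (m + 1) = 𝔖.mor (l m) (l (m + 1)) (j m) ∘ 𝔖.cmp l j k m := by
  simp [cmp, not_lt.mpr h]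

/-- Equality of the classes of two embeddings into the union of the pieces. -/
def EqC (l j : ℕ → ℕ) (a : ℕ) (k : ℕ) (u : E → E) (k' : ℕ) (u' : E → E) : Prop :=
  ∃ m, k < m ∧ k' < m ∧ Eqv (𝔖.A a) (𝔖.r a) (𝔖.A (l m)) (𝔖.B (l m))
    (𝔖.cmp l j k m ∘ u) (𝔖.cmp l j k' m ∘ u')

/-- The valid codes of transition maps. -/
def ValidC (l j : ℕ → ℕ) : Prop := ∀ k, 𝔖.mV (l k) (l (k + 1)) (j k)

theorem cmp_emb {l j : ℕ → ℕ} (hv : 𝔖.ValidC l j) {k m : ℕ} (h : k < m) :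
    IsEmb (𝔖.A (l k)) (𝔖.r (l k)) (𝔖.A (l m)) (𝔖.B (l m)) (𝔖.cmp l j k m) := by
  induction m, h using Nat.le_induction with
  | base =>
    rw [𝔖.cmp_succ l j le_rfl, 𝔖.cmp_self]
    exact 𝔖.mor_emb (hv k)
  | succ m hm ih =>
    rw [𝔖.cmp_succ l j (Nat.le_of_succ_le hm)]
    exact (𝔖.mor_emb (hv m)).comp ih

section Manifold

variable {M : Set E}

theorem validC (hM : IsMfd n M) : 𝔖.ValidC (𝔖.idx M) (𝔖.jj M) := fun k => (𝔖.jj_spec hM k).1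

/-- The coded transition maps are equivalent to the strict ones. -/
theorem cmp_tr (hM : IsMfd n M) {k m : ℕ} (h : k < m) :
    Eqv (𝔖.A (𝔖.idx M k)) (𝔖.r (𝔖.idx M k)) (𝔖.A (𝔖.idx M m)) (𝔖.B (𝔖.idx M m))
      (𝔖.cmp (𝔖.idx M) (𝔖.jj M) k m) (𝔖.tr M k m) := by
  induction m, h using Nat.le_induction with
  | base =>
    rw [𝔖.cmp_succ _ _ le_rfl, 𝔖.cmp_self]
    exact 𝔖.jj_eqv hM k
  | succ m hm ih =>
    rw [𝔖.cmp_succ _ _ (Nat.le_of_succ_le hm)]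
    have h1 := ih.comp_left (𝔖.hA _) (𝔖.hA _) (𝔖.cmp_emb (𝔖.validC hM) hm)
      (𝔖.mor_emb (𝔖.validC hM m))
    have h2 := (𝔖.jj_eqv hM m).comp_right (𝔖.tr_emb hM (Nat.lt_of_succ_le hm))
    exact (h1.trans h2).trans (Eqv.of_germEq (𝔖.tr_tr hM (Nat.lt_of_succ_le hm) (Nat.lt_succ_self m)))

theorem y_cmp (hM : IsMfd n M) {k m : ℕ} (h : k < m) :
    Eqv (𝔖.A (𝔖.idx M k)) (𝔖.r (𝔖.idx M k)) M univ
      (𝔖.y M m ∘ 𝔖.cmp (𝔖.idx M) (𝔖.jj M) k m) (𝔖.y M k) :=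
  ((𝔖.cmp_tr hM h).comp_left (𝔖.hA _) hM (𝔖.cmp_emb (𝔖.validC hM) h) (𝔖.y_emb hM m)).trans
    (Eqv.of_germEq (𝔖.y_tr hM h))

/-- A compactly supported diffeomorphism of `M` is induced by a diffeomorphism of a large
piece. -/
theorem lift_diffc (hM : IsMfd n M) (h : Diffc M univ) : ∃ k₀ : ℕ, ∀ m, k₀ ≤ m →
    ∃ H : Diffc (𝔖.A (𝔖.idx M m)) (𝔖.B (𝔖.idx M m)), ∀ z ∈ 𝔖.A (𝔖.idx M m) ∩ ball 0 (m : ℝ),
      𝔖.y M m (H.toFun z) = h.toFun (𝔖.y M m z) := by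
  obtain ⟨C, hC, -, hCs⟩ := h.supp
  obtain ⟨R, hR⟩ := hC.isBounded.subset_ball 0
  obtain ⟨k₀, hk₀⟩ := exists_nat_gt (R + 1)
  refine ⟨k₀, fun m hm => ?_⟩
  have hmR : R + 1 < m := hk₀.trans_le (by exact_mod_cast hm)
  obtain ⟨him, hmat⟩ := 𝔖.idx_spec hM m
  obtain ⟨hm1, -, -⟩ := id hmat
  rw [him] at hm1
  obtain ⟨hy1, hy2, hy3, hy4⟩ := 𝔖.y_spec hM m
  obtain ⟨U, g, hU, hpd⟩ := IsEmb.partDiffeo (r := (m : ℝ)) (W := univ) (𝔖.hA _) hM hy2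
    (fun z hz => ⟨(hy1 z hz).1, mem_univ _⟩) (by norm_num : (0 : ℝ) < 1 / 2) hy3
  -- the ball of radius `m` around the origin is covered
  have hcov : ∀ x ∈ M, ‖x‖ < m + 1 / 4 → x ∈ U ∧ g x = (𝔖.P (𝔖.idx M m)).π x := by
    intro x hx hxn
    have h1 := (hm1 x hx (by linarith)).2
    have h2 : ‖(𝔖.P (𝔖.idx M m)).π x‖ < m + 1 / 2 := by
      have h3 : (𝔖.P (𝔖.idx M m)).π x = x + ((𝔖.P (𝔖.idx M m)).π x - x) := by abel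
      rw [h3]
      have h4 := norm_add_le x ((𝔖.P (𝔖.idx M m)).π x - x)
      have h5 := (𝔖.P (𝔖.idx M m)).hε'
      linarith
    have h6 := hy4 x hx (by linarith) h2
    have h7 : (𝔖.P (𝔖.idx M m)).π x ∈ 𝔖.A (𝔖.idx M m) ∩ ball 0 ((m : ℝ) + 1 / 2) :=
      ⟨(𝔖.P _).retr.mem _, by simpa using h2⟩
    have h8 := hpd.maps h7
    rw [h6] at h8
    refine ⟨h8.2, ?_⟩
    have h9 := hpd.left_inv _ h7
    rwa [h6] at h9
  have hCU : M ∩ C ⊆ U := by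
    rintro x ⟨hx, hxC⟩
    have h1 : ‖x‖ < R := by simpa using hR hxC
    exact (hcov x hx (by linarith)).1
  have hMC : IsCompact (M ∩ C) := hC.inter_left hM.closed
  let h' : Diffc M U :=
    { toFun := h.toFun
      invFun := h.invFun
      smooth := h.smooth
      smooth_inv := h.smooth_inv
      maps := h.maps
      maps_inv := h.maps_inv
      left_inv := h.left_inv
      right_inv := h.right_inv
      supp := ⟨M ∩ C, hMC, hCU, fun x hx hxC => hCs x hx fun hc => hxC ⟨hx, hc⟩⟩ }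
  obtain ⟨H, hH⟩ := hpd.symm.transport isOpen_ball hM.closed h' (W := 𝔖.B (𝔖.idx M m))
    ⟨M ∩ C, hMC, fun x hx hxC => hCs x hx fun hc => hxC ⟨hx, hc⟩, hCU, by
      rintro x ⟨hx, -, hxC⟩
      have h1 : ‖x‖ < R := by simpa using hR hxC
      obtain ⟨-, h2⟩ := hcov x hx (by linarith)
      rw [h2]
      have h3 := (hm1 x hx (by linarith)).2
      have h4 : (𝔖.P (𝔖.idx M m)).π x = x + ((𝔖.P (𝔖.idx M m)).π x - x) := by abel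
      show _ ∈ ball (0 : E) (𝔖.r (𝔖.idx M m))
      rw [𝔖.r_idx hM m, mem_ball_zero_iff, h4]
      have h5 := norm_add_le x ((𝔖.P (𝔖.idx M m)).π x - x)
      have h6 := (𝔖.P (𝔖.idx M m)).hε'
      linarith⟩
  refine ⟨H, fun z hz => ?_⟩
  have hz' : z ∈ 𝔖.A (𝔖.idx M m) ∩ ball 0 ((m : ℝ) + 1 / 2) :=
    ⟨hz.1, ball_subset_ball (by linarith) hz.2⟩
  have h1 := hpd.maps hz'
  have h2 := hH (𝔖.y M m z) h1
  rw [hpd.left_inv z hz'] at h2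
  rw [h2]
  exact hpd.right_inv _ (h'.mapsTo_supp h1)

/-- **Lemma S**: comparison of embeddings into `M` through the codes. -/
theorem eqC_iff (hM : IsMfd n M) {a k k' : ℕ} {u u' : E → E}
    (hu : IsEmb (𝔖.A a) (𝔖.r a) (𝔖.A (𝔖.idx M k)) (𝔖.B (𝔖.idx M k)) u)
    (hu' : IsEmb (𝔖.A a) (𝔖.r a) (𝔖.A (𝔖.idx M k')) (𝔖.B (𝔖.idx M k')) u') :
    𝔖.EqC (𝔖.idx M) (𝔖.jj M) a k u k' u' ↔
      Eqv (𝔖.A a) (𝔖.r a) M univ (𝔖.y M k ∘ u) (𝔖.y M k' ∘ u') := by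
  have hcu : ∀ m, k < m → IsEmb (𝔖.A a) (𝔖.r a) (𝔖.A (𝔖.idx M m)) (𝔖.B (𝔖.idx M m))
      (𝔖.cmp (𝔖.idx M) (𝔖.jj M) k m ∘ u) := fun m hm => (𝔖.cmp_emb (𝔖.validC hM) hm).comp hu
  have hcu' : ∀ m, k' < m → IsEmb (𝔖.A a) (𝔖.r a) (𝔖.A (𝔖.idx M m)) (𝔖.B (𝔖.idx M m))
      (𝔖.cmp (𝔖.idx M) (𝔖.jj M) k' m ∘ u') := fun m hm => (𝔖.cmp_emb (𝔖.validC hM) hm).comp hu'
  constructor
  · rintro ⟨m, hm, hm', h⟩
    have h1 := h.comp_left (𝔖.hA _) hM (hcu m hm) (𝔖.y_emb hM m)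
    have h2 := (𝔖.y_cmp hM hm).comp_right hu
    have h3 := (𝔖.y_cmp hM hm').comp_right hu'
    exact ((h2.symm ((𝔖.y_emb hM m).comp (hcu m hm))).trans h1).trans h3
  · rintro ⟨h, hg⟩
    obtain ⟨k₀, hk₀⟩ := 𝔖.lift_diffc hM h
    set m := max k₀ (max k k' + 1) with hmdef
    have hmk₀ : k₀ ≤ m := le_max_left _ _
    have hmk : k < m := by omega
    have hmk' : k' < m := by omega
    obtain ⟨H, hH⟩ := hk₀ m hmk₀
    refine ⟨m, hmk, hmk', ?_⟩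
    have htu : IsEmb (𝔖.A a) (𝔖.r a) (𝔖.A (𝔖.idx M m)) (𝔖.B (𝔖.idx M m)) (𝔖.tr M k m ∘ u) :=
      (𝔖.tr_emb hM hmk).comp hu
    have htu' : IsEmb (𝔖.A a) (𝔖.r a) (𝔖.A (𝔖.idx M m)) (𝔖.B (𝔖.idx M m)) (𝔖.tr M k' m ∘ u') :=
      (𝔖.tr_emb hM hmk').comp hu'
    have h1 : Eqv (𝔖.A a) (𝔖.r a) (𝔖.A (𝔖.idx M m)) (𝔖.B (𝔖.idx M m)) (𝔖.tr M k m ∘ u)
        (𝔖.tr M k' m ∘ u') := by
      refine ⟨H, ?_⟩
      refine 𝔖.y_cancel hM (htu.diffc_comp (𝔖.hA _).closed (𝔖.hA _) H) htu' ?_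
      have h2 : GermEq (𝔖.A a) (𝔖.r a) (𝔖.y M m ∘ (H.toFun ∘ (𝔖.tr M k m ∘ u)))
          (h.toFun ∘ (𝔖.y M m ∘ (𝔖.tr M k m ∘ u))) := by
        obtain ⟨s, hs, -, h3, -⟩ := htu
        refine ⟨s, hs, fun x hx => ?_⟩
        have h4 := h3 hx
        have h5 : (𝔖.tr M k m ∘ u) x ∈ 𝔖.A (𝔖.idx M m) ∩ ball 0 (m : ℝ) := by
          refine ⟨h4.1, ?_⟩
          have h6 : (𝔖.tr M k m ∘ u) x ∈ ball (0 : E) (𝔖.r (𝔖.idx M m)) := h4.2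
          rwa [𝔖.r_idx hM m] at h6
        exact hH _ h5
      have h3 : GermEq (𝔖.A a) (𝔖.r a) (h.toFun ∘ (𝔖.y M m ∘ (𝔖.tr M k m ∘ u)))
          (h.toFun ∘ (𝔖.y M k ∘ u)) :=
        ((𝔖.y_tr hM hmk).comp_right hu subset_rfl).comp_left h.toFun
      have h4 : GermEq (𝔖.A a) (𝔖.r a) (𝔖.y M m ∘ (𝔖.tr M k' m ∘ u')) (𝔖.y M k' ∘ u') :=
        (𝔖.y_tr hM hmk').comp_right hu' subset_rfl
      exact ((h2.trans h3).trans hg).trans h4.symm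
    have h2 := (𝔖.cmp_tr hM hmk).comp_right hu
    have h3 := (𝔖.cmp_tr hM hmk').comp_right hu'
    exact (h2.trans h1).trans (h3.symm (hcu' m hmk'))

/-- **Lemma R**: all embeddings into `M` are coded, at all late stages. -/
theorem exists_code (hM : IsMfd n M) {a : ℕ} {v : E → E} (hv : IsEmb (𝔖.A a) (𝔖.r a) M univ v) :
    ∃ k₀ : ℕ, ∀ k, k₀ ≤ k → ∃ g, 𝔖.mV a (𝔖.idx M k) g ∧
      IsEmb (𝔖.A a) (𝔖.r a) (𝔖.A (𝔖.idx M k)) (𝔖.B (𝔖.idx M k)) ((𝔖.P (𝔖.idx M k)).π ∘ v) ∧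
      GermEq (𝔖.A a) (𝔖.r a) (𝔖.y M k ∘ ((𝔖.P (𝔖.idx M k)).π ∘ v)) v ∧
      Eqv (𝔖.A a) (𝔖.r a) (𝔖.A (𝔖.idx M k)) (𝔖.B (𝔖.idx M k)) (𝔖.mor a (𝔖.idx M k) g)
        ((𝔖.P (𝔖.idx M k)).π ∘ v) ∧
      Eqv (𝔖.A a) (𝔖.r a) M univ (𝔖.y M k ∘ 𝔖.mor a (𝔖.idx M k) g) v := by
  obtain ⟨s, hs, h1, h2, c, hc, h3⟩ := id hv
  have hK : IsCompact (v '' (𝔖.A a ∩ closedBall 0 (𝔖.r a))) :=
    ((isCompact_closedBall _ _).inter_left (𝔖.hA a).closed).image_of_continuousOn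
      (h1.continuousOn.mono (inter_subset_inter_right _ (closedBall_subset_ball hs)))
  obtain ⟨R, hR⟩ := hK.isBounded.subset_ball 0
  obtain ⟨k₀, hk₀⟩ := exists_nat_gt (R + 1)
  refine ⟨k₀, fun k hk => ?_⟩
  have hkR : R + 1 < k := hk₀.trans_le (by exact_mod_cast hk)
  obtain ⟨h4, h5⟩ := 𝔖.restr hM (𝔖.hA a).closed (𝔖.r_nonneg a) hv (k := k) (by
    intro x hx
    exact ball_subset_ball (by linarith) (hR (mem_image_of_mem v hx)))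
  obtain ⟨g, hg, hgE⟩ := 𝔖.exists_mor h4
  refine ⟨g, hg, h4, h5, hgE, ?_⟩
  exact (hgE.comp_left (𝔖.hA _) hM (𝔖.mor_emb hg) (𝔖.y_emb hM k)).trans (Eqv.of_germEq h5)

end Manifold

end Sys

end Pool.Agent.BorelManifold
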