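import Pool.Agent.Lib.BorelManifold.Classes

/-!
# Countability: second countability of spaces of smooth maps in the `C^1` sense
-/

namespace Pool.Agent.BorelManifold

open Set Topology Filter Metric
open scoped ContDiff

variable {E : Type*} [NormedAddCommGroup E] [InnerProductSpace ℝ E] [FiniteDimensional ℝ E]

/-- Countable selection in the `C^1` topology over a compact set. -/
theorem countable_C1 {Z : Type*} {Q : Set E} (hQ : IsCompact Q) (F : Z → E → E)
    (hF : ∀ z, ContinuousOn (F z) Q) (hF' : ∀ z, ContinuousOn (fderiv ℝ (F z)) Q)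
    (η : Z → ℝ) (hη : ∀ z, 0 < η z) :
    ∃ Z₀ : Set Z, Z₀.Countable ∧ ∀ z, ∃ z₀ ∈ Z₀, ∀ x ∈ Q, ‖F z x - F z₀ x‖ < η z₀ ∧
      ‖fderiv ℝ (F z) x - fderiv ℝ (F z₀) x‖ < η z₀ := by
  classical
  have : CompactSpace Q := isCompact_iff_compactSpace.mp hQ
  let J : Z → C(Q, E × (E →L[ℝ] E)) := fun z =>
    ⟨fun x => (F z x, fderiv ℝ (F z) x),
      ((continuousOn_iff_continuous_domRestrict.mp (hF z)).prodMk
        (continuousOn_iff_continuous_domRestrict.mp (hF' z)))⟩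
  let _ : TopologicalSpace Z := TopologicalSpace.induced J inferInstance
  have : SecondCountableTopology Z := TopologicalSpace.secondCountableTopology_induced Z _ J
  have hJ : Continuous J := continuous_induced_dom
  obtain ⟨Z₀, hZ₀, hcover⟩ := TopologicalSpace.countable_cover_nhds
    (f := fun z => {z' | dist (J z') (J z) < η z}) (fun z => by
      have : ContinuousAt (fun z' => dist (J z') (J z)) z :=
        (hJ.dist continuous_const).continuousAt
      exact this.eventually (gt_mem_nhds (by simpa using hη z)))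
  refine ⟨Z₀, hZ₀, fun z => ?_⟩
  have hz : z ∈ ⋃ x ∈ Z₀, {z' | dist (J z') (J x) < η x} := by
    rw [hcover]; exact mem_univ z
  obtain ⟨z₀, hz₀, hd⟩ := mem_iUnion₂.mp hz
  refine ⟨z₀, hz₀, fun x hx => ?_⟩
  have h1 : dist (J z ⟨x, hx⟩) (J z₀ ⟨x, hx⟩) < η z₀ :=
    (ContinuousMap.dist_apply_le_dist _).trans_lt hd
  rw [Prod.dist_eq, max_lt_iff, dist_eq_norm, dist_eq_norm] at h1
  exact h1

omit [FiniteDimensional ℝ E] in
/-- Uniform Lipschitz control from `C^1` control on a neighbourhood. -/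
theorem lipschitz_of_C1 {K Q : Set E} (hK : IsCompact K) (hKQ : K ⊆ interior Q) :
    ∃ C : ℝ, 1 ≤ C ∧ ∀ f : E → E, (∀ x ∈ Q, DifferentiableAt ℝ f x) → ∀ η : ℝ, 0 ≤ η →
      (∀ x ∈ Q, ‖f x‖ ≤ η ∧ ‖fderiv ℝ f x‖ ≤ η) →
      ∀ x ∈ K, ∀ y ∈ K, ‖f x - f y‖ ≤ C * η * ‖x - y‖ := by
  obtain ⟨δ, hδ, hδQ⟩ := hK.exists_thickening_subset_open isOpen_interior hKQ
  refine ⟨max 1 (2 / δ), le_max_left _ _, fun f hf η hη hfη x hx y hy => ?_⟩
  by_cases hxy : ‖x - y‖ < δ
  · have hball : ball x δ ⊆ Q := by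
      intro z hz
      exact interior_subset (hδQ (mem_thickening_iff.mpr ⟨x, hx, hz⟩))
    have h1 := (convex_ball x δ).norm_image_sub_le_of_norm_fderiv_le (𝕜 := ℝ) (f := f) (C := η)
      (fun z hz => hf z (hball hz)) (fun z hz => (hfη z (hball hz)).2)
      (show y ∈ ball x δ by rw [mem_ball, dist_eq_norm, norm_sub_rev]; exact hxy)
      (mem_ball_self hδ)
    calc ‖f x - f y‖ ≤ 1 * η * ‖x - y‖ := by rw [one_mul]; exact h1
      _ ≤ max 1 (2 / δ) * η * ‖x - y‖ := by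
          gcongr
          exact le_max_left _ _
  · push Not at hxy
    have h1 : ‖f x - f y‖ ≤ 2 * η := by
      have h2 := (hfη x (interior_subset (hKQ hx))).1
      have h3 := (hfη y (interior_subset (hKQ hy))).1
      have := norm_sub_le (f x) (f y)
      linarith
    calc ‖f x - f y‖ ≤ 2 * η := h1
      _ = 2 / δ * η * δ := by field_simp
      _ ≤ max 1 (2 / δ) * η * ‖x - y‖ := by
          gcongr
          exact le_max_right _ _

/-- A countable family of compact sets which is cofinal between compact and open sets. -/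
theorem exists_compact_family (E : Type*) [NormedAddCommGroup E] [InnerProductSpace ℝ E]
    [FiniteDimensional ℝ E] : ∃ Qs : ℕ → Set E, (∀ k, IsCompact (Qs k)) ∧
      ∀ K O : Set E, IsCompact K → IsOpen O → K ⊆ O → ∃ k, K ⊆ interior (Qs k) ∧ Qs k ⊆ O := by
  classical
  let d := TopologicalSpace.denseSeq E
  let Q : Finset (ℕ × ℕ) → Set E := fun S => ⋃ p ∈ S, closedBall (d p.1) (1 / ((p.2 : ℝ) + 1))
  obtain ⟨e, he⟩ := exists_surjective_nat (Finset (ℕ × ℕ))
  refine ⟨fun k => Q (e k), fun k => ?_, ?_⟩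
  · exact (e k).isCompact_biUnion fun p _ => isCompact_closedBall _ _
  · intro K O hK hO hKO
    suffices h : ∃ S, K ⊆ interior (Q S) ∧ Q S ⊆ O by
      obtain ⟨S, hS⟩ := h
      obtain ⟨k, rfl⟩ := he S
      exact ⟨k, hS⟩
    refine hK.induction_on (p := fun T => ∃ S, T ⊆ interior (Q S) ∧ Q S ⊆ O) ?_ ?_ ?_ ?_
    · exact ⟨∅, empty_subset _, by simp [Q]⟩
    · rintro s t hst ⟨S, h1, h2⟩
      exact ⟨S, hst.trans h1, h2⟩
    · rintro s t ⟨S, h1, h2⟩ ⟨S', h1', h2'⟩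
      have hS : Q S ⊆ Q (S ∪ S') := biUnion_subset_biUnion_left (fun p hp =>
        Finset.mem_union_left _ hp)
      have hS' : Q S' ⊆ Q (S ∪ S') := biUnion_subset_biUnion_left (fun p hp =>
        Finset.mem_union_right _ hp)
      refine ⟨S ∪ S', union_subset (h1.trans (interior_mono hS)) (h1'.trans (interior_mono hS')),
        ?_⟩
      intro x hx
      obtain ⟨p, hp, hxp⟩ := mem_iUnion₂.mp hx
      rcases Finset.mem_union.mp hp with hp | hp
      · exact h2 (mem_iUnion₂.mpr ⟨p, hp, hxp⟩)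
      · exact h2' (mem_iUnion₂.mpr ⟨p, hp, hxp⟩)
    · intro x hx
      obtain ⟨ε, hε, hεO⟩ := Metric.isOpen_iff.mp hO x (hKO hx)
      obtain ⟨m, hm⟩ := exists_nat_one_div_lt (show (0 : ℝ) < ε / 2 by positivity)
      obtain ⟨i, hi⟩ := (TopologicalSpace.denseRange_denseSeq E).exists_dist_lt x
        (show (0 : ℝ) < 1 / ((m : ℝ) + 1) by positivity)
      have hsub : closedBall (d i) (1 / ((m : ℝ) + 1)) ⊆ O := by
        intro z hz
        apply hεO
        rw [mem_ball]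
        have h1 : dist z (d i) ≤ 1 / ((m : ℝ) + 1) := hz
        have h2 := dist_triangle z (d i) x
        have h3 : dist (d i) x < 1 / ((m : ℝ) + 1) := by rw [dist_comm]; exact hi
        linarith
      refine ⟨ball (d i) (1 / ((m : ℝ) + 1)), mem_nhdsWithin_of_mem_nhds
        (isOpen_ball.mem_nhds (by rw [mem_ball]; exact hi)), {(i, m)}, ?_, ?_⟩
      · have : Q {(i, m)} = closedBall (d i) (1 / ((m : ℝ) + 1)) := by simp [Q]
        rw [this]
        exact ball_subset_interior_closedBall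
      · have : Q {(i, m)} = closedBall (d i) (1 / ((m : ℝ) + 1)) := by simp [Q]
        rw [this]
        exact hsub

/-- The data provided by the tubular neighbourhood theorem. -/
structure IsRetr (A O : Set E) (π : E → E) : Prop where
  isOpen : IsOpen O
  sub : A ⊆ O
  smooth : ContDiffOn ℝ ∞ π O
  mem : ∀ z, π z ∈ A
  id : ∀ x ∈ A, π x = x

theorem IsMfd.exists_retr {n : ℕ} {A : Set E} (hA : IsMfd n A) : ∃ O π, IsRetr A O π := by
  obtain ⟨O, π, h1, h2, h3, h4, h5⟩ := exists_smooth_retraction hA.sub hA.closed hA.conn.nonempty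
  exact ⟨O, π, h1, h2, h3, h4, h5⟩

/-- `y` is `δ`-close to `m` on `S` in the Lipschitz sense. -/
def LipClose (S : Set E) (δ : ℝ) (m y : E → E) : Prop :=
  (∀ x ∈ S, ‖y x - m x‖ ≤ δ) ∧
    ∀ x ∈ S, ∀ x' ∈ S, ‖(y x - m x) - (y x' - m x')‖ ≤ δ * ‖x - x'‖

/-- Countably many embeddings, with tolerances, suffice to approximate all embeddings. -/
theorem countable_emb {n : ℕ} {A M W : Set E} (hA : IsMfd n A) (hM : IsMfd n M)
    (hW : IsOpen W) {r s₀ : ℝ} (hr : 0 ≤ r) (hs₀ : r < s₀) :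
    ∃ S : Set ((E → E) × ℝ × ℝ), S.Countable ∧
      (∀ p ∈ S, r < p.2.1 ∧ p.2.1 ≤ s₀ ∧ 0 < p.2.2 ∧ ContDiffOn ℝ ∞ p.1 (A ∩ ball 0 p.2.1) ∧
        IsEmb A r M W p.1 ∧
        ∀ y : E → E, ContDiffOn ℝ ∞ y (A ∩ ball 0 p.2.1) → MapsTo y (A ∩ ball 0 p.2.1) M →
          LipClose (A ∩ ball 0 p.2.1) p.2.2 p.1 y → Eqv A r M W p.1 y) ∧
      ∀ y : E → E, IsEmb A r M W y → ∃ p ∈ S, ContDiffOn ℝ ∞ y (A ∩ ball 0 p.2.1) ∧
        MapsTo y (A ∩ ball 0 p.2.1) M ∧ LipClose (A ∩ ball 0 p.2.1) p.2.2 p.1 y := by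
  classical
  obtain ⟨O, π, hπ⟩ := hA.exists_retr
  set t : ℕ → ℝ := fun q => r + (s₀ - r) / ((q : ℝ) + 1) with ht
  set s : ℕ → ℝ := fun q => r + (s₀ - r) / (2 * ((q : ℝ) + 1)) with hs
  have hpos : 0 < s₀ - r := by linarith
  have hq : ∀ q : ℕ, (0 : ℝ) < (q : ℝ) + 1 := fun q => by positivity
  have hrs : ∀ q, r < s q := fun q => by
    have : 0 < (s₀ - r) / (2 * ((q : ℝ) + 1)) := by positivity
    simp only [hs]; linarith
  have hst : ∀ q, s q < t q := fun q => by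
    simp only [hs, ht]
    have : (s₀ - r) / (2 * ((q : ℝ) + 1)) < (s₀ - r) / ((q : ℝ) + 1) := by
      apply div_lt_div_of_pos_left hpos (hq q)
      linarith [hq q]
    linarith
  have hts₀ : ∀ q, t q ≤ s₀ := fun q => by
    simp only [ht]
    have : (s₀ - r) / ((q : ℝ) + 1) ≤ s₀ - r := by
      apply div_le_self hpos.le
      linarith [(Nat.cast_nonneg q : (0 : ℝ) ≤ q)]
    linarith
  let good : ℕ → (E → E) → Prop := fun q y => ContDiffOn ℝ ∞ y (A ∩ ball 0 (t q)) ∧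
    MapsTo y (A ∩ ball 0 (t q)) (M ∩ W) ∧ ∃ c : ℝ, 0 < c ∧ ∀ x ∈ A ∩ ball 0 (t q),
      ∀ x' ∈ A ∩ ball 0 (t q), c * ‖x - x'‖ ≤ ‖y x - y x'‖
  have hV : ∀ q, IsOpen (O ∩ π ⁻¹' ball 0 (t q)) := fun q =>
    hπ.smooth.continuousOn.isOpen_inter_preimage hπ.isOpen isOpen_ball
  have hK : ∀ q, IsCompact (A ∩ closedBall (0 : E) (s q)) := fun q =>
    (isCompact_closedBall _ _).inter_left hA.closed
  have hKV : ∀ q, A ∩ closedBall (0 : E) (s q) ⊆ O ∩ π ⁻¹' ball 0 (t q) := by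
    intro q x hx
    refine ⟨hπ.sub hx.1, ?_⟩
    show π x ∈ ball 0 (t q)
    rw [hπ.id x hx.1]
    exact closedBall_subset_ball (hst q) hx.2
  choose Q hQc hKQ hQV using fun q => exists_compact_between (hK q) (hV q) (hKV q)
  choose C hC1 hC using fun q => lipschitz_of_C1 (hK q) (hKQ q)
  have hballsub : ∀ q, A ∩ ball (0 : E) (s q) ⊆ A ∩ ball 0 (t q) := fun q =>
    inter_subset_inter_right _ (ball_subset_ball (hst q).le)
  -- tolerances
  have htol : ∀ q (y : {y // good q y}), ∃ δ : ℝ, 0 < δ ∧ ∀ y' : E → E,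
      ContDiffOn ℝ ∞ y' (A ∩ ball 0 (s q)) →
      MapsTo y' (A ∩ ball 0 (s q)) M → (∀ x ∈ A ∩ ball 0 (s q), ‖y' x - y.1 x‖ ≤ δ) →
      (∀ x ∈ A ∩ ball 0 (s q), ∀ x' ∈ A ∩ ball 0 (s q),
        ‖(y' x - y.1 x) - (y' x' - y.1 x')‖ ≤ δ * ‖x - x'‖) → Eqv A r M W y.1 y' := by
    rintro q ⟨y, h1, h2, c, hc, h3⟩
    exact close_eqv hA hM hW hr (hrs q) (h1.mono (hballsub q)) (h2.mono_left (hballsub q)) hc
      (fun x hx x' hx' => h3 x (hballsub q hx) x' (hballsub q hx'))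
  choose δ hδ hδE using htol
  have hsm : ∀ q (y : {y // good q y}), ContDiffOn ℝ ∞ (y.1 ∘ π) (O ∩ π ⁻¹' ball 0 (t q)) := by
    rintro q ⟨y, h1, h2, -⟩
    refine h1.comp (hπ.smooth.mono inter_subset_left) ?_
    intro z hz
    exact ⟨hπ.mem z, hz.2⟩
  have hsel : ∀ q, ∃ Z₀ : Set {y // good q y}, Z₀.Countable ∧
      ∀ z : {y // good q y}, ∃ z₀ ∈ Z₀, ∀ x ∈ Q q,
      ‖(z.1 ∘ π) x - (z₀.1 ∘ π) x‖ < δ q z₀ / C q ∧
      ‖fderiv ℝ (z.1 ∘ π) x - fderiv ℝ (z₀.1 ∘ π) x‖ < δ q z₀ / C q := by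
    intro q
    apply countable_C1 (hQc q) (fun y : {y // good q y} => y.1 ∘ π)
      (η := fun y => δ q y / C q)
    · intro y
      exact (hsm q y).continuousOn.mono (hQV q)
    · intro y
      exact ((hsm q y).continuousOn_fderiv_of_isOpen (hV q) (by simp)).mono (hQV q)
    · intro y
      exact div_pos (hδ q y) (lt_of_lt_of_le one_pos (hC1 q))
  choose Z₀ hZ₀ hZ₀' using hsel
  refine ⟨⋃ q, (fun y : {y // good q y} => (y.1, s q, δ q y)) '' Z₀ q,
    countable_iUnion fun q => (hZ₀ q).image _, ?_, ?_⟩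
  · intro p hp
    obtain ⟨q, y, hy, rfl⟩ := mem_iUnion.mp hp
    obtain ⟨h1, h2, c, hc, h3⟩ := y.2
    refine ⟨hrs q, (hst q).le.trans (hts₀ q), hδ q y, h1.mono (hballsub q),
      ⟨t q, (hrs q).trans (hst q), h1, h2, c, hc, h3⟩, ?_⟩
    intro y' h1' h2' h3'
    exact hδE q y y' h1' h2' h3'.1 h3'.2
  · rintro y ⟨u, hu, h1, h2, c, hc, h3⟩
    -- choose `q` with `t q ≤ u`
    obtain ⟨q, hq'⟩ : ∃ q, t q ≤ u := by
      obtain ⟨q, hq'⟩ := exists_nat_gt ((s₀ - r) / (u - r))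
      refine ⟨q, ?_⟩
      have h4 : 0 < u - r := by linarith
      have h5 : (s₀ - r) / ((q : ℝ) + 1) ≤ u - r := by
        rw [div_le_iff₀ (hq q)]
        rw [div_lt_iff₀ h4] at hq'
        nlinarith
      simp only [ht]
      linarith
    have hsub : A ∩ ball (0 : E) (t q) ⊆ A ∩ ball 0 u :=
      inter_subset_inter_right _ (ball_subset_ball hq')
    have hgood : good q y := ⟨h1.mono hsub, h2.mono_left hsub, c, hc,
      fun x hx x' hx' => h3 x (hsub hx) x' (hsub hx')⟩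
    obtain ⟨m, hm, hmy⟩ := hZ₀' q ⟨y, hgood⟩
    refine ⟨(m.1, s q, δ q m), mem_iUnion.mpr ⟨q, m, hm, rfl⟩,
      hgood.1.mono (hballsub q), fun x hx => (hgood.2.1 (hballsub q hx)).1, ?_, ?_⟩
    · intro x hx
      have hxK : x ∈ A ∩ closedBall (0 : E) (s q) := ⟨hx.1, ball_subset_closedBall hx.2⟩
      have h4 := (hmy x (interior_subset (hKQ q hxK))).1
      simp only [Function.comp_apply, hπ.id x hx.1] at h4
      refine h4.le.trans ?_
      exact div_le_self (hδ q m).le (hC1 q)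
    · intro x hx x' hx'
      have hxK : x ∈ A ∩ closedBall (0 : E) (s q) := ⟨hx.1, ball_subset_closedBall hx.2⟩
      have hxK' : x' ∈ A ∩ closedBall (0 : E) (s q) := ⟨hx'.1, ball_subset_closedBall hx'.2⟩
      have hC0 : 0 < C q := lt_of_lt_of_le one_pos (hC1 q)
      have hd1 : ∀ z ∈ Q q, DifferentiableAt ℝ (y ∘ π) z := fun z hz =>
        ((hsm q ⟨y, hgood⟩ z (hQV q hz)).contDiffAt ((hV q).mem_nhds (hQV q hz))).differentiableAt
          (by simp)
      have hd2 : ∀ z ∈ Q q, DifferentiableAt ℝ (m.1 ∘ π) z := fun z hz =>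
        ((hsm q m z (hQV q hz)).contDiffAt ((hV q).mem_nhds (hQV q hz))).differentiableAt
          (by simp)
      have h4 := hC q (fun z => (y ∘ π) z - (m.1 ∘ π) z) (fun z hz => (hd1 z hz).sub (hd2 z hz))
        (δ q m / C q) (div_pos (hδ q m) hC0).le (by
          intro z hz
          refine ⟨((hmy z hz).1).le, ?_⟩
          have : fderiv ℝ (fun z => (y ∘ π) z - (m.1 ∘ π) z) z =
              fderiv ℝ (y ∘ π) z - fderiv ℝ (m.1 ∘ π) z := fderiv_fun_sub (hd1 z hz) (hd2 z hz)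
          rw [this]
          exact ((hmy z hz).2).le) x hxK x' hxK'
      simp only [Function.comp_apply, hπ.id x hx.1, hπ.id x' hx'.1] at h4
      calc _ ≤ _ := h4
        _ = δ q m * ‖x - x'‖ := by
            rw [mul_div_cancel₀ _ hC0.ne']

end Pool.Agent.BorelManifold
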