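import Mathlib

/-!
# Spaces of smooth manifolds and Borel reducibility: definitions

Connected smooth `n`-manifolds are coded by the closed connected embedded smooth `n`-dimensional
submanifolds of a Euclidean space `ℝ^N` (Whitney: every smooth `n`-manifold is diffeomorphic to
such a submanifold of `ℝ^(2n+1)`), with the Effros Borel structure.
-/

namespace Pool.Agent.BorelManifold

open Set Topology
open scoped ContDiff

/-- Euclidean space of dimension `N`. -/
abbrev Eu (N : ℕ) : Type := EuclideanSpace ℝ (Fin N)

/-- A map `f` is smooth on a subset `M` of Euclidean space, in the usual sense: near every point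
of `M` it agrees on `M` with a smooth map defined on an open subset of the ambient space. -/
def SmoothOnSet {N N' : ℕ} (f : Eu N → Eu N') (M : Set (Eu N)) : Prop :=
  ∀ x ∈ M, ∃ (U : Set (Eu N)) (F : Eu N → Eu N'), IsOpen U ∧ x ∈ U ∧ ContDiffOn ℝ ∞ F U ∧
    ∀ z ∈ M ∩ U, F z = f z

/-- `M` is an `n`-dimensional embedded smooth submanifold (without boundary) of its ambient space:
around every point of `M` there is a smooth diffeomorphism between open subsets of the ambient
space which maps `M` onto an `n`-dimensional linear subspace. -/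
def IsSubmanifold (n : ℕ) {E : Type*} [NormedAddCommGroup E] [NormedSpace ℝ E]
    (M : Set E) : Prop :=
  ∀ x ∈ M, ∃ (e : OpenPartialHomeomorph E E) (V : Submodule ℝ E),
    x ∈ e.source ∧ ContDiffOn ℝ ∞ e e.source ∧ ContDiffOn ℝ ∞ e.symm e.target ∧
    Module.finrank ℝ V = n ∧ ∀ z ∈ e.source, z ∈ M ↔ e z ∈ V

/-- `M` is a nonempty closed connected embedded smooth `n`-dimensional submanifold of `ℝ^N`. -/
def IsManifoldCode (n : ℕ) {N : ℕ} (M : Set (Eu N)) : Prop :=
  IsClosed M ∧ IsConnected M ∧ IsSubmanifold n M

/-- The space of (codes of) connected smooth `n`-manifolds: the nonempty closed connected embedded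
smooth `n`-dimensional submanifolds of `ℝ^N`. -/
def ManifoldSpace (n N : ℕ) : Type := {M : Set (Eu N) // IsManifoldCode n M}

/-- The Effros Borel structure: it is generated by the sets `{M | M ∩ U ≠ ∅}`, `U` open. -/
instance (n N : ℕ) : MeasurableSpace (ManifoldSpace n N) :=
  MeasurableSpace.generateFrom
    {S | ∃ U : Set (Eu N), IsOpen U ∧ S = {M : ManifoldSpace n N | (M.1 ∩ U).Nonempty}}

/-- Two coded manifolds are diffeomorphic. -/
def Diffeomorphic {n N n' N' : ℕ} (M : ManifoldSpace n N) (M' : ManifoldSpace n' N') : Prop :=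
  ∃ (f : Eu N → Eu N') (g : Eu N' → Eu N), SmoothOnSet f M.1 ∧ SmoothOnSet g M'.1 ∧
    MapsTo f M.1 M'.1 ∧ MapsTo g M'.1 M.1 ∧ (∀ x ∈ M.1, g (f x) = x) ∧ ∀ y ∈ M'.1, f (g y) = y

/-- Borel reducibility of a relation `E` on `X` to a relation `F` on `Y`. -/
def BorelReducible {X Y : Type*} [MeasurableSpace X] [MeasurableSpace Y]
    (E : X → X → Prop) (F : Y → Y → Prop) : Prop :=
  ∃ f : X → Y, Measurable f ∧ ∀ x x', E x x' ↔ F (f x) (f x')

end Pool.Agent.BorelManifold
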