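import Pool.Agent.Lib.BorelManifold.Perturb

/-!
# Germs of embeddings of compact pieces
-/

namespace Pool.Agent.BorelManifold

open Set Topology Filter Metric
open scoped ContDiff

variable {E : Type*} [NormedAddCommGroup E] [InnerProductSpace ℝ E] [FiniteDimensional ℝ E]

/-- Closed connected `n`-dimensional submanifolds. -/
structure IsMfd (n : ℕ) (M : Set E) : Prop where
  closed : IsClosed M
  conn : IsConnected M
  sub : IsSubmanifold n M

theorem exists_ball_subset {r : ℝ} (hr : 0 ≤ r) {V : Set E} (hV : IsOpen V)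
    (h : closedBall (0 : E) r ⊆ V) : ∃ s, r < s ∧ ball (0 : E) s ⊆ V := by
  obtain ⟨δ, hδ, hδV⟩ := (isCompact_closedBall (0 : E) r).exists_thickening_subset_open hV h
  rw [thickening_closedBall hδ hr] at hδV
  exact ⟨δ + r, by linarith, hδV⟩

theorem exists_ball_mapsTo {A : Set E} (hA : IsClosed A) {r s : ℝ} (hr : 0 ≤ r) (hrs : r < s)
    {y : E → E} (hy : ContinuousOn y (A ∩ ball 0 s)) {V : Set E} (hV : IsOpen V)
    (h : MapsTo y (A ∩ closedBall 0 r) V) :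
    ∃ s', r < s' ∧ s' ≤ s ∧ MapsTo y (A ∩ ball 0 s') V := by
  obtain ⟨u, hu, hu'⟩ := continuousOn_iff'.mp hy V hV
  have h1 : closedBall (0 : E) r ⊆ (u ∩ ball 0 s) ∪ Aᶜ := by
    intro x hx
    by_cases hxA : x ∈ A
    · left
      have hxs : x ∈ ball (0 : E) s := closedBall_subset_ball hrs hx
      have : x ∈ y ⁻¹' V ∩ (A ∩ ball 0 s) := ⟨h ⟨hxA, hx⟩, hxA, hxs⟩
      rw [hu'] at this
      exact ⟨this.1, hxs⟩
    · exact Or.inr hxA
  obtain ⟨s', hs', hs'V⟩ := exists_ball_subset hr ((hu.inter isOpen_ball).union hA.isOpen_compl) h1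
  refine ⟨min s s', lt_min hrs hs', min_le_left _ _, ?_⟩
  rintro x ⟨hxA, hx⟩
  have hx1 : x ∈ ball (0 : E) s' := ball_subset_ball (min_le_right _ _) hx
  have hx2 : x ∈ ball (0 : E) s := ball_subset_ball (min_le_left _ _) hx
  rcases hs'V hx1 with h2 | h2
  · have : x ∈ u ∩ (A ∩ ball 0 s) := ⟨h2.1, hxA, hx2⟩
    rw [← hu'] at this
    exact this.1
  · exact absurd hxA h2

/-- Smooth maps are Lipschitz on compact subsets of a submanifold. -/
theorem lipschitz_on_compact {n : ℕ} {M : Set E} (hM : IsMfd n M) {f : E → E} {V : Set E}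
    (hV : IsOpen V) (hf : ContDiffOn ℝ ∞ f (M ∩ V)) {K : Set E} (hK : IsCompact K)
    (hKM : K ⊆ M ∩ V) : ∃ L : ℝ, 0 ≤ L ∧ ∀ x ∈ K, ∀ y ∈ K, ‖f x - f y‖ ≤ L * ‖x - y‖ := by
  classical
  obtain ⟨O, π, hO, hMO, hπ, hπM, hπid⟩ :=
    exists_smooth_retraction hM.sub hM.closed hM.conn.nonempty
  have hcont : ContinuousOn f K := hf.continuousOn.mono hKM
  suffices h : ∃ L : ℝ, 0 ≤ L ∧ ∀ p ∈ K ×ˢ K, p ∈ K ×ˢ K → ‖f p.1 - f p.2‖ ≤ L * ‖p.1 - p.2‖ by
    obtain ⟨L, hL, h⟩ := h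
    exact ⟨L, hL, fun x hx y hy => h (x, y) ⟨hx, hy⟩ ⟨hx, hy⟩⟩
  refine (hK.prod hK).induction_on (p := fun S => ∃ L : ℝ, 0 ≤ L ∧
    ∀ p ∈ S, p ∈ K ×ˢ K → ‖f p.1 - f p.2‖ ≤ L * ‖p.1 - p.2‖) ?_ ?_ ?_ ?_
  · exact ⟨0, le_rfl, fun p hp => absurd hp (notMem_empty p)⟩
  · rintro s t hst ⟨L, hL, h⟩
    exact ⟨L, hL, fun p hp => h p (hst hp)⟩
  · rintro s t ⟨L, hL, h⟩ ⟨L', hL', h'⟩
    refine ⟨max L L', le_max_of_le_left hL, ?_⟩
    rintro p (hp | hp) hpK
    · refine (h p hp hpK).trans ?_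
      gcongr
      exact le_max_left _ _
    · refine (h' p hp hpK).trans ?_
      gcongr
      exact le_max_right _ _
  · rintro ⟨a, b⟩ ⟨ha, hb⟩
    have ha' : a ∈ K := ha
    have hb' : b ∈ K := hb
    by_cases hab : a = b
    · subst hab
      -- local Lipschitz bound for `f ∘ π`
      have haO : a ∈ O := hMO (hKM ha').1
      have hcd : ContDiffAt ℝ ∞ (f ∘ π) a := by
        have h1 : ContDiffOn ℝ ∞ (f ∘ π) (O ∩ π ⁻¹' V) := by
          refine hf.comp (hπ.mono inter_subset_left) ?_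
          intro z hz
          exact ⟨hπM z, hz.2⟩
        have h2 : IsOpen (O ∩ π ⁻¹' V) := hπ.continuousOn.isOpen_inter_preimage hO hV
        have h3 : a ∈ O ∩ π ⁻¹' V := by
          refine ⟨haO, ?_⟩
          show π a ∈ V
          rw [hπid a (hKM ha').1]
          exact (hKM ha').2
        exact (h1 a h3).contDiffAt (h2.mem_nhds h3)
      obtain ⟨L, t, ht, hL⟩ :=
        (hcd.of_le (by simp : (1 : WithTop ℕ∞) ≤ ∞)).exists_lipschitzOnWith
      refine ⟨t ×ˢ t, mem_nhdsWithin_of_mem_nhds (prod_mem_nhds ht ht), L, L.2, ?_⟩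
      rintro ⟨x, y⟩ ⟨hx, hy⟩ ⟨hxK, hyK⟩
      have := hL.dist_le_mul x hx y hy
      simp only [Function.comp_apply] at this
      rw [hπid x (hKM hxK).1, hπid y (hKM hyK).1, dist_eq_norm, dist_eq_norm] at this
      exact this
    · -- away from the diagonal
      have hd : 0 < ‖a - b‖ := norm_pos_iff.mpr (sub_ne_zero.mpr hab)
      have h1 : ∀ᶠ p : E × E in 𝓝 (a, b), ‖a - b‖ / 2 < ‖p.1 - p.2‖ := by
        have : ContinuousAt (fun p : E × E => ‖p.1 - p.2‖) (a, b) := by fun_prop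
        exact this.eventually (lt_mem_nhds (by show ‖a - b‖ / 2 < ‖a - b‖; linarith))
      have h2 : ∀ᶠ p : E × E in 𝓝[K ×ˢ K] (a, b), ‖f p.1 - f p.2‖ < ‖f a - f b‖ + 1 := by
        have hc1 : ContinuousOn (fun p : E × E => f p.1) (K ×ˢ K) :=
          hcont.comp continuousOn_fst (fun p hp => hp.1)
        have hc2 : ContinuousOn (fun p : E × E => f p.2) (K ×ˢ K) :=
          hcont.comp continuousOn_snd (fun p hp => hp.2)
        have hc3 := (hc1.sub hc2).norm (a, b) ⟨ha, hb⟩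
        exact hc3.eventually (gt_mem_nhds (by show ‖f a - f b‖ < _; linarith))
      refine ⟨{p | ‖a - b‖ / 2 < ‖p.1 - p.2‖ ∧ ‖f p.1 - f p.2‖ < ‖f a - f b‖ + 1},
        inter_mem (mem_nhdsWithin_of_mem_nhds h1) h2, (‖f a - f b‖ + 1) / (‖a - b‖ / 2),
        by positivity, ?_⟩
      rintro p ⟨hp1, hp2⟩ -
      rw [div_mul_eq_mul_div, le_div_iff₀ (by positivity)]
      have h3 := norm_nonneg (f a - f b)
      nlinarith [norm_nonneg (f p.1 - f p.2)]

/-- `y` is (the germ along `A ∩ closedBall 0 r` of) a smooth embedding of `A` into `M`, with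
values in `W`. -/
def IsEmb (A : Set E) (r : ℝ) (M W : Set E) (y : E → E) : Prop :=
  ∃ s, r < s ∧ ContDiffOn ℝ ∞ y (A ∩ ball 0 s) ∧ MapsTo y (A ∩ ball 0 s) (M ∩ W) ∧
    ∃ c : ℝ, 0 < c ∧ ∀ x ∈ A ∩ ball 0 s, ∀ x' ∈ A ∩ ball 0 s, c * ‖x - x'‖ ≤ ‖y x - y x'‖

/-- Equality of germs along `A ∩ closedBall 0 r`. -/
def GermEq (A : Set E) (r : ℝ) (f g : E → E) : Prop :=
  ∃ s, r < s ∧ ∀ x ∈ A ∩ ball 0 s, f x = g x

omit [InnerProductSpace ℝ E] [FiniteDimensional ℝ E] in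
theorem GermEq.refl (A : Set E) (r : ℝ) (f : E → E) : GermEq A r f f :=
  ⟨r + 1, by linarith, fun _ _ => rfl⟩

omit [InnerProductSpace ℝ E] [FiniteDimensional ℝ E] in
theorem GermEq.symm {A : Set E} {r : ℝ} {f g : E → E} (h : GermEq A r f g) : GermEq A r g f := by
  obtain ⟨s, hs, h⟩ := h
  exact ⟨s, hs, fun x hx => (h x hx).symm⟩

omit [InnerProductSpace ℝ E] [FiniteDimensional ℝ E] in
theorem GermEq.trans {A : Set E} {r : ℝ} {f g k : E → E} (h : GermEq A r f g)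
    (h' : GermEq A r g k) : GermEq A r f k := by
  obtain ⟨s, hs, h⟩ := h
  obtain ⟨s', hs', h'⟩ := h'
  refine ⟨min s s', lt_min hs hs', fun x hx => ?_⟩
  rw [h x ⟨hx.1, ball_subset_ball (min_le_left _ _) hx.2⟩,
    h' x ⟨hx.1, ball_subset_ball (min_le_right _ _) hx.2⟩]

omit [InnerProductSpace ℝ E] [FiniteDimensional ℝ E] in
theorem GermEq.comp_left {A : Set E} {r : ℝ} {f g : E → E} (h : GermEq A r f g) (k : E → E) :
    GermEq A r (k ∘ f) (k ∘ g) := by
  obtain ⟨s, hs, h⟩ := h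
  exact ⟨s, hs, fun x hx => congrArg k (h x hx)⟩

omit [FiniteDimensional ℝ E] in
/-- Shrinking the domain of an embedding. -/
theorem IsEmb.shrink {A : Set E} {r : ℝ} {M W : Set E} {y : E → E} (h : IsEmb A r M W y)
    {t : ℝ} (ht : r < t) : ∃ s, r < s ∧ s ≤ t ∧ ContDiffOn ℝ ∞ y (A ∩ ball 0 s) ∧
      MapsTo y (A ∩ ball 0 s) (M ∩ W) ∧
    ∃ c : ℝ, 0 < c ∧ ∀ x ∈ A ∩ ball 0 s, ∀ x' ∈ A ∩ ball 0 s, c * ‖x - x'‖ ≤ ‖y x - y x'‖ := by
  obtain ⟨s, hs, h1, h2, c, hc, h3⟩ := h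
  have hsub : A ∩ ball (0 : E) (min s t) ⊆ A ∩ ball 0 s :=
    inter_subset_inter_right _ (ball_subset_ball (min_le_left _ _))
  exact ⟨min s t, lt_min hs ht, min_le_right _ _, h1.mono hsub, h2.mono_left hsub, c, hc,
    fun x hx x' hx' => h3 x (hsub hx) x' (hsub hx')⟩

omit [FiniteDimensional ℝ E] in
theorem IsEmb.congr {A : Set E} {r : ℝ} {M W : Set E} {y y' : E → E} (h : IsEmb A r M W y)
    (hyy : GermEq A r y' y) : IsEmb A r M W y' := by
  obtain ⟨t, ht, htt⟩ := hyy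
  obtain ⟨s, hs, hst, h1, h2, c, hc, h3⟩ := h.shrink ht
  have hsub : A ∩ ball (0 : E) s ⊆ A ∩ ball 0 t :=
    inter_subset_inter_right _ (ball_subset_ball hst)
  refine ⟨s, hs, h1.congr fun x hx => htt x (hsub hx), ?_, c, hc, ?_⟩
  · intro x hx
    rw [htt x (hsub hx)]
    exact h2 hx
  · intro x hx x' hx'
    rw [htt x (hsub hx), htt x' (hsub hx')]
    exact h3 x hx x' hx'

omit [FiniteDimensional ℝ E] in
theorem IsEmb.mono_target {A : Set E} {r : ℝ} {M W W' : Set E} {y : E → E}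
    (h : IsEmb A r M W y) (hW : W ⊆ W') : IsEmb A r M W' y := by
  obtain ⟨s, hs, h1, h2, h3⟩ := h
  exact ⟨s, hs, h1, fun x hx => ⟨(h2 hx).1, hW (h2 hx).2⟩, h3⟩

omit [FiniteDimensional ℝ E] in
/-- Composition of embeddings. -/
theorem IsEmb.comp {A B M W : Set E} {r r' : ℝ} {y z : E → E}
    (hz : IsEmb B r' M W z) (hy : IsEmb A r B (ball 0 r') y) : IsEmb A r M W (z ∘ y) := by
  obtain ⟨s', hs', h1', h2', c', hc', h3'⟩ := hz
  obtain ⟨s, hs, h1, h2, c, hc, h3⟩ := hy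
  have hmaps : MapsTo y (A ∩ ball 0 s) (B ∩ ball 0 s') := fun x hx =>
    ⟨(h2 hx).1, ball_subset_ball hs'.le (h2 hx).2⟩
  refine ⟨s, hs, h1'.comp h1 hmaps, h2'.comp hmaps, c' * c, mul_pos hc' hc, ?_⟩
  intro x hx x' hx'
  have h4 := h3 x hx x' hx'
  have h5 := h3' _ (hmaps hx) _ (hmaps hx')
  calc c' * c * ‖x - x'‖ = c' * (c * ‖x - x'‖) := by ring
    _ ≤ c' * ‖y x - y x'‖ := by gcongr
    _ ≤ _ := h5

/-- Composition of an embedding with a diffeomorphism of the target. -/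
theorem IsEmb.diffc_comp {n : ℕ} {A M W : Set E} (hA : IsClosed A) (hM : IsMfd n M) {r : ℝ}
    {y : E → E} (hy : IsEmb A r M W y) (h : Diffc M W) : IsEmb A r M W (h.toFun ∘ y) := by
  obtain ⟨s, hs, h1, h2, c, hc, h3⟩ := hy
  -- shrink the domain to have compact closure of the image
  obtain ⟨t, hrt, hts⟩ := exists_between hs
  have hsub : A ∩ ball (0 : E) t ⊆ A ∩ ball 0 s :=
    inter_subset_inter_right _ (ball_subset_ball hts.le)
  have hsub' : A ∩ closedBall (0 : E) t ⊆ A ∩ ball 0 s :=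
    inter_subset_inter_right _ (closedBall_subset_ball hts)
  have hKc : IsCompact (A ∩ closedBall (0 : E) t) := (isCompact_closedBall _ _).inter_left hA
  have hmaps : MapsTo y (A ∩ ball 0 s) M := fun x hx => (h2 hx).1
  have hKc' : IsCompact ((h.toFun ∘ y) '' (A ∩ closedBall (0 : E) t)) := by
    apply hKc.image_of_continuousOn
    exact (h.smooth.continuousOn.comp h1.continuousOn hmaps).mono hsub'
  obtain ⟨L, hL, hLip⟩ := lipschitz_on_compact hM isOpen_univ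
    (f := h.invFun) (by simpa using h.smooth_inv) hKc' (by
      rintro _ ⟨x, hx, rfl⟩
      exact ⟨h.maps (hmaps (hsub' hx)), mem_univ _⟩)
  refine ⟨t, hrt, (h.smooth.comp h1 hmaps).mono hsub, ?_, c / (L + 1), by positivity, ?_⟩
  · intro x hx
    exact h.mapsTo_supp (h2 (hsub hx))
  · intro x hx x' hx'
    have hx1 : x ∈ A ∩ closedBall (0 : E) t := ⟨hx.1, ball_subset_closedBall hx.2⟩
    have hx1' : x' ∈ A ∩ closedBall (0 : E) t := ⟨hx'.1, ball_subset_closedBall hx'.2⟩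
    have h4 := hLip _ (mem_image_of_mem _ hx1) _ (mem_image_of_mem _ hx1')
    simp only [Function.comp_apply] at h4 ⊢
    rw [h.left_inv _ (hmaps (hsub hx)), h.left_inv _ (hmaps (hsub hx'))] at h4
    have h5 := h3 x (hsub hx) x' (hsub hx')
    rw [div_mul_eq_mul_div, div_le_iff₀ (by positivity)]
    have h6 := norm_nonneg (h.toFun (y x) - h.toFun (y x'))
    nlinarith

/-- `z` is a diffeomorphism of `B ∩ V` onto `M ∩ U` with inverse `g`. -/
structure PartDiffeo (B V M U : Set E) (z g : E → E) : Prop where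
  smooth : ContDiffOn ℝ ∞ z (B ∩ V)
  smooth_inv : ContDiffOn ℝ ∞ g (M ∩ U)
  maps : MapsTo z (B ∩ V) (M ∩ U)
  maps_inv : MapsTo g (M ∩ U) (B ∩ V)
  left_inv : ∀ x ∈ B ∩ V, g (z x) = x
  right_inv : ∀ x ∈ M ∩ U, z (g x) = x

omit [FiniteDimensional ℝ E] in
theorem PartDiffeo.symm {B V M U : Set E} {z g : E → E} (h : PartDiffeo B V M U z g) :
    PartDiffeo M U B V g z :=
  ⟨h.smooth_inv, h.smooth, h.maps_inv, h.maps, h.right_inv, h.left_inv⟩

omit [FiniteDimensional ℝ E] in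
/-- Transport of a compactly supported diffeomorphism. -/
theorem PartDiffeo.transport {B V M U : Set E} {z g : E → E} (hz : PartDiffeo B V M U z g)
    (hU : IsOpen U) (hB : IsClosed B) (h : Diffc B V) {W : Set E}
    (hW : ∃ C, IsCompact C ∧ (∀ x ∈ B, x ∉ C → h.toFun x = x) ∧ C ⊆ V ∧
      MapsTo z (B ∩ C) W) :
    ∃ H : Diffc M W, ∀ x ∈ B ∩ V, H.toFun (z x) = z (h.toFun x) := by
  classical
  obtain ⟨C, hC, hCs, hCV, hCW⟩ := hW
  have hBC : IsCompact (B ∩ C) := hC.inter_left hB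
  have hBCV : B ∩ C ⊆ B ∩ V := inter_subset_inter_right _ hCV
  have hC' : IsCompact (z '' (B ∩ C)) :=
    hBC.image_of_continuousOn (hz.smooth.continuousOn.mono hBCV)
  -- generic construction
  have key : ∀ k : Diffc B V, (∀ x ∈ B, x ∉ C → k.toFun x = x) →
      ContDiffOn ℝ ∞ (fun x => if x ∈ U then z (k.toFun (g x)) else x) M ∧
      (∀ x ∈ M, x ∉ z '' (B ∩ C) → (if x ∈ U then z (k.toFun (g x)) else x) = x) := by
    intro k hk
    have hid : ∀ x ∈ M, x ∉ z '' (B ∩ C) → (if x ∈ U then z (k.toFun (g x)) else x) = x := by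
      intro x hx hxC
      by_cases hxU : x ∈ U
      · rw [if_pos hxU]
        have h1 := hz.maps_inv ⟨hx, hxU⟩
        have h2 : g x ∉ C := fun h' =>
          hxC ⟨g x, ⟨h1.1, h'⟩, hz.right_inv x ⟨hx, hxU⟩⟩
        rw [hk _ h1.1 h2, hz.right_inv x ⟨hx, hxU⟩]
      · rw [if_neg hxU]
    refine ⟨?_, hid⟩
    have h1 : ContDiffOn ℝ ∞ (fun x => if x ∈ U then z (k.toFun (g x)) else x) (M ∩ U) := by
      have h2 : ContDiffOn ℝ ∞ (fun x => z (k.toFun (g x))) (M ∩ U) := by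
        have h3 : ContDiffOn ℝ ∞ (fun x => k.toFun (g x)) (M ∩ U) :=
          k.smooth.comp hz.smooth_inv (fun x hx => (hz.maps_inv hx).1)
        refine hz.smooth.comp h3 ?_
        intro x hx
        exact k.mapsTo_supp (hz.maps_inv hx)
      refine h2.congr fun x hx => ?_
      rw [if_pos hx.2]
    intro x hx
    by_cases hxU : x ∈ U
    · exact (h1 x ⟨hx, hxU⟩).mono_of_mem_nhdsWithin
        (inter_mem self_mem_nhdsWithin (mem_nhdsWithin_of_mem_nhds (hU.mem_nhds hxU)))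
    · have hxC : x ∈ (z '' (B ∩ C))ᶜ := by
        rintro ⟨p, hp, hpx⟩
        apply hxU
        rw [← hpx]
        exact (hz.maps (hBCV hp)).2
      have h2 : ContDiffWithinAt ℝ ∞ (fun y : E => y) M x := contDiffWithinAt_id
      refine h2.congr_of_eventuallyEq ?_ (hid x hx hxC)
      filter_upwards [mem_nhdsWithin_of_mem_nhds (hC'.isClosed.isOpen_compl.mem_nhds hxC),
        self_mem_nhdsWithin] with y hy hyM
      exact hid y hyM hy
  have hCs' : ∀ x ∈ B, x ∉ C → h.symm.toFun x = x := by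
    intro x hx hxC
    have h1 := h.left_inv x hx
    rwa [hCs x hx hxC] at h1
  have hmaps : ∀ k : Diffc B V, MapsTo (fun x => if x ∈ U then z (k.toFun (g x)) else x) M M := by
    intro k x hx
    show (if x ∈ U then z (k.toFun (g x)) else x) ∈ M
    by_cases hxU : x ∈ U
    · rw [if_pos hxU]
      exact (hz.maps (k.mapsTo_supp (hz.maps_inv ⟨hx, hxU⟩))).1
    · rw [if_neg hxU]
      exact hx
  have hinv : ∀ k : Diffc B V, ∀ x ∈ M,
      (fun x => if x ∈ U then z (k.symm.toFun (g x)) else x)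
        ((fun x => if x ∈ U then z (k.toFun (g x)) else x) x) = x := by
    intro k x hx
    by_cases hxU : x ∈ U
    · have h1 := hz.maps_inv ⟨hx, hxU⟩
      have h2 := k.mapsTo_supp h1
      have h3 := hz.maps h2
      show (if (if x ∈ U then z (k.toFun (g x)) else x) ∈ U then _ else _) = x
      simp only [if_pos hxU, if_pos h3.2]
      rw [hz.left_inv _ h2]
      have h4 : k.symm.toFun (k.toFun (g x)) = g x := k.left_inv _ h1.1
      rw [h4, hz.right_inv x ⟨hx, hxU⟩]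
    · show (if (if x ∈ U then z (k.toFun (g x)) else x) ∈ U then _ else _) = x
      simp only [if_neg hxU]
  refine ⟨⟨fun x => if x ∈ U then z (h.toFun (g x)) else x,
    fun x => if x ∈ U then z (h.symm.toFun (g x)) else x, (key h hCs).1, (key h.symm hCs').1,
    hmaps h, hmaps h.symm, hinv h, hinv h.symm, z '' (B ∩ C), hC', ?_, (key h hCs).2⟩, ?_⟩
  · rintro _ ⟨x, hx, rfl⟩
    exact hCW hx
  · intro x hx
    show (if z x ∈ U then z (h.toFun (g (z x))) else z x) = z (h.toFun x)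
    rw [if_pos (hz.maps hx).2, hz.left_inv x hx]

/-- An embedding is a partial diffeomorphism. -/
theorem IsEmb.partDiffeo {n : ℕ} {A M W : Set E} (hA : IsMfd n A) (hM : IsMfd n M) {r : ℝ}
    {y : E → E} {s : ℝ} (h1 : ContDiffOn ℝ ∞ y (A ∩ ball 0 s))
    (h2 : MapsTo y (A ∩ ball 0 s) (M ∩ W)) {c : ℝ} (hc : 0 < c)
    (h3 : ∀ x ∈ A ∩ ball 0 s, ∀ x' ∈ A ∩ ball 0 s, c * ‖x - x'‖ ≤ ‖y x - y x'‖) :
    ∃ U g, IsOpen U ∧ PartDiffeo A (ball 0 s) M U y g := by
  obtain ⟨U, g, hU, himage, hg, hgl, hgr⟩ := submanifold_inverse hA.sub hM.sub isOpen_ball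
    h1 (fun x hx => (h2 hx).1) hc h3
  refine ⟨U, g, hU, h1, hg, ?_, fun x hx => (hgr x hx).1, hgl, fun x hx => (hgr x hx).2⟩
  intro x hx
  rw [← himage]
  exact mem_image_of_mem _ hx

end Pool.Agent.BorelManifold
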