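import Pool.Agent.Lib.BorelManifold.TreeIso

/-!
# Manifolds with weakly isomorphic trees are diffeomorphic
-/

namespace Pool.Agent.BorelManifold

open Set Topology Filter Metric
open scoped ContDiff

variable {E : Type*} [NormedAddCommGroup E] [InnerProductSpace ℝ E] [FiniteDimensional ℝ E]

section Glue

variable {n : ℕ} {B : ℕ → Set E} {r : ℕ → ℝ} {m : ℕ → E → E} {M M' : Set E}
  {Y Y' : ℕ → E → E}

/-- Composition of transition maps. -/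
def chain (m : ℕ → E → E) (i : ℕ) : ℕ → E → E
  | 0 => id
  | d + 1 => m (i + d) ∘ chain m i d

omit [InnerProductSpace ℝ E] [FiniteDimensional ℝ E] in
theorem chain_spec
    (hm : ∀ i, MapsTo (m i) (B i ∩ ball 0 (r i)) (B (i + 1) ∩ ball 0 (r (i + 1))))
    (hY : ∀ i, ∀ z ∈ B i ∩ ball 0 (r i), Y (i + 1) (m i z) = Y i z) (i d : ℕ) :
    ∀ z ∈ B i ∩ ball 0 (r i), chain m i d z ∈ B (i + d) ∩ ball 0 (r (i + d)) ∧
      Y (i + d) (chain m i d z) = Y i z := by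
  induction d with
  | zero => exact fun z hz => ⟨hz, rfl⟩
  | succ d ih =>
    intro z hz
    obtain ⟨h1, h2⟩ := ih z hz
    refine ⟨hm (i + d) h1, ?_⟩
    show Y (i + d + 1) (m (i + d) (chain m i d z)) = Y i z
    rw [hY (i + d) _ h1, h2]

/-- Gluing of compatible embeddings. -/
theorem exists_glue (hB : ∀ i, IsMfd n (B i)) (hM : IsMfd n M)
    (hm : ∀ i, MapsTo (m i) (B i ∩ ball 0 (r i)) (B (i + 1) ∩ ball 0 (r (i + 1))))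
    (hYe : ∀ i, IsEmb (B i) (r i) M univ (Y i))
    (hYe' : ∀ i, IsEmb (B i) (r i) M' univ (Y' i))
    (hY : ∀ i, ∀ z ∈ B i ∩ ball 0 (r i), Y (i + 1) (m i z) = Y i z)
    (hY' : ∀ i, ∀ z ∈ B i ∩ ball 0 (r i), Y' (i + 1) (m i z) = Y' i z)
    (hcov : ∀ x ∈ M, ∃ i, ∃ z ∈ B i ∩ ball 0 (r i), Y i z = x) :
    ∃ f : E → E, ContDiffOn ℝ ∞ f M ∧ MapsTo f M M' ∧
      ∀ i, ∀ z ∈ B i ∩ ball 0 (r i), f (Y i z) = Y' i z := by
  classical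
  -- restrictions to the balls
  have hres : ∀ i, ContDiffOn ℝ ∞ (Y i) (B i ∩ ball 0 (r i)) ∧
      MapsTo (Y i) (B i ∩ ball 0 (r i)) (M ∩ univ) ∧
      ∃ c : ℝ, 0 < c ∧ ∀ x ∈ B i ∩ ball 0 (r i), ∀ x' ∈ B i ∩ ball 0 (r i),
        c * ‖x - x'‖ ≤ ‖Y i x - Y i x'‖ := by
    intro i
    obtain ⟨s, hs, h1, h2, c, hc, h3⟩ := hYe i
    have hsub : B i ∩ ball (0 : E) (r i) ⊆ B i ∩ ball 0 s :=
      inter_subset_inter_right _ (ball_subset_ball hs.le)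
    exact ⟨h1.mono hsub, h2.mono_left hsub, c, hc,
      fun x hx x' hx' => h3 x (hsub hx) x' (hsub hx')⟩
  have hres' : ∀ i, ContDiffOn ℝ ∞ (Y' i) (B i ∩ ball 0 (r i)) ∧
      MapsTo (Y' i) (B i ∩ ball 0 (r i)) M' := by
    intro i
    obtain ⟨s, hs, h1, h2, -⟩ := hYe' i
    have hsub : B i ∩ ball (0 : E) (r i) ⊆ B i ∩ ball 0 s :=
      inter_subset_inter_right _ (ball_subset_ball hs.le)
    exact ⟨h1.mono hsub, fun x hx => (h2 (hsub hx)).1⟩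
  have hinj : ∀ i, ∀ z ∈ B i ∩ ball 0 (r i), ∀ z' ∈ B i ∩ ball 0 (r i),
      Y i z = Y i z' → z = z' := by
    intro i z hz z' hz' h
    obtain ⟨-, -, c, hc, h3⟩ := hres i
    have h4 := h3 z hz z' hz'
    rw [h, sub_self, norm_zero] at h4
    have h5 : ‖z - z'‖ ≤ 0 := by
      by_contra hcon
      push Not at hcon
      have := mul_pos hc hcon
      linarith
    exact sub_eq_zero.mp (norm_le_zero_iff.mp h5)
  -- compatibility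
  have hcompat : ∀ i d, ∀ z ∈ B i ∩ ball 0 (r i), ∀ z' ∈ B (i + d) ∩ ball 0 (r (i + d)),
      Y i z = Y (i + d) z' → Y' i z = Y' (i + d) z' := by
    intro i d z hz z' hz' h
    obtain ⟨h1, h2⟩ := chain_spec hm hY i d z hz
    obtain ⟨-, h2'⟩ := chain_spec hm hY' i d z hz
    have h3 := hinj (i + d) _ h1 z' hz' (h2.trans h)
    rw [← h2', h3]
  have hcompat' : ∀ i i', ∀ z ∈ B i ∩ ball 0 (r i), ∀ z' ∈ B i' ∩ ball 0 (r i'),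
      Y i z = Y i' z' → Y' i z = Y' i' z' := by
    intro i i' z hz z' hz' h
    rcases le_total i i' with hi | hi
    · obtain ⟨d, rfl⟩ := Nat.exists_eq_add_of_le hi
      exact hcompat i d z hz z' hz' h
    · obtain ⟨d, rfl⟩ := Nat.exists_eq_add_of_le hi
      exact (hcompat i' d z' hz' z hz h.symm).symm
  let f : E → E := fun x =>
    if h : ∃ p : ℕ × E, p.2 ∈ B p.1 ∩ ball 0 (r p.1) ∧ Y p.1 p.2 = x then
      Y' (Classical.choose h).1 (Classical.choose h).2 else x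
  have hf : ∀ i, ∀ z ∈ B i ∩ ball 0 (r i), f (Y i z) = Y' i z := by
    intro i z hz
    have h : ∃ p : ℕ × E, p.2 ∈ B p.1 ∩ ball 0 (r p.1) ∧ Y p.1 p.2 = Y i z := ⟨(i, z), hz, rfl⟩
    have h1 : f (Y i z) = Y' (Classical.choose h).1 (Classical.choose h).2 := by
      simp only [f]
      rw [dif_pos h]
    rw [h1]
    obtain ⟨h2, h3⟩ := Classical.choose_spec h
    exact hcompat' _ _ _ h2 _ hz h3
  refine ⟨f, ?_, ?_, hf⟩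
  · intro x hx
    obtain ⟨i, z, hz, rfl⟩ := hcov x hx
    obtain ⟨h1, h2, c, hc, h3⟩ := hres i
    obtain ⟨U, g, hU, hpd⟩ := IsEmb.partDiffeo (r := r i) (hB i) hM h1 h2 hc h3
    have hxU : Y i z ∈ U := (hpd.maps hz).2
    have h4 : ContDiffOn ℝ ∞ (fun x => Y' i (g x)) (M ∩ U) :=
      (hres' i).1.comp hpd.smooth_inv hpd.maps_inv
    have h5 : ContDiffOn ℝ ∞ f (M ∩ U) := by
      refine h4.congr fun x hx => ?_
      have h6 := hf i (g x) (hpd.maps_inv hx)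
      rwa [hpd.right_inv x hx] at h6
    exact (h5 _ ⟨hx, hxU⟩).mono_of_mem_nhdsWithin
      (inter_mem self_mem_nhdsWithin (mem_nhdsWithin_of_mem_nhds (hU.mem_nhds hxU)))
  · intro x hx
    obtain ⟨i, z, hz, rfl⟩ := hcov x hx
    rw [hf i z hz]
    exact (hres' i).2 hz

/-- Two manifolds which are the union of the same system are diffeomorphic. -/
theorem exists_diffeo_of_system (hB : ∀ i, IsMfd n (B i)) (hM : IsMfd n M) (hM' : IsMfd n M')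
    (hm : ∀ i, MapsTo (m i) (B i ∩ ball 0 (r i)) (B (i + 1) ∩ ball 0 (r (i + 1))))
    (hYe : ∀ i, IsEmb (B i) (r i) M univ (Y i))
    (hYe' : ∀ i, IsEmb (B i) (r i) M' univ (Y' i))
    (hY : ∀ i, ∀ z ∈ B i ∩ ball 0 (r i), Y (i + 1) (m i z) = Y i z)
    (hY' : ∀ i, ∀ z ∈ B i ∩ ball 0 (r i), Y' (i + 1) (m i z) = Y' i z)
    (hcov : ∀ x ∈ M, ∃ i, ∃ z ∈ B i ∩ ball 0 (r i), Y i z = x)
    (hcov' : ∀ x ∈ M', ∃ i, ∃ z ∈ B i ∩ ball 0 (r i), Y' i z = x) :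
    ∃ f g : E → E, PartDiffeo M univ M' univ f g := by
  obtain ⟨f, hf1, hf2, hf3⟩ := exists_glue hB hM hm hYe hYe' hY hY' hcov
  obtain ⟨g, hg1, hg2, hg3⟩ := exists_glue hB hM' hm hYe' hYe hY' hY hcov'
  refine ⟨f, g, hf1.mono inter_subset_left, hg1.mono inter_subset_left,
    fun x hx => ⟨hf2 hx.1, mem_univ _⟩, fun x hx => ⟨hg2 hx.1, mem_univ _⟩, ?_, ?_⟩
  · rintro x ⟨hx, -⟩
    obtain ⟨i, z, hz, rfl⟩ := hcov x hx
    rw [hf3 i z hz, hg3 i z hz]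
  · rintro x ⟨hx, -⟩
    obtain ⟨i, z, hz, rfl⟩ := hcov' x hx
    rw [hg3 i z hz, hf3 i z hz]

end Glue

namespace Sys

variable {n : ℕ} (𝔖 : Sys n E) {M M' : Set E}

/-- The node `s` represents the class of the embedding `Y` of the piece `a`. -/
def Rep (M : Set E) (s : List ℕ) (a : ℕ) (Y : E → E) : Prop :=
  𝔖.Alive (𝔖.idx M) (𝔖.jj M) (s.map core) ∧ IsEmb (𝔖.A a) (𝔖.r a) M univ Y ∧
  ∃ e : Entry, (s.map core).head? = some e ∧ e.a = a ∧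
    Eqv (𝔖.A a) (𝔖.r a) M univ (𝔖.y M e.k ∘ 𝔖.mor a (𝔖.idx M e.k) e.g) Y

/-- Following a child. -/
theorem Rep.follow (hM : IsMfd n M) {s : List ℕ} {a : ℕ} {Y : E → E} (h : 𝔖.Rep M s a Y)
    {x : ℕ} (hx : 𝔖.Alive (𝔖.idx M) (𝔖.jj M) ((x :: s).map core)) :
    𝔖.mV a (core x).a (core x).c ∧ ∃ Y', 𝔖.Rep M (x :: s) (core x).a Y' ∧
      GermEq (𝔖.A a) (𝔖.r a) (Y' ∘ 𝔖.mor a (core x).a (core x).c) Y := by
  obtain ⟨h1, h2, e, h3, h4, h5⟩ := h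
  have hx2 := hx.2
  rw [h3] at hx2
  obtain ⟨⟨hb, hmV⟩, hmV', hE⟩ := hx2
  have hmVe := Alive.mV 𝔖 h1 h3
  subst h4
  have h6 := (𝔖.eqC_iff hM (𝔖.mor_emb hmVe) ((𝔖.mor_emb hmV).comp (𝔖.mor_emb hmV'))).mp hE
  have hsem := (𝔖.y_emb hM e.k).comp (𝔖.mor_emb hmVe)
  have hsemx := (𝔖.y_emb hM (core x).k).comp (𝔖.mor_emb hmV)
  have h7 : Eqv (𝔖.A e.a) (𝔖.r e.a) M univ
      ((𝔖.y M (core x).k ∘ 𝔖.mor (core x).a (𝔖.idx M (core x).k) (core x).g) ∘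
        𝔖.mor e.a (core x).a (core x).c) Y := (h6.symm hsem).trans h5
  obtain ⟨H, hH⟩ := h7
  refine ⟨hmV', H.toFun ∘ (𝔖.y M (core x).k ∘ 𝔖.mor (core x).a (𝔖.idx M (core x).k) (core x).g),
    ⟨hx, hsemx.diffc_comp (𝔖.hA _).closed hM H, core x, rfl, rfl, ?_⟩, hH⟩
  exact ⟨H, GermEq.refl _ _ _⟩

/-- The image of the `k`-th embedding contains a large ball. -/
theorem y_covers (hM : IsMfd n M) (k : ℕ) : ∀ x ∈ M, ‖x‖ < k - 1 / 4 →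
    ∃ z ∈ 𝔖.A (𝔖.idx M k) ∩ ball 0 (k : ℝ), 𝔖.y M k z = x := by
  intro x hx hxk
  obtain ⟨him, hmat⟩ := 𝔖.idx_spec hM k
  obtain ⟨hm1, -, -⟩ := id hmat
  rw [him] at hm1
  obtain ⟨hy1, hy2, hy3, hy4⟩ := 𝔖.y_spec hM k
  have h1 := (hm1 x hx (by linarith)).2
  have h2 : ‖(𝔖.P (𝔖.idx M k)).π x‖ < k := by
    have h3 : (𝔖.P (𝔖.idx M k)).π x = x + ((𝔖.P (𝔖.idx M k)).π x - x) := by abel
    rw [h3]
    have h4 := norm_add_le x ((𝔖.P (𝔖.idx M k)).π x - x)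
    have h5 := (𝔖.P (𝔖.idx M k)).hε'
    linarith
  exact ⟨_, ⟨(𝔖.P _).retr.mem _, by simpa using h2⟩, hy4 x hx (by linarith) (by linarith)⟩

/-- Extension to a child with large image. -/
theorem Rep.extend (hM : IsMfd n M) {s : List ℕ} {a : ℕ} {Y : E → E} (h : 𝔖.Rep M s a Y)
    (ρ : ℝ) : ∃ (e : Entry) (Y' : E → E), (∀ x, core x = e → 𝔖.Rep M (x :: s) e.a Y') ∧
      𝔖.mV a e.a e.c ∧ GermEq (𝔖.A a) (𝔖.r a) (Y' ∘ 𝔖.mor a e.a e.c) Y ∧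
      ∀ x ∈ M, ‖x‖ < ρ → ∃ z ∈ 𝔖.A e.a ∩ ball 0 (𝔖.r e.a), Y' z = x := by
  obtain ⟨h1, h2, e, h3, h4, h5⟩ := h
  subst h4
  have hmVe := Alive.mV 𝔖 h1 h3
  obtain ⟨k₀, hk₀⟩ := 𝔖.exists_code hM h2
  obtain ⟨k₁, hk₁⟩ := exists_nat_gt (ρ + 1)
  set k := max k₀ k₁ with hk
  obtain ⟨g, hg, hπ, hπy, ⟨H, hH⟩, hE⟩ := hk₀ k (le_max_left _ _)
  have hkρ : ρ + 1 < k := hk₁.trans_le (by exact_mod_cast le_max_right _ _)
  -- transport of `H` to `M`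
  obtain ⟨hy1, hy2, hy3, hy4⟩ := 𝔖.y_spec hM k
  obtain ⟨U, gi, hU, hpd⟩ := IsEmb.partDiffeo (r := (k : ℝ)) (W := univ) (𝔖.hA _) hM hy2
    (fun z hz => ⟨(hy1 z hz).1, mem_univ _⟩) (by norm_num : (0 : ℝ) < 1 / 2) hy3
  have hBk : 𝔖.B (𝔖.idx M k) = ball 0 (k : ℝ) := by
    show ball (0 : E) (𝔖.r (𝔖.idx M k)) = _
    rw [𝔖.r_idx hM k]
  have hBsub : 𝔖.B (𝔖.idx M k) ⊆ ball 0 ((k : ℝ) + 1 / 2) := by
    rw [hBk]
    exact ball_subset_ball (by linarith)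
  obtain ⟨C, hC, hCB, hCs⟩ := H.supp
  obtain ⟨H', hH'⟩ := hpd.transport hU (𝔖.hA _).closed (H.mono hBsub) (W := univ)
    ⟨C, hC, hCs, hCB.trans hBsub, fun x _ => mem_univ _⟩
  -- the new representative
  have hY' : GermEq (𝔖.A (𝔖.idx M k)) (𝔖.r (𝔖.idx M k)) (H'.toFun ∘ 𝔖.y M k)
      (𝔖.y M k ∘ H.toFun) := by
    refine ⟨(k : ℝ) + 1 / 2, ?_, fun x hx => hH' x hx⟩
    rw [𝔖.r_idx hM k]
    linarith
  have hY'e : IsEmb (𝔖.A (𝔖.idx M k)) (𝔖.r (𝔖.idx M k)) M univ (𝔖.y M k ∘ H.toFun) :=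
    ((𝔖.y_emb hM k).diffc_comp (𝔖.hA _).closed hM H').congr hY'.symm
  have hyY' : Eqv (𝔖.A (𝔖.idx M k)) (𝔖.r (𝔖.idx M k)) M univ (𝔖.y M k) (𝔖.y M k ∘ H.toFun) :=
    ⟨H', hY'⟩
  have hgerm : GermEq (𝔖.A e.a) (𝔖.r e.a) ((𝔖.y M k ∘ H.toFun) ∘ 𝔖.mor e.a (𝔖.idx M k) g) Y :=
    (hH.comp_left (𝔖.y M k)).trans hπy
  have hsemj : Eqv (𝔖.A (𝔖.idx M k)) (𝔖.r (𝔖.idx M k)) M univ
      (𝔖.y M (k + 1) ∘ 𝔖.mor (𝔖.idx M k) (𝔖.idx M (k + 1)) (𝔖.jj M k)) (𝔖.y M k) := by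
    have h6 := 𝔖.y_cmp hM (Nat.lt_succ_self k)
    rw [𝔖.cmp_succ _ _ (le_refl k), 𝔖.cmp_self] at h6
    exact h6
  have hvalid := 𝔖.validC hM k
  refine ⟨⟨0, 𝔖.idx M k, g, k + 1, 𝔖.jj M k⟩, 𝔖.y M k ∘ H.toFun, ?_, hg, hgerm, ?_⟩
  · intro x hx
    refine ⟨⟨h1, ?_⟩, hY'e, _, rfl, by rw [hx], ?_⟩
    · rw [h3, hx]
      refine ⟨⟨rfl, hvalid⟩, hg, ?_⟩
      refine (𝔖.eqC_iff hM (𝔖.mor_emb hmVe) ((𝔖.mor_emb hvalid).comp (𝔖.mor_emb hg))).mpr ?_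
      have h7 := hsemj.comp_right (𝔖.mor_emb hg)
      have h8 := hyY'.comp_right (𝔖.mor_emb hg)
      have h9 : Eqv (𝔖.A e.a) (𝔖.r e.a) M univ
          ((𝔖.y M (k + 1) ∘ 𝔖.mor (𝔖.idx M k) (𝔖.idx M (k + 1)) (𝔖.jj M k)) ∘
            𝔖.mor e.a (𝔖.idx M k) g) Y := (h7.trans h8).trans (Eqv.of_germEq hgerm)
      have h10 := h9.symm (((𝔖.y_emb hM (k + 1)).comp (𝔖.mor_emb hvalid)).comp (𝔖.mor_emb hg))
      exact h5.trans h10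
    · show Eqv (𝔖.A (𝔖.idx M k)) (𝔖.r (𝔖.idx M k)) M univ
        (𝔖.y M (core x).k ∘ 𝔖.mor (𝔖.idx M k) (𝔖.idx M (core x).k) (core x).g) _
      rw [hx]
      exact hsemj.trans hyY'
  · intro x hx hxρ
    obtain ⟨z, hz, rfl⟩ := 𝔖.y_covers hM k x hx (by linarith)
    have hz' : z ∈ 𝔖.A (𝔖.idx M k) ∩ 𝔖.B (𝔖.idx M k) := by rw [hBk]; exact hz
    refine ⟨H.invFun z, H.symm.mapsTo_supp hz', ?_⟩
    show 𝔖.y M k (H.toFun (H.invFun z)) = 𝔖.y M k z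
    rw [H.right_inv z hz.1]

/-- A stage of the ladder. -/
structure LadSt (R : List ℕ → List ℕ → Prop) (M M' : Set E) where
  /-- node of the first tree -/
  s : List ℕ
  /-- node of the second tree -/
  s' : List ℕ
  /-- piece -/
  a : ℕ
  /-- embedding into the first manifold -/
  Y : E → E
  /-- embedding into the second manifold -/
  Y' : E → E
  hR : R s s'
  h : 𝔖.Rep M s a Y
  h' : 𝔖.Rep M' s' a Y'

/-- The relation between two stages of the ladder. -/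
def LadNext {R : List ℕ → List ℕ → Prop} (st st' : 𝔖.LadSt R M M') (m : E → E) : Prop :=
  MapsTo m (𝔖.A st.a ∩ ball 0 (𝔖.r st.a)) (𝔖.A st'.a ∩ ball 0 (𝔖.r st'.a)) ∧
  (∀ z ∈ 𝔖.A st.a ∩ ball 0 (𝔖.r st.a), st'.Y (m z) = st.Y z) ∧
  ∀ z ∈ 𝔖.A st.a ∩ ball 0 (𝔖.r st.a), st'.Y' (m z) = st.Y' z

/-- The conditions on the relation between the nodes (one direction). -/
def Forth (lam lam' : LTree) (R : List ℕ → List ℕ → Prop) : Prop :=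
  ∀ s s', R s s' → lam s = lam' s' ∧
    ∀ᶠ j in Filter.cofinite, lam (j :: s) ≠ none → ∃ j', R (j :: s) (j' :: s')

theorem lad_step (hM : IsMfd n M) (hM' : IsMfd n M') {R : List ℕ → List ℕ → Prop}
    (hR : Forth (𝔖.lamD (𝔖.idx M) (𝔖.jj M)) (𝔖.lamD (𝔖.idx M') (𝔖.jj M')) R)
    (st : 𝔖.LadSt R M M') (ρ : ℝ) : ∃ (st' : 𝔖.LadSt R M M') (m : E → E),
      𝔖.LadNext st st' m ∧
      ∀ x ∈ M, ‖x‖ < ρ → ∃ z ∈ 𝔖.A st'.a ∩ ball 0 (𝔖.r st'.a), st'.Y z = x := by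
  obtain ⟨e, Y₁, h1, h2, h3, h4⟩ := Rep.extend 𝔖 hM st.h ρ
  -- choose a code of `e` which has a partner
  have h5 := (hR _ _ st.hR).2
  obtain ⟨x, hx, hx'⟩ : ∃ x, core x = e ∧
      (𝔖.lamD (𝔖.idx M) (𝔖.jj M) (x :: st.s) ≠ none → ∃ j', R (x :: st.s) (j' :: st.s')) := by
    have h6 := (infinite_core e)
    have h7 : {x | ¬ (𝔖.lamD (𝔖.idx M) (𝔖.jj M) (x :: st.s) ≠ none →
        ∃ j', R (x :: st.s) (j' :: st.s'))}.Finite := h5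
    obtain ⟨x, hx⟩ := (h6.sdiff h7).nonempty
    exact ⟨x, hx.1, not_not.mp hx.2⟩
  have h6 := h1 x hx
  obtain ⟨x', hR'⟩ := hx' (𝔖.lamD_ne_none.mpr h6.1)
  have hlam := (hR _ _ hR').1
  have hal : 𝔖.Alive (𝔖.idx M') (𝔖.jj M') ((x' :: st.s').map core) := by
    rw [← 𝔖.lamD_ne_none, ← hlam, 𝔖.lamD_ne_none]
    exact h6.1
  have hlab : lab ((x :: st.s).map core) = lab ((x' :: st.s').map core) := by
    have h7 := 𝔖.lamD_eq_some.mpr ⟨h6.1, rfl⟩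
    rw [hlam] at h7
    exact (𝔖.lamD_eq_some.mp h7).2.symm
  have hac : (core x).a = (core x').a ∧ (core x).c = (core x').c := by
    simp only [List.map_cons, lab, Nat.pair_eq_pair] at hlab
    exact hlab.2
  obtain ⟨hmV, Y₂, h8, h9⟩ := Rep.follow 𝔖 hM' st.h' hal
  rw [← hac.1, hx] at h8
  rw [← hac.1, ← hac.2, hx] at h9
  refine ⟨⟨x :: st.s, x' :: st.s', e.a, Y₁, Y₂, hR', h6, h8⟩, 𝔖.mor st.a e.a e.c, ⟨?_, ?_, ?_⟩, h4⟩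
  · obtain ⟨s, hs, -, h10, -⟩ := 𝔖.mor_emb h2
    exact fun z hz => h10 ⟨hz.1, ball_subset_ball hs.le hz.2⟩
  · obtain ⟨s, hs, h10⟩ := h3
    exact fun z hz => h10 z ⟨hz.1, ball_subset_ball hs.le hz.2⟩
  · obtain ⟨s, hs, h10⟩ := h9
    exact fun z hz => h10 z ⟨hz.1, ball_subset_ball hs.le hz.2⟩

/-- The flipped stage. -/
def LadSt.flip {R : List ℕ → List ℕ → Prop} (st : 𝔖.LadSt R M M') :
    𝔖.LadSt (fun s s' => R s' s) M' M :=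
  ⟨st.s', st.s, st.a, st.Y', st.Y, st.hR, st.h', st.h⟩

theorem lad_step₂ (hM : IsMfd n M) (hM' : IsMfd n M') {R : List ℕ → List ℕ → Prop}
    (hR : Forth (𝔖.lamD (𝔖.idx M) (𝔖.jj M)) (𝔖.lamD (𝔖.idx M') (𝔖.jj M')) R)
    (hR' : Forth (𝔖.lamD (𝔖.idx M') (𝔖.jj M')) (𝔖.lamD (𝔖.idx M) (𝔖.jj M)) fun s s' => R s' s)
    (ρ : ℝ) (st : 𝔖.LadSt R M M') : ∃ (st' : 𝔖.LadSt R M M') (m : E → E),
      𝔖.LadNext st st' m ∧
      (∀ x ∈ M, ‖x‖ < ρ → ∃ z ∈ 𝔖.A st'.a ∩ ball 0 (𝔖.r st'.a), st'.Y z = x) ∧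
      ∀ x ∈ M', ‖x‖ < ρ → ∃ z ∈ 𝔖.A st'.a ∩ ball 0 (𝔖.r st'.a), st'.Y' z = x := by
  obtain ⟨st₁, m₁, ⟨h1, h2, h3⟩, h4⟩ := 𝔖.lad_step hM hM' hR st ρ
  obtain ⟨st₂, m₂, ⟨h1', h2', h3'⟩, h4'⟩ := 𝔖.lad_step hM' hM hR' st₁.flip ρ
  refine ⟨⟨st₂.s', st₂.s, st₂.a, st₂.Y', st₂.Y, st₂.hR, st₂.h', st₂.h⟩, m₂ ∘ m₁,
    ⟨h1'.comp h1, ?_, ?_⟩, ?_, h4'⟩
  · intro z hz
    show st₂.Y' (m₂ (m₁ z)) = st.Y z
    rw [← h2 z hz]
    exact h3' _ (h1 hz)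
  · intro z hz
    show st₂.Y (m₂ (m₁ z)) = st.Y' z
    rw [← h3 z hz]
    exact h2' _ (h1 hz)
  · intro x hx hxρ
    obtain ⟨z, hz, rfl⟩ := h4 x hx hxρ
    exact ⟨m₂ z, h1' hz, h3' z hz⟩

/-- **The ladder**: manifolds with weakly isomorphic trees are diffeomorphic. -/
theorem diffeo_of_weakIso (hM : IsMfd n M) (hM' : IsMfd n M')
    (hW : (𝔖.lamD (𝔖.idx M) (𝔖.jj M)).WeakIso (𝔖.lamD (𝔖.idx M') (𝔖.jj M'))) :
    ∃ f g : E → E, PartDiffeo M univ M' univ f g := by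
  classical
  obtain ⟨R, hR0, hR1⟩ := hW
  have hF : Forth (𝔖.lamD (𝔖.idx M) (𝔖.jj M)) (𝔖.lamD (𝔖.idx M') (𝔖.jj M')) R :=
    fun s s' h => ⟨(hR1 s s' h).1, (hR1 s s' h).2.1⟩
  have hF' : Forth (𝔖.lamD (𝔖.idx M') (𝔖.jj M')) (𝔖.lamD (𝔖.idx M) (𝔖.jj M))
      fun s s' => R s' s :=
    fun s' s h => ⟨(hR1 s s' h).1.symm, (hR1 s s' h).2.2⟩
  -- the first stage
  have hst : Nonempty (𝔖.LadSt R M M') := by
    set e : Entry := ⟨0, 𝔖.idx M 0, 0, 1, 𝔖.jj M 0⟩ with he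
    have hv := 𝔖.validC hM 0
    have h5 := (hF _ _ hR0).2
    obtain ⟨x, hx, hx'⟩ : ∃ x, core x = e ∧
        (𝔖.lamD (𝔖.idx M) (𝔖.jj M) [x] ≠ none → ∃ j', R [x] [j']) := by
      have h6 := (infinite_core e)
      have h7 : {x | ¬ (𝔖.lamD (𝔖.idx M) (𝔖.jj M) [x] ≠ none → ∃ j', R [x] [j'])}.Finite := h5
      obtain ⟨x, hx⟩ := (h6.sdiff h7).nonempty
      exact ⟨x, hx.1, not_not.mp hx.2⟩
    have hal : 𝔖.Alive (𝔖.idx M) (𝔖.jj M) ([x].map core) := by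
      refine ⟨trivial, ?_⟩
      rw [hx]
      exact ⟨rfl, hv⟩
    obtain ⟨x', hR'⟩ := hx' (𝔖.lamD_ne_none.mpr hal)
    have hlam := (hF _ _ hR').1
    have hal' : 𝔖.Alive (𝔖.idx M') (𝔖.jj M') ([x'].map core) := by
      rw [← 𝔖.lamD_ne_none, ← hlam, 𝔖.lamD_ne_none]
      exact hal
    have hlab : lab ([x].map core) = lab ([x'].map core) := by
      have h7 := 𝔖.lamD_eq_some.mpr ⟨hal, rfl⟩
      rw [hlam] at h7
      exact (𝔖.lamD_eq_some.mp h7).2.symm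
    have hac : (core x).a = (core x').a := by
      simp only [List.map_cons, lab, Nat.pair_eq_pair] at hlab
      exact hlab.2.1
    have hmV := (StepOK.mV 𝔖 hal.2).2
    have hmV' := (StepOK.mV 𝔖 hal'.2).2
    refine ⟨⟨[x], [x'], (core x).a, _, 𝔖.y M' (core x').k ∘
      𝔖.mor (core x').a (𝔖.idx M' (core x').k) (core x').g, hR',
      ⟨hal, (𝔖.y_emb hM (core x).k).comp (𝔖.mor_emb hmV), core x, rfl, rfl, Eqv.refl _ _ _ _ _⟩,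
      ⟨hal', ?_, core x', rfl, hac.symm, ?_⟩⟩⟩
    · rw [hac]
      exact (𝔖.y_emb hM' (core x').k).comp (𝔖.mor_emb hmV')
    · rw [hac]
      exact Eqv.refl _ _ _ _ _
  obtain ⟨st₀⟩ := hst
  choose next m hnext hc hc' using fun (i : ℕ) => 𝔖.lad_step₂ hM hM' hF hF' (i : ℝ)
  let st : ℕ → 𝔖.LadSt R M M' := fun i => Nat.rec st₀ (fun i s => next i s) i
  have hst : ∀ i, st (i + 1) = next i (st i) := fun i => rfl
  apply exists_diffeo_of_system (B := fun i => 𝔖.A (st i).a) (r := fun i => 𝔖.r (st i).a)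
    (m := fun i => m i (st i)) (Y := fun i => (st i).Y) (Y' := fun i => (st i).Y')
    (fun i => 𝔖.hA _) hM hM' (fun i => (hnext i (st i)).1) (fun i => (st i).h.2.1)
    (fun i => (st i).h'.2.1) (fun i => (hnext i (st i)).2.1) (fun i => (hnext i (st i)).2.2)
  · intro x hx
    obtain ⟨i, hi⟩ := exists_nat_gt ‖x‖
    obtain ⟨z, hz, hzx⟩ := hc i (st i) x hx hi
    exact ⟨i + 1, z, hz, hzx⟩
  · intro x hx
    obtain ⟨i, hi⟩ := exists_nat_gt ‖x‖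
    obtain ⟨z, hz, hzx⟩ := hc' i (st i) x hx hi
    exact ⟨i + 1, z, hz, hzx⟩

end Sys

end Pool.Agent.BorelManifold
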