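import Pool.Agent.Lib.BorelManifold.Defs

/-!
# Local inverses of smooth antilipschitz maps between manifolds of the same dimension
-/

namespace Pool.Agent.BorelManifold

open Set Topology Filter
open scoped ContDiff

section Linear

variable {V V' : Type*} [NormedAddCommGroup V] [NormedSpace ℝ V]
  [NormedAddCommGroup V'] [NormedSpace ℝ V']

/-- The derivative of a map with a lower Lipschitz bound satisfies the same lower bound. -/
theorem lower_bound_fderiv {φ : V → V'} {D : Set V} (hD : IsOpen D) {c : ℝ}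
    (hlow : ∀ v ∈ D, ∀ w ∈ D, c * ‖v - w‖ ≤ ‖φ v - φ w‖) {v : V} (hv : v ∈ D)
    {A : V →L[ℝ] V'} (hA : HasFDerivAt φ A v) (w : V) : c * ‖w‖ ≤ ‖A w‖ := by
  -- consider the curve `t ↦ φ (v + t w)`
  have h1 : HasDerivAt (fun t : ℝ => φ (v + t • w)) (A w) 0 := by
    have h2 : HasDerivAt (fun t : ℝ => v + t • w) w 0 := by
      simpa using ((hasDerivAt_id (0 : ℝ)).smul_const w).const_add v
    have h3 : HasFDerivAt φ A (v + (0 : ℝ) • w) := by simpa using hA
    exact h3.comp_hasDerivAt 0 h2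
  have h4 : Tendsto (fun t : ℝ => ‖t⁻¹ • (φ (v + t • w) - φ v)‖) (𝓝[≠] 0) (𝓝 ‖A w‖) := by
    have := h1.tendsto_slope_zero
    simpa using this.norm
  refine ge_of_tendsto h4 ?_
  have h5 : ∀ᶠ t : ℝ in 𝓝[≠] 0, v + t • w ∈ D := by
    apply eventually_nhdsWithin_of_eventually_nhds
    have : ContinuousAt (fun t : ℝ => v + t • w) 0 := by fun_prop
    apply this.eventually
    simpa using hD.mem_nhds hv
  filter_upwards [h5, self_mem_nhdsWithin] with t ht ht0
  have ht0' : t ≠ 0 := ht0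
  have h6 := hlow _ ht v hv
  have h7 : ‖v + t • w - v‖ = |t| * ‖w‖ := by
    rw [add_sub_cancel_left, norm_smul, Real.norm_eq_abs]
  rw [h7] at h6
  rw [norm_smul, norm_inv, Real.norm_eq_abs]
  have ht1 : 0 < |t| := abs_pos.mpr ht0'
  rw [inv_mul_eq_div, le_div_iff₀ ht1]
  calc c * ‖w‖ * |t| = c * (|t| * ‖w‖) := by ring
    _ ≤ _ := h6

variable [FiniteDimensional ℝ V] [FiniteDimensional ℝ V']

theorem antilipschitz_local_inverse (hfin : Module.finrank ℝ V = Module.finrank ℝ V')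
    {φ : V → V'} {D : Set V} (hD : IsOpen D) (hφ : ContDiffOn ℝ ∞ φ D) {c : ℝ} (hc : 0 < c)
    (hlow : ∀ v ∈ D, ∀ w ∈ D, c * ‖v - w‖ ≤ ‖φ v - φ w‖) :
    IsOpen (φ '' D) ∧ ∃ g : V' → V, ContDiffOn ℝ ∞ g (φ '' D) ∧ (∀ v ∈ D, g (φ v) = v) := by
  classical
  have : CompleteSpace V := FiniteDimensional.complete ℝ V
  have hinj : InjOn φ D := by
    intro v hv w hw h
    have := hlow v hv w hw
    rw [h, sub_self, norm_zero] at this
    have h0 : ‖v - w‖ ≤ 0 := by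
      by_contra hcon
      push Not at hcon
      have : 0 < c * ‖v - w‖ := mul_pos hc hcon
      linarith
    exact sub_eq_zero.mp (norm_le_zero_iff.mp h0)
  let g : V' → V := Function.invFunOn φ D
  have hg : ∀ v ∈ D, g (φ v) = v := fun v hv => hinj.leftInvOn_invFunOn hv
  have key : ∀ v ∈ D, (∀ᶠ y in 𝓝 (φ v), y ∈ φ '' D) ∧ ContDiffAt ℝ ∞ g (φ v) := by
    intro v hv
    have hcd : ContDiffAt ℝ ∞ φ v := (hφ v hv).contDiffAt (hD.mem_nhds hv)
    have hdiff : DifferentiableAt ℝ φ v := hcd.differentiableAt (by simp)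
    set A := fderiv ℝ φ v with hAdef
    have hA : HasFDerivAt φ A v := hdiff.hasFDerivAt
    have hAlow := lower_bound_fderiv hD hlow hv hA
    have hAinj : Function.Injective A := by
      rw [injective_iff_map_eq_zero]
      intro w hw
      have := hAlow w
      rw [hw, norm_zero] at this
      by_contra hne
      have : 0 < c * ‖w‖ := mul_pos hc (norm_pos_iff.mpr hne)
      linarith
    let A' : V ≃L[ℝ] V' := (LinearEquiv.ofInjectiveOfFinrankEq (A : V →ₗ[ℝ] V') hAinj hfin).toContinuousLinearEquiv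
    have hA' : HasFDerivAt φ (A' : V →L[ℝ] V') v := by
      have : (A' : V →L[ℝ] V') = A := by
        ext w
        rfl
      rw [this]
      exact hA
    have hn : (∞ : WithTop ℕ∞) ≠ 0 := by simp
    have hL := hcd.to_localInverse hA' hn
    set L := hcd.localInverse hA' hn with hLdef
    have hstrict := hcd.hasStrictFDerivAt' hA' hn
    have hLv : L (φ v) = v := hcd.localInverse_apply_image hA' hn
    have hright : ∀ᶠ y in 𝓝 (φ v), φ (L y) = y := hstrict.eventually_right_inverse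
    have hLD : ∀ᶠ y in 𝓝 (φ v), L y ∈ D := by
      apply hL.continuousAt.eventually
      rw [hLv]
      exact hD.mem_nhds hv
    refine ⟨?_, ?_⟩
    · filter_upwards [hright, hLD] with y hy1 hy2
      exact ⟨L y, hy2, hy1⟩
    · apply hL.congr_of_eventuallyEq
      filter_upwards [hright, hLD] with y hy1 hy2
      have := hg (L y) hy2
      rw [hy1] at this
      exact this
  refine ⟨?_, g, ?_, hg⟩
  · rw [isOpen_iff_mem_nhds]
    rintro _ ⟨v, hv, rfl⟩
    exact (key v hv).1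
  · rintro _ ⟨v, hv, rfl⟩
    exact (key v hv).2.contDiffWithinAt

end Linear

section Submanifold

variable {E E' : Type*} [NormedAddCommGroup E] [InnerProductSpace ℝ E] [FiniteDimensional ℝ E]
  [NormedAddCommGroup E'] [InnerProductSpace ℝ E'] [FiniteDimensional ℝ E']

theorem submanifold_local_inverse_aux {n : ℕ} {M : Set E} {M' : Set E'}
    (hM : IsSubmanifold n M) (hM' : IsSubmanifold n M') {f : E → E'} {U : Set E}
    (hU : IsOpen U) (hf : ContDiffOn ℝ ∞ f (M ∩ U)) (hmaps : MapsTo f (M ∩ U) M')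
    {c : ℝ} (hc : 0 < c) (hlow : ∀ v ∈ M ∩ U, ∀ w ∈ M ∩ U, c * ‖v - w‖ ≤ ‖f v - f w‖)
    {x : E} (hx : x ∈ M ∩ U) :
    ∃ (U' : Set E') (g : E' → E), IsOpen U' ∧ f x ∈ U' ∧ ContDiffOn ℝ ∞ g U' ∧
      ∀ y ∈ M' ∩ U', g y ∈ M ∩ U ∧ f (g y) = y := by
  obtain ⟨e, V, hxe, he, hes, hV, heM⟩ := hM x hx.1
  obtain ⟨e', V', hxe', he', hes', hV', heM'⟩ := hM' (f x) (hmaps hx)
  -- Lipschitz bounds
  have heat : ContDiffAt ℝ ∞ e x := (he x hxe).contDiffAt (e.open_source.mem_nhds hxe)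
  have hesat : ContDiffAt ℝ ∞ e'.symm (e' (f x)) :=
    (hes' _ (e'.map_source hxe')).contDiffAt (e'.open_target.mem_nhds (e'.map_source hxe'))
  obtain ⟨K, t, ht, hKt⟩ := (heat.of_le (by simp : (1 : WithTop ℕ∞) ≤ ∞)).exists_lipschitzOnWith
  obtain ⟨K', t', ht', hKt'⟩ :=
    (hesat.of_le (by simp : (1 : WithTop ℕ∞) ≤ ∞)).exists_lipschitzOnWith
  obtain ⟨s, hst, hs, hxs⟩ := mem_nhds_iff.mp ht
  obtain ⟨s', hst', hs', hxs'⟩ := mem_nhds_iff.mp ht'
  -- the parametrisation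
  let ψ : V → E := fun v => e.symm (v : E)
  let D : Set V := {v | (v : E) ∈ e.target ∧ e.symm (v : E) ∈ U ∩ s}
  have hDopen : IsOpen D := by
    have h1 := e.isOpen_inter_preimage_symm (hU.inter hs)
    exact h1.preimage continuous_subtype_val
  have hψ : ContDiffOn ℝ ∞ ψ D :=
    hes.comp (V.subtypeL.contDiff.contDiffOn) (fun v hv => hv.1)
  have hψM : ∀ v ∈ D, ψ v ∈ M ∩ U := by
    intro v hv
    refine ⟨(heM _ (e.map_target hv.1)).mpr ?_, hv.2.1⟩
    rw [e.right_inv hv.1]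
    exact v.2
  have hfψ : ContDiffOn ℝ ∞ (fun v => f (ψ v)) D := hf.comp hψ hψM
  let D' : Set V := D ∩ (fun v => f (ψ v)) ⁻¹' (e'.source ∩ e' ⁻¹' s')
  have hD'open : IsOpen D' :=
    hfψ.continuousOn.isOpen_inter_preimage hDopen (e'.isOpen_inter_preimage hs')
  let P : E' →L[ℝ] V' := V'.orthogonalProjectionOnto
  have hP : ∀ v : E', v ∈ V' → ((P v : V') : E') = v := by
    intro v hv
    have := V'.orthogonalProjectionOnto_mem_subspace_eq_self ⟨v, hv⟩
    rw [show P v = ⟨v, hv⟩ from this]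
  let φ : V → V' := fun v => P (e' (f (ψ v)))
  have hφ : ContDiffOn ℝ ∞ φ D' := by
    apply P.contDiff.comp_contDiffOn
    exact he'.comp (hfψ.mono inter_subset_left) (fun v hv => hv.2.1)
  have hφval : ∀ v ∈ D', ((φ v : V') : E') = e' (f (ψ v)) := by
    intro v hv
    apply hP
    exact (heM' _ hv.2.1).mp (hmaps (hψM v hv.1))
  set κ : ℝ := c / ((K + 1) * (K' + 1)) with hκ
  have hKK : (0 : ℝ) < (K + 1) * (K' + 1) := by positivity
  have hκpos : 0 < κ := div_pos hc hKK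
  have hφlow : ∀ v ∈ D', ∀ w ∈ D', κ * ‖v - w‖ ≤ ‖φ v - φ w‖ := by
    intro v hv w hw
    have h1 : ‖v - w‖ ≤ K * ‖ψ v - ψ w‖ := by
      have := hKt.dist_le_mul (ψ v) (hst hv.1.2.2) (ψ w) (hst hw.1.2.2)
      rw [show e (ψ v) = (v : E) from e.right_inv hv.1.1,
        show e (ψ w) = (w : E) from e.right_inv hw.1.1, dist_eq_norm, dist_eq_norm] at this
      rw [← Submodule.coe_sub] at this
      exact this
    have h2 := hlow _ (hψM v hv.1) _ (hψM w hw.1)
    have h3 : ‖f (ψ v) - f (ψ w)‖ ≤ K' * ‖φ v - φ w‖ := by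
      have := hKt'.dist_le_mul (e' (f (ψ v))) (hst' hv.2.2) (e' (f (ψ w))) (hst' hw.2.2)
      rw [e'.left_inv hv.2.1, e'.left_inv hw.2.1, ← hφval v hv, ← hφval w hw,
        dist_eq_norm, dist_eq_norm] at this
      rw [← Submodule.coe_sub] at this
      exact this
    rw [hκ, div_mul_eq_mul_div, div_le_iff₀ hKK]
    have hK0 : (0 : ℝ) ≤ K := K.2
    have hK0' : (0 : ℝ) ≤ K' := K'.2
    have hn1 := norm_nonneg (φ v - φ w)
    have hn2 := norm_nonneg (ψ v - ψ w)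
    calc c * ‖v - w‖ ≤ c * (K * ‖ψ v - ψ w‖) := by gcongr
      _ = K * (c * ‖ψ v - ψ w‖) := by ring
      _ ≤ K * ‖f (ψ v) - f (ψ w)‖ := by gcongr
      _ ≤ K * (K' * ‖φ v - φ w‖) := by gcongr
      _ ≤ (K + 1) * ((K' + 1) * ‖φ v - φ w‖) := by
          gcongr <;> linarith
      _ = ‖φ v - φ w‖ * ((K + 1) * (K' + 1)) := by ring
  obtain ⟨hopen, g₀, hg₀, hg₀inv⟩ :=
    antilipschitz_local_inverse (hV.trans hV'.symm) hD'open hφ hκpos hφlow
  refine ⟨e'.source ∩ e' ⁻¹' (P ⁻¹' (φ '' D')), fun y => ψ (g₀ (P (e' y))), ?_, ?_, ?_, ?_⟩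
  · exact e'.isOpen_inter_preimage (hopen.preimage P.continuous)
  · refine ⟨hxe', ?_⟩
    have hex : e x ∈ V := (heM x hxe).mp hx.1
    have hψx : ψ ⟨e x, hex⟩ = x := e.left_inv hxe
    refine ⟨⟨e x, hex⟩, ⟨⟨e.map_source hxe, ?_⟩, ?_⟩, ?_⟩
    · show e.symm (e x) ∈ U ∩ s
      rw [e.left_inv hxe]
      exact ⟨hx.2, hxs⟩
    · show f (ψ ⟨e x, hex⟩) ∈ e'.source ∩ e' ⁻¹' s'
      rw [hψx]
      exact ⟨hxe', hxs'⟩
    · show P (e' (f (ψ ⟨e x, hex⟩))) = P (e' (f x))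
      rw [hψx]
  · have hmaps1 : MapsTo (fun y => g₀ (P (e' y))) (e'.source ∩ e' ⁻¹' (P ⁻¹' (φ '' D'))) D := by
      rintro y ⟨_, v, hv, hvy⟩
      show g₀ (P (e' y)) ∈ D
      rw [← hvy, hg₀inv v hv]
      exact hv.1
    refine hψ.comp ?_ hmaps1
    refine hg₀.comp ?_ (fun y hy => hy.2)
    exact P.contDiff.comp_contDiffOn (he'.mono inter_subset_left)
  · rintro y ⟨hyM', hys, v, hv, hvy⟩
    have h1 : g₀ (P (e' y)) = v := by rw [← hvy, hg₀inv v hv]
    show ψ (g₀ (P (e' y))) ∈ M ∩ U ∧ f (ψ (g₀ (P (e' y)))) = y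
    rw [h1]
    refine ⟨hψM v hv.1, ?_⟩
    have h2 : e' (f (ψ v)) = e' y := by
      rw [← hφval v hv, hvy]
      exact hP _ ((heM' y hys).mp hyM')
    exact e'.injOn hv.2.1 hys h2

/-- **Local inverse theorem.**  A smooth map between `n`-dimensional submanifolds, defined on a
relatively open set and satisfying a lower Lipschitz bound there, is a diffeomorphism onto a
relatively open set. -/
theorem submanifold_inverse {n : ℕ} {M : Set E} {M' : Set E'}
    (hM : IsSubmanifold n M) (hM' : IsSubmanifold n M') {f : E → E'} {U : Set E}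
    (hU : IsOpen U) (hf : ContDiffOn ℝ ∞ f (M ∩ U)) (hmaps : MapsTo f (M ∩ U) M')
    {c : ℝ} (hc : 0 < c) (hlow : ∀ v ∈ M ∩ U, ∀ w ∈ M ∩ U, c * ‖v - w‖ ≤ ‖f v - f w‖) :
    ∃ (U' : Set E') (g : E' → E), IsOpen U' ∧ f '' (M ∩ U) = M' ∩ U' ∧
      ContDiffOn ℝ ∞ g (M' ∩ U') ∧ (∀ x ∈ M ∩ U, g (f x) = x) ∧
      (∀ y ∈ M' ∩ U', g y ∈ M ∩ U ∧ f (g y) = y) := by
  classical
  have hinj : InjOn f (M ∩ U) := by
    intro v hv w hw h
    have := hlow v hv w hw
    rw [h, sub_self, norm_zero] at this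
    by_contra hne
    have : 0 < c * ‖v - w‖ := mul_pos hc (norm_pos_iff.mpr (sub_ne_zero.mpr hne))
    linarith
  choose! W G hWo hxW hG hGW using fun x (hx : x ∈ M ∩ U) =>
    submanifold_local_inverse_aux hM hM' hU hf hmaps hc hlow hx
  let g : E' → E := fun y => if h : ∃ x ∈ M ∩ U, f x = y then Classical.choose h else 0
  have hg : ∀ x ∈ M ∩ U, g (f x) = x := by
    intro x hx
    have h : ∃ x' ∈ M ∩ U, f x' = f x := ⟨x, hx, rfl⟩
    have hspec := Classical.choose_spec h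
    show (if h : ∃ x' ∈ M ∩ U, f x' = f x then Classical.choose h else 0) = x
    rw [dif_pos h]
    exact hinj hspec.1 hx hspec.2
  have himage : f '' (M ∩ U) = M' ∩ ⋃ x ∈ M ∩ U, W x := by
    ext y
    constructor
    · rintro ⟨x, hx, rfl⟩
      exact ⟨hmaps hx, mem_iUnion₂.mpr ⟨x, hx, hxW x hx⟩⟩
    · rintro ⟨hyM', hy⟩
      obtain ⟨x, hx, hyx⟩ := mem_iUnion₂.mp hy
      obtain ⟨h1, h2⟩ := hGW x hx y ⟨hyM', hyx⟩
      exact ⟨G x y, h1, h2⟩
  refine ⟨⋃ x ∈ M ∩ U, W x, g, isOpen_biUnion hWo, himage, ?_, hg, ?_⟩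
  · rintro y ⟨hyM', hy⟩
    obtain ⟨x, hx, hyx⟩ := mem_iUnion₂.mp hy
    have h1 : ContDiffWithinAt ℝ ∞ (G x) (M' ∩ W x) y :=
      ((hG x hx).contDiffWithinAt hyx).mono inter_subset_right
    have h2 : ∀ z ∈ M' ∩ W x, g z = G x z := by
      intro z hz
      obtain ⟨h3, h4⟩ := hGW x hx z hz
      have := hg (G x z) h3
      rwa [h4] at this
    have h3 : ContDiffWithinAt ℝ ∞ g (M' ∩ W x) y := h1.congr h2 (h2 y ⟨hyM', hyx⟩)
    refine h3.mono_of_mem_nhdsWithin ?_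
    have h4 : W x ∈ 𝓝[M' ∩ ⋃ x ∈ M ∩ U, W x] y :=
      mem_nhdsWithin_of_mem_nhds ((hWo x hx).mem_nhds hyx)
    filter_upwards [h4, self_mem_nhdsWithin] with z hz1 hz2
    exact ⟨hz2.1, hz1⟩
  · intro y hy
    rw [← himage] at hy
    obtain ⟨x, hx, rfl⟩ := hy
    rw [hg x hx]
    exact ⟨hx, rfl⟩

end Submanifold

end Pool.Agent.BorelManifold
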