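import Mathlib
import Pool.Agent.Lib.BorelManifold.TreeDefs

/-!
# Itineraries: basic facts about `NT k T`
-/

namespace Pool.Agent.BorelManifold

open Set Topology
open scoped ContDiff

variable {k : ℕ}

/-! ### centres -/

lemma ctr_zero (j : ℕ) : (ctr k j) 0 = 3 * ((j : ℝ) + 1) := by
  simp [ctr]

lemma ctr_one (j : ℕ) : (ctr k j) 1 = 0 := by
  simp [ctr]

lemma norm_ctr (j : ℕ) : ‖ctr k j‖ = 3 * ((j : ℝ) + 1) := by
  unfold ctr
  rw [PiLp.norm_single, Real.norm_eq_abs, abs_of_nonneg (by positivity)]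

lemma norm_ctr_sub (i j : ℕ) : ‖ctr k i - ctr k j‖ = 3 * |(i : ℝ) - j| := by
  have h : ctr k i - ctr k j = EuclideanSpace.single (0 : Fin (k + 2)) (3 * ((i : ℝ) - j)) := by
    unfold ctr
    ext l
    simp only [PiLp.sub_apply, PiLp.single_apply]
    split_ifs
    · ring
    · ring
  rw [h, PiLp.norm_single, Real.norm_eq_abs, abs_mul]
  norm_num

lemma ctr_sep {i j : ℕ} (h : i ≠ j) : 3 ≤ ‖ctr k i - ctr k j‖ := by
  rw [norm_ctr_sub]
  have h1 : (1 : ℝ) ≤ |(i : ℝ) - j| := by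
    have : (1 : ℤ) ≤ |(i : ℤ) - j| := Int.one_le_abs (sub_ne_zero.2 (by exact_mod_cast h))
    exact_mod_cast this
  linarith

/-- the unit balls around different centres are disjoint, with room. -/
lemma ctr_unique {i j : ℕ} {z : Eu (k + 2)} (hi : ‖z - ctr k i‖ ≤ 3 / 2) (hj : ‖z - ctr k j‖ < 3 / 2) :
    i = j := by
  by_contra h
  have h1 := ctr_sep (k := k) h
  have h2 : ‖ctr k i - ctr k j‖ ≤ ‖z - ctr k i‖ + ‖z - ctr k j‖ := by
    have h3 : ctr k i - ctr k j = (z - ctr k j) - (z - ctr k i) := by abel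
    rw [h3]
    have := norm_sub_le (z - ctr k j) (z - ctr k i)
    linarith
  linarith

lemma norm_lower {j : ℕ} {z : Eu (k + 2)} : 3 - ‖z - ctr k j‖ ≤ ‖z‖ := by
  have h1 : ‖ctr k j‖ ≤ ‖z‖ + ‖z - ctr k j‖ := by
    have : ctr k j = z - (z - ctr k j) := by abel
    conv_lhs => rw [this]
    exact norm_sub_le _ _
  rw [norm_ctr] at h1
  have h2 : (0 : ℝ) ≤ j := Nat.cast_nonneg j
  linarith

/-! ### `tau` and `sig` -/

lemma norm_smul_inv_sq {y : Eu (k + 2)} (hy : y ≠ 0) : ‖(‖y‖ ^ 2)⁻¹ • y‖ = ‖y‖⁻¹ := by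
  have : ‖y‖ ≠ 0 := norm_ne_zero_iff.2 hy
  rw [norm_smul, norm_inv, norm_pow, norm_norm]
  field_simp

lemma inv_sq_inv_sq {y : Eu (k + 2)} (hy : y ≠ 0) :
    (‖(‖y‖ ^ 2)⁻¹ • y‖ ^ 2)⁻¹ • ((‖y‖ ^ 2)⁻¹ • y) = y := by
  have h : ‖y‖ ≠ 0 := norm_ne_zero_iff.2 hy
  rw [norm_smul_inv_sq hy, smul_smul]
  have : (‖y‖⁻¹ ^ 2)⁻¹ * (‖y‖ ^ 2)⁻¹ = 1 := by field_simp
  rw [this, one_smul]

lemma sig_tau {j : ℕ} {y : Eu (k + 2)} (hy : y ≠ 0) : sig j (tau j y) = y := by
  unfold sig tau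
  rw [add_sub_cancel_left]
  exact inv_sq_inv_sq hy

lemma tau_sig {j : ℕ} {x : Eu (k + 2)} (hx : x ≠ ctr k j) : tau j (sig j x) = x := by
  unfold sig tau
  rw [inv_sq_inv_sq (sub_ne_zero.2 hx)]
  abel

lemma norm_tau_sub {j : ℕ} {y : Eu (k + 2)} (hy : y ≠ 0) : ‖tau j y - ctr k j‖ = ‖y‖⁻¹ := by
  unfold tau
  rw [add_sub_cancel_left, norm_smul_inv_sq hy]

lemma norm_sig {j : ℕ} {x : Eu (k + 2)} (hx : x ≠ ctr k j) : ‖sig j x‖ = ‖x - ctr k j‖⁻¹ :=
  norm_smul_inv_sq (sub_ne_zero.2 hx)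

lemma sig_ne_zero {j : ℕ} {x : Eu (k + 2)} (hx : x ≠ ctr k j) : sig j x ≠ 0 := by
  rw [← norm_ne_zero_iff, norm_sig hx]
  exact inv_ne_zero (norm_ne_zero_iff.2 (sub_ne_zero.2 hx))

/-! ### coordinates -/

/-- The coordinate of `x` in the node `s`. -/
noncomputable def co : List ℕ → Eu (k + 2) → Eu (k + 2)
  | [], x => x
  | j :: s, x => sig j (co s x)

/-- `x` is in the open ball-like punctured set of the node `s`. -/
def Ok : List ℕ → Eu (k + 2) → Prop
  | [], _ => True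
  | j :: s, x => Ok s x ∧ ‖co s x - ctr k j‖ < 1 ∧ co s x ≠ ctr k j

lemma Ok.tail {j : ℕ} {s : List ℕ} {x : Eu (k + 2)} (h : Ok (j :: s) x) : Ok s x := h.1

lemma Ok.norm {s : List ℕ} {x : Eu (k + 2)} (h : Ok s x) : s = [] ∨ 1 < ‖co s x‖ := by
  cases s with
  | nil => exact Or.inl rfl
  | cons j s =>
    right
    obtain ⟨_, h1, h2⟩ := h
    change 1 < ‖sig j (co s x)‖
    rw [norm_sig h2]
    exact one_lt_inv_iff₀.2 ⟨norm_pos_iff.2 (sub_ne_zero.2 h2), h1⟩

lemma Ok.iota_co {s : List ℕ} {x : Eu (k + 2)} (h : Ok s x) : iota s (co s x) = x := by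
  induction s with
  | nil => rfl
  | cons j s ih =>
    change iota s (tau j (sig j (co s x))) = x
    rw [tau_sig h.2.2]
    exact ih h.1

lemma ok_iota {s : List ℕ} {z : Eu (k + 2)} (h : s = [] ∨ 1 < ‖z‖) :
    Ok s (iota s z) ∧ co s (iota s z) = z := by
  induction s generalizing z with
  | nil => exact ⟨trivial, rfl⟩
  | cons j s ih =>
    have hz : 1 < ‖z‖ := by
      rcases h with h | h
      · cases h
      · exact h
    have hz0 : z ≠ 0 := by
      rw [← norm_pos_iff]; linarith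
    have h1 : ‖tau j z - ctr k j‖ < 1 := by
      rw [norm_tau_sub hz0]
      exact inv_lt_one_of_one_lt₀ hz
    have h2 : 1 < ‖tau j z‖ := by
      have := norm_lower (k := k) (j := j) (z := tau j z)
      linarith
    have h3 : tau j z ≠ ctr k j := by
      rw [← sub_ne_zero, ← norm_ne_zero_iff, norm_tau_sub hz0]
      exact inv_ne_zero (by linarith)
    obtain ⟨h4, h5⟩ := ih (z := tau j z) (Or.inr h2)
    change (Ok s (iota s (tau j z)) ∧ ‖co s (iota s (tau j z)) - ctr k j‖ < 1 ∧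
      co s (iota s (tau j z)) ≠ ctr k j) ∧ sig j (co s (iota s (tau j z))) = z
    rw [h5]
    exact ⟨⟨h4, h1, h3⟩, sig_tau hz0⟩

/-- Being in a proper child forces large norm. -/
lemma Ok.two_lt {j : ℕ} {s : List ℕ} {x : Eu (k + 2)} (h : Ok (j :: s) x) : 2 < ‖co s x‖ := by
  have := norm_lower (k := k) (j := j) (z := co s x)
  have := h.2.1
  linarith

lemma Ok.suffix {s t : List ℕ} {x : Eu (k + 2)} (h : Ok s x) (hts : t <:+ s) : Ok t x := by
  induction s with
  | nil =>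
    have := List.eq_nil_of_suffix_nil hts
    subst this; exact h
  | cons j s ih =>
    rcases List.suffix_cons_iff.1 hts with h1 | h1
    · subst h1; exact h
    · exact ih h.1 h1

lemma Ok.unique_len {s t : List ℕ} {x : Eu (k + 2)} (hs : Ok s x) (ht : Ok t x)
    (hl : s.length = t.length) : s = t := by
  induction s generalizing t with
  | nil => exact (List.length_eq_zero_iff.1 hl.symm).symm
  | cons j s ih =>
    cases t with
    | nil => simp at hl
    | cons i t =>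
      have h1 := ih hs.1 ht.1 (by simpa using hl)
      subst h1
      have h2 : j = i := ctr_unique (z := co s x) (by have := hs.2.1; linarith)
        (by have := ht.2.1; linarith)
      rw [h2]

lemma Ok.suffix_of_le {s t : List ℕ} {x : Eu (k + 2)} (hs : Ok s x) (ht : Ok t x)
    (hl : s.length ≤ t.length) : s <:+ t := by
  have h1 : (t.drop (t.length - s.length)) <:+ t := List.drop_suffix _ _
  have h2 := hs.unique_len (ht.suffix h1) (by simp; omega)
  rw [h2]; exact h1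

/-! ### characterisation of `NT` -/

/-- `s` is the final node of `x` with respect to `T`. -/
def Fin' (T : Set (List ℕ)) (s : List ℕ) (x : Eu (k + 2)) : Prop :=
  s ∈ T ∧ Ok s x ∧ ∀ j, j :: s ∈ T → 1 ≤ ‖co s x - ctr k j‖

lemma mem_NT_iff {T : Set (List ℕ)} {x : Eu (k + 2)} : x ∈ NT k T ↔ ∃ s, Fin' T s x := by
  constructor
  · rintro ⟨s, hs, z, ⟨hz1, hz2⟩, rfl⟩
    obtain ⟨h1, h2⟩ := ok_iota hz1
    refine ⟨s, hs, h1, fun j hj => ?_⟩
    have := hz2 j hj
    rw [Metric.mem_ball, dist_eq_norm, not_lt] at this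
    rw [h2]; exact this
  · rintro ⟨s, hs, h1, h2⟩
    refine ⟨s, hs, co s x, ⟨h1.norm, fun j hj => ?_⟩, h1.iota_co⟩
    rw [Metric.mem_ball, dist_eq_norm, not_lt]
    exact h2 j hj

lemma IsTree.suffix {T : Set (List ℕ)} (hT : IsTree T) {s t : List ℕ} (ht : t ∈ T)
    (h : s <:+ t) : s ∈ T := by
  induction t with
  | nil => have := List.eq_nil_of_suffix_nil h; subst this; exact ht
  | cons i t ih =>
    rcases List.suffix_cons_iff.1 h with h6 | h6
    · rw [h6]; exact ht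
    · exact ih (hT.2 _ _ ht) h6

/-- every node of `T` containing `x` is above the final node -/
lemma Fin'.suffix {T : Set (List ℕ)} (hT : IsTree T) {s t : List ℕ} {x : Eu (k + 2)}
    (hs : Fin' T s x) (ht : t ∈ T) (hx : Ok t x) : t <:+ s := by
  rcases Nat.le_total t.length s.length with h | h
  · exact hx.suffix_of_le hs.2.1 h
  · have h1 := hs.2.1.suffix_of_le hx h
    obtain ⟨u, hu⟩ := h1
    rcases List.eq_nil_or_concat u with h2 | ⟨u', j, h2⟩
    · subst h2; simp at hu; subst hu; exact List.suffix_rfl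
    · exfalso
      subst h2
      have h3 : (j :: s) <:+ t := ⟨u', by rw [← hu]; simp⟩
      have h4 : Ok (j :: s) x := hx.suffix h3
      have h5 : j :: s ∈ T := hT.suffix ht h3
      have := hs.2.2 j h5
      have := h4.2.1
      linarith

lemma Fin'.unique {T : Set (List ℕ)} (hT : IsTree T) {s t : List ℕ} {x : Eu (k + 2)}
    (hs : Fin' T s x) (ht : Fin' T t x) : s = t :=
  List.IsSuffix.eq_of_length (ht.suffix hT hs.1 hs.2.1)
    (le_antisymm (ht.suffix hT hs.1 hs.2.1).length_le (hs.suffix hT ht.1 ht.2.1).length_le)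

/-- The extended piece of `s`. -/
def Ext (T : Set (List ℕ)) (s : List ℕ) (x : Eu (k + 2)) : Prop :=
  s ∈ T ∧ Ok s x ∧ ∀ j, j :: s ∈ T → 4 / 5 < ‖co s x - ctr k j‖

lemma Fin'.ext {T : Set (List ℕ)} {s : List ℕ} {x : Eu (k + 2)} (h : Fin' T s x) : Ext T s x :=
  ⟨h.1, h.2.1, fun j hj => by have := h.2.2 j hj; linarith⟩

/-- normal form on extended pieces -/
lemma Ext.fin {T : Set (List ℕ)} {s : List ℕ} {x : Eu (k + 2)} (h : Ext T s x) :
    Fin' T s x ∨ ∃ j, j :: s ∈ T ∧ Fin' T (j :: s) x ∧ ‖co (j :: s) x‖ < 5 / 4 := by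
  by_cases h1 : ∀ j, j :: s ∈ T → 1 ≤ ‖co s x - ctr k j‖
  · exact Or.inl ⟨h.1, h.2.1, h1⟩
  · right
    push Not at h1
    obtain ⟨j, hj, h2⟩ := h1
    have h3 := h.2.2 j hj
    have h4 : co s x ≠ ctr k j := by
      rw [← sub_ne_zero, ← norm_pos_iff]; linarith
    have h5 : ‖co (j :: s) x‖ < 5 / 4 := by
      change ‖sig j (co s x)‖ < 5 / 4
      rw [norm_sig h4]
      rw [inv_lt_comm₀ (by linarith) (by norm_num)]
      linarith
    refine ⟨j, hj, ⟨hj, ⟨h.2.1, h2, h4⟩, ?_⟩, h5⟩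
    intro i _
    have h6 := norm_lower (k := k) (j := i) (z := co (j :: s) x)
    linarith

lemma Ext.mem_NT {T : Set (List ℕ)} {s : List ℕ} {x : Eu (k + 2)} (h : Ext T s x) :
    x ∈ NT k T := by
  rw [mem_NT_iff]
  rcases h.fin with h1 | ⟨j, _, h1, _⟩
  · exact ⟨_, h1⟩
  · exact ⟨_, h1⟩

/-! ### openness and smoothness of coordinates -/

lemma contDiffAt_sig {j : ℕ} {x : Eu (k + 2)} (hx : x ≠ ctr k j) : ContDiffAt ℝ ∞ (sig j) x := by
  unfold sig
  have h1 : ContDiffAt ℝ ∞ (fun x : Eu (k + 2) => ‖x - ctr k j‖ ^ 2) x :=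
    (contDiffAt_id.sub contDiffAt_const).norm_sq ℝ
  have h2 : (‖x - ctr k j‖ ^ 2) ≠ 0 := by
    have : ‖x - ctr k j‖ ≠ 0 := norm_ne_zero_iff.2 (sub_ne_zero.2 hx)
    positivity
  exact (h1.inv h2).smul (contDiffAt_id.sub contDiffAt_const)

lemma contDiffAt_tau {j : ℕ} {y : Eu (k + 2)} (hy : y ≠ 0) : ContDiffAt ℝ ∞ (tau j) y := by
  unfold tau
  have h1 : ContDiffAt ℝ ∞ (fun x : Eu (k + 2) => ‖x‖ ^ 2) y := contDiffAt_id.norm_sq ℝ
  have h2 : (‖y‖ ^ 2) ≠ 0 := by
    have : ‖y‖ ≠ 0 := norm_ne_zero_iff.2 hy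
    positivity
  exact contDiffAt_const.add ((h1.inv h2).smul contDiffAt_id)

lemma contDiffAt_co {s : List ℕ} {x : Eu (k + 2)} (h : Ok s x) : ContDiffAt ℝ ∞ (co s) x := by
  induction s with
  | nil => exact contDiffAt_id
  | cons j s ih => exact (contDiffAt_sig h.2.2).comp x (ih h.1)

lemma contDiffAt_iota {s : List ℕ} {z : Eu (k + 2)} (h : s = [] ∨ 1 < ‖z‖) :
    ContDiffAt ℝ ∞ (iota s) z := by
  induction s generalizing z with
  | nil => exact contDiffAt_id
  | cons j s ih =>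
    have hz : 1 < ‖z‖ := by
      rcases h with h | h
      · cases h
      · exact h
    have hz0 : z ≠ 0 := by
      rw [← norm_pos_iff]; linarith
    have h2 : 1 < ‖tau j z‖ := by
      have h3 := norm_lower (k := k) (j := j) (z := tau j z)
      rw [norm_tau_sub hz0] at h3
      have := inv_lt_one_of_one_lt₀ hz
      linarith
    exact (ih (Or.inr h2)).comp z (contDiffAt_tau hz0)

lemma isOpen_ok (s : List ℕ) : IsOpen {x : Eu (k + 2) | Ok s x} := by
  induction s with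
  | nil => exact isOpen_univ
  | cons j s ih =>
    have h1 : ContinuousOn (fun x => co s x - ctr k j) {x : Eu (k + 2) | Ok s x} := fun x hx =>
      ((contDiffAt_co hx).continuousAt.sub continuousAt_const).continuousWithinAt
    have h2 := h1.isOpen_inter_preimage ih
      ((isOpen_lt continuous_norm continuous_const).inter isOpen_ne :
        IsOpen ({y : Eu (k + 2) | ‖y‖ < 1} ∩ {y | y ≠ 0}))
    convert h2 using 1
    ext x
    simp only [mem_ofPred_eq, mem_inter_iff, mem_preimage, Ok, sub_ne_zero]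

lemma isOpen_far (J : Set ℕ) : IsOpen {z : Eu (k + 2) | ∀ j ∈ J, 4 / 5 < ‖z - ctr k j‖} := by
  rw [Metric.isOpen_iff]
  intro z hz
  by_cases h : ∃ j0, ‖z - ctr k j0‖ < 3 / 2
  · obtain ⟨j0, h0⟩ := h
    by_cases hJ : j0 ∈ J
    · have h1 := hz j0 hJ
      refine ⟨min (3 / 2 - ‖z - ctr k j0‖) (‖z - ctr k j0‖ - 4 / 5), by
        apply lt_min <;> linarith, ?_⟩
      intro z' hz' j hj
      rw [Metric.mem_ball, dist_eq_norm, lt_min_iff] at hz'
      by_cases hjj : j = j0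
      · subst hjj
        have h2 : ‖z - ctr k j‖ ≤ ‖z' - z‖ + ‖z' - ctr k j‖ := by
          have h3 : z - ctr k j = (z' - ctr k j) - (z' - z) := by abel
          rw [h3]
          have := norm_sub_le (z' - ctr k j) (z' - z)
          linarith
        linarith [hz'.2]
      · have h2 : ‖z' - ctr k j0‖ ≤ ‖z' - z‖ + ‖z - ctr k j0‖ := by
          have h3 : z' - ctr k j0 = (z' - z) + (z - ctr k j0) := by abel
          rw [h3]
          exact norm_add_le _ _
        by_contra h4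
        push Not at h4
        exact hjj (ctr_unique (k := k) (z := z') (by linarith) (by linarith [hz'.1]))
    · refine ⟨3 / 2 - ‖z - ctr k j0‖, by linarith, ?_⟩
      intro z' hz' j hj
      rw [Metric.mem_ball, dist_eq_norm] at hz'
      have hjj : j ≠ j0 := fun h => hJ (h ▸ hj)
      have h2 : ‖z' - ctr k j0‖ ≤ ‖z' - z‖ + ‖z - ctr k j0‖ := by
        have h3 : z' - ctr k j0 = (z' - z) + (z - ctr k j0) := by abel
        rw [h3]
        exact norm_add_le _ _
      by_contra h4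
      push Not at h4
      exact hjj (ctr_unique (k := k) (z := z') (by linarith) (by linarith))
  · push Not at h
    refine ⟨1 / 2, by norm_num, ?_⟩
    intro z' hz' j _
    rw [Metric.mem_ball, dist_eq_norm] at hz'
    have h1 := h j
    have h2 : ‖z - ctr k j‖ ≤ ‖z' - z‖ + ‖z' - ctr k j‖ := by
      have h3 : z - ctr k j = (z' - ctr k j) - (z' - z) := by abel
      rw [h3]
      have := norm_sub_le (z' - ctr k j) (z' - z)
      linarith
    linarith

lemma isOpen_ext (T : Set (List ℕ)) (s : List ℕ) : IsOpen {x : Eu (k + 2) | Ext T s x} := by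
  by_cases hs : s ∈ T
  · have h1 : ContinuousOn (co s) {x : Eu (k + 2) | Ok s x} := fun x hx =>
      (contDiffAt_co hx).continuousAt.continuousWithinAt
    have h2 := h1.isOpen_inter_preimage (isOpen_ok s) (isOpen_far (k := k) {j | j :: s ∈ T})
    convert h2 using 1
    ext x
    simp only [mem_ofPred_eq, mem_inter_iff, mem_preimage, Ext, hs, true_and]
  · convert isOpen_empty using 1
    ext x
    simp [Ext, hs]

lemma isOpen_NT (T : Set (List ℕ)) : IsOpen (NT k T) := by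
  have : NT k T = ⋃ s, {x : Eu (k + 2) | Ext T s x} := by
    ext x
    rw [mem_iUnion]
    constructor
    · intro h
      obtain ⟨s, hs⟩ := mem_NT_iff.1 h
      exact ⟨s, hs.ext⟩
    · rintro ⟨s, hs⟩
      exact hs.mem_NT
  rw [this]
  exact isOpen_iUnion fun s => isOpen_ext T s

/-! ### points off the hyperplane `x 1 = 0` -/

lemma abs_coord_le (z : Eu (k + 2)) (i : Fin (k + 2)) : |z i| ≤ ‖z‖ := by
  have := PiLp.norm_apply_le z i
  simpa using this

lemma co_one {j : ℕ} {s : List ℕ} {x : Eu (k + 2)} (h : Ok (j :: s) x) :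
    (co (j :: s) x) 1 = (‖co (j :: s) x‖ ^ 2) * (co s x) 1 := by
  have h2 := h.2.2
  have h3 : ‖co (j :: s) x‖ = ‖co s x - ctr k j‖⁻¹ := norm_sig h2
  rw [h3]
  change (sig j (co s x)) 1 = _
  unfold sig
  rw [PiLp.smul_apply, PiLp.sub_apply, ctr_one, sub_zero, smul_eq_mul]
  congr 1
  rw [inv_pow]

lemma Ok.growth {s : List ℕ} {x : Eu (k + 2)} {j : ℕ} (h : Ok (j :: s) x) :
    4 ^ s.length * |x 1| ≤ |(co s x) 1| := by
  induction s generalizing j with
  | nil => simp [co]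
  | cons i s ih =>
    have h1 := ih h.1
    have h2 := h.two_lt
    have h0 : |(co (i :: s) x) 1| = ‖co (i :: s) x‖ ^ 2 * |(co s x) 1| := by
      rw [co_one h.1, abs_mul, abs_of_nonneg (sq_nonneg ‖co (i :: s) x‖)]
    rw [h0, List.length_cons, pow_succ]
    have h3 : (4 : ℝ) ≤ ‖co (i :: s) x‖ ^ 2 := by nlinarith
    have h4 : (0 : ℝ) ≤ 4 ^ s.length * |x 1| := by positivity
    nlinarith

lemma Ok.bound {s : List ℕ} {x : Eu (k + 2)} {j : ℕ} (h : Ok (j :: s) x) :
    4 ^ s.length * |x 1| < 1 := by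
  refine lt_of_le_of_lt h.growth ?_
  have h1 : (co s x) 1 = (co s x - ctr k j) 1 := by
    rw [PiLp.sub_apply, ctr_one, sub_zero]
  rw [h1]
  exact lt_of_le_of_lt (abs_coord_le _ _) h.2.1

lemma co_one_ne {s : List ℕ} {x : Eu (k + 2)} (h : Ok s x) (hx : x 1 ≠ 0) : (co s x) 1 ≠ 0 := by
  induction s with
  | nil => exact hx
  | cons j s ih =>
    rw [co_one h]
    refine mul_ne_zero (pow_ne_zero _ ?_) (ih h.1)
    rcases h.norm with h1 | h1
    · cases h1
    · linarith

/-- every point off the hyperplane `x 1 = 0` belongs to `NT k T`. -/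
lemma mem_NT_of_one_ne {T : Set (List ℕ)} (hT : IsTree T) {x : Eu (k + 2)} (hx : x 1 ≠ 0) :
    x ∈ NT k T := by
  classical
  -- bound on the length
  obtain ⟨B, hB⟩ : ∃ B : ℕ, ∀ s, Ok s x → s.length ≤ B := by
    have hpos : 0 < |x 1| := abs_pos.2 hx
    obtain ⟨n, hn⟩ := pow_unbounded_of_one_lt (|x 1|⁻¹) (show (1 : ℝ) < 4 by norm_num)
    refine ⟨n + 1, fun s hs => ?_⟩
    cases s with
    | nil => simp
    | cons j s =>
      have h1 := hs.bound
      by_contra hcon
      simp only [List.length_cons, not_le] at hcon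
      have h2 : (4 : ℝ) ^ n ≤ 4 ^ s.length := pow_le_pow_right₀ (by norm_num) (by omega)
      have h3 : 1 < (4 : ℝ) ^ n * |x 1| := by
        rw [inv_lt_iff_one_lt_mul₀ hpos] at hn
        linarith
      have h4 : (4 : ℝ) ^ n * |x 1| ≤ 4 ^ s.length * |x 1| := by gcongr
      linarith
  -- take a node of maximal length
  have hex : ∃ n, ∃ s ∈ T, Ok s x ∧ s.length = n := ⟨0, [], hT.1, trivial, rfl⟩
  have hmax : ∃ n, (∃ s ∈ T, Ok s x ∧ s.length = n) ∧ ∀ m, (∃ s ∈ T, Ok s x ∧ s.length = m) → m ≤ n := by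
    have hle : ∀ m, (∃ s ∈ T, Ok s x ∧ s.length = m) → m ≤ B := by
      rintro m ⟨s, _, h2, rfl⟩; exact hB s h2
    refine ⟨Nat.findGreatest (fun m => ∃ s ∈ T, Ok s x ∧ s.length = m) B, ?_, ?_⟩
    · obtain ⟨n, hn⟩ := hex
      exact Nat.findGreatest_spec (P := fun m => ∃ s ∈ T, Ok s x ∧ s.length = m) (hle n hn) hn
    · intro m hm
      exact Nat.le_findGreatest (hle m hm) hm
  obtain ⟨n, ⟨s, hsT, hs, hsn⟩, hmax⟩ := hmax
  rw [mem_NT_iff]
  refine ⟨s, hsT, hs, fun j hj => ?_⟩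
  by_contra hcon
  push Not at hcon
  have h1 : co s x ≠ ctr k j := by
    intro h
    have := co_one_ne hs hx
    rw [h, ctr_one] at this
    exact this rfl
  have := hmax _ ⟨j :: s, hj, ⟨hs, hcon, h1⟩, rfl⟩
  simp only [List.length_cons] at this
  omega

lemma zero_mem_NT {T : Set (List ℕ)} (hT : IsTree T) : (0 : Eu (k + 2)) ∈ NT k T := by
  rw [mem_NT_iff]
  refine ⟨[], hT.1, trivial, fun j _ => ?_⟩
  change 1 ≤ ‖(0 : Eu (k + 2)) - ctr k j‖
  rw [zero_sub, norm_neg, norm_ctr]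
  have : (0 : ℝ) ≤ j := Nat.cast_nonneg j
  linarith

/-- `NT k T` is connected. -/
lemma isConnected_NT {T : Set (List ℕ)} (hT : IsTree T) : IsConnected (NT k T) := by
  have hcont : Continuous fun x : Eu (k + 2) => x 1 := by fun_prop
  -- closed half spaces
  have key : ∀ σ : ℝ, σ ≠ 0 → IsPreconnected (NT k T ∩ {x | 0 ≤ σ * x 1}) := by
    intro σ hσ
    have hconv : Convex ℝ {x : Eu (k + 2) | 0 < σ * x 1} := by
      intro x hx y hy a b ha hb hab
      simp only [mem_ofPred_eq, PiLp.add_apply, PiLp.smul_apply, smul_eq_mul] at hx hy ⊢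
      rcases ha.eq_or_lt with h | h
      · subst h
        have : b = 1 := by linarith
        subst this
        simpa using hy
      · nlinarith [mul_pos h hx, mul_nonneg hb hy.le]
    refine hconv.isPreconnected.subset_closure ?_ ?_
    · intro x hx
      have hx' : 0 < σ * x 1 := hx
      refine ⟨mem_NT_of_one_ne hT ?_, hx'.le⟩
      intro h
      rw [h, mul_zero] at hx'
      exact lt_irrefl _ hx'
    · rintro x ⟨_, hx⟩
      have hx' : 0 ≤ σ * x 1 := hx
      rw [Metric.mem_closure_iff]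
      intro ε hε
      refine ⟨x + EuclideanSpace.single 1 (σ / |σ| * (ε / 2)), ?_, ?_⟩
      · change 0 < σ * ((x + EuclideanSpace.single 1 (σ / |σ| * (ε / 2)) : Eu (k + 2)) 1)
        rw [PiLp.add_apply, PiLp.single_apply, if_pos rfl]
        have : σ * (σ / |σ| * (ε / 2)) = |σ| * (ε / 2) := by
          have h1 : |σ| ≠ 0 := abs_ne_zero.2 hσ
          field_simp
          rw [sq_abs]
        have h2 : 0 < |σ| * (ε / 2) := by positivity
        nlinarith
      · rw [dist_eq_norm, sub_add_cancel_left, norm_neg, PiLp.norm_single, Real.norm_eq_abs,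
          abs_mul, abs_div, abs_abs, div_self (abs_ne_zero.2 hσ), one_mul, abs_of_pos (by linarith)]
        linarith
  have h1 := key 1 one_ne_zero
  have h2 := key (-1) (by norm_num)
  have m1 : (0 : Eu (k + 2)) ∈ NT k T ∩ {x | 0 ≤ (1 : ℝ) * x 1} :=
    ⟨zero_mem_NT hT, by simp⟩
  have m2 : (0 : Eu (k + 2)) ∈ NT k T ∩ {x | 0 ≤ (-1 : ℝ) * x 1} :=
    ⟨zero_mem_NT hT, by simp⟩
  have h3 := IsPreconnected.union (0 : Eu (k + 2)) m1 m2 h1 h2
  refine ⟨⟨0, zero_mem_NT hT⟩, ?_⟩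
  convert h3 using 1
  ext x
  simp only [mem_union, mem_inter_iff, mem_ofPred_eq]
  constructor
  · intro h
    rcases le_total 0 (x 1) with h4 | h4
    · left; exact ⟨h, by linarith⟩
    · right; exact ⟨h, by linarith⟩
  · rintro (h | h) <;> exact h.1

end Pool.Agent.BorelManifold
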