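import Mathlib
import Pool.Agent.Lib.BorelManifold.NTBasic

/-!
# The proper function `rho T` on `NT k T`
-/

namespace Pool.Agent.BorelManifold

open Set Topology
open scoped ContDiff

variable {k : ℕ}

/-- cut-off function -/
noncomputable def eta (u : ℝ) : ℝ := Real.smoothTransition (u - 2) * u

lemma contDiff_eta : ContDiff ℝ ∞ eta := by
  unfold eta
  exact (Real.smoothTransition.contDiff.comp (contDiff_id.sub contDiff_const)).mul contDiff_id

lemma eta_nonneg {u : ℝ} (hu : 0 ≤ u) : 0 ≤ eta u :=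
  mul_nonneg (Real.smoothTransition.nonneg _) hu

lemma eta_zero {u : ℝ} (hu : u ≤ 2) : eta u = 0 := by
  unfold eta
  rw [Real.smoothTransition.zero_of_nonpos (by linarith), zero_mul]

lemma eta_eq {u : ℝ} (hu : 3 ≤ u) : eta u = u := by
  unfold eta
  rw [Real.smoothTransition.one_of_one_le (by linarith), one_mul]

/-- the sum of the cut-offs over the nodes above `s` -/
noncomputable def Rsum : List ℕ → Eu (k + 2) → ℝ
  | [], _ => 0
  | j :: s, x => eta (‖co (j :: s) x‖ ^ 2) + Rsum s x

lemma Rsum_nonneg (s : List ℕ) (x : Eu (k + 2)) : 0 ≤ Rsum s x := by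
  induction s with
  | nil => exact le_rfl
  | cons j s ih => exact add_nonneg (eta_nonneg (sq_nonneg _)) ih

lemma Rsum_mono {s t : List ℕ} (h : t <:+ s) (x : Eu (k + 2)) : Rsum t x ≤ Rsum s x := by
  induction s with
  | nil => have := List.eq_nil_of_suffix_nil h; subst this; exact le_rfl
  | cons j s ih =>
    rcases List.suffix_cons_iff.1 h with h1 | h1
    · rw [h1]
    · have := ih h1
      have h2 := eta_nonneg (sq_nonneg ‖co (j :: s) x‖)
      change Rsum t x ≤ eta (‖co (j :: s) x‖ ^ 2) + Rsum s x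
      linarith

lemma Rsum_lower {j : ℕ} {s : List ℕ} {x : Eu (k + 2)} (h : Ok (j :: s) x) :
    4 * (s.length : ℝ) ≤ Rsum s x := by
  induction s generalizing j with
  | nil => simp [Rsum]
  | cons i s ih =>
    have h1 := ih h.1
    have h2 := h.two_lt
    change _ ≤ eta (‖co (i :: s) x‖ ^ 2) + Rsum s x
    have h3 : (4 : ℝ) ≤ ‖co (i :: s) x‖ ^ 2 := by nlinarith
    rw [eta_eq (by linarith), List.length_cons]
    push_cast
    linarith

lemma contDiffAt_Rsum {s : List ℕ} {x : Eu (k + 2)} (h : Ok s x) :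
    ContDiffAt ℝ ∞ (Rsum s : Eu (k + 2) → ℝ) x := by
  induction s with
  | nil => exact contDiffAt_const
  | cons j s ih =>
    have h1 : ContDiffAt ℝ ∞ (fun x : Eu (k + 2) => ‖co (j :: s) x‖ ^ 2) x :=
      (contDiffAt_co h).norm_sq ℝ
    exact (contDiff_eta.contDiffAt.comp x h1).add (ih h.1)

open Classical in
/-- the final node of `x` -/
noncomputable def fn (T : Set (List ℕ)) (x : Eu (k + 2)) : List ℕ :=
  if h : ∃ s, Fin' T s x then h.choose else []

lemma fn_spec {T : Set (List ℕ)} {x : Eu (k + 2)} (h : x ∈ NT k T) : Fin' T (fn T x) x := by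
  have h1 := mem_NT_iff.1 h
  unfold fn
  rw [dif_pos h1]
  exact h1.choose_spec

lemma fn_eq {T : Set (List ℕ)} (hT : IsTree T) {s : List ℕ} {x : Eu (k + 2)} (h : Fin' T s x) :
    fn T x = s :=
  (fn_spec (mem_NT_iff.2 ⟨s, h⟩)).unique hT h

/-- the proper function on `NT k T` -/
noncomputable def rho (T : Set (List ℕ)) (x : Eu (k + 2)) : ℝ := Rsum (fn T x) x

lemma rho_eq {T : Set (List ℕ)} (hT : IsTree T) {s : List ℕ} {x : Eu (k + 2)} (h : Ext T s x) :
    rho T x = Rsum s x := by
  unfold rho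
  rcases h.fin with h1 | ⟨j, _, h1, h2⟩
  · rw [fn_eq hT h1]
  · rw [fn_eq hT h1]
    change eta (‖co (j :: s) x‖ ^ 2) + Rsum s x = _
    have h3 : ‖co (j :: s) x‖ ^ 2 ≤ 2 := by
      have := norm_nonneg (co (j :: s) x)
      nlinarith
    rw [eta_zero h3, zero_add]

lemma contDiffAt_rho {T : Set (List ℕ)} (hT : IsTree T) {x : Eu (k + 2)} (hx : x ∈ NT k T) :
    ContDiffAt ℝ ∞ (rho T : Eu (k + 2) → ℝ) x := by
  obtain ⟨s, hs⟩ := mem_NT_iff.1 hx
  refine (contDiffAt_Rsum hs.2.1).congr_of_eventuallyEq ?_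
  filter_upwards [(isOpen_ext T s).mem_nhds hs.ext] with y hy
  exact rho_eq hT hy

lemma rho_ge {T : Set (List ℕ)} (hT : IsTree T) {t : List ℕ} {x : Eu (k + 2)} (hx : x ∈ NT k T)
    (ht : t ∈ T) (h : Ok t x) : Rsum t x ≤ rho T x :=
  Rsum_mono ((fn_spec hx).suffix hT ht h) x

/-- `rho T` tends to infinity at the points outside `NT k T`. -/
lemma rho_proper {T : Set (List ℕ)} (hT : IsTree T) {x : Eu (k + 2)} (hx : x ∉ NT k T) (C : ℝ) :
    ∃ W : Set (Eu (k + 2)), IsOpen W ∧ x ∈ W ∧ ∀ y ∈ W, y ∈ NT k T → C < rho T y := by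
  -- case A: some centre
  by_cases hA : ∃ s j, j :: s ∈ T ∧ Ok s x ∧ co s x = ctr k j
  · obtain ⟨s, j, hj, hs, hc⟩ := hA
    -- near x the coordinate is close to the centre
    have hC0 : 0 < 1 + |C| + 3 := by positivity
    have hcont := (contDiffAt_co hs).continuousAt
    have h1 : ∀ᶠ y in 𝓝 x, ‖co s y - ctr k j‖ < (1 + |C| + 3)⁻¹ := by
      have h2 : Filter.Tendsto (fun y => ‖co s y - ctr k j‖) (𝓝 x) (𝓝 ‖co s x - ctr k j‖) :=
        ((hcont.sub continuousAt_const).norm)
      rw [hc, sub_self, norm_zero] at h2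
      exact h2.eventually (gt_mem_nhds (by positivity))
    obtain ⟨W, hW1, hW2, hW3⟩ := eventually_nhds_iff.1 (h1.and ((isOpen_ok s).mem_nhds hs))
    refine ⟨W, hW2, hW3, fun y hy hyN => ?_⟩
    obtain ⟨h3, h4⟩ := hW1 y hy
    have h4' : Ok s y := h4
    have hlt1 : ‖co s y - ctr k j‖ < 1 := lt_trans h3 (inv_lt_one_of_one_lt₀ (by
      have := abs_nonneg C; linarith))
    have hne : co s y ≠ ctr k j := by
      intro h5
      -- the final node of y
      have h6 := fn_spec hyN
      have hsT : s ∈ T := hT.2 _ _ hj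
      have h7 := h6.suffix hT hsT h4'
      rcases h7 with ⟨u, hu⟩
      rcases List.eq_nil_or_concat u with h8 | ⟨u', i, h8⟩
      · subst h8
        rw [List.nil_append] at hu
        rw [← hu] at h6
        have := h6.2.2 j hj
        rw [h5, sub_self, norm_zero] at this
        linarith
      · subst h8
        have h9 : (i :: s) <:+ fn T y := ⟨u', by rw [← hu]; simp⟩
        have h10 := h6.2.1.suffix h9
        have h11 := h10.2.1
        have h12 := h10.2.2
        have h13 : j = i := ctr_unique (k := k) (z := co s y) (by linarith) (by linarith)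
        subst h13
        exact h12 h5
    have hok : Ok (j :: s) y := ⟨h4', hlt1, hne⟩
    have h5 := rho_ge hT hyN hj hok
    have h6 : ‖co (j :: s) y‖ = ‖co s y - ctr k j‖⁻¹ := norm_sig hne
    have h7 : 1 + |C| + 3 < ‖co (j :: s) y‖ := by
      rw [h6]
      exact lt_inv_of_lt_inv₀ (norm_pos_iff.2 (sub_ne_zero.2 hne)) h3 
    have h8 : 1 + |C| + 3 < ‖co (j :: s) y‖ ^ 2 := by
      have := abs_nonneg C
      nlinarith
    have h9 : Rsum (j :: s) y = eta (‖co (j :: s) y‖ ^ 2) + Rsum s y := rfl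
    rw [h9, eta_eq (by have := abs_nonneg C; linarith)] at h5
    have h10 := Rsum_nonneg s y
    have := le_abs_self C
    linarith
  · push Not at hA
    -- case B: arbitrarily long itineraries
    have hB : ∀ n : ℕ, ∃ s ∈ T, Ok s x ∧ s.length = n := by
      intro n
      induction n with
      | zero => exact ⟨[], hT.1, trivial, rfl⟩
      | succ n ih =>
        obtain ⟨s, hs, hok, hn⟩ := ih
        by_contra hcon
        apply hx
        rw [mem_NT_iff]
        refine ⟨s, hs, hok, fun j hj => ?_⟩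
        by_contra hlt
        push Not at hlt
        exact hcon ⟨j :: s, hj, ⟨hok, hlt, hA s j hj hok⟩, by simp [hn]⟩
    obtain ⟨n, hn⟩ := exists_nat_gt C
    obtain ⟨s, hs, hok, hsn⟩ := hB (n + 1)
    refine ⟨{y | Ok s y}, isOpen_ok s, hok, fun y hy hyN => ?_⟩
    have hy' : Ok s y := hy
    cases s with
    | nil => simp at hsn
    | cons j s =>
      have h1 := Rsum_lower hy'
      have h2 := rho_ge hT hyN (hT.2 _ _ hs) hy'.1
      have h3 : s.length = n := by simpa using hsn
      rw [h3] at h1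
      have : (0 : ℝ) ≤ n := Nat.cast_nonneg n
      linarith

end Pool.Agent.BorelManifold
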