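import Mathlib
import Pool.Agent.Lib.BorelManifold.NTBasic

/-!
# Permuting the holes by a diffeomorphism: three shears
-/

namespace Pool.Agent.BorelManifold

open Set Topology
open scoped ContDiff

variable {k : ℕ}

/-- a bump -/
noncomputable def chi : ContDiffBump (0 : ℝ) := ⟨5 / 4, 11 / 8, by norm_num, by norm_num⟩

lemma chi_one {t : ℝ} (h : |t| ≤ 5 / 4) : chi t = 1 := by
  apply chi.one_of_mem_closedBall
  rw [Metric.mem_closedBall, Real.dist_eq, sub_zero]
  exact h

lemma chi_zero {t : ℝ} (h : 11 / 8 ≤ |t|) : chi t = 0 := by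
  apply chi.zero_of_le_dist
  rw [Real.dist_eq, sub_zero]
  exact h

lemma exists_step (f : ℕ → ℝ) : ∃ g : ℝ → ℝ, ContDiff ℝ ∞ g ∧
    ∀ (i : ℕ) (t : ℝ), |t - 3 * i| ≤ 5 / 4 → g t = f i := by
  classical
  set g : ℝ → ℝ := fun t => ∑ᶠ i : ℕ, f i * chi (t - 3 * i) with hg
  have hsingle : ∀ (i : ℕ) (t : ℝ), |t - 3 * i| < 13 / 8 → g t = f i * chi (t - 3 * i) := by
    intro i t h
    simp only [hg]
    apply finsum_eq_single
    intro j hj
    rw [chi_zero, mul_zero]
    have h1 : (1 : ℝ) ≤ |(i : ℝ) - j| := by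
      have : (1 : ℤ) ≤ |(i : ℤ) - j| := Int.one_le_abs (sub_ne_zero.2 (by exact_mod_cast hj.symm))
      exact_mod_cast this
    have h2 : |3 * (i : ℝ) - 3 * j| ≤ |t - 3 * j| + |t - 3 * i| := by
      have : 3 * (i : ℝ) - 3 * j = (t - 3 * j) - (t - 3 * i) := by ring
      rw [this]; exact abs_sub _ _
    have h3 : |3 * (i : ℝ) - 3 * j| = 3 * |(i : ℝ) - j| := by
      rw [← mul_sub, abs_mul]; norm_num
    rw [h3] at h2
    linarith
  refine ⟨g, ?_, fun i t h => ?_⟩
  · rw [contDiff_iff_contDiffAt]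
    intro t0
    by_cases h : ∃ i : ℕ, |t0 - 3 * i| < 13 / 8
    · obtain ⟨i, hi⟩ := h
      have h1 : ContDiffAt ℝ ∞ (fun t : ℝ => f i * chi (t - 3 * i)) t0 :=
        contDiffAt_const.mul (chi.contDiff.contDiffAt.comp t0 (contDiffAt_id.sub contDiffAt_const))
      refine h1.congr_of_eventuallyEq ?_
      have h2 : IsOpen {t : ℝ | |t - 3 * i| < 13 / 8} := by
        apply isOpen_lt <;> fun_prop
      filter_upwards [h2.mem_nhds hi] with t ht
      exact hsingle i t ht
    · push Not at h
      -- t0 is very negative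
      have ht0 : t0 < -3 / 2 := by
        by_contra hcon
        push Not at hcon
        rcases le_total 0 t0 with hpos | hneg
        · -- nearest natural number
          have h1 := h ⌊(t0 + 3 / 2) / 3⌋₊
          have h2 := Nat.floor_le (show 0 ≤ (t0 + 3 / 2) / 3 by positivity)
          have h3 := Nat.lt_floor_add_one ((t0 + 3 / 2) / 3)
          have h4 : |t0 - 3 * (⌊(t0 + 3 / 2) / 3⌋₊ : ℝ)| ≤ 3 / 2 := by
            rw [abs_le]; constructor <;> linarith
          linarith
        · have h1 := h 0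
          simp only [Nat.cast_zero, mul_zero, sub_zero] at h1
          rw [abs_of_nonpos hneg] at h1
          linarith
      have h1 : ContDiffAt ℝ ∞ (fun _ : ℝ => (0 : ℝ)) t0 := contDiffAt_const
      refine h1.congr_of_eventuallyEq ?_
      filter_upwards [(isOpen_Iio (a := (-3 / 2 : ℝ))).mem_nhds ht0] with t ht
      simp only [hg]
      rw [finsum_eq_zero_of_forall_eq_zero]
      intro i
      rw [chi_zero, mul_zero]
      have hi : (0 : ℝ) ≤ i := Nat.cast_nonneg i
      have ht' : t < -3 / 2 := ht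
      rw [abs_of_nonpos (by linarith)]
      linarith
  · rw [hsingle i t (by linarith), chi_one h, mul_one]

/-- shear in the direction `b` by a function of the coordinate `a` -/
noncomputable def shear (a b : Fin (k + 2)) (g : ℝ → ℝ) (z : Eu (k + 2)) : Eu (k + 2) :=
  z + EuclideanSpace.single b (g (z a))

lemma shear_apply (a b : Fin (k + 2)) (g : ℝ → ℝ) (z : Eu (k + 2)) :
    shear a b g z = z + EuclideanSpace.single b (g (z a)) := rfl

lemma contDiff_shear (a b : Fin (k + 2)) {g : ℝ → ℝ} (hg : ContDiff ℝ ∞ g) :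
    ContDiff ℝ ∞ (shear a b g : Eu (k + 2) → Eu (k + 2)) := by
  unfold shear
  refine contDiff_id.add ?_
  rw [contDiff_euclidean]
  intro i
  simp only [PiLp.single_apply]
  split_ifs
  · exact hg.comp (by fun_prop)
  · exact contDiff_const

lemma shear_neg {a b : Fin (k + 2)} (hab : a ≠ b) (g : ℝ → ℝ) (z : Eu (k + 2)) :
    shear a b (fun t => - g t) (shear a b g z) = z := by
  unfold shear
  have h : (z + EuclideanSpace.single b (g (z a)) : Eu (k + 2)) a = z a := by
    rw [PiLp.add_apply, PiLp.single_apply, if_neg hab, add_zero]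
  rw [h, add_assoc]
  have : (EuclideanSpace.single b (g (z a)) + EuclideanSpace.single b (-g (z a)) : Eu (k + 2)) = 0 := by
    ext l
    simp only [PiLp.add_apply, PiLp.single_apply, PiLp.zero_apply]
    split_ifs <;> simp
  rw [this, add_zero]

/-- The pair of mutually inverse diffeomorphisms attached to a permutation of the holes. -/
lemma exists_perm_diffeo (π π' : ℕ → ℕ) (h1 : ∀ j, π' (π j) = j) (h2 : ∀ j, π (π' j) = j) :
    ∃ H K : Eu (k + 2) → Eu (k + 2), ContDiff ℝ ∞ H ∧ ContDiff ℝ ∞ K ∧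
      (∀ z, K (H z) = z) ∧ (∀ z, H (K z) = z) ∧
      (∀ z, ‖z‖ ≤ 5 / 4 → H z = z) ∧ (∀ z, ‖z‖ ≤ 5 / 4 → K z = z) ∧
      (∀ j z, ‖z - ctr k j‖ ≤ 5 / 4 → H z = z - ctr k j + ctr k (π j)) ∧
      (∀ j z, ‖z - ctr k j‖ ≤ 5 / 4 → K z = z - ctr k j + ctr k (π' j)) := by
  -- position i = 0 is the input ball, position j+1 the hole j
  obtain ⟨a, ha, ha'⟩ := exists_step (fun i => 3 * (i : ℝ))
  obtain ⟨b, hb, hb'⟩ := exists_step (fun i => match i with
    | 0 => 0
    | j + 1 => 3 * ((π j : ℝ) - j))
  obtain ⟨c, hc, hc'⟩ := exists_step (fun i => match i with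
    | 0 => 0
    | j + 1 => 3 * ((π' j : ℝ) + 1))
  have h01 : (0 : Fin (k + 2)) ≠ 1 := by simp
  have h10 : (1 : Fin (k + 2)) ≠ 0 := by simp
  set H : Eu (k + 2) → Eu (k + 2) := fun z =>
    shear 0 1 (fun t => - c t) (shear 1 0 b (shear 0 1 a z)) with hH
  set K : Eu (k + 2) → Eu (k + 2) := fun z =>
    shear 0 1 (fun t => - a t) (shear 1 0 (fun t => - b t) (shear 0 1 c z)) with hK
  have hKH : ∀ z, K (H z) = z := by
    intro z
    simp only [hH, hK]
    have e1 : ∀ w : Eu (k + 2), shear 0 1 c (shear 0 1 (fun t => - c t) w) = w := by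
      intro w
      have := shear_neg (k := k) h01 (fun t => - c t) w
      simpa using this
    rw [e1, shear_neg h10, shear_neg h01]
  have hHK : ∀ z, H (K z) = z := by
    intro z
    simp only [hH, hK]
    have e1 : ∀ w : Eu (k + 2), shear 0 1 a (shear 0 1 (fun t => - a t) w) = w := by
      intro w
      have := shear_neg (k := k) h01 (fun t => - a t) w
      simpa using this
    have e2 : ∀ w : Eu (k + 2), shear 1 0 b (shear 1 0 (fun t => - b t) w) = w := by
      intro w
      have := shear_neg (k := k) h10 (fun t => - b t) w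
      simpa using this
    rw [e1, e2, shear_neg h01]
  -- values of H
  have coord : ∀ (z : Eu (k + 2)) (i : Fin (k + 2)) (j : ℕ), |(z - ctr k j) i| ≤ ‖z - ctr k j‖ :=
    fun z i j => abs_coord_le _ _
  have Hzero : ∀ z, ‖z‖ ≤ 5 / 4 → H z = z := by
    intro z hz
    have z0 := (abs_coord_le z 0).trans hz
    have z1 := (abs_coord_le z 1).trans hz
    have e1 : a (z 0) = 0 := by
      have := ha' 0 (z 0) (by simpa using z0)
      simpa using this
    have s1 : shear 0 1 a z = z := by
      rw [shear_apply, e1]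
      ext l; simp [PiLp.single_apply]
    have e2 : b (z 1) = 0 := by
      have := hb' 0 (z 1) (by simpa using z1)
      simpa using this
    have s2 : shear 1 0 b z = z := by
      rw [shear_apply, e2]
      ext l; simp [PiLp.single_apply]
    have e3 : c (z 0) = 0 := by
      have := hc' 0 (z 0) (by simpa using z0)
      simpa using this
    have s3 : shear 0 1 (fun t => - c t) z = z := by
      rw [shear_apply, e3]
      ext l; simp [PiLp.single_apply]
    simp only [hH]
    rw [s1, s2, s3]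
  have Hctr : ∀ j z, ‖z - ctr k j‖ ≤ 5 / 4 → H z = z - ctr k j + ctr k (π j) := by
    intro j z hz
    have z0 : |z 0 - 3 * ((j : ℝ) + 1)| ≤ 5 / 4 := by
      have := (coord z 0 j).trans hz
      rwa [PiLp.sub_apply, ctr_zero] at this
    have z1 : |z 1| ≤ 5 / 4 := by
      have := (coord z 1 j).trans hz
      rwa [PiLp.sub_apply, ctr_one, sub_zero] at this
    have e1 : a (z 0) = 3 * ((j : ℝ) + 1) := by
      have := ha' (j + 1) (z 0) (by push_cast; exact z0)
      rw [this]; push_cast; ring
    have s1 : shear 0 1 a z = z + EuclideanSpace.single 1 (3 * ((j : ℝ) + 1)) := by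
      rw [shear_apply, e1]
    have c1 : (z + EuclideanSpace.single 1 (3 * ((j : ℝ) + 1)) : Eu (k + 2)) 1
        = z 1 + 3 * ((j : ℝ) + 1) := by
      rw [PiLp.add_apply, PiLp.single_apply, if_pos rfl]
    have e2 : b (z 1 + 3 * ((j : ℝ) + 1)) = 3 * ((π j : ℝ) - j) := by
      have := hb' (j + 1) (z 1 + 3 * ((j : ℝ) + 1)) (by push_cast; simpa using z1)
      simpa using this
    have s2 : shear 1 0 b (shear 0 1 a z) = z + EuclideanSpace.single 1 (3 * ((j : ℝ) + 1))
        + EuclideanSpace.single 0 (3 * ((π j : ℝ) - j)) := by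
      rw [s1, shear_apply, c1, e2]
    have c2 : (z + EuclideanSpace.single 1 (3 * ((j : ℝ) + 1))
        + EuclideanSpace.single 0 (3 * ((π j : ℝ) - j)) : Eu (k + 2)) 0
        = z 0 + 3 * ((π j : ℝ) - j) := by
      rw [PiLp.add_apply, PiLp.add_apply, PiLp.single_apply, PiLp.single_apply, if_neg h01,
        if_pos rfl, add_zero]
    have e3 : c (z 0 + 3 * ((π j : ℝ) - j)) = 3 * ((j : ℝ) + 1) := by
      have := hc' (π j + 1) (z 0 + 3 * ((π j : ℝ) - j)) (by
        push_cast
        have e : z 0 + 3 * ((π j : ℝ) - j) - 3 * ((π j : ℝ) + 1) = z 0 - 3 * ((j : ℝ) + 1) := by ring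
        rw [e]; exact z0)
      simp only [h1] at this
      exact this
    simp only [hH]
    rw [s2, shear_apply, c2, e3]
    ext l
    simp only [PiLp.add_apply, PiLp.sub_apply, PiLp.single_apply, ctr]
    by_cases l0 : l = 0
    · subst l0
      simp
      ring
    · by_cases l1 : l = 1
      · subst l1
        simp
      · simp [l0, l1]
  have Kzero : ∀ z, ‖z‖ ≤ 5 / 4 → K z = z := by
    intro z hz
    have := hKH z
    rwa [Hzero z hz] at this
  have Kctr : ∀ j z, ‖z - ctr k j‖ ≤ 5 / 4 → K z = z - ctr k j + ctr k (π' j) := by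
    intro j z hz
    have h3 : H (z - ctr k j + ctr k (π' j)) = z := by
      have := Hctr (π' j) (z - ctr k j + ctr k (π' j)) (by
        rw [add_sub_cancel_right]; exact hz)
      rw [this, h2]
      abel
    rw [← h3, hKH, h3]
  refine ⟨H, K, ?_, ?_, hKH, hHK, Hzero, Kzero, Hctr, Kctr⟩
  · exact (contDiff_shear 0 1 hc.neg).comp ((contDiff_shear 1 0 hb).comp (contDiff_shear 0 1 ha))
  · exact (contDiff_shear 0 1 ha.neg).comp ((contDiff_shear 1 0 hb.neg).comp (contDiff_shear 0 1 hc))

end Pool.Agent.BorelManifold
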