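import Mathlib
import Pool.Agent.Lib.BorelManifold.NTRho
import Pool.Agent.Lib.BorelManifold.NTShear

/-!
# The diffeomorphism of `NT k T` induced by an automorphism of the tree
-/

namespace Pool.Agent.BorelManifold

open Set Topology
open scoped ContDiff

variable {k : ℕ}

/-- all the data attached to a tree automorphism -/
structure AutData (Φ : List ℕ ≃ List ℕ) (P P' : List ℕ → ℕ → ℕ)
    (H K : List ℕ → Eu (k + 2) → Eu (k + 2)) : Prop where
  nil : Φ [] = []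
  cons : ∀ s j, Φ (j :: s) = P s j :: Φ s
  left : ∀ s j, P' s (P s j) = j
  right : ∀ s j, P s (P' s j) = j
  smoothH : ∀ s, ContDiff ℝ ∞ (H s)
  smoothK : ∀ s, ContDiff ℝ ∞ (K s)
  KH : ∀ s z, K s (H s z) = z
  HK : ∀ s z, H s (K s z) = z
  H0 : ∀ s z, ‖z‖ ≤ 5 / 4 → H s z = z
  K0 : ∀ s z, ‖z‖ ≤ 5 / 4 → K s z = z
  H1 : ∀ s j z, ‖z - ctr k j‖ ≤ 5 / 4 → H s z = z - ctr k j + ctr k (P s j)
  K1 : ∀ s j z, ‖z - ctr k j‖ ≤ 5 / 4 → K s z = z - ctr k j + ctr k (P' s j)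

lemma exists_autData (k : ℕ) {Φ : List ℕ ≃ List ℕ} (hΦ : IsTreeAut Φ) :
    ∃ (P P' : List ℕ → ℕ → ℕ) (H K : List ℕ → Eu (k + 2) → Eu (k + 2)), AutData Φ P P' H K := by
  choose P hP using hΦ.2
  have hinj : ∀ s, Function.Injective (P s) := by
    intro s i j hij
    have : Φ (i :: s) = Φ (j :: s) := by rw [hP, hP, hij]
    have := Φ.injective this
    exact (List.cons.inj this).1
  have hsurj : ∀ s, Function.Surjective (P s) := by
    intro s j
    obtain ⟨u, hu⟩ := Φ.surjective (j :: Φ s)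
    cases u with
    | nil => rw [hΦ.1] at hu; cases hu
    | cons i t =>
      rw [hP] at hu
      obtain ⟨h1, h2⟩ := List.cons.inj hu
      have := Φ.injective h2
      subst this
      exact ⟨i, h1⟩
  choose P' hP' using hsurj
  have hleft : ∀ s j, P' s (P s j) = j := fun s j => hinj s (hP' s (P s j))
  choose H K h1 h2 h3 h4 h5 h6 h7 h8 using fun s => exists_perm_diffeo (k := k) (P s) (P' s)
    (hleft s) (hP' s)
  exact ⟨P, P', H, K, ⟨hΦ.1, hP, hleft, hP', h1, h2, h3, h4, h5, h6, h7, h8⟩⟩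

variable {Φ : List ℕ ≃ List ℕ} {P P' : List ℕ → ℕ → ℕ} {H K : List ℕ → Eu (k + 2) → Eu (k + 2)}

lemma AutData.symm (h : AutData Φ P P' H K) :
    AutData Φ.symm (fun s => P' (Φ.symm s)) (fun s => P (Φ.symm s)) (fun s => K (Φ.symm s))
      (fun s => H (Φ.symm s)) where
  nil := by rw [Equiv.symm_apply_eq, h.nil]
  cons := by
    intro s j
    rw [Equiv.symm_apply_eq, h.cons, h.right, Equiv.apply_symm_apply]
  left := fun s j => h.right _ _
  right := fun s j => h.left _ _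
  smoothH := fun s => h.smoothK _
  smoothK := fun s => h.smoothH _
  KH := fun s => h.HK _
  HK := fun s => h.KH _
  H0 := fun s => h.K0 _
  K0 := fun s => h.H0 _
  H1 := fun s => h.K1 _
  K1 := fun s => h.H1 _

lemma isTree_image (h : AutData Φ P P' H K) {T : Set (List ℕ)} (hT : IsTree T) :
    IsTree (Φ '' T) := by
  refine ⟨⟨[], hT.1, h.nil⟩, ?_⟩
  rintro j s ⟨u, hu, hus⟩
  cases u with
  | nil => rw [h.nil] at hus; cases hus
  | cons i t =>
    rw [h.cons] at hus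
    exact ⟨t, hT.2 _ _ hu, (List.cons.inj hus).2⟩

/-- the induced map -/
noncomputable def Dm (Φ : List ℕ ≃ List ℕ) (H : List ℕ → Eu (k + 2) → Eu (k + 2))
    (T : Set (List ℕ)) (x : Eu (k + 2)) : Eu (k + 2) :=
  iota (Φ (fn T x)) (H (fn T x) (co (fn T x) x))

lemma tau_sig' {i j : ℕ} {x : Eu (k + 2)} (hx : x ≠ ctr k j) :
    tau i (sig j x) = x - ctr k j + ctr k i := by
  unfold sig tau
  rw [inv_sq_inv_sq (sub_ne_zero.2 hx)]
  abel

lemma Dm_eq (h : AutData Φ P P' H K) {T : Set (List ℕ)} (hT : IsTree T) {s : List ℕ}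
    {x : Eu (k + 2)} (hx : Ext T s x) : Dm Φ H T x = iota (Φ s) (H s (co s x)) := by
  unfold Dm
  rcases hx.fin with h1 | ⟨j, _, h1, h2⟩
  · rw [fn_eq hT h1]
  · rw [fn_eq hT h1, h.H0 _ _ h2.le, h.cons]
    change iota (Φ s) (tau (P s j) (sig j (co s x))) = _
    have h3 := h1.2.1.2.2
    have h4 := h1.2.1.2.1
    rw [tau_sig' h3, h.H1 s j _ (by linarith)]

lemma Dm_ext (h : AutData Φ P P' H K) {T : Set (List ℕ)} (hT : IsTree T) {s : List ℕ}
    {x : Eu (k + 2)} (hx : Ext T s x) :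
    Ext (Φ '' T) (Φ s) (Dm Φ H T x) ∧ co (Φ s) (Dm Φ H T x) = H s (co s x) := by
  have hnorm : Φ s = [] ∨ 1 < ‖H s (co s x)‖ := by
    rcases hx.2.1.norm with h1 | h1
    · left; rw [h1, h.nil]
    · right
      by_contra hcon
      push Not at hcon
      have h2 := h.K0 s (H s (co s x)) (by linarith)
      rw [h.KH] at h2
      rw [← h2] at hcon
      linarith
  rw [Dm_eq h hT hx]
  obtain ⟨h1, h2⟩ := ok_iota hnorm
  refine ⟨⟨⟨s, hx.1, rfl⟩, h1, ?_⟩, h2⟩
  intro j' hj'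
  rw [h2]
  obtain ⟨u, hu, hus⟩ := hj'
  have h3 : u = P' s j' :: s := by
    apply Φ.injective
    rw [hus, h.cons, h.right]
  subst h3
  have h4 := hx.2.2 _ hu
  by_contra hcon
  push Not at hcon
  have h5 := h.K1 s j' (H s (co s x)) (by linarith)
  rw [h.KH] at h5
  have h6 : co s x - ctr k (P' s j') = H s (co s x) - ctr k j' := by
    conv_lhs => rw [h5]
    abel
  rw [h6] at h4
  linarith

lemma contDiffAt_Dm (h : AutData Φ P P' H K) {T : Set (List ℕ)} (hT : IsTree T)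
    {x : Eu (k + 2)} (hx : x ∈ NT k T) : ContDiffAt ℝ ∞ (Dm Φ H T) x := by
  obtain ⟨s, hs⟩ := mem_NT_iff.1 hx
  have hs' := hs.ext
  have hnorm : Φ s = [] ∨ 1 < ‖H s (co s x)‖ := by
    obtain ⟨h1, h2⟩ := Dm_ext h hT hs'
    have := h1.2.1.norm
    rwa [h2] at this
  have h1 : ContDiffAt ℝ ∞ (fun y => iota (Φ s) (H s (co s y))) x :=
    (contDiffAt_iota hnorm).comp x (((h.smoothH s).contDiffAt).comp x (contDiffAt_co hs.2.1))
  refine h1.congr_of_eventuallyEq ?_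
  filter_upwards [(isOpen_ext T s).mem_nhds hs'] with y hy
  exact Dm_eq h hT hy

lemma Dm_mem (h : AutData Φ P P' H K) {T : Set (List ℕ)} (hT : IsTree T)
    {x : Eu (k + 2)} (hx : x ∈ NT k T) : Dm Φ H T x ∈ NT k (Φ '' T) := by
  obtain ⟨s, hs⟩ := mem_NT_iff.1 hx
  exact (Dm_ext h hT hs.ext).1.mem_NT

lemma Dm_inv (h : AutData Φ P P' H K) {T : Set (List ℕ)} (hT : IsTree T)
    {x : Eu (k + 2)} (hx : x ∈ NT k T) :
    Dm Φ.symm (fun s => K (Φ.symm s)) (Φ '' T) (Dm Φ H T x) = x := by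
  obtain ⟨s, hs⟩ := mem_NT_iff.1 hx
  obtain ⟨h1, h2⟩ := Dm_ext h hT hs.ext
  rw [Dm_eq h.symm (isTree_image h hT) h1, h2, Equiv.symm_apply_apply, h.KH]
  exact hs.2.1.iota_co

lemma Dm_mem' (h : AutData Φ P P' H K) {T : Set (List ℕ)} (hT : IsTree T)
    {x : Eu (k + 2)} (hx : x ∈ NT k (Φ '' T)) :
    Dm Φ.symm (fun s => K (Φ.symm s)) (Φ '' T) x ∈ NT k T := by
  have := Dm_mem h.symm (isTree_image h hT) hx
  rwa [Equiv.symm_image_image] at this

lemma Dm_inv' (h : AutData Φ P P' H K) {T : Set (List ℕ)} (hT : IsTree T)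
    {x : Eu (k + 2)} (hx : x ∈ NT k (Φ '' T)) :
    Dm Φ H T (Dm Φ.symm (fun s => K (Φ.symm s)) (Φ '' T) x) = x := by
  have := Dm_inv h.symm (isTree_image h hT) hx
  simpa only [Equiv.symm_image_image, Equiv.symm_symm, Equiv.symm_apply_apply] using this

end Pool.Agent.BorelManifold
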