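import Pool.Agent.Lib.BorelManifold.Defs

/-!
# Specification of the coding of labelled trees by manifolds (part D)

Nodes are finite sequences of natural numbers, written as lists with the LAST coordinate first, so
that the children of the node `s` are the nodes `j :: s`, and the descendants are `t ++ s`.
-/

namespace Pool.Agent.BorelManifold

/-- A labelled tree: `lam s = none` means that `s` is not a node, `lam s = some k` that `s` is a
node with label `k`. -/
abbrev LTree : Type := List ℕ → Option ℕ

/-- The trees that we need to code. -/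
structure LTree.Valid (lam : LTree) : Prop where
  /-- the root is a node -/
  root : lam [] ≠ none
  /-- the parent of a node is a node -/
  parent : ∀ s j, lam (j :: s) ≠ none → lam s ≠ none
  /-- the label of a node determines its level, and is at least as large as the level -/
  level : ∀ s k, lam s = some k → (Nat.unpair k).1 = s.length
  /-- every node has a child -/
  child : ∀ s, lam s ≠ none → ∃ j, lam (j :: s) ≠ none
  /-- every subtree at a child of `s` is repeated infinitely often among the children of `s` -/
  rep : ∀ s j, lam (j :: s) ≠ none → {j' | ∀ t, lam (t ++ j' :: s) = lam (t ++ j :: s)}.Infinite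

/-- Isomorphism of labelled trees. -/
def LTree.Iso (lam lam' : LTree) : Prop :=
  ∃ Φ : List ℕ ≃ List ℕ, Φ [] = [] ∧ (∀ s j, ∃ j', Φ (j :: s) = j' :: Φ s) ∧
    ∀ s, lam' (Φ s) = lam s

/-- The weak form of isomorphism which can be recovered from the manifold. -/
def LTree.WeakIso (lam lam' : LTree) : Prop :=
  ∃ R : List ℕ → List ℕ → Prop, R [] [] ∧ ∀ s s', R s s' → lam s = lam' s' ∧
    (∀ᶠ j in Filter.cofinite, lam (j :: s) ≠ none → ∃ j', R (j :: s) (j' :: s')) ∧
    (∀ᶠ j' in Filter.cofinite, lam' (j' :: s') ≠ none → ∃ j, R (j :: s) (j' :: s'))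

/-- What part D has to provide, for all `m ≥ 2` and `N ≥ m + 1`. -/
def TreeCoding (m N : ℕ) : Prop :=
  ∃ 𝒩 : LTree → ManifoldSpace m N,
    (∀ (Ω : Type) [MeasurableSpace Ω] (L : Ω → LTree),
      (∀ s k, MeasurableSet {ω | L ω s = k}) → Measurable fun ω => 𝒩 (L ω)) ∧
    (∀ lam lam' : LTree, lam.Iso lam' → Diffeomorphic (𝒩 lam) (𝒩 lam')) ∧
    (∀ lam lam' : LTree, lam.Valid → lam'.Valid → Diffeomorphic (𝒩 lam) (𝒩 lam') →
      lam.WeakIso lam')

end Pool.Agent.BorelManifold
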