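import Pool.Agent.Lib.BorelManifold.Compare
import Pool.Agent.Lib.BorelManifold.TreeSpec

/-!
# The labelled tree of a manifold
-/

namespace Pool.Agent.BorelManifold

open Set Topology Filter Metric
open scoped ContDiff

/-- The data of an entry of a node: a life flag, the source piece, the code of the morphism from
the previous source piece, the stage, the code of the embedding into the piece of that stage. -/
structure Entry where
  /-- life flag (alive iff `0`) -/
  b : ℕ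
  /-- source piece -/
  a : ℕ
  /-- code of the morphism from the previous source piece -/
  c : ℕ
  /-- stage -/
  k : ℕ
  /-- code of the embedding -/
  g : ℕ

/-- The entry coded by a natural number. -/
def core (x : ℕ) : Entry :=
  ⟨((Denumerable.eqv (ℕ × ℕ × ℕ × ℕ × ℕ × ℕ)).symm x).1,
   ((Denumerable.eqv (ℕ × ℕ × ℕ × ℕ × ℕ × ℕ)).symm x).2.1,
   ((Denumerable.eqv (ℕ × ℕ × ℕ × ℕ × ℕ × ℕ)).symm x).2.2.1,
   ((Denumerable.eqv (ℕ × ℕ × ℕ × ℕ × ℕ × ℕ)).symm x).2.2.2.1,
   ((Denumerable.eqv (ℕ × ℕ × ℕ × ℕ × ℕ × ℕ)).symm x).2.2.2.2.1⟩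

theorem infinite_core (e : Entry) : {x | core x = e}.Infinite := by
  apply Set.infinite_of_injective_forall_mem
    (f := fun rep : ℕ => Denumerable.eqv (ℕ × ℕ × ℕ × ℕ × ℕ × ℕ) (e.b, e.a, e.c, e.k, e.g, rep))
  · intro x y hxy
    have := (Denumerable.eqv (ℕ × ℕ × ℕ × ℕ × ℕ × ℕ)).injective hxy
    simpa using this
  · intro rep
    show core _ = e
    unfold core
    simp only [Equiv.symm_apply_apply]

attribute [irreducible] core

/-- The label of a node. -/
def lab : List Entry → ℕ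
  | [] => Nat.pair 0 0
  | e :: s => Nat.pair (s.length + 1) (Nat.pair e.a e.c)

variable {E : Type*} [NormedAddCommGroup E] [InnerProductSpace ℝ E] [FiniteDimensional ℝ E]

namespace Sys

variable {n : ℕ} (𝔖 : Sys n E)

/-- The condition for `e` to be a child of (a node with last entry) `p`. -/
def StepOK (l j : ℕ → ℕ) : Option Entry → Entry → Prop
  | none, e => e.b = 0 ∧ 𝔖.mV e.a (l e.k) e.g
  | some p, e => (e.b = 0 ∧ 𝔖.mV e.a (l e.k) e.g) ∧ 𝔖.mV p.a e.a e.c ∧
      𝔖.EqC l j p.a p.k (𝔖.mor p.a (l p.k) p.g) e.k (𝔖.mor e.a (l e.k) e.g ∘ 𝔖.mor p.a e.a e.c)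

/-- The nodes. -/
def Alive (l j : ℕ → ℕ) : List Entry → Prop
  | [] => True
  | e :: s => Alive l j s ∧ 𝔖.StepOK l j s.head? e

open Classical in
/-- The labelled tree of the codes `l, j`. -/
noncomputable def lamD (l j : ℕ → ℕ) : LTree := fun s =>
  if 𝔖.Alive l j (s.map core) then some (lab (s.map core)) else none

theorem lamD_ne_none {l j : ℕ → ℕ} {s : List ℕ} :
    𝔖.lamD l j s ≠ none ↔ 𝔖.Alive l j (s.map core) := by
  unfold lamD
  split_ifs with h <;> simp [h]

theorem lamD_eq_some {l j : ℕ → ℕ} {s : List ℕ} {q : ℕ} :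
    𝔖.lamD l j s = some q ↔ 𝔖.Alive l j (s.map core) ∧ lab (s.map core) = q := by
  unfold lamD
  split_ifs with h <;> simp [h]

theorem StepOK.mV {l j : ℕ → ℕ} {p : Option Entry} {e : Entry} (h : 𝔖.StepOK l j p e) :
    e.b = 0 ∧ 𝔖.mV e.a (l e.k) e.g := by
  cases p with
  | none => exact h
  | some p => exact h.1

/-- The last entry of a node is valid. -/
theorem Alive.mV {l j : ℕ → ℕ} {s : List Entry} (h : 𝔖.Alive l j s) {e : Entry}
    (he : s.head? = some e) : 𝔖.mV e.a (l e.k) e.g := by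
  cases s with
  | nil => simp at he
  | cons e' s =>
    simp only [List.head?_cons, Option.some.injEq] at he
    subst he
    exact (StepOK.mV 𝔖 h.2).2

theorem alive_cons_iff {l j : ℕ → ℕ} {s : List Entry} {e : Entry} :
    𝔖.Alive l j (e :: s) ↔ 𝔖.Alive l j s ∧ 𝔖.StepOK l j s.head? e := Iff.rfl

/-- Every node has a child. -/
theorem exists_child {l j : ℕ → ℕ} (hv : 𝔖.ValidC l j) {s : List Entry} (h : 𝔖.Alive l j s) :
    ∃ e, 𝔖.Alive l j (e :: s) := by
  cases hs : s.head? with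
  | none =>
    refine ⟨⟨0, l 0, 0, 1, j 0⟩, h, ?_⟩
    rw [hs]
    exact ⟨rfl, hv 0⟩
  | some p =>
    refine ⟨⟨0, l p.k, p.g, p.k + 1, j p.k⟩, h, ?_⟩
    rw [hs]
    refine ⟨⟨rfl, hv p.k⟩, Alive.mV 𝔖 h hs, p.k + 2, by omega, Nat.lt_succ_self _, ?_⟩
    have h1 : 𝔖.cmp l j p.k (p.k + 2) ∘ 𝔖.mor p.a (l p.k) p.g =
        𝔖.cmp l j (p.k + 1) (p.k + 2) ∘ (𝔖.mor (l p.k) (l (p.k + 1)) (j p.k) ∘
          𝔖.mor p.a (l p.k) p.g) := by
      rw [𝔖.cmp_succ l j (show p.k ≤ p.k + 1 by omega), 𝔖.cmp_succ l j (le_refl p.k),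
        𝔖.cmp_self, 𝔖.cmp_succ l j (le_refl (p.k + 1)), 𝔖.cmp_self]
      rfl
    show Eqv _ _ _ _ (𝔖.cmp l j p.k (p.k + 2) ∘ 𝔖.mor p.a (l p.k) p.g)
      (𝔖.cmp l j (p.k + 1) (p.k + 2) ∘ (𝔖.mor (l p.k) (l (p.k + 1)) (j p.k) ∘
          𝔖.mor p.a (l p.k) p.g))
    rw [h1]
    exact Eqv.refl _ _ _ _ _

theorem lamD_valid {l j : ℕ → ℕ} (hv : 𝔖.ValidC l j) : (𝔖.lamD l j).Valid where
  root := by
    rw [lamD_ne_none]
    trivial
  parent := by
    intro s x h
    rw [lamD_ne_none] at h ⊢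
    exact h.1
  level := by
    intro s q h
    obtain ⟨h1, rfl⟩ := 𝔖.lamD_eq_some.mp h
    cases s with
    | nil => simp [lab]
    | cons x s => simp [lab]
  child := by
    intro s h
    rw [lamD_ne_none] at h
    obtain ⟨e, he⟩ := 𝔖.exists_child hv h
    obtain ⟨x, hx⟩ := (infinite_core e).nonempty
    refine ⟨x, ?_⟩
    rw [lamD_ne_none, List.map_cons]
    have hx' : core x = e := hx
    rw [hx']
    exact he
  rep := by
    intro s x h
    refine (infinite_core (core x)).mono ?_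
    intro x' hx' t
    have h1 : core x' = core x := hx'
    have h2 : (t ++ x' :: s).map core = (t ++ x :: s).map core := by
      simp only [List.map_append, List.map_cons, h1]
    unfold lamD
    rw [h2]

/-- The tree depends on the codes in a local way. -/
theorem cmp_congr {l j l' j' : ℕ → ℕ} {k m : ℕ} (hl : ∀ i ≤ m, l i = l' i)
    (hj : ∀ i < m, j i = j' i) : 𝔖.cmp l j k m = 𝔖.cmp l' j' k m := by
  induction m with
  | zero => rfl
  | succ m ih =>
    by_cases h : m < k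
    · simp [cmp, h]
    · rw [𝔖.cmp_succ l j (not_lt.mp h), 𝔖.cmp_succ l' j' (not_lt.mp h),
        ih (fun i hi => hl i (by omega)) (fun i hi => hj i (by omega)),
        hl m (by omega), hl (m + 1) le_rfl, hj m (by omega)]

end Sys

section Meas

variable {Ω : Type*} [MeasurableSpace Ω]

/-- Conditions which depend on finitely many coordinates are measurable. -/
theorem measurableSet_local {l j : Ω → ℕ → ℕ} (hl : ∀ k, Measurable fun w => l w k)
    (hj : ∀ k, Measurable fun w => j w k) {p : (ℕ → ℕ) → (ℕ → ℕ) → Prop} (m : ℕ)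
    (hp : ∀ l j l' j' : ℕ → ℕ, (∀ i ≤ m, l i = l' i) → (∀ i ≤ m, j i = j' i) →
      (p l j ↔ p l' j')) : MeasurableSet {w | p (l w) (j w)} := by
  classical
  let f : Ω → (Fin (m + 1) → ℕ × ℕ) := fun w i => (l w i, j w i)
  have hf : Measurable f := measurable_pi_lambda _ fun i => (hl i).prodMk (hj i)
  let ext : (Fin (m + 1) → ℕ) → ℕ → ℕ := fun u i => if h : i < m + 1 then u ⟨i, h⟩ else 0
  have h1 : {w | p (l w) (j w)} = f ⁻¹' {u | p (ext fun i => (u i).1) (ext fun i => (u i).2)} := by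
    ext w
    simp only [mem_ofPred_eq, mem_preimage]
    apply hp
    · intro i hi
      have hi' : i < m + 1 := Nat.lt_succ_of_le hi
      simp only [ext, f, dif_pos hi']
    · intro i hi
      have hi' : i < m + 1 := Nat.lt_succ_of_le hi
      simp only [ext, f, dif_pos hi']
  rw [h1]
  exact hf (Set.to_countable _).measurableSet

variable {E : Type*} [NormedAddCommGroup E] [InnerProductSpace ℝ E] [FiniteDimensional ℝ E]
variable {n : ℕ} (𝔖 : Sys n E)

theorem Sys.measurableSet_mV {l j : Ω → ℕ → ℕ} (hl : ∀ k, Measurable fun w => l w k)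
    (hj : ∀ k, Measurable fun w => j w k) (a k g : ℕ) :
    MeasurableSet {w | 𝔖.mV a (l w k) g} := by
  apply measurableSet_local hl hj (p := fun l _ => 𝔖.mV a (l k) g) k
  intro l j l' j' h1 h2
  show 𝔖.mV a (l k) g ↔ 𝔖.mV a (l' k) g
  rw [h1 k le_rfl]

theorem Sys.measurableSet_stepOK {l j : Ω → ℕ → ℕ} (hl : ∀ k, Measurable fun w => l w k)
    (hj : ∀ k, Measurable fun w => j w k) (p : Option Entry) (e : Entry) :
    MeasurableSet {w | 𝔖.StepOK (l w) (j w) p e} := by
  have h1 : MeasurableSet {w | e.b = 0 ∧ 𝔖.mV e.a (l w e.k) e.g} :=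
    (MeasurableSet.const _).inter (𝔖.measurableSet_mV hl hj _ _ _)
  cases p with
  | none => exact h1
  | some p =>
    refine h1.inter ((MeasurableSet.const _).inter ?_)
    have h2 : {w | 𝔖.EqC (l w) (j w) p.a p.k (𝔖.mor p.a (l w p.k) p.g) e.k
        (𝔖.mor e.a (l w e.k) e.g ∘ 𝔖.mor p.a e.a e.c)} = ⋃ m, {w | p.k < m ∧ e.k < m ∧
        Eqv (𝔖.A p.a) (𝔖.r p.a) (𝔖.A (l w m)) (𝔖.B (l w m))
        (𝔖.cmp (l w) (j w) p.k m ∘ (𝔖.mor p.a (l w p.k) p.g))
        (𝔖.cmp (l w) (j w) e.k m ∘ (𝔖.mor e.a (l w e.k) e.g ∘ 𝔖.mor p.a e.a e.c))} := by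
      ext w
      simp only [mem_ofPred_eq, mem_iUnion]
      rfl
    show MeasurableSet {w | 𝔖.EqC (l w) (j w) p.a p.k (𝔖.mor p.a (l w p.k) p.g) e.k
        (𝔖.mor e.a (l w e.k) e.g ∘ 𝔖.mor p.a e.a e.c)}
    rw [h2]
    refine MeasurableSet.iUnion fun m => ?_
    apply measurableSet_local hl hj (p := fun l j => p.k < m ∧ e.k < m ∧
        Eqv (𝔖.A p.a) (𝔖.r p.a) (𝔖.A (l m)) (𝔖.B (l m))
        (𝔖.cmp l j p.k m ∘ (𝔖.mor p.a (l p.k) p.g))
        (𝔖.cmp l j e.k m ∘ (𝔖.mor e.a (l e.k) e.g ∘ 𝔖.mor p.a e.a e.c))) m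
    intro l j l' j' hll hjj
    by_cases h3 : p.k < m
    · by_cases h4 : e.k < m
      · simp only [h3, h4, true_and]
        rw [𝔖.cmp_congr hll (fun i hi => hjj i hi.le), 𝔖.cmp_congr (k := e.k) hll
          (fun i hi => hjj i hi.le), hll m le_rfl, hll _ h3.le, hll _ h4.le]
      · simp only [h4, false_and, and_false]
    · simp only [h3, false_and]

theorem Sys.measurableSet_alive {l j : Ω → ℕ → ℕ} (hl : ∀ k, Measurable fun w => l w k)
    (hj : ∀ k, Measurable fun w => j w k) (s : List Entry) :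
    MeasurableSet {w | 𝔖.Alive (l w) (j w) s} := by
  induction s with
  | nil => exact MeasurableSet.const _
  | cons e s ih => exact ih.inter (𝔖.measurableSet_stepOK hl hj _ _)

theorem Sys.measurableSet_lamD {l j : Ω → ℕ → ℕ} (hl : ∀ k, Measurable fun w => l w k)
    (hj : ∀ k, Measurable fun w => j w k) (s : List ℕ) (q : Option ℕ) :
    MeasurableSet {w | 𝔖.lamD (l w) (j w) s = q} := by
  cases q with
  | none =>
    have h1 : {w | 𝔖.lamD (l w) (j w) s = none} = {w | 𝔖.Alive (l w) (j w) (s.map core)}ᶜ := by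
      ext w
      simp only [mem_ofPred_eq, mem_compl_iff]
      rw [← 𝔖.lamD_ne_none, not_not]
    rw [h1]
    exact (𝔖.measurableSet_alive hl hj _).compl
  | some q =>
    have h1 : {w | 𝔖.lamD (l w) (j w) s = some q} = {w | 𝔖.Alive (l w) (j w) (s.map core)} ∩
        {w | lab (s.map core) = q} := by
      ext w
      exact 𝔖.lamD_eq_some
    rw [h1]
    exact (𝔖.measurableSet_alive hl hj _).inter (MeasurableSet.const _)

end Meas

end Pool.Agent.BorelManifold
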