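import Pool.Agent.Lib.BorelManifold.Tubular

/-!
# Compactly supported diffeomorphisms and the perturbation lemma
-/

namespace Pool.Agent.BorelManifold

open Set Topology Filter
open scoped ContDiff

variable {E : Type*} [NormedAddCommGroup E] [InnerProductSpace ℝ E]

/-- A diffeomorphism of the submanifold `M` which is the identity outside a compact subset
of `W`. -/
structure Diffc (M W : Set E) where
  /-- the map -/
  toFun : E → E
  /-- the inverse map -/
  invFun : E → E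
  smooth : ContDiffOn ℝ ∞ toFun M
  smooth_inv : ContDiffOn ℝ ∞ invFun M
  maps : MapsTo toFun M M
  maps_inv : MapsTo invFun M M
  left_inv : ∀ x ∈ M, invFun (toFun x) = x
  right_inv : ∀ x ∈ M, toFun (invFun x) = x
  supp : ∃ C, IsCompact C ∧ C ⊆ W ∧ ∀ x ∈ M, x ∉ C → toFun x = x

namespace Diffc

variable {M W : Set E}

/-- The identity. -/
def refl (M W : Set E) : Diffc M W where
  toFun := id
  invFun := id
  smooth := contDiffOn_id
  smooth_inv := contDiffOn_id
  maps := mapsTo_id M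
  maps_inv := mapsTo_id M
  left_inv := fun _ _ => rfl
  right_inv := fun _ _ => rfl
  supp := ⟨∅, isCompact_empty, empty_subset _, fun _ _ _ => rfl⟩

/-- The inverse. -/
def symm (h : Diffc M W) : Diffc M W where
  toFun := h.invFun
  invFun := h.toFun
  smooth := h.smooth_inv
  smooth_inv := h.smooth
  maps := h.maps_inv
  maps_inv := h.maps
  left_inv := h.right_inv
  right_inv := h.left_inv
  supp := by
    obtain ⟨C, hC, hCW, hCs⟩ := h.supp
    refine ⟨C, hC, hCW, fun x hx hxC => ?_⟩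
    have h1 := h.left_inv x hx
    rwa [hCs x hx hxC] at h1

/-- The composition. -/
def comp (h₁ h₂ : Diffc M W) : Diffc M W where
  toFun := h₁.toFun ∘ h₂.toFun
  invFun := h₂.invFun ∘ h₁.invFun
  smooth := h₁.smooth.comp h₂.smooth h₂.maps
  smooth_inv := h₂.smooth_inv.comp h₁.smooth_inv h₁.maps_inv
  maps := h₁.maps.comp h₂.maps
  maps_inv := h₂.maps_inv.comp h₁.maps_inv
  left_inv := by
    intro x hx
    simp only [Function.comp_apply]
    rw [h₁.left_inv _ (h₂.maps hx), h₂.left_inv x hx]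
  right_inv := by
    intro x hx
    simp only [Function.comp_apply]
    rw [h₂.right_inv _ (h₁.maps_inv hx), h₁.right_inv x hx]
  supp := by
    obtain ⟨C₁, hC₁, hCW₁, hCs₁⟩ := h₁.supp
    obtain ⟨C₂, hC₂, hCW₂, hCs₂⟩ := h₂.supp
    refine ⟨C₁ ∪ C₂, hC₁.union hC₂, union_subset hCW₁ hCW₂, fun x hx hxC => ?_⟩
    rw [mem_union, not_or] at hxC
    simp only [Function.comp_apply]
    rw [hCs₂ x hx hxC.2, hCs₁ x hx hxC.1]

/-- Enlarging the open set containing the support. -/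
def mono {W' : Set E} (h : Diffc M W) (hW : W ⊆ W') : Diffc M W' where
  toFun := h.toFun
  invFun := h.invFun
  smooth := h.smooth
  smooth_inv := h.smooth_inv
  maps := h.maps
  maps_inv := h.maps_inv
  left_inv := h.left_inv
  right_inv := h.right_inv
  supp := by
    obtain ⟨C, hC, hCW, hCs⟩ := h.supp
    exact ⟨C, hC, hCW.trans hW, hCs⟩

theorem mapsTo_supp (h : Diffc M W) : MapsTo h.toFun (M ∩ W) (M ∩ W) := by
  intro x hx
  obtain ⟨C, hC, hCW, hCs⟩ := h.supp
  refine ⟨h.maps hx.1, ?_⟩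
  by_contra hcon
  have h1 : h.toFun x ∉ C := fun h' => hcon (hCW h')
  have h2 := hCs _ (h.maps hx.1) h1
  have h3 := h.left_inv x hx.1
  have h4 := h.left_inv _ (h.maps hx.1)
  rw [h2] at h4
  rw [h3] at h4
  rw [← h4] at hcon
  exact hcon hx.2

theorem eq_self_of_notMem (h : Diffc M W) {x : E} (hx : x ∈ M) (hxW : x ∉ W) :
    h.toFun x = x := by
  obtain ⟨C, hC, hCW, hCs⟩ := h.supp
  exact hCs x hx (fun h' => hxW (hCW h'))

end Diffc

variable [FiniteDimensional ℝ E]

theorem exists_cutoff {K W : Set E} (hK : IsCompact K) (hW : IsOpen W) (hKW : K ⊆ W) :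
    ∃ (χ : E → ℝ) (C : Set E), ContDiff ℝ ∞ χ ∧ (∀ x, 0 ≤ χ x) ∧ (∀ x, χ x ≤ 1) ∧
      (∀ᶠ x in 𝓝ˢ K, χ x = 1) ∧ IsCompact C ∧ C ⊆ W ∧ ∀ x, x ∉ C → χ x = 0 := by
  obtain ⟨C, hC, hKC, hCW⟩ := exists_compact_between hK hW hKW
  obtain ⟨f, h0, h1, hf⟩ := exists_contMDiffMap_zero_one_nhds_of_isClosed (n := ⊤)
    (modelWithCornersSelf ℝ E) (M := E) (s := (interior C)ᶜ) (t := K)
    isOpen_interior.isClosed_compl hK.isClosed
    (by rw [disjoint_compl_left_iff_subset]; exact hKC)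
  refine ⟨f, C, f.contMDiff.contDiff, fun x => (hf x).1, fun x => (hf x).2, h1, hC, hCW, ?_⟩
  intro x hx
  exact h0.self_of_nhdsSet x (fun hx' => hx (interior_subset hx'))

omit [FiniteDimensional ℝ E] in
/-- The basic estimate for `π (x + w) - x` near a compact set. -/
theorem retraction_estimate {M O : Set E} {π : E → E} (hO : IsOpen O) (hMO : M ⊆ O)
    (hπ : ContDiffOn ℝ ∞ π O) (hπM : ∀ x ∈ M, π x = x) {C : Set E} (hC : IsCompact C)
    (hcl : IsClosed M) :
    ∃ ρ : ℝ, 0 < ρ ∧ ∃ B : ℝ, 0 ≤ B ∧ ∀ x ∈ M ∩ C, ∀ x' ∈ M, ∀ w w' : E,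
      ‖x - x'‖ < ρ → ‖w‖ < ρ → ‖w'‖ < ρ → x + w ∈ O ∧ x' + w' ∈ O ∧
      ‖(π (x + w) - x) - (π (x' + w') - x')‖ ≤ 1 / 4 * ‖x - x'‖ + B * ‖w - w'‖ := by
  have hMC : IsCompact (M ∩ C) := hC.inter_left hcl
  suffices h : ∃ ρ : ℝ, 0 < ρ ∧ ∃ B : ℝ, 0 ≤ B ∧
      ∀ x ∈ M ∩ C, x ∈ M → ∀ x' ∈ M, ∀ w w' : E,
      ‖x - x'‖ < ρ → ‖w‖ < ρ → ‖w'‖ < ρ → x + w ∈ O ∧ x' + w' ∈ O ∧
      ‖(π (x + w) - x) - (π (x' + w') - x')‖ ≤ 1 / 4 * ‖x - x'‖ + B * ‖w - w'‖ by
    obtain ⟨ρ, hρ, B, hB, h⟩ := h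
    exact ⟨ρ, hρ, B, hB, fun x hx => h x hx hx.1⟩
  refine hMC.induction_on (p := fun S => ∃ ρ : ℝ, 0 < ρ ∧ ∃ B : ℝ, 0 ≤ B ∧
      ∀ x ∈ S, x ∈ M → ∀ x' ∈ M, ∀ w w' : E,
      ‖x - x'‖ < ρ → ‖w‖ < ρ → ‖w'‖ < ρ → x + w ∈ O ∧ x' + w' ∈ O ∧
      ‖(π (x + w) - x) - (π (x' + w') - x')‖ ≤ 1 / 4 * ‖x - x'‖ + B * ‖w - w'‖) ?_ ?_ ?_ ?_
  · exact ⟨1, one_pos, 0, le_rfl, fun x hx => absurd hx (notMem_empty x)⟩
  · rintro s t hst ⟨ρ, hρ, B, hB, h⟩
    exact ⟨ρ, hρ, B, hB, fun x hx => h x (hst hx)⟩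
  · rintro s t ⟨ρ, hρ, B, hB, h⟩ ⟨ρ', hρ', B', hB', h'⟩
    refine ⟨min ρ ρ', lt_min hρ hρ', max B B', le_max_of_le_left hB, ?_⟩
    intro x hx hxM x' hx' w w' h1 h2 h3
    rcases hx with hx | hx
    · obtain ⟨h4, h5, h6⟩ := h x hx hxM x' hx' w w' (h1.trans_le (min_le_left _ _))
        (h2.trans_le (min_le_left _ _)) (h3.trans_le (min_le_left _ _))
      refine ⟨h4, h5, h6.trans ?_⟩
      gcongr
      exact le_max_left _ _
    · obtain ⟨h4, h5, h6⟩ := h' x hx hxM x' hx' w w' (h1.trans_le (min_le_right _ _))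
        (h2.trans_le (min_le_right _ _)) (h3.trans_le (min_le_right _ _))
      refine ⟨h4, h5, h6.trans ?_⟩
      gcongr
      exact le_max_right _ _
  · rintro c ⟨hcM, hcC⟩
    -- strict derivative of `(x, w) ↦ π (x + w) - π x` at `(c, 0)`
    have hcO := hMO hcM
    have hπc : HasStrictFDerivAt π (fderiv ℝ π c) c :=
      ((hπ c hcO).contDiffAt (hO.mem_nhds hcO)).hasStrictFDerivAt (by simp)
    set A := fderiv ℝ π c with hA
    have h1 : HasStrictFDerivAt (fun p : E × E => π (p.1 + p.2) - π p.1)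
        (A.comp (ContinuousLinearMap.fst ℝ E E + ContinuousLinearMap.snd ℝ E E) -
          A.comp (ContinuousLinearMap.fst ℝ E E)) (c, 0) := by
      have h2 : HasStrictFDerivAt (fun p : E × E => p.1 + p.2)
        (ContinuousLinearMap.fst ℝ E E + ContinuousLinearMap.snd ℝ E E) (c, 0) :=
        hasStrictFDerivAt_fst.add hasStrictFDerivAt_snd
      have h3 : HasStrictFDerivAt π A ((c, (0 : E)).1 + (c, (0 : E)).2) := by simpa using hπc
      have h4 : HasStrictFDerivAt π A (c, (0 : E)).1 := hπc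
      exact (h3.comp (c, 0) h2).sub (h4.comp (c, 0) hasStrictFDerivAt_fst)
    have h2 := h1.isLittleO.def (show (0 : ℝ) < 1 / 4 by norm_num)
    rw [nhds_prod_eq] at h2
    obtain ⟨t, ht, h3⟩ := eventually_prod_self_iff'.mp h2
    have hOc : ∀ᶠ p : E × E in 𝓝 (c, 0), p.1 + p.2 ∈ O := by
      have : ContinuousAt (fun p : E × E => p.1 + p.2) (c, 0) := by fun_prop
      apply this.eventually
      simpa using hO.mem_nhds hcO
    obtain ⟨ρ, hρ, hball⟩ := Metric.mem_nhds_iff.mp (inter_mem ht hOc)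
    refine ⟨Metric.ball c (ρ / 2), mem_nhdsWithin_of_mem_nhds (Metric.ball_mem_nhds c (by positivity)),
      ρ / 2, by positivity, ‖A‖ + 1 / 4, by positivity, ?_⟩
    intro x hx hxM x' hx' w w' h4 h5 h6
    have hx1 : ‖x - c‖ < ρ / 2 := by simpa [dist_eq_norm] using hx
    have hmem : ∀ y v : E, ‖y - c‖ < ρ → ‖v‖ < ρ → (y, v) ∈ Metric.ball ((c, 0) : E × E) ρ := by
      intro y v hy hv
      rw [Metric.mem_ball, Prod.dist_eq, dist_eq_norm, dist_eq_norm, sub_zero]
      exact max_lt hy hv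
    have h7 := hball (hmem x w (by linarith) (by linarith))
    have h8 : ‖x' - c‖ < ρ := by
      have : x' - c = (x - c) - (x - x') := by abel
      rw [this]
      have := norm_sub_le (x - c) (x - x')
      linarith
    have h9 := hball (hmem x' w' h8 (by linarith))
    refine ⟨h7.2, h9.2, ?_⟩
    have h10 := h3 (x, w) h7.1 (x', w') h9.1
    have h11 : ‖π (x + w) - π x - (π (x' + w') - π x') - A (w - w')‖ ≤
        1 / 4 * max ‖x - x'‖ ‖w - w'‖ := by
      have h12 : ((x, w) : E × E) - (x', w') = (x - x', w - w') := rfl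
      rw [h12, Prod.norm_def] at h10
      have h13 : (A.comp (ContinuousLinearMap.fst ℝ E E + ContinuousLinearMap.snd ℝ E E) -
          A.comp (ContinuousLinearMap.fst ℝ E E)) (x - x', w - w') = A (w - w') := by
        simp
      rw [h13] at h10
      exact h10
    have h14 : max ‖x - x'‖ ‖w - w'‖ ≤ ‖x - x'‖ + ‖w - w'‖ :=
      max_le (le_add_of_nonneg_right (norm_nonneg _)) (le_add_of_nonneg_left (norm_nonneg _))
    have h15 : ‖A (w - w')‖ ≤ ‖A‖ * ‖w - w'‖ := A.le_opNorm _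
    have h16 : ‖π (x + w) - π x - (π (x' + w') - π x')‖ ≤
        ‖π (x + w) - π x - (π (x' + w') - π x') - A (w - w')‖ + ‖A (w - w')‖ := by
      have := norm_add_le (π (x + w) - π x - (π (x' + w') - π x') - A (w - w')) (A (w - w'))
      rwa [sub_add_cancel] at this
    rw [hπM x hxM, hπM x' hx'] at h16 h11
    nlinarith

/-- **Perturbation lemma.**  A smooth map from a relatively open subset `M ∩ W` of a connected
closed submanifold `M` into `M` which is sufficiently close to the identity, in the Lipschitz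
sense, agrees near the compact set `K ⊆ W` with a diffeomorphism of `M` compactly supported in
`W`. -/
theorem perturbation {n : ℕ} {M : Set E} (hM : IsSubmanifold n M) (hcl : IsClosed M)
    (hconn : IsConnected M) {K W : Set E} (hK : IsCompact K) (hW : IsOpen W) (hKW : K ⊆ W) :
    ∃ δ : ℝ, 0 < δ ∧ ∀ u : E → E, ContDiffOn ℝ ∞ u (M ∩ W) → MapsTo u (M ∩ W) M →
      (∀ x ∈ M ∩ W, ‖u x - x‖ ≤ δ) →
      (∀ x ∈ M ∩ W, ∀ y ∈ M ∩ W, ‖(u x - x) - (u y - y)‖ ≤ δ * ‖x - y‖) →
      ∃ h : Diffc M W, ∀ᶠ x in 𝓝ˢ K, x ∈ M → h.toFun x = u x := by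
  classical
  obtain ⟨O, π, hO, hMO, hπ, hπM, hπid⟩ := exists_smooth_retraction hM hcl hconn.nonempty
  obtain ⟨χ, C, hχ, hχ0, hχ1, hχK, hC, hCW, hχC⟩ := exists_cutoff hK hW hKW
  obtain ⟨ρ, hρ, B, hB, hest⟩ := retraction_estimate hO hMO hπ hπid hC hcl
  have hχsupp : HasCompactSupport χ := HasCompactSupport.intro hC (fun x hx => hχC x hx)
  obtain ⟨L, hL⟩ := hχ.lipschitzWith_of_hasCompactSupport hχsupp (by simp)
  have hL0 : (0 : ℝ) ≤ L := L.2
  -- choose `δ`
  obtain ⟨δ, hδ, hδρ, hδ1, hδ2⟩ : ∃ δ : ℝ, 0 < δ ∧ δ < ρ ∧ B * ((1 + L) * δ) ≤ 1 / 4 ∧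
      4 * (B * δ) ≤ ρ := by
    refine ⟨min (ρ / 2) (min (1 / (4 * (B + 1) * (1 + L))) (ρ / (4 * (B + 1)))), ?_, ?_, ?_, ?_⟩
    · positivity
    · exact (min_le_left _ _).trans_lt (by linarith)
    · have h1 : min (ρ / 2) (min (1 / (4 * (B + 1) * (1 + L))) (ρ / (4 * (B + 1)))) ≤
          1 / (4 * (B + 1) * (1 + L)) := (min_le_right _ _).trans (min_le_left _ _)
      calc B * ((1 + L) * _) ≤ (B + 1) * ((1 + L) * (1 / (4 * (B + 1) * (1 + L)))) := by
            gcongr
            linarith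
        _ = 1 / 4 := by field_simp
    · have h1 : min (ρ / 2) (min (1 / (4 * (B + 1) * (1 + L))) (ρ / (4 * (B + 1)))) ≤
          ρ / (4 * (B + 1)) := (min_le_right _ _).trans (min_le_right _ _)
      calc 4 * (B * _) ≤ 4 * ((B + 1) * (ρ / (4 * (B + 1)))) := by
            gcongr
            linarith
        _ = ρ := by field_simp
  refine ⟨δ, hδ, fun u hu humaps hu1 hu2 => ?_⟩
  -- the displacement
  let w : E → E := fun x => if x ∈ W then χ x • (u x - x) else 0
  have hwW : ∀ x ∈ W, w x = χ x • (u x - x) := fun x hx => if_pos hx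
  have hw0 : ∀ x, x ∉ C → w x = 0 := by
    intro x hx
    by_cases hxW : x ∈ W
    · rw [hwW x hxW, hχC x hx, zero_smul]
    · exact if_neg hxW
  have hwle : ∀ x ∈ M, ‖w x‖ ≤ δ := by
    intro x hx
    by_cases hxW : x ∈ W
    · rw [hwW x hxW, norm_smul, Real.norm_eq_abs, abs_of_nonneg (hχ0 x)]
      calc χ x * ‖u x - x‖ ≤ 1 * δ := by
            gcongr
            · exact hχ1 x
            · exact hu1 x ⟨hx, hxW⟩
        _ = δ := one_mul δ
    · have : w x = 0 := if_neg hxW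
      rw [this, norm_zero]
      exact hδ.le
  have hwLip : ∀ x ∈ M, ∀ y ∈ M, ‖w x - w y‖ ≤ (1 + L) * δ * ‖x - y‖ := by
    have haux : ∀ x ∈ M, ∀ y ∈ M, x ∈ W → ‖w x - w y‖ ≤ (1 + L) * δ * ‖x - y‖ := by
      intro x hx y hy hxW
      have hχd : |χ x - χ y| ≤ L * ‖x - y‖ := by
        have := hL.dist_le_mul x y
        rwa [Real.dist_eq, dist_eq_norm] at this
      by_cases hyW : y ∈ W
      · rw [hwW x hxW, hwW y hyW]
        have h1 : χ x • (u x - x) - χ y • (u y - y) =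
            χ y • ((u x - x) - (u y - y)) + (χ x - χ y) • (u x - x) := by
          module
        rw [h1]
        have h2 := hu2 x ⟨hx, hxW⟩ y ⟨hy, hyW⟩
        have h3 := hu1 x ⟨hx, hxW⟩
        calc _ ≤ ‖χ y • ((u x - x) - (u y - y))‖ + ‖(χ x - χ y) • (u x - x)‖ := norm_add_le _ _
          _ = χ y * ‖(u x - x) - (u y - y)‖ + |χ x - χ y| * ‖u x - x‖ := by
              rw [norm_smul, norm_smul, Real.norm_eq_abs, Real.norm_eq_abs,
                abs_of_nonneg (hχ0 y)]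
          _ ≤ 1 * (δ * ‖x - y‖) + (L * ‖x - y‖) * δ := by
              gcongr
              exact hχ1 y
          _ = (1 + L) * δ * ‖x - y‖ := by ring
      · have h1 : w y = 0 := if_neg hyW
        have h2 : χ y = 0 := hχC y (fun h => hyW (hCW h))
        rw [h1, sub_zero, hwW x hxW, norm_smul, Real.norm_eq_abs]
        rw [h2, sub_zero] at hχd
        have h3 := hu1 x ⟨hx, hxW⟩
        calc |χ x| * ‖u x - x‖ ≤ (L * ‖x - y‖) * δ := by gcongr
          _ ≤ (1 + L) * δ * ‖x - y‖ := by nlinarith [mul_nonneg hδ.le (norm_nonneg (x - y))]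
    intro x hx y hy
    by_cases hxW : x ∈ W
    · exact haux x hx y hy hxW
    · by_cases hyW : y ∈ W
      · rw [norm_sub_rev, norm_sub_rev x y]
        exact haux y hy x hx hyW
      · have h1 : w x = 0 := if_neg hxW
        have h2 : w y = 0 := if_neg hyW
        rw [h1, h2, sub_zero, norm_zero]
        positivity
  let h : E → E := fun x => if x ∈ C then π (x + w x) else x
  have hh : ∀ x ∈ M, h x = π (x + w x) := by
    intro x hx
    by_cases hxC : x ∈ C
    · exact if_pos hxC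
    · rw [show h x = x from if_neg hxC, hw0 x hxC, add_zero, hπid x hx]
  have hhC : ∀ x, x ∉ C → h x = x := fun x hx => if_neg hx
  have hhM : MapsTo h M M := by
    intro x hx
    rw [hh x hx]
    exact hπM _
  -- Lipschitz estimate
  have hdisp : ∀ x ∈ M, ‖h x - x‖ ≤ B * δ := by
    intro x hx
    by_cases hxC : x ∈ C
    · have h1 := (hest x ⟨hx, hxC⟩ x hx (w x) 0 (by simpa using hρ)
        ((hwle x hx).trans_lt hδρ) (by simpa using hρ)).2.2
      rw [add_zero, hπid x hx, sub_self, sub_zero, norm_zero, mul_zero, zero_add,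
        sub_zero] at h1
      rw [hh x hx]
      calc _ ≤ B * ‖w x‖ := h1
        _ ≤ B * δ := by gcongr; exact hwle x hx
    · rw [hhC x hxC, sub_self, norm_zero]
      positivity
  have hclose : ∀ x ∈ M, ∀ y ∈ M, ‖(h x - x) - (h y - y)‖ ≤ 1 / 2 * ‖x - y‖ := by
    have haux : ∀ x ∈ M, ∀ y ∈ M, x ∈ C → ‖(h x - x) - (h y - y)‖ ≤ 1 / 2 * ‖x - y‖ := by
      intro x hx y hy hxC
      by_cases hxy : ‖x - y‖ < ρ
      · have h1 := (hest x ⟨hx, hxC⟩ y hy (w x) (w y) hxy
          ((hwle x hx).trans_lt hδρ) ((hwle y hy).trans_lt hδρ)).2.2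
        rw [hh x hx, hh y hy]
        calc _ ≤ _ := h1
          _ ≤ 1 / 4 * ‖x - y‖ + B * ((1 + L) * δ * ‖x - y‖) := by
              gcongr
              exact hwLip x hx y hy
          _ = 1 / 4 * ‖x - y‖ + (B * ((1 + L) * δ)) * ‖x - y‖ := by ring
          _ ≤ 1 / 4 * ‖x - y‖ + 1 / 4 * ‖x - y‖ := by gcongr
          _ = 1 / 2 * ‖x - y‖ := by ring
      · push Not at hxy
        calc _ ≤ ‖h x - x‖ + ‖h y - y‖ := norm_sub_le _ _
          _ ≤ B * δ + B * δ := add_le_add (hdisp x hx) (hdisp y hy)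
          _ ≤ 1 / 2 * ‖x - y‖ := by linarith
    intro x hx y hy
    by_cases hxC : x ∈ C
    · exact haux x hx y hy hxC
    · by_cases hyC : y ∈ C
      · rw [norm_sub_rev, norm_sub_rev x y]
        exact haux y hy x hx hyC
      · rw [hhC x hxC, hhC y hyC, sub_self, sub_self, sub_self, norm_zero]
        positivity
  have hlow : ∀ x ∈ M, ∀ y ∈ M, 1 / 2 * ‖x - y‖ ≤ ‖h x - h y‖ := by
    intro x hx y hy
    have h1 := hclose x hx y hy
    have h2 : x - y = (h x - h y) - ((h x - x) - (h y - y)) := by abel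
    have h3 := norm_sub_le (h x - h y) ((h x - x) - (h y - y))
    rw [← h2] at h3
    linarith
  have hup : ∀ x ∈ M, ∀ y ∈ M, ‖h x - h y‖ ≤ 2 * ‖x - y‖ := by
    intro x hx y hy
    have h1 := hclose x hx y hy
    have h2 : h x - h y = (x - y) + ((h x - x) - (h y - y)) := by abel
    have h3 := norm_add_le (x - y) ((h x - x) - (h y - y))
    rw [← h2] at h3
    have := norm_nonneg (x - y)
    linarith
  -- smoothness
  have hsmW : ContDiffOn ℝ ∞ h (M ∩ W) := by
    have h1 : ContDiffOn ℝ ∞ (fun x => x + w x) (M ∩ W) := by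
      have h2 : ContDiffOn ℝ ∞ (fun x => x + χ x • (u x - x)) (M ∩ W) :=
        contDiffOn_id.add (hχ.contDiffOn.smul (hu.sub contDiffOn_id))
      refine h2.congr fun x hx => ?_
      rw [hwW x hx.2]
    have h3 : MapsTo (fun x => x + w x) (M ∩ W) O := by
      intro x hx
      show x + w x ∈ O
      by_cases hxC : x ∈ C
      · exact (hest x ⟨hx.1, hxC⟩ x hx.1 (w x) 0 (by simpa using hρ)
          ((hwle x hx.1).trans_lt hδρ) (by simpa using hρ)).1
      · rw [hw0 x hxC, add_zero]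
        exact hMO hx.1
    refine (hπ.comp h1 h3).congr fun x hx => ?_
    rw [hh x hx.1]
    rfl
  have hsm : ContDiffOn ℝ ∞ h M := by
    intro x hx
    by_cases hxW : x ∈ W
    · exact ((hsmW x ⟨hx, hxW⟩).mono_of_mem_nhdsWithin
        (inter_mem self_mem_nhdsWithin (mem_nhdsWithin_of_mem_nhds (hW.mem_nhds hxW))))
    · have hxC : x ∈ Cᶜ := fun h' => hxW (hCW h')
      have h1 : ContDiffWithinAt ℝ ∞ (fun y : E => y) M x := contDiffWithinAt_id
      refine h1.congr_of_eventuallyEq ?_ (hhC x hxC)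
      filter_upwards [mem_nhdsWithin_of_mem_nhds (hC.isClosed.isOpen_compl.mem_nhds hxC)]
        with y hy
      exact hhC y hy
  -- inverse
  obtain ⟨U', g, hU', himage, hg, hgl, hgr⟩ := submanifold_inverse hM hM isOpen_univ
    (by simpa using hsm) (by simpa using hhM) (c := 1 / 2) (by norm_num)
    (by simpa using hlow)
  rw [inter_univ] at himage hgl
  -- the image is closed
  have himcl : IsClosed (h '' M) := by
    have hcomp : CompleteSpace M := hcl.completeSpace_coe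
    let hM' : M → E := fun x => h x
    have h1 : AntilipschitzWith 2 hM' := by
      apply AntilipschitzWith.of_le_mul_dist
      intro x y
      have := hlow x x.2 y y.2
      rw [Subtype.dist_eq, dist_eq_norm, dist_eq_norm]
      show ‖(x : E) - y‖ ≤ ((2 : NNReal) : ℝ) * ‖h x - h y‖
      rw [NNReal.coe_ofNat]
      linarith
    have h2 : LipschitzWith 2 hM' := by
      apply LipschitzWith.of_dist_le_mul
      intro x y
      have := hup x x.2 y y.2
      rw [Subtype.dist_eq, dist_eq_norm, dist_eq_norm]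
      show ‖h x - h y‖ ≤ ((2 : NNReal) : ℝ) * ‖(x : E) - y‖
      rw [NNReal.coe_ofNat]
      exact this
    have h3 := h1.isClosed_range h2.uniformContinuous
    have h4 : range hM' = h '' M := by
      ext y
      simp [hM']
    rwa [h4] at h3
  have hMU : M ⊆ U' := by
    have h1 := (isPreconnected_iff_subset_of_disjoint.mp hconn.isPreconnected) U' (h '' M)ᶜ
      hU' himcl.isOpen_compl ?_ ?_
    · rcases h1 with h1 | h1
      · exact h1
      · exfalso
        obtain ⟨x, hx⟩ := hconn.nonempty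
        exact h1 (hhM hx) ⟨x, hx, rfl⟩
    · intro x hx
      by_cases hxi : x ∈ h '' M
      · rw [himage] at hxi
        exact Or.inl hxi.2
      · exact Or.inr hxi
    · rw [← inter_assoc, ← himage, inter_compl_self]
  have hMU' : M ∩ U' = M := inter_eq_left.mpr hMU
  rw [hMU'] at hg hgr
  refine ⟨⟨h, g, hsm, hg, hhM, fun y hy => (hgr y hy).1.1, hgl, fun y hy => (hgr y hy).2,
    ⟨C, hC, hCW, fun x _ hxC => hhC x hxC⟩⟩, ?_⟩
  have hKW' : ∀ᶠ x in 𝓝ˢ K, x ∈ W := hW.mem_nhdsSet.mpr hKW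
  filter_upwards [hχK, hKW'] with x hx1 hxW hxM
  show h x = u x
  rw [hh x hxM, hwW x hxW, hx1, one_smul, add_sub_cancel]
  exact hπid _ (humaps ⟨hxM, hxW⟩)

end Pool.Agent.BorelManifold
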