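import Pool.Agent.Lib.BorelManifold.CountC1

/-!
# Countably many model pieces
-/

namespace Pool.Agent.BorelManifold

open Set Topology Filter Metric
open scoped ContDiff

variable {E : Type*} [NormedAddCommGroup E] [InnerProductSpace ℝ E] [FiniteDimensional ℝ E]

/-- Uniform local connectedness of a manifold near a compact set. -/
theorem uniform_local_conn {n : ℕ} {A : Set E} (hA : IsMfd n A) {K : Set E} (hK : IsCompact K)
    {η : ℝ} (hη : 0 < η) : ∃ ρ : ℝ, 0 < ρ ∧ ∀ z ∈ A ∩ K, ∃ S, S ⊆ A ∧ IsPreconnected S ∧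
      A ∩ ball z ρ ⊆ S ∧ S ⊆ ball z η := by
  have hAK : IsCompact (A ∩ K) := hK.inter_left hA.closed
  refine hAK.induction_on (p := fun T => ∃ ρ : ℝ, 0 < ρ ∧ ∀ z ∈ T, ∃ S, S ⊆ A ∧
    IsPreconnected S ∧ A ∩ ball z ρ ⊆ S ∧ S ⊆ ball z η) ?_ ?_ ?_ ?_
  · exact ⟨1, one_pos, fun z hz => absurd hz (notMem_empty z)⟩
  · rintro s t hst ⟨ρ, hρ, h⟩
    exact ⟨ρ, hρ, fun z hz => h z (hst hz)⟩
  · rintro s t ⟨ρ, hρ, h⟩ ⟨ρ', hρ', h'⟩
    refine ⟨min ρ ρ', lt_min hρ hρ', ?_⟩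
    rintro z (hz | hz)
    · obtain ⟨S, h1, h2, h3, h4⟩ := h z hz
      exact ⟨S, h1, h2, (inter_subset_inter_right _ (ball_subset_ball (min_le_left _ _))).trans h3,
        h4⟩
    · obtain ⟨S, h1, h2, h3, h4⟩ := h' z hz
      exact ⟨S, h1, h2, (inter_subset_inter_right _ (ball_subset_ball (min_le_right _ _))).trans h3,
        h4⟩
  · rintro c ⟨hcA, -⟩
    obtain ⟨e, V, hce, he, hes, hV, heA⟩ := hA.sub c hcA
    have hcsymm : ContinuousAt e.symm (e c) :=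
      e.symm.continuousOn_toFun.continuousAt (e.open_target.mem_nhds (e.map_source hce))
    have h1 : ∀ᶠ v in 𝓝 (e c), v ∈ e.target ∧ e.symm v ∈ ball c (η / 2) := by
      refine (e.open_target.eventually_mem (e.map_source hce)).and ?_
      apply hcsymm.eventually
      rw [e.left_inv hce]
      exact ball_mem_nhds c (by positivity)
    obtain ⟨t, ht, hball⟩ := Metric.eventually_nhds_iff_ball.mp h1
    have hc : ContinuousAt e c := e.continuousOn_toFun.continuousAt (e.open_source.mem_nhds hce)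
    have h2 : ∀ᶠ x in 𝓝 c, x ∈ e.source ∧ e x ∈ ball (e c) t :=
      (e.open_source.eventually_mem hce).and (hc.eventually (ball_mem_nhds _ ht))
    obtain ⟨ρ', hρ', hball'⟩ := Metric.eventually_nhds_iff_ball.mp h2
    refine ⟨ball c (min (ρ' / 2) (η / 2)), mem_nhdsWithin_of_mem_nhds
      (ball_mem_nhds c (by positivity)), min (ρ' / 2) (η / 2), by positivity, ?_⟩
    intro z hz
    have hz' : dist z c < min (ρ' / 2) (η / 2) := hz
    refine ⟨e.symm '' ((V : Set E) ∩ ball (e c) t), ?_, ?_, ?_, ?_⟩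
    · rintro _ ⟨v, ⟨hvV, hv⟩, rfl⟩
      refine (heA _ (e.map_target (hball v hv).1)).mpr ?_
      rw [e.right_inv (hball v hv).1]
      exact hvV
    · apply IsPreconnected.image
      · exact ((V.convex).inter (convex_ball _ _)).isPreconnected
      · exact e.symm.continuousOn_toFun.mono (fun v hv => (hball v hv.2).1)
    · rintro x ⟨hxA, hx⟩
      have hx1 : x ∈ ball c ρ' := by
        rw [mem_ball]
        have h3 : dist x z < min (ρ' / 2) (η / 2) := hx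
        have h4 := dist_triangle x z c
        have h5 := min_le_left (ρ' / 2) (η / 2)
        linarith
      obtain ⟨h6, h7⟩ := hball' x hx1
      exact ⟨e x, ⟨(heA x h6).mp hxA, h7⟩, e.left_inv h6⟩
    · rintro _ ⟨v, ⟨hvV, hv⟩, rfl⟩
      have h3 : dist (e.symm v) c < η / 2 := (hball v hv).2
      rw [mem_ball]
      have h4 := dist_triangle_right (e.symm v) z c
      have h5 := min_le_right (ρ' / 2) (η / 2)
      linarith

/-- The manifold `M` matches the model `A` up to radius `i + 1` with tolerance `ε`. -/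
def Matches (π : E → E) (Q : Set E) (i : ℕ) (ε : ℝ) (d : ℕ → E) (M : Set E) : Prop :=
  (∀ x ∈ M, ‖x‖ < i + 1 → x ∈ Q ∧ ‖π x - x‖ ≤ ε) ∧
  (∀ x ∈ M, ∀ x' ∈ M, ‖x‖ < i + 1 → ‖x'‖ < i + 1 →
    ‖(π x - x) - (π x' - x')‖ ≤ 1 / 2 * ‖x - x'‖) ∧
  (∀ j, ‖d j‖ < i + 1 → ∃ x ∈ M, ‖x - d j‖ < ε)

/-- For small tolerances the retraction maps a matching manifold onto the model. -/
theorem surj_of_small {n : ℕ} {A O Q : Set E} {π : E → E} (hA : IsMfd n A)
    (hπ : IsRetr A O π) (hQO : Q ⊆ O) (i : ℕ) {d : ℕ → E} (hd : A ⊆ closure (range d)) :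
    ∃ ε₀ : ℝ, 0 < ε₀ ∧ ∀ ε, 0 < ε → ε ≤ ε₀ → ∀ M, IsMfd n M → Matches π Q i ε d M →
      ∀ z ∈ A ∩ ball 0 ((i : ℝ) + 1 / 2), ∃ x ∈ M ∩ ball 0 ((i : ℝ) + 1), π x = z := by
  obtain ⟨ρ, hρ, hLC⟩ := uniform_local_conn hA
    (isCompact_closedBall (0 : E) ((i : ℝ) + 1 / 2)) (show (0 : ℝ) < 1 / 4 by norm_num)
  refine ⟨min (1 / 8) (ρ / 4), by positivity, ?_⟩
  rintro ε hε hεle M hM ⟨h1, h2, h3⟩ z ⟨hzA, hz⟩
  have hε1 : ε ≤ 1 / 8 := hεle.trans (min_le_left _ _)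
  have hε2 : ε ≤ ρ / 4 := hεle.trans (min_le_right _ _)
  have hz' : ‖z‖ < (i : ℝ) + 1 / 2 := by simpa using hz
  obtain ⟨S, hSA, hSc, hSρ, hSη⟩ := hLC z ⟨hzA, ball_subset_closedBall hz⟩
  -- a point of `M` near `z`
  obtain ⟨x₀, hx₀, hx₀z⟩ : ∃ x₀ ∈ M, ‖x₀ - z‖ < 2 * ε := by
    obtain ⟨_, ⟨j, rfl⟩, hj⟩ := Metric.mem_closure_iff.mp (hd hzA) ε hε
    have hj' : ‖z - d j‖ < ε := by rwa [dist_eq_norm] at hj
    have hdj : ‖d j‖ < i + 1 := by
      have : d j = z - (z - d j) := by abel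
      rw [this]
      have := norm_sub_le z (z - d j)
      linarith
    obtain ⟨x, hx, hxd⟩ := h3 j hdj
    refine ⟨x, hx, ?_⟩
    have : x - z = (x - d j) - (z - d j) := by abel
    rw [this]
    have := norm_sub_le (x - d j) (z - d j)
    linarith
  have hx₀n : ‖x₀‖ < (i : ℝ) + 3 / 4 := by
    have : x₀ = z + (x₀ - z) := by abel
    rw [this]
    have := norm_add_le z (x₀ - z)
    linarith
  have hx₀π := (h1 x₀ hx₀ (by linarith)).2
  have hπx₀ : π x₀ ∈ S := by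
    apply hSρ
    refine ⟨hπ.mem _, ?_⟩
    rw [mem_ball, dist_eq_norm]
    have : π x₀ - z = (π x₀ - x₀) + (x₀ - z) := by abel
    rw [this]
    have := norm_add_le (π x₀ - x₀) (x₀ - z)
    linarith
  -- the image
  have hUopen : IsOpen (ball (0 : E) ((i : ℝ) + 1) ∩ O) := isOpen_ball.inter hπ.isOpen
  have hlow : ∀ x ∈ M ∩ (ball (0 : E) ((i : ℝ) + 1) ∩ O),
      ∀ x' ∈ M ∩ (ball (0 : E) ((i : ℝ) + 1) ∩ O), 1 / 2 * ‖x - x'‖ ≤ ‖π x - π x'‖ := by
    rintro x ⟨hx, hxb, -⟩ x' ⟨hx', hxb', -⟩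
    have h4 := h2 x hx x' hx' (by simpa using hxb) (by simpa using hxb')
    have h5 : x - x' = (π x - π x') - ((π x - x) - (π x' - x')) := by abel
    have h6 := norm_sub_le (π x - π x') ((π x - x) - (π x' - x'))
    rw [← h5] at h6
    linarith
  obtain ⟨U', g, hU', himage, -, -, -⟩ := submanifold_inverse hM.sub hA.sub hUopen
    (hπ.smooth.mono (fun x hx => hx.2.2)) (fun x _ => hπ.mem x) (by norm_num) hlow
  have hmemU : ∀ x ∈ M, ‖x‖ < (i : ℝ) + 1 → x ∈ M ∩ (ball (0 : E) ((i : ℝ) + 1) ∩ O) :=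
    fun x hx hxn => ⟨hx, by simpa using hxn, hQO (h1 x hx hxn).1⟩
  have hC' : IsCompact (π '' (M ∩ closedBall 0 ((i : ℝ) + 7 / 8))) := by
    apply ((isCompact_closedBall _ _).inter_left hM.closed).image_of_continuousOn
    refine hπ.smooth.continuousOn.mono ?_
    rintro x ⟨hx, hxb⟩
    have : ‖x‖ ≤ (i : ℝ) + 7 / 8 := by simpa using hxb
    exact hQO (h1 x hx (by linarith)).1
  have hsplit := (isPreconnected_iff_subset_of_disjoint.mp hSc) U'
    (π '' (M ∩ closedBall 0 ((i : ℝ) + 7 / 8)))ᶜ hU' hC'.isClosed.isOpen_compl ?_ ?_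
  · have hSU : S ⊆ U' := by
      rcases hsplit with h | h
      · exact h
      · exfalso
        refine h hπx₀ ⟨x₀, ⟨hx₀, ?_⟩, rfl⟩
        rw [mem_closedBall_zero_iff]
        linarith
    have hzS : z ∈ S := hSρ ⟨hzA, mem_ball_self hρ⟩
    have hzT : z ∈ A ∩ U' := ⟨hzA, hSU hzS⟩
    rw [← himage] at hzT
    obtain ⟨x, ⟨hx, hxb, -⟩, hxz⟩ := hzT
    exact ⟨x, ⟨hx, hxb⟩, hxz⟩
  · intro w hw
    by_cases hwC : w ∈ π '' (M ∩ closedBall 0 ((i : ℝ) + 7 / 8))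
    · left
      obtain ⟨x, ⟨hx, hxb⟩, rfl⟩ := hwC
      have hxn : ‖x‖ ≤ (i : ℝ) + 7 / 8 := by simpa using hxb
      have : π x ∈ A ∩ U' := by
        rw [← himage]
        exact mem_image_of_mem _ (hmemU x hx (by linarith))
      exact this.2
    · exact Or.inr hwC
  · rw [eq_empty_iff_forall_notMem]
    rintro w ⟨hwS, hwU, hwC⟩
    have : w ∈ A ∩ U' := ⟨hSA hwS, hwU⟩
    rw [← himage] at this
    obtain ⟨x, ⟨hx, hxb, -⟩, rfl⟩ := this
    apply hwC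
    refine ⟨x, ⟨hx, ?_⟩, rfl⟩
    have hxn : ‖x‖ < (i : ℝ) + 1 := by simpa using hxb
    have h4 := (h1 x hx hxn).2
    have h5 : ‖π x - z‖ < 1 / 4 := by
      have := hSη hwS
      rwa [mem_ball, dist_eq_norm] at this
    have h6 : x = z + (π x - z) - (π x - x) := by abel
    rw [mem_closedBall_zero_iff, h6]
    have h7 := norm_sub_le (z + (π x - z)) (π x - x)
    have h8 := norm_add_le z (π x - z)
    linarith

/-- Model pieces. -/
structure Piece (n : ℕ) (E : Type*) [NormedAddCommGroup E] [InnerProductSpace ℝ E]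
    [FiniteDimensional ℝ E] where
  /-- the manifold -/
  A : Set E
  hA : IsMfd n A
  /-- the radius -/
  i : ℕ
  /-- domain of the retraction -/
  O : Set E
  /-- the retraction -/
  π : E → E
  retr : IsRetr A O π
  /-- a compact set -/
  Q : Set E
  hQ : IsCompact Q
  hQO : Q ⊆ O
  /-- the tolerance -/
  ε : ℝ
  hε : 0 < ε
  hε' : ε ≤ 1 / 8
  /-- a dense sequence -/
  d : ℕ → E
  hdA : ∀ j, d j ∈ A
  surj : ∀ M, IsMfd n M → Matches π Q i ε d M →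
      ∀ z ∈ A ∩ ball 0 ((i : ℝ) + 1 / 2), ∃ x ∈ M ∩ ball 0 ((i : ℝ) + 1), π x = z

/-- The manifold `M` matches the piece `P`. -/
def Piece.Mat {n : ℕ} (P : Piece n E) (M : Set E) : Prop := Matches P.π P.Q P.i P.ε P.d M

/-- A matching manifold contains a copy of the piece. -/
theorem Piece.embedding {n : ℕ} (P : Piece n E) {M : Set E} (hM : IsMfd n M) (h : P.Mat M) :
    ∃ y : E → E,
      (∀ z ∈ P.A ∩ ball 0 ((P.i : ℝ) + 1 / 2), y z ∈ M ∧ ‖y z‖ < P.i + 1 ∧ P.π (y z) = z ∧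
        ‖y z - z‖ ≤ 1 / 8) ∧
      ContDiffOn ℝ ∞ y (P.A ∩ ball 0 ((P.i : ℝ) + 1 / 2)) ∧
      (∀ z ∈ P.A ∩ ball 0 ((P.i : ℝ) + 1 / 2), ∀ z' ∈ P.A ∩ ball 0 ((P.i : ℝ) + 1 / 2),
        1 / 2 * ‖z - z'‖ ≤ ‖y z - y z'‖) ∧
      (∀ x ∈ M, ‖x‖ < P.i + 1 → ‖P.π x‖ < P.i + 1 / 2 → y (P.π x) = x) := by
  obtain ⟨h1, h2, h3⟩ := id h
  have hUopen : IsOpen (ball (0 : E) ((P.i : ℝ) + 1) ∩ P.O) := isOpen_ball.inter P.retr.isOpen
  have hclose : ∀ x ∈ M ∩ (ball (0 : E) ((P.i : ℝ) + 1) ∩ P.O),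
      ∀ x' ∈ M ∩ (ball (0 : E) ((P.i : ℝ) + 1) ∩ P.O),
      ‖(P.π x - x) - (P.π x' - x')‖ ≤ 1 / 2 * ‖x - x'‖ := by
    rintro x ⟨hx, hxb, -⟩ x' ⟨hx', hxb', -⟩
    exact h2 x hx x' hx' (by simpa using hxb) (by simpa using hxb')
  have hlow : ∀ x ∈ M ∩ (ball (0 : E) ((P.i : ℝ) + 1) ∩ P.O),
      ∀ x' ∈ M ∩ (ball (0 : E) ((P.i : ℝ) + 1) ∩ P.O), 1 / 2 * ‖x - x'‖ ≤ ‖P.π x - P.π x'‖ := by
    intro x hx x' hx'
    have h4 := hclose x hx x' hx'
    have h5 : x - x' = (P.π x - P.π x') - ((P.π x - x) - (P.π x' - x')) := by abel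
    have h6 := norm_sub_le (P.π x - P.π x') ((P.π x - x) - (P.π x' - x'))
    rw [← h5] at h6
    linarith
  have hup : ∀ x ∈ M ∩ (ball (0 : E) ((P.i : ℝ) + 1) ∩ P.O),
      ∀ x' ∈ M ∩ (ball (0 : E) ((P.i : ℝ) + 1) ∩ P.O), ‖P.π x - P.π x'‖ ≤ 2 * ‖x - x'‖ := by
    intro x hx x' hx'
    have h4 := hclose x hx x' hx'
    have h5 : P.π x - P.π x' = (x - x') + ((P.π x - x) - (P.π x' - x')) := by abel
    have h6 := norm_add_le (x - x') ((P.π x - x) - (P.π x' - x'))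
    rw [← h5] at h6
    have := norm_nonneg (x - x')
    linarith
  obtain ⟨U', g, hU', himage, hg, hgl, hgr⟩ := submanifold_inverse hM.sub P.hA.sub hUopen
    (P.retr.smooth.mono (fun x hx => hx.2.2)) (fun x _ => P.retr.mem x) (by norm_num) hlow
  have hmemU : ∀ x ∈ M, ‖x‖ < (P.i : ℝ) + 1 → x ∈ M ∩ (ball (0 : E) ((P.i : ℝ) + 1) ∩ P.O) :=
    fun x hx hxn => ⟨hx, by simpa using hxn, P.hQO (h1 x hx hxn).1⟩
  have hsub : P.A ∩ ball 0 ((P.i : ℝ) + 1 / 2) ⊆ P.A ∩ U' := by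
    intro z hz
    obtain ⟨x, ⟨hx, hxb⟩, rfl⟩ := P.surj M hM h z hz
    rw [← himage]
    exact mem_image_of_mem _ (hmemU x hx (by simpa using hxb))
  refine ⟨g, ?_, hg.mono hsub, ?_, ?_⟩
  · intro z hz
    obtain ⟨h4, h5⟩ := hgr z (hsub hz)
    have hn : ‖g z‖ < P.i + 1 := by simpa using h4.2.1
    refine ⟨h4.1, hn, h5, ?_⟩
    have h6 := (h1 _ h4.1 hn).2
    rw [h5, norm_sub_rev] at h6
    exact h6.trans P.hε'
  · intro z hz z' hz'
    obtain ⟨h4, h5⟩ := hgr z (hsub hz)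
    obtain ⟨h4', h5'⟩ := hgr z' (hsub hz')
    have h6 := hup _ h4 _ h4'
    rw [h5, h5'] at h6
    linarith
  · intro x hx hxn hπn
    exact hgl x (hmemU x hx hxn)

/-- Countably many pieces of each radius match all manifolds. -/
theorem countable_pieces (n : ℕ) (i : ℕ) : ∃ S : Set (Piece n E), S.Countable ∧
    (∀ P ∈ S, P.i = i) ∧ ∀ M, IsMfd n M → ∃ P ∈ S, P.Mat M := by
  classical
  obtain ⟨Qs, hQs, hQs'⟩ := exists_compact_family E
  have hdata : ∀ M : {M : Set E // IsMfd n M}, ∃ (O : Set E) (π : E → E) (d : ℕ → E),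
      IsRetr M.1 O π ∧ (∀ j, d j ∈ M.1) ∧ M.1 ⊆ closure (range d) := by
    rintro ⟨M, hM⟩
    obtain ⟨O, π, hπ⟩ := hM.exists_retr
    have : Nonempty M := hM.conn.nonempty.to_subtype
    refine ⟨O, π, fun j => (TopologicalSpace.denseSeq M j : E), hπ, fun j => Subtype.coe_prop _,
      ?_⟩
    intro x hx
    have h1 := TopologicalSpace.denseRange_denseSeq M ⟨x, hx⟩
    have h2 := image_closure_subset_closure_image (f := ((↑) : M → E)) continuous_subtype_val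
      (mem_image_of_mem _ h1)
    rwa [← range_comp] at h2
  choose O π d hπ hdM hdd using hdata
  -- constants
  have hC : ∀ a b : ℕ, ∃ C : ℝ, 1 ≤ C ∧ (Qs a ⊆ interior (Qs b) → ∀ f : E → E,
      (∀ x ∈ Qs b, DifferentiableAt ℝ f x) → ∀ η : ℝ, 0 ≤ η →
      (∀ x ∈ Qs b, ‖f x‖ ≤ η ∧ ‖fderiv ℝ f x‖ ≤ η) →
      ∀ x ∈ Qs a, ∀ y ∈ Qs a, ‖f x - f y‖ ≤ C * η * ‖x - y‖) := by
    intro a b
    by_cases hab : Qs a ⊆ interior (Qs b)
    · obtain ⟨C, hC1, hC⟩ := lipschitz_of_C1 (hQs a) hab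
      exact ⟨C, hC1, fun _ => hC⟩
    · exact ⟨1, le_rfl, fun h => absurd h hab⟩
  choose C hC1 hC using hC
  let Z : ℕ → ℕ → Type _ := fun a b => {M : {M : Set E // IsMfd n M} //
    M.1 ∩ closedBall 0 ((i : ℝ) + 1) ⊆ Qs a ∧ Qs a ⊆ interior (Qs b) ∧ Qs b ⊆ O M}
  have htol : ∀ a b (M : Z a b), ∃ ε : ℝ, 0 < ε ∧ ε ≤ 1 / 8 ∧ ∀ M', IsMfd n M' →
      Matches (π M.1) (Qs a) i ε (d M.1) M' →
      ∀ z ∈ M.1.1 ∩ ball 0 ((i : ℝ) + 1 / 2), ∃ x ∈ M' ∩ ball 0 ((i : ℝ) + 1),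
        π M.1 x = z := by
    intro a b M
    obtain ⟨ε₀, hε₀, h⟩ := surj_of_small M.1.2 (hπ M.1)
      (interior_subset.trans' M.2.2.1 |>.trans M.2.2.2) i (hdd M.1)
    exact ⟨min ε₀ (1 / 8), by positivity, min_le_right _ _,
      fun M' hM' hmat => h _ (by positivity) (min_le_left _ _) M' hM' hmat⟩
  choose ε hε hε' hsurj using htol
  let piece : ∀ a b, Z a b → Piece n E := fun a b M =>
    { A := M.1.1
      hA := M.1.2
      i := i
      O := O M.1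
      π := π M.1
      retr := hπ M.1
      Q := Qs a
      hQ := hQs a
      hQO := (M.2.2.1.trans interior_subset).trans M.2.2.2
      ε := ε a b M
      hε := hε a b M
      hε' := hε' a b M
      d := d M.1
      hdA := hdM M.1
      surj := hsurj a b M }
  have hsel : ∀ a b, ∃ Z₀ : Set (Z a b), Z₀.Countable ∧ ∀ M : Z a b, ∃ M₀ ∈ Z₀, ∀ x ∈ Qs b,
      ‖π M.1 x - π M₀.1 x‖ < min (ε a b M₀) (1 / (2 * C a b)) ∧
      ‖fderiv ℝ (π M.1) x - fderiv ℝ (π M₀.1) x‖ < min (ε a b M₀) (1 / (2 * C a b)) := by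
    intro a b
    apply countable_C1 (hQs b) (fun M : Z a b => π M.1)
      (η := fun M => min (ε a b M) (1 / (2 * C a b)))
    · intro M
      exact (hπ M.1).smooth.continuousOn.mono M.2.2.2
    · intro M
      exact ((hπ M.1).smooth.continuousOn_fderiv_of_isOpen (hπ M.1).isOpen (by simp)).mono M.2.2.2
    · intro M
      have := hC1 a b
      have := hε a b M
      positivity
  choose Z₀ hZ₀ hZ₀' using hsel
  refine ⟨⋃ p : ℕ × ℕ, piece p.1 p.2 '' Z₀ p.1 p.2,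
    countable_iUnion fun p => (hZ₀ p.1 p.2).image _, ?_, ?_⟩
  · intro P hP
    obtain ⟨p, M, _, rfl⟩ := mem_iUnion.mp hP
    rfl
  · intro M hM
    have hcomp : IsCompact (M ∩ closedBall (0 : E) ((i : ℝ) + 1)) :=
      (isCompact_closedBall _ _).inter_left hM.closed
    obtain ⟨b, hb1, hb2⟩ := hQs' _ _ hcomp (hπ ⟨M, hM⟩).isOpen
      (inter_subset_left.trans (hπ ⟨M, hM⟩).sub)
    obtain ⟨a, ha1, ha2⟩ := hQs' _ _ hcomp isOpen_interior hb1
    obtain ⟨M₀, hM₀, hclose⟩ := hZ₀' a b ⟨⟨M, hM⟩, ha1.trans interior_subset, ha2, hb2⟩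
    have hπM := hπ ⟨M, hM⟩
    have hπM₀ := hπ M₀.1
    refine ⟨piece a b M₀, mem_iUnion.mpr ⟨(a, b), M₀, hM₀, rfl⟩, ?_, ?_, ?_⟩
    · intro x hx hxn
      have hxQ : x ∈ Qs a := interior_subset (ha1 ⟨hx, by
        rw [mem_closedBall_zero_iff]; exact hxn.le⟩)
      refine ⟨hxQ, ?_⟩
      have h1 := (hclose x (interior_subset (ha2 hxQ))).1
      show ‖π M₀.1 x - x‖ ≤ ε a b M₀
      rw [hπM.id x hx, norm_sub_rev] at h1
      exact (h1.trans_le (min_le_left _ _)).le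
    · intro x hx x' hx' hxn hxn'
      have hxQ : x ∈ Qs a := interior_subset (ha1 ⟨hx, by
        rw [mem_closedBall_zero_iff]; exact hxn.le⟩)
      have hxQ' : x' ∈ Qs a := interior_subset (ha1 ⟨hx', by
        rw [mem_closedBall_zero_iff]; exact hxn'.le⟩)
      have hd1 : ∀ z ∈ Qs b, DifferentiableAt ℝ (π ⟨M, hM⟩) z := fun z hz =>
        ((hπM.smooth z (hb2 hz)).contDiffAt (hπM.isOpen.mem_nhds (hb2 hz))).differentiableAt
          (by simp)
      have hd2 : ∀ z ∈ Qs b, DifferentiableAt ℝ (π M₀.1) z := fun z hz =>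
        ((hπM₀.smooth z (M₀.2.2.2 hz)).contDiffAt
          (hπM₀.isOpen.mem_nhds (M₀.2.2.2 hz))).differentiableAt (by simp)
      have hC0 : 0 < C a b := lt_of_lt_of_le one_pos (hC1 a b)
      have h4 := hC a b ha2 (fun z => π ⟨M, hM⟩ z - π M₀.1 z)
        (fun z hz => (hd1 z hz).sub (hd2 z hz)) (1 / (2 * C a b)) (by positivity) (by
          intro z hz
          refine ⟨((hclose z hz).1.trans_le (min_le_right _ _)).le, ?_⟩
          have : fderiv ℝ (fun z => π ⟨M, hM⟩ z - π M₀.1 z) z =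
              fderiv ℝ (π ⟨M, hM⟩) z - fderiv ℝ (π M₀.1) z := fderiv_fun_sub (hd1 z hz) (hd2 z hz)
          rw [this]
          exact ((hclose z hz).2.trans_le (min_le_right _ _)).le) x hxQ x' hxQ'
      simp only [hπM.id x hx, hπM.id x' hx'] at h4
      show ‖(π M₀.1 x - x) - (π M₀.1 x' - x')‖ ≤ 1 / 2 * ‖x - x'‖
      have h5 : (π M₀.1 x - x) - (π M₀.1 x' - x') = -((x - π M₀.1 x) - (x' - π M₀.1 x')) := by
        abel
      rw [h5, norm_neg]
      calc _ ≤ _ := h4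
        _ = 1 / 2 * ‖x - x'‖ := by field_simp
    · intro j hj
      have hjn : ‖d M₀.1 j‖ < i + 1 := hj
      have hdM₀ := hdM M₀.1 j
      have hxQ : d M₀.1 j ∈ Qs a := M₀.2.1 ⟨hdM₀, by
        rw [mem_closedBall_zero_iff]; exact hjn.le⟩
      have h1 := (hclose _ (interior_subset (ha2 hxQ))).1
      rw [hπM₀.id _ hdM₀] at h1
      exact ⟨π ⟨M, hM⟩ (d M₀.1 j), hπM.mem _, h1.trans_le (min_le_left _ _)⟩

end Pool.Agent.BorelManifold
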