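import Pool.Agent.Lib.BorelManifold.Pieces

/-!
# The countable system of pieces and morphisms, and the data of a manifold
-/

namespace Pool.Agent.BorelManifold

open Set Topology Filter Metric
open scoped ContDiff

variable {E : Type*} [NormedAddCommGroup E] [InnerProductSpace ℝ E] [FiniteDimensional ℝ E]

/-- A countable system of pieces and of representatives of all classes of embeddings. -/
structure Sys (n : ℕ) (E : Type*) [NormedAddCommGroup E] [InnerProductSpace ℝ E]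
    [FiniteDimensional ℝ E] where
  /-- the pieces -/
  P : ℕ → Piece n E
  complete : ∀ (i : ℕ) (M : Set E), IsMfd n M → ∃ l, (P l).i = i ∧ (P l).Mat M
  /-- the morphisms -/
  mor : ℕ → ℕ → ℕ → E → E
  /-- the radius of the domain -/
  ms : ℕ → ℕ → ℕ → ℝ
  /-- the tolerance -/
  mδ : ℕ → ℕ → ℕ → ℝ
  /-- validity of the index -/
  mV : ℕ → ℕ → ℕ → Prop
  spec : ∀ l l' j, mV l l' j → ((P l).i : ℝ) < ms l l' j ∧ ms l l' j ≤ (P l).i + 1 / 2 ∧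
    0 < mδ l l' j ∧
    ContDiffOn ℝ ∞ (mor l l' j) ((P l).A ∩ ball 0 (ms l l' j)) ∧
    IsEmb (P l).A (P l).i (P l').A (ball 0 (P l').i) (mor l l' j) ∧
    ∀ y : E → E, ContDiffOn ℝ ∞ y ((P l).A ∩ ball 0 (ms l l' j)) →
      MapsTo y ((P l).A ∩ ball 0 (ms l l' j)) (P l').A →
      LipClose ((P l).A ∩ ball 0 (ms l l' j)) (mδ l l' j) (mor l l' j) y →
      Eqv (P l).A (P l).i (P l').A (ball 0 (P l').i) (mor l l' j) y
  dense : ∀ l l' (y : E → E), IsEmb (P l).A (P l).i (P l').A (ball 0 (P l').i) y →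
    ∃ j, mV l l' j ∧ ContDiffOn ℝ ∞ y ((P l).A ∩ ball 0 (ms l l' j)) ∧
      MapsTo y ((P l).A ∩ ball 0 (ms l l' j)) (P l').A ∧
      LipClose ((P l).A ∩ ball 0 (ms l l' j)) (mδ l l' j) (mor l l' j) y

theorem exists_sys (n : ℕ) (h : ∃ M : Set E, IsMfd n M) : Nonempty (Sys n E) := by
  classical
  choose S hS hSi hSM using fun i => countable_pieces (E := E) n i
  obtain ⟨M₀, hM₀⟩ := h
  have hcount : (⋃ i, S i).Countable := countable_iUnion hS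
  have hne : (⋃ i, S i).Nonempty := by
    obtain ⟨P, hP, -⟩ := hSM 0 M₀ hM₀
    exact ⟨P, mem_iUnion.mpr ⟨0, hP⟩⟩
  obtain ⟨P, hP⟩ := hcount.exists_eq_range hne
  have hcomplete : ∀ (i : ℕ) (M : Set E), IsMfd n M → ∃ l, (P l).i = i ∧ (P l).Mat M := by
    intro i M hM
    obtain ⟨p, hp, hpM⟩ := hSM i M hM
    have : p ∈ range P := by
      rw [← hP]
      exact mem_iUnion.mpr ⟨i, hp⟩
    obtain ⟨l, rfl⟩ := this
    exact ⟨l, hSi i _ hp, hpM⟩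
  have hm : ∀ l l', ∃ (mor : ℕ → E → E) (ms mδ : ℕ → ℝ) (mV : ℕ → Prop),
      (∀ j, mV j → ((P l).i : ℝ) < ms j ∧ ms j ≤ (P l).i + 1 / 2 ∧ 0 < mδ j ∧
        ContDiffOn ℝ ∞ (mor j) ((P l).A ∩ ball 0 (ms j)) ∧
        IsEmb (P l).A (P l).i (P l').A (ball 0 (P l').i) (mor j) ∧
        ∀ y : E → E, ContDiffOn ℝ ∞ y ((P l).A ∩ ball 0 (ms j)) →
          MapsTo y ((P l).A ∩ ball 0 (ms j)) (P l').A →
          LipClose ((P l).A ∩ ball 0 (ms j)) (mδ j) (mor j) y →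
          Eqv (P l).A (P l).i (P l').A (ball 0 (P l').i) (mor j) y) ∧
      (∀ (y : E → E), IsEmb (P l).A (P l).i (P l').A (ball 0 (P l').i) y →
        ∃ j, mV j ∧ ContDiffOn ℝ ∞ y ((P l).A ∩ ball 0 (ms j)) ∧
          MapsTo y ((P l).A ∩ ball 0 (ms j)) (P l').A ∧
          LipClose ((P l).A ∩ ball 0 (ms j)) (mδ j) (mor j) y) := by
    intro l l'
    obtain ⟨T, hT, hT1, hT2⟩ := countable_emb (P l).hA (P l').hA
      (isOpen_ball (x := (0 : E)) (ε := ((P l').i : ℝ)))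
      (r := ((P l).i : ℝ)) (s₀ := (P l).i + 1 / 2) (Nat.cast_nonneg _) (by linarith)
    obtain ⟨e, he⟩ := (hT.insert (id, 0, 0)).exists_eq_range (insert_nonempty _ _)
    refine ⟨fun j => (e j).1, fun j => (e j).2.1, fun j => (e j).2.2, fun j => e j ∈ T, ?_, ?_⟩
    · intro j hj
      exact hT1 (e j) hj
    · intro y hy
      obtain ⟨p, hp, h1, h2, h3⟩ := hT2 y hy
      have : p ∈ range e := by
        rw [← he]
        exact mem_insert_of_mem _ hp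
      obtain ⟨j, rfl⟩ := this
      exact ⟨j, hp, h1, h2, h3⟩
  choose mor ms mδ mV hspec hdense using hm
  exact ⟨⟨P, hcomplete, mor, ms, mδ, mV, hspec, hdense⟩⟩

namespace Sys

variable {n : ℕ} (𝔖 : Sys n E)

/-- The manifold of the `l`-th piece. -/
abbrev A (l : ℕ) : Set E := (𝔖.P l).A

/-- The radius of the `l`-th piece, as a real number. -/
abbrev r (l : ℕ) : ℝ := (𝔖.P l).i

/-- The open ball of the `l`-th piece. -/
abbrev B (l : ℕ) : Set E := ball 0 (𝔖.r l)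

theorem hA (l : ℕ) : IsMfd n (𝔖.A l) := (𝔖.P l).hA

theorem r_nonneg (l : ℕ) : 0 ≤ 𝔖.r l := Nat.cast_nonneg _

theorem mor_emb {l l' j : ℕ} (h : 𝔖.mV l l' j) :
    IsEmb (𝔖.A l) (𝔖.r l) (𝔖.A l') (𝔖.B l') (𝔖.mor l l' j) := (𝔖.spec l l' j h).2.2.2.2.1

/-- Every embedding between pieces is equivalent to a valid morphism. -/
theorem exists_mor {l l' : ℕ} {y : E → E} (hy : IsEmb (𝔖.A l) (𝔖.r l) (𝔖.A l') (𝔖.B l') y) :
    ∃ j, 𝔖.mV l l' j ∧ Eqv (𝔖.A l) (𝔖.r l) (𝔖.A l') (𝔖.B l') (𝔖.mor l l' j) y := by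
  obtain ⟨j, h1, h2, h3, h4⟩ := 𝔖.dense l l' y hy
  exact ⟨j, h1, (𝔖.spec l l' j h1).2.2.2.2.2 y h2 h3 h4⟩

section Manifold

variable {M : Set E}

open Classical in
/-- The index of the piece of radius `k` matching `M`. -/
noncomputable def idx (M : Set E) (k : ℕ) : ℕ :=
  if h : ∃ l, (𝔖.P l).i = k ∧ (𝔖.P l).Mat M then Nat.find h else 0

theorem idx_spec (hM : IsMfd n M) (k : ℕ) :
    (𝔖.P (𝔖.idx M k)).i = k ∧ (𝔖.P (𝔖.idx M k)).Mat M := by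
  classical
  have h := 𝔖.complete k M hM
  unfold idx
  rw [dif_pos h]
  exact Nat.find_spec h

theorem r_idx (hM : IsMfd n M) (k : ℕ) : 𝔖.r (𝔖.idx M k) = k := by
  show ((𝔖.P (𝔖.idx M k)).i : ℝ) = k
  rw [(𝔖.idx_spec hM k).1]

open Classical in
/-- The canonical embedding of the `k`-th piece into `M`. -/
noncomputable def y (M : Set E) (k : ℕ) : E → E :=
  if h : IsMfd n M then
    Classical.choose ((𝔖.P (𝔖.idx M k)).embedding h (𝔖.idx_spec h k).2) else id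

theorem y_spec (hM : IsMfd n M) (k : ℕ) :
    (∀ z ∈ 𝔖.A (𝔖.idx M k) ∩ ball 0 ((k : ℝ) + 1 / 2), 𝔖.y M k z ∈ M ∧ ‖𝔖.y M k z‖ < k + 1 ∧
      (𝔖.P (𝔖.idx M k)).π (𝔖.y M k z) = z ∧ ‖𝔖.y M k z - z‖ ≤ 1 / 8) ∧
    ContDiffOn ℝ ∞ (𝔖.y M k) (𝔖.A (𝔖.idx M k) ∩ ball 0 ((k : ℝ) + 1 / 2)) ∧
    (∀ z ∈ 𝔖.A (𝔖.idx M k) ∩ ball 0 ((k : ℝ) + 1 / 2),
      ∀ z' ∈ 𝔖.A (𝔖.idx M k) ∩ ball 0 ((k : ℝ) + 1 / 2),
      1 / 2 * ‖z - z'‖ ≤ ‖𝔖.y M k z - 𝔖.y M k z'‖) ∧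
    (∀ x ∈ M, ‖x‖ < k + 1 → ‖(𝔖.P (𝔖.idx M k)).π x‖ < k + 1 / 2 →
      𝔖.y M k ((𝔖.P (𝔖.idx M k)).π x) = x) := by
  have h := Classical.choose_spec ((𝔖.P (𝔖.idx M k)).embedding hM (𝔖.idx_spec hM k).2)
  have hy : 𝔖.y M k =
      Classical.choose ((𝔖.P (𝔖.idx M k)).embedding hM (𝔖.idx_spec hM k).2) := by
    unfold y
    rw [dif_pos hM]
  rw [← hy] at h
  rw [(𝔖.idx_spec hM k).1] at h
  exact h

theorem y_emb (hM : IsMfd n M) (k : ℕ) :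
    IsEmb (𝔖.A (𝔖.idx M k)) (𝔖.r (𝔖.idx M k)) M univ (𝔖.y M k) := by
  obtain ⟨h1, h2, h3, -⟩ := 𝔖.y_spec hM k
  rw [𝔖.r_idx hM k]
  exact ⟨k + 1 / 2, by linarith, h2, fun z hz => ⟨(h1 z hz).1, mem_univ _⟩, 1 / 2, by norm_num, h3⟩

/-- Restriction of an embedding with small image to the `k`-th piece. -/
theorem restr (hM : IsMfd n M) {A : Set E} {r : ℝ} (hA : IsClosed A) (hr : 0 ≤ r) {u : E → E}
    (hu : IsEmb A r M univ u) {k : ℕ}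
    (huk : MapsTo u (A ∩ closedBall 0 r) (ball 0 ((k : ℝ) - 1 / 8))) :
    IsEmb A r (𝔖.A (𝔖.idx M k)) (𝔖.B (𝔖.idx M k)) ((𝔖.P (𝔖.idx M k)).π ∘ u) ∧
    GermEq A r (𝔖.y M k ∘ ((𝔖.P (𝔖.idx M k)).π ∘ u)) u := by
  obtain ⟨s, hs, h1, h2, c, hc, h3⟩ := hu
  obtain ⟨s', hs', hs's, hmap⟩ := exists_ball_mapsTo hA hr hs h1.continuousOn isOpen_ball huk
  have hsub : A ∩ ball (0 : E) s' ⊆ A ∩ ball 0 s :=
    inter_subset_inter_right _ (ball_subset_ball hs's)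
  obtain ⟨hik, hmat⟩ := 𝔖.idx_spec hM k
  obtain ⟨hm1, hm2, -⟩ := id hmat
  rw [hik] at hm1 hm2
  have hB : 𝔖.B (𝔖.idx M k) = ball 0 (k : ℝ) := by
    show ball (0 : E) (𝔖.r (𝔖.idx M k)) = _
    rw [𝔖.r_idx hM k]
  have hun : ∀ x ∈ A ∩ ball (0 : E) s', ‖u x‖ < k - 1 / 8 := by
    intro x hx
    have := hmap hx
    rwa [mem_ball_zero_iff] at this
  have huM : ∀ x ∈ A ∩ ball (0 : E) s', u x ∈ M := fun x hx => (h2 (hsub hx)).1
  have hπu : ∀ x ∈ A ∩ ball (0 : E) s', ‖(𝔖.P (𝔖.idx M k)).π (u x)‖ < k := by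
    intro x hx
    have h4 := (hm1 (u x) (huM x hx) (by linarith [hun x hx])).2
    have h5 : (𝔖.P (𝔖.idx M k)).π (u x) = u x + ((𝔖.P (𝔖.idx M k)).π (u x) - u x) := by abel
    rw [h5]
    have h6 := norm_add_le (u x) ((𝔖.P (𝔖.idx M k)).π (u x) - u x)
    have h7 := (𝔖.P (𝔖.idx M k)).hε'
    have h8 := hun x hx
    linarith
  constructor
  · refine ⟨s', hs', ?_, ?_, 1 / 2 * c, by positivity, ?_⟩
    · refine (𝔖.P (𝔖.idx M k)).retr.smooth.comp (h1.mono hsub) ?_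
      intro x hx
      exact (𝔖.P (𝔖.idx M k)).hQO (hm1 (u x) (huM x hx) (by linarith [hun x hx])).1
    · intro x hx
      refine ⟨(𝔖.P (𝔖.idx M k)).retr.mem _, ?_⟩
      rw [hB, mem_ball_zero_iff]
      exact hπu x hx
    · intro x hx x' hx'
      have h4 := h3 x (hsub hx) x' (hsub hx')
      have h5 := hm2 (u x) (huM x hx) (u x') (huM x' hx') (by linarith [hun x hx])
        (by linarith [hun x' hx'])
      have h6 : u x - u x' = ((𝔖.P (𝔖.idx M k)).π (u x) - (𝔖.P (𝔖.idx M k)).π (u x')) -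
        (((𝔖.P (𝔖.idx M k)).π (u x) - u x) - ((𝔖.P (𝔖.idx M k)).π (u x') - u x')) := by abel
      have h7 := norm_sub_le ((𝔖.P (𝔖.idx M k)).π (u x) - (𝔖.P (𝔖.idx M k)).π (u x'))
        (((𝔖.P (𝔖.idx M k)).π (u x) - u x) - ((𝔖.P (𝔖.idx M k)).π (u x') - u x'))
      rw [← h6] at h7
      simp only [Function.comp_apply]
      linarith
  · refine ⟨s', hs', fun x hx => ?_⟩
    obtain ⟨-, -, -, h4⟩ := 𝔖.y_spec hM k
    exact h4 (u x) (huM x hx) (by linarith [hun x hx]) (by linarith [hπu x hx])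

/-- The strict transition map from the `k`-th to the `k'`-th piece of `M`. -/
noncomputable def tr (M : Set E) (k k' : ℕ) : E → E := (𝔖.P (𝔖.idx M k')).π ∘ 𝔖.y M k

theorem y_maps_closedBall (hM : IsMfd n M) {k k' : ℕ} (hk : k < k') :
    MapsTo (𝔖.y M k) (𝔖.A (𝔖.idx M k) ∩ closedBall 0 (𝔖.r (𝔖.idx M k)))
      (ball 0 ((k' : ℝ) - 1 / 8)) := by
  intro z hz
  rw [𝔖.r_idx hM k, mem_inter_iff, mem_closedBall_zero_iff] at hz
  obtain ⟨h1, -, -, -⟩ := 𝔖.y_spec hM k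
  obtain ⟨h4, h5, h6, h7⟩ := h1 z ⟨hz.1, by rw [mem_ball_zero_iff]; linarith [hz.2]⟩
  have h8 : 𝔖.y M k z = z + (𝔖.y M k z - z) := by abel
  rw [mem_ball_zero_iff, h8]
  have h9 := norm_add_le z (𝔖.y M k z - z)
  have h10 : (k : ℝ) + 1 ≤ k' := by exact_mod_cast hk
  linarith [hz.2]

theorem tr_emb (hM : IsMfd n M) {k k' : ℕ} (hk : k < k') :
    IsEmb (𝔖.A (𝔖.idx M k)) (𝔖.r (𝔖.idx M k)) (𝔖.A (𝔖.idx M k')) (𝔖.B (𝔖.idx M k'))
      (𝔖.tr M k k') :=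
  (𝔖.restr hM (𝔖.hA _).closed (𝔖.r_nonneg _) (𝔖.y_emb hM k) (𝔖.y_maps_closedBall hM hk)).1

theorem y_tr (hM : IsMfd n M) {k k' : ℕ} (hk : k < k') :
    GermEq (𝔖.A (𝔖.idx M k)) (𝔖.r (𝔖.idx M k)) (𝔖.y M k' ∘ 𝔖.tr M k k') (𝔖.y M k) :=
  (𝔖.restr hM (𝔖.hA _).closed (𝔖.r_nonneg _) (𝔖.y_emb hM k) (𝔖.y_maps_closedBall hM hk)).2

/-- Cancellation of `y` on the left for germs. -/
theorem y_cancel (hM : IsMfd n M) {A : Set E} {r : ℝ} {k : ℕ} {u v : E → E}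
    (hu : IsEmb A r (𝔖.A (𝔖.idx M k)) (𝔖.B (𝔖.idx M k)) u)
    (hv : IsEmb A r (𝔖.A (𝔖.idx M k)) (𝔖.B (𝔖.idx M k)) v)
    (h : GermEq A r (𝔖.y M k ∘ u) (𝔖.y M k ∘ v)) : GermEq A r u v := by
  obtain ⟨t, ht, htt⟩ := h
  obtain ⟨s, hs, hst, -, h2, -⟩ := hu.shrink ht
  obtain ⟨s', hs', hss', -, h2', -⟩ := hv.shrink hs
  obtain ⟨h1, -, -, -⟩ := 𝔖.y_spec hM k
  have hB : ∀ z, z ∈ 𝔖.B (𝔖.idx M k) → z ∈ ball (0 : E) ((k : ℝ) + 1 / 2) := by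
    intro z hz
    have hz' : z ∈ ball (0 : E) (𝔖.r (𝔖.idx M k)) := hz
    rw [𝔖.r_idx hM k, mem_ball_zero_iff] at hz'
    rw [mem_ball_zero_iff]
    linarith
  refine ⟨s', hs', fun x hx => ?_⟩
  have hx1 : x ∈ A ∩ ball (0 : E) s := ⟨hx.1, ball_subset_ball hss' hx.2⟩
  have hx2 : x ∈ A ∩ ball (0 : E) t := ⟨hx.1, ball_subset_ball hst hx1.2⟩
  have h3 := htt x hx2
  simp only [Function.comp_apply] at h3
  have h4 := (h1 (u x) ⟨(h2 hx1).1, hB _ (h2 hx1).2⟩).2.2.1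
  have h5 := (h1 (v x) ⟨(h2' hx).1, hB _ (h2' hx).2⟩).2.2.1
  rw [← h4, h3, h5]

theorem tr_tr (hM : IsMfd n M) {k k' k'' : ℕ} (hk : k < k') (hk' : k' < k'') :
    GermEq (𝔖.A (𝔖.idx M k)) (𝔖.r (𝔖.idx M k)) (𝔖.tr M k' k'' ∘ 𝔖.tr M k k')
      (𝔖.tr M k k'') := by
  apply 𝔖.y_cancel hM ((𝔖.tr_emb hM hk').comp (𝔖.tr_emb hM hk)) (𝔖.tr_emb hM (hk.trans hk'))
  have h1 := (𝔖.y_tr hM hk').comp_right (𝔖.tr_emb hM hk) subset_rfl
  exact (h1.trans (𝔖.y_tr hM hk)).trans (𝔖.y_tr hM (hk.trans hk')).symm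

end Manifold

end Sys

end Pool.Agent.BorelManifold
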