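import Pool.Agent.Lib.BorelManifold.Sys

/-!
# The codes of the transition maps, and measurability
-/

namespace Pool.Agent.BorelManifold

open Set Topology Filter Metric
open scoped ContDiff

section Meas

variable {n N : ℕ}

theorem measurableSet_hit {U : Set (Eu N)} (hU : IsOpen U) :
    MeasurableSet {M : ManifoldSpace n N | ∃ x ∈ M.1, x ∈ U} :=
  MeasurableSpace.measurableSet_generateFrom ⟨U, hU, rfl⟩

theorem measurableSet_hit₂ {U : Set (Eu N × Eu N)} (hU : IsOpen U) :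
    MeasurableSet {M : ManifoldSpace n N | ∃ x ∈ M.1, ∃ x' ∈ M.1, (x, x') ∈ U} := by
  have hb := TopologicalSpace.isBasis_countableBasis (Eu N)
  have hc := TopologicalSpace.countable_countableBasis (Eu N)
  set b := TopologicalSpace.countableBasis (Eu N) with hbdef
  have h1 : {M : ManifoldSpace n N | ∃ x ∈ M.1, ∃ x' ∈ M.1, (x, x') ∈ U} =
      ⋃ V ∈ b, ⋃ V' ∈ {V' ∈ b | V ×ˢ V' ⊆ U},
        ({M : ManifoldSpace n N | ∃ x ∈ M.1, x ∈ V} ∩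
          {M : ManifoldSpace n N | ∃ x ∈ M.1, x ∈ V'}) := by
    ext M
    simp only [mem_ofPred_eq, mem_iUnion, mem_inter_iff]
    constructor
    · rintro ⟨x, hx, x', hx', hxx⟩
      obtain ⟨u, v, hu, hv, hxu, hxv, huv⟩ := isOpen_prod_iff.mp hU x x' hxx
      obtain ⟨V, hV, hxV, hVu⟩ := hb.exists_subset_of_mem_open hxu hu
      obtain ⟨V', hV', hxV', hVu'⟩ := hb.exists_subset_of_mem_open hxv hv
      exact ⟨V, hV, V', ⟨hV', (prod_mono hVu hVu').trans huv⟩, ⟨x, hx, hxV⟩, ⟨x', hx', hxV'⟩⟩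
    · rintro ⟨V, -, V', ⟨-, hVV⟩, ⟨x, hx, hxV⟩, ⟨x', hx', hxV'⟩⟩
      exact ⟨x, hx, x', hx', hVV ⟨hxV, hxV'⟩⟩
  rw [h1]
  refine MeasurableSet.biUnion hc fun V hV => MeasurableSet.biUnion (hc.mono (sep_subset _ _))
    fun V' hV' => ?_
  exact (measurableSet_hit (hb.isOpen hV)).inter (measurableSet_hit (hb.isOpen hV'.1))

theorem ManifoldSpace.isMfd (M : ManifoldSpace n N) : IsMfd n M.1 := ⟨M.2.1, M.2.2.1, M.2.2.2⟩

/-- Matching a piece is a measurable condition. -/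
theorem Piece.measurableSet_mat (P : Piece n (Eu N)) :
    MeasurableSet {M : ManifoldSpace n N | P.Mat M.1} := by
  have hcont : ContinuousOn P.π P.O := P.retr.smooth.continuousOn
  -- first condition
  have hU1 : IsOpen (ball (0 : Eu N) ((P.i : ℝ) + 1) ∩
      (P.Qᶜ ∪ (P.O ∩ (fun x => ‖P.π x - x‖) ⁻¹' Ioi P.ε))) := by
    refine isOpen_ball.inter (P.hQ.isClosed.isOpen_compl.union ?_)
    exact (hcont.sub continuousOn_id).norm.isOpen_inter_preimage P.retr.isOpen isOpen_Ioi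
  -- second condition
  have hO2 : IsOpen ((ball (0 : Eu N) ((P.i : ℝ) + 1) ∩ P.O) ×ˢ
      (ball (0 : Eu N) ((P.i : ℝ) + 1) ∩ P.O)) :=
    (isOpen_ball.inter P.retr.isOpen).prod (isOpen_ball.inter P.retr.isOpen)
  have hU2 : IsOpen (((ball (0 : Eu N) ((P.i : ℝ) + 1) ∩ P.O) ×ˢ
      (ball (0 : Eu N) ((P.i : ℝ) + 1) ∩ P.O)) ∩
      (fun p : Eu N × Eu N => ‖(P.π p.1 - p.1) - (P.π p.2 - p.2)‖ - 1 / 2 * ‖p.1 - p.2‖) ⁻¹'
        Ioi 0) := by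
    refine ContinuousOn.isOpen_inter_preimage ?_ hO2 isOpen_Ioi
    have h1 : ContinuousOn (fun p : Eu N × Eu N => P.π p.1)
        ((ball (0 : Eu N) ((P.i : ℝ) + 1) ∩ P.O) ×ˢ (ball (0 : Eu N) ((P.i : ℝ) + 1) ∩ P.O)) :=
      hcont.comp continuousOn_fst fun p hp => hp.1.2
    have h2 : ContinuousOn (fun p : Eu N × Eu N => P.π p.2)
        ((ball (0 : Eu N) ((P.i : ℝ) + 1) ∩ P.O) ×ˢ (ball (0 : Eu N) ((P.i : ℝ) + 1) ∩ P.O)) :=
      hcont.comp continuousOn_snd fun p hp => hp.2.2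
    exact (((h1.sub continuousOn_fst).sub (h2.sub continuousOn_snd)).norm).sub
      (continuousOn_const.mul (continuousOn_fst.sub continuousOn_snd).norm)
  have h3 : MeasurableSet {M : ManifoldSpace n N | ∀ j, ‖P.d j‖ < P.i + 1 →
      ∃ x ∈ M.1, ‖x - P.d j‖ < P.ε} := by
    have : {M : ManifoldSpace n N | ∀ j, ‖P.d j‖ < P.i + 1 → ∃ x ∈ M.1, ‖x - P.d j‖ < P.ε} =
        ⋂ j, {M : ManifoldSpace n N | ‖P.d j‖ < P.i + 1 → ∃ x ∈ M.1, x ∈ ball (P.d j) P.ε} := by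
      ext M
      simp only [mem_ofPred_eq, mem_iInter, mem_ball, dist_eq_norm]
    rw [this]
    refine MeasurableSet.iInter fun j => ?_
    by_cases hj : ‖P.d j‖ < P.i + 1
    · simp only [hj, true_imp_iff]
      exact measurableSet_hit isOpen_ball
    · simp only [hj, false_imp_iff, ofPred_true, MeasurableSet.univ]
  have hfinal : {M : ManifoldSpace n N | P.Mat M.1} =
      ({M : ManifoldSpace n N | ∃ x ∈ M.1, x ∈ ball (0 : Eu N) ((P.i : ℝ) + 1) ∩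
        (P.Qᶜ ∪ (P.O ∩ (fun x => ‖P.π x - x‖) ⁻¹' Ioi P.ε))}ᶜ ∩
      {M : ManifoldSpace n N | ∃ x ∈ M.1, ∃ x' ∈ M.1, (x, x') ∈
        (((ball (0 : Eu N) ((P.i : ℝ) + 1) ∩ P.O) ×ˢ (ball (0 : Eu N) ((P.i : ℝ) + 1) ∩ P.O)) ∩
        (fun p : Eu N × Eu N => ‖(P.π p.1 - p.1) - (P.π p.2 - p.2)‖ - 1 / 2 * ‖p.1 - p.2‖) ⁻¹'
          Ioi 0)}ᶜ) ∩
      {M : ManifoldSpace n N | ∀ j, ‖P.d j‖ < P.i + 1 → ∃ x ∈ M.1, ‖x - P.d j‖ < P.ε} := by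
    ext M
    constructor
    · rintro ⟨h4, h5, h6⟩
      refine ⟨⟨?_, ?_⟩, h6⟩
      · rintro ⟨x, hx, hxb, hxQ | ⟨-, hxε⟩⟩
        · exact hxQ (h4 x hx (by simpa using hxb)).1
        · have h7 := (h4 x hx (by simpa using hxb)).2
          have h8 : P.ε < ‖P.π x - x‖ := hxε
          linarith
      · rintro ⟨x, hx, x', hx', ⟨⟨hxb, -⟩, ⟨hxb', -⟩⟩, h7⟩
        have h8 : 0 < ‖(P.π x - x) - (P.π x' - x')‖ - 1 / 2 * ‖x - x'‖ := h7
        have h9 := h5 x hx x' hx' (by simpa using hxb) (by simpa using hxb')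
        linarith
    · rintro ⟨⟨h4, h5⟩, h6⟩
      have h7 : ∀ x ∈ M.1, ‖x‖ < P.i + 1 → x ∈ P.Q ∧ ‖P.π x - x‖ ≤ P.ε := by
        intro x hx hxn
        by_contra hcon
        apply h4
        refine ⟨x, hx, by simpa using hxn, ?_⟩
        by_cases hxQ : x ∈ P.Q
        · right
          refine ⟨P.hQO hxQ, ?_⟩
          by_contra h8
          exact hcon ⟨hxQ, not_lt.mp h8⟩
        · exact Or.inl hxQ
      refine ⟨h7, ?_, h6⟩
      intro x hx x' hx' hxn hxn'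
      by_contra hcon
      apply h5
      refine ⟨x, hx, x', hx', ⟨⟨by simpa using hxn, P.hQO (h7 x hx hxn).1⟩,
        ⟨by simpa using hxn', P.hQO (h7 x' hx' hxn').1⟩⟩, ?_⟩
      show 0 < ‖(P.π x - x) - (P.π x' - x')‖ - 1 / 2 * ‖x - x'‖
      linarith [not_le.mp hcon]
  rw [hfinal]
  exact ((measurableSet_hit hU1).compl.inter (measurableSet_hit₂ hU2).compl).inter h3

end Meas

namespace Sys

variable {E : Type*} [NormedAddCommGroup E] [InnerProductSpace ℝ E] [FiniteDimensional ℝ E]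
variable {n : ℕ} (𝔖 : Sys n E)

/-- The region where the transition map is tested. -/
def testSet (l l' j : ℕ) : Set E :=
  {x | x ∈ (𝔖.P l).O ∧ x ∈ (𝔖.P l').O ∧ ‖x‖ < (𝔖.P l).i + 1 ∧ ‖(𝔖.P l).π x‖ < 𝔖.ms l l' j}

/-- The `j`-th morphism approximates the transition map. -/
def Test (l l' j : ℕ) (M : Set E) : Prop :=
  (∀ x ∈ M, x ∈ 𝔖.testSet l l' j →
    ‖(𝔖.P l').π x - 𝔖.mor l l' j ((𝔖.P l).π x)‖ ≤ 𝔖.mδ l l' j) ∧
  ∀ x ∈ M, ∀ x' ∈ M, x ∈ 𝔖.testSet l l' j → x' ∈ 𝔖.testSet l l' j →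
    ‖((𝔖.P l').π x - 𝔖.mor l l' j ((𝔖.P l).π x)) -
      ((𝔖.P l').π x' - 𝔖.mor l l' j ((𝔖.P l).π x'))‖ ≤
    𝔖.mδ l l' j * ‖(𝔖.P l).π x - (𝔖.P l).π x'‖

theorem test_iff {M : Set E} (hM : IsMfd n M) (k j : ℕ)
    (hj : 𝔖.mV (𝔖.idx M k) (𝔖.idx M (k + 1)) j) :
    𝔖.Test (𝔖.idx M k) (𝔖.idx M (k + 1)) j M ↔
    LipClose (𝔖.A (𝔖.idx M k) ∩ ball 0 (𝔖.ms (𝔖.idx M k) (𝔖.idx M (k + 1)) j))
      (𝔖.mδ (𝔖.idx M k) (𝔖.idx M (k + 1)) j) (𝔖.mor (𝔖.idx M k) (𝔖.idx M (k + 1)) j)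
      (𝔖.tr M k (k + 1)) := by
  obtain ⟨hms1, hms2, hδ, hsm, -, -⟩ := 𝔖.spec _ _ _ hj
  obtain ⟨hik, hmat⟩ := 𝔖.idx_spec hM k
  obtain ⟨hik', hmat'⟩ := 𝔖.idx_spec hM (k + 1)
  obtain ⟨hy1, hy2, hy3, hy4⟩ := 𝔖.y_spec hM k
  obtain ⟨hm1, -, -⟩ := id hmat
  obtain ⟨hm1', -, -⟩ := id hmat'
  rw [hik] at hm1 hms1 hms2
  rw [hik'] at hm1'
  push_cast at hm1'
  -- correspondence of points
  have key : ∀ z ∈ 𝔖.A (𝔖.idx M k) ∩ ball 0 (𝔖.ms (𝔖.idx M k) (𝔖.idx M (k + 1)) j),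
      𝔖.y M k z ∈ M ∧ 𝔖.y M k z ∈ 𝔖.testSet (𝔖.idx M k) (𝔖.idx M (k + 1)) j ∧
      (𝔖.P (𝔖.idx M k)).π (𝔖.y M k z) = z := by
    intro z hz
    have hz' : z ∈ 𝔖.A (𝔖.idx M k) ∩ ball 0 ((k : ℝ) + 1 / 2) :=
      ⟨hz.1, ball_subset_ball hms2 hz.2⟩
    obtain ⟨h1, h2, h3, -⟩ := hy1 z hz'
    refine ⟨h1, ⟨(𝔖.P _).hQO (hm1 _ h1 h2).1, (𝔖.P _).hQO (hm1' _ h1 (by linarith)).1, ?_, ?_⟩,
      h3⟩
    · rw [hik]; exact h2
    · rw [h3]; simpa using hz.2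
  have key' : ∀ x ∈ M, x ∈ 𝔖.testSet (𝔖.idx M k) (𝔖.idx M (k + 1)) j →
      (𝔖.P (𝔖.idx M k)).π x ∈
        𝔖.A (𝔖.idx M k) ∩ ball 0 (𝔖.ms (𝔖.idx M k) (𝔖.idx M (k + 1)) j) ∧
      𝔖.y M k ((𝔖.P (𝔖.idx M k)).π x) = x := by
    rintro x hx ⟨h1, h2, h3, h4⟩
    rw [hik] at h3
    exact ⟨⟨(𝔖.P _).retr.mem _, by simpa using h4⟩, hy4 x hx h3 (by linarith)⟩
  constructor
  · rintro ⟨h1, h2⟩
    refine ⟨fun z hz => ?_, fun z hz z' hz' => ?_⟩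
    · obtain ⟨h3, h4, h5⟩ := key z hz
      have h6 := h1 _ h3 h4
      rw [h5] at h6
      exact h6
    · obtain ⟨h3, h4, h5⟩ := key z hz
      obtain ⟨h3', h4', h5'⟩ := key z' hz'
      have h6 := h2 _ h3 _ h3' h4 h4'
      rw [h5, h5'] at h6
      exact h6
  · rintro ⟨h1, h2⟩
    refine ⟨fun x hx hxT => ?_, fun x hx x' hx' hxT hxT' => ?_⟩
    · obtain ⟨h3, h4⟩ := key' x hx hxT
      have h6 := h1 _ h3
      unfold Sys.tr at h6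
      simp only [Function.comp_apply] at h6
      rw [h4] at h6
      exact h6
    · obtain ⟨h3, h4⟩ := key' x hx hxT
      obtain ⟨h3', h4'⟩ := key' x' hx' hxT'
      have h6 := h2 _ h3 _ h3'
      unfold Sys.tr at h6
      simp only [Function.comp_apply] at h6
      rw [h4, h4'] at h6
      exact h6

theorem exists_test {M : Set E} (hM : IsMfd n M) (k : ℕ) :
    ∃ j, 𝔖.mV (𝔖.idx M k) (𝔖.idx M (k + 1)) j ∧
      𝔖.Test (𝔖.idx M k) (𝔖.idx M (k + 1)) j M := by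
  obtain ⟨j, h1, -, -, h4⟩ := 𝔖.dense _ _ _ (𝔖.tr_emb hM (Nat.lt_succ_self k))
  exact ⟨j, h1, (𝔖.test_iff hM k j h1).mpr h4⟩

open Classical in
/-- The code of the `k`-th transition map. -/
noncomputable def jj (M : Set E) (k : ℕ) : ℕ :=
  if h : ∃ j, 𝔖.mV (𝔖.idx M k) (𝔖.idx M (k + 1)) j ∧
      𝔖.Test (𝔖.idx M k) (𝔖.idx M (k + 1)) j M then Nat.find h else 0

theorem jj_spec {M : Set E} (hM : IsMfd n M) (k : ℕ) :
    𝔖.mV (𝔖.idx M k) (𝔖.idx M (k + 1)) (𝔖.jj M k) ∧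
      𝔖.Test (𝔖.idx M k) (𝔖.idx M (k + 1)) (𝔖.jj M k) M := by
  classical
  have h := 𝔖.exists_test hM k
  unfold jj
  rw [dif_pos h]
  exact Nat.find_spec h

theorem jj_eqv {M : Set E} (hM : IsMfd n M) (k : ℕ) :
    Eqv (𝔖.A (𝔖.idx M k)) (𝔖.r (𝔖.idx M k)) (𝔖.A (𝔖.idx M (k + 1))) (𝔖.B (𝔖.idx M (k + 1)))
      (𝔖.mor (𝔖.idx M k) (𝔖.idx M (k + 1)) (𝔖.jj M k)) (𝔖.tr M k (k + 1)) := by
  obtain ⟨h1, h2⟩ := 𝔖.jj_spec hM k
  obtain ⟨hms1, hms2, hδ, hsm, -, hE⟩ := 𝔖.spec _ _ _ h1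
  rw [(𝔖.idx_spec hM k).1] at hms2
  have hLC := (𝔖.test_iff hM k _ h1).mp h2
  obtain ⟨hy1, hy2, hy3, hy4⟩ := 𝔖.y_spec hM k
  obtain ⟨hik', hmat'⟩ := 𝔖.idx_spec hM (k + 1)
  obtain ⟨hm1', -, -⟩ := id hmat'
  rw [hik'] at hm1'
  push_cast at hm1'
  have hsub : 𝔖.A (𝔖.idx M k) ∩ ball 0 (𝔖.ms (𝔖.idx M k) (𝔖.idx M (k + 1)) (𝔖.jj M k)) ⊆
      𝔖.A (𝔖.idx M k) ∩ ball 0 ((k : ℝ) + 1 / 2) :=
    inter_subset_inter_right _ (ball_subset_ball hms2)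
  refine hE _ ?_ ?_ hLC
  · refine (𝔖.P (𝔖.idx M (k + 1))).retr.smooth.comp (hy2.mono hsub) ?_
    intro z hz
    obtain ⟨h3, h4, -, -⟩ := hy1 z (hsub hz)
    exact (𝔖.P _).hQO (hm1' _ h3 (by linarith)).1
  · intro z hz
    exact (𝔖.P _).retr.mem _

end Sys

section Meas2

variable {n N : ℕ} (𝔖 : Sys n (Eu N))

theorem Sys.measurable_idx (k : ℕ) : Measurable fun M : ManifoldSpace n N => 𝔖.idx M.1 k := by
  classical
  have h : ∀ M : ManifoldSpace n N, ∃ l, (𝔖.P l).i = k ∧ (𝔖.P l).Mat M.1 :=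
    fun M => 𝔖.complete k M.1 M.isMfd
  have h1 : (fun M : ManifoldSpace n N => 𝔖.idx M.1 k) = fun M => Nat.find (h M) := by
    funext M
    unfold Sys.idx
    rw [dif_pos (h M)]
  rw [h1]
  apply measurable_find
  intro l
  by_cases hl : (𝔖.P l).i = k
  · simp only [hl, true_and]
    exact (𝔖.P l).measurableSet_mat
  · simp only [hl, false_and, ofPred_false, MeasurableSet.empty]

theorem Sys.isOpen_testSet (l l' j : ℕ) : IsOpen (𝔖.testSet l l' j) := by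
  have h1 : 𝔖.testSet l l' j = ((𝔖.P l).O ∩ (𝔖.P l).π ⁻¹' ball 0 (𝔖.ms l l' j)) ∩
      ((𝔖.P l').O ∩ ball 0 (((𝔖.P l).i : ℝ) + 1)) := by
    ext x
    simp only [Sys.testSet, mem_ofPred_eq, mem_inter_iff, mem_preimage, mem_ball_zero_iff]
    tauto
  rw [h1]
  exact ((𝔖.P l).retr.smooth.continuousOn.isOpen_inter_preimage (𝔖.P l).retr.isOpen
    isOpen_ball).inter ((𝔖.P l').retr.isOpen.inter isOpen_ball)

theorem Sys.measurableSet_test (l l' j : ℕ) (hj : 𝔖.mV l l' j) :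
    MeasurableSet {M : ManifoldSpace n N | 𝔖.Test l l' j M.1} := by
  obtain ⟨-, -, -, hsm, -⟩ := 𝔖.spec l l' j hj
  have hπ : ContinuousOn (𝔖.P l).π (𝔖.testSet l l' j) :=
    (𝔖.P l).retr.smooth.continuousOn.mono fun x hx => hx.1
  have hπ' : ContinuousOn (𝔖.P l').π (𝔖.testSet l l' j) :=
    (𝔖.P l').retr.smooth.continuousOn.mono fun x hx => hx.2.1
  have hmor : ContinuousOn (fun x => 𝔖.mor l l' j ((𝔖.P l).π x)) (𝔖.testSet l l' j) := by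
    refine hsm.continuousOn.comp hπ ?_
    intro x hx
    exact ⟨(𝔖.P l).retr.mem _, by simpa using hx.2.2.2⟩
  have hopen := 𝔖.isOpen_testSet l l' j
  have hU1 : IsOpen (𝔖.testSet l l' j ∩
      (fun x => ‖(𝔖.P l').π x - 𝔖.mor l l' j ((𝔖.P l).π x)‖) ⁻¹' Ioi (𝔖.mδ l l' j)) :=
    (hπ'.sub hmor).norm.isOpen_inter_preimage hopen isOpen_Ioi
  have hfst : ∀ f : Eu N → Eu N, ContinuousOn f (𝔖.testSet l l' j) →
      ContinuousOn (fun p : Eu N × Eu N => f p.1) (𝔖.testSet l l' j ×ˢ 𝔖.testSet l l' j) :=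
    fun f hf => hf.comp continuousOn_fst fun p hp => hp.1
  have hsnd : ∀ f : Eu N → Eu N, ContinuousOn f (𝔖.testSet l l' j) →
      ContinuousOn (fun p : Eu N × Eu N => f p.2) (𝔖.testSet l l' j ×ˢ 𝔖.testSet l l' j) :=
    fun f hf => hf.comp continuousOn_snd fun p hp => hp.2
  have hU2 : IsOpen ((𝔖.testSet l l' j ×ˢ 𝔖.testSet l l' j) ∩
      (fun p : Eu N × Eu N => ‖((𝔖.P l').π p.1 - 𝔖.mor l l' j ((𝔖.P l).π p.1)) -
      ((𝔖.P l').π p.2 - 𝔖.mor l l' j ((𝔖.P l).π p.2))‖ -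
        𝔖.mδ l l' j * ‖(𝔖.P l).π p.1 - (𝔖.P l).π p.2‖) ⁻¹' Ioi 0) := by
    refine ContinuousOn.isOpen_inter_preimage ?_ (hopen.prod hopen) isOpen_Ioi
    exact ((((hfst _ hπ').sub (hfst _ hmor)).sub ((hsnd _ hπ').sub (hsnd _ hmor))).norm).sub
      (continuousOn_const.mul ((hfst _ hπ).sub (hsnd _ hπ)).norm)
  have hfinal : {M : ManifoldSpace n N | 𝔖.Test l l' j M.1} =
      {M : ManifoldSpace n N | ∃ x ∈ M.1, x ∈ 𝔖.testSet l l' j ∩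
        (fun x => ‖(𝔖.P l').π x - 𝔖.mor l l' j ((𝔖.P l).π x)‖) ⁻¹' Ioi (𝔖.mδ l l' j)}ᶜ ∩
      {M : ManifoldSpace n N | ∃ x ∈ M.1, ∃ x' ∈ M.1, (x, x') ∈
        ((𝔖.testSet l l' j ×ˢ 𝔖.testSet l l' j) ∩
        (fun p : Eu N × Eu N => ‖((𝔖.P l').π p.1 - 𝔖.mor l l' j ((𝔖.P l).π p.1)) -
        ((𝔖.P l').π p.2 - 𝔖.mor l l' j ((𝔖.P l).π p.2))‖ -
          𝔖.mδ l l' j * ‖(𝔖.P l).π p.1 - (𝔖.P l).π p.2‖) ⁻¹' Ioi 0)}ᶜ := by
    ext M
    constructor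
    · rintro ⟨h1, h2⟩
      constructor
      · rintro ⟨x, hx, hxT, h3⟩
        exact absurd (h1 x hx hxT) (not_le.mpr h3)
      · rintro ⟨x, hx, x', hx', ⟨hxT, hxT'⟩, h3⟩
        rw [mem_preimage, mem_Ioi] at h3
        have h5 := h2 x hx x' hx' hxT hxT'
        linarith
    · rintro ⟨h1, h2⟩
      constructor
      · intro x hx hxT
        by_contra hcon
        exact h1 ⟨x, hx, hxT, not_le.mp hcon⟩
      · intro x hx x' hx' hxT hxT'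
        by_contra hcon
        apply h2
        refine ⟨x, hx, x', hx', ⟨hxT, hxT'⟩, ?_⟩
        have h3 := not_le.mp hcon
        rw [mem_preimage, mem_Ioi]
        linarith
  rw [hfinal]
  exact (measurableSet_hit hU1).compl.inter (measurableSet_hit₂ hU2).compl

theorem Sys.measurable_jj (k : ℕ) : Measurable fun M : ManifoldSpace n N => 𝔖.jj M.1 k := by
  classical
  have h : ∀ M : ManifoldSpace n N, ∃ j, 𝔖.mV (𝔖.idx M.1 k) (𝔖.idx M.1 (k + 1)) j ∧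
      𝔖.Test (𝔖.idx M.1 k) (𝔖.idx M.1 (k + 1)) j M.1 := fun M => 𝔖.exists_test M.isMfd k
  have h1 : (fun M : ManifoldSpace n N => 𝔖.jj M.1 k) = fun M => Nat.find (h M) := by
    funext M
    unfold Sys.jj
    rw [dif_pos (h M)]
  rw [h1]
  apply measurable_find
  intro j
  have h2 : {M : ManifoldSpace n N | 𝔖.mV (𝔖.idx M.1 k) (𝔖.idx M.1 (k + 1)) j ∧
      𝔖.Test (𝔖.idx M.1 k) (𝔖.idx M.1 (k + 1)) j M.1} =
      ⋃ (l : ℕ), ⋃ (l' : ℕ), ((fun M : ManifoldSpace n N => 𝔖.idx M.1 k) ⁻¹' {l} ∩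
        (fun M : ManifoldSpace n N => 𝔖.idx M.1 (k + 1)) ⁻¹' {l'}) ∩
        {M | 𝔖.mV l l' j ∧ 𝔖.Test l l' j M.1} := by
    ext M
    simp only [mem_ofPred_eq, mem_iUnion, mem_inter_iff, mem_preimage, mem_singleton_iff]
    constructor
    · intro h3
      exact ⟨_, _, ⟨rfl, rfl⟩, h3⟩
    · rintro ⟨l, l', ⟨rfl, rfl⟩, h3⟩
      exact h3
  rw [h2]
  refine MeasurableSet.iUnion fun l => MeasurableSet.iUnion fun l' => ?_
  refine ((𝔖.measurable_idx k (measurableSet_singleton l)).inter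
    (𝔖.measurable_idx (k + 1) (measurableSet_singleton l'))).inter ?_
  by_cases hj : 𝔖.mV l l' j
  · simp only [hj, true_and]
    exact 𝔖.measurableSet_test l l' j hj
  · simp only [hj, false_and, ofPred_false, MeasurableSet.empty]

end Meas2

end Pool.Agent.BorelManifold
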