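import Pool.Agent.Lib.BorelManifold.NodeTree

/-!
# Diffeomorphic manifolds have isomorphic trees
-/

namespace Pool.Agent.BorelManifold

open Set Topology Filter Metric
open scoped ContDiff

variable {E : Type*} [NormedAddCommGroup E] [InnerProductSpace ℝ E] [FiniteDimensional ℝ E]

/-- Composition of an embedding with a diffeomorphism. -/
theorem IsEmb.diffeo_comp {n : ℕ} {A M M₀ : Set E} (hA : IsClosed A) (hM₀ : IsMfd n M₀) {r : ℝ}
    {y : E → E} (hy : IsEmb A r M univ y) {F G : E → E} (h : PartDiffeo M univ M₀ univ F G) :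
    IsEmb A r M₀ univ (F ∘ y) := by
  obtain ⟨s, hs, h1, h2, c, hc, h3⟩ := hy
  obtain ⟨t, hrt, hts⟩ := exists_between hs
  have hsub : A ∩ ball (0 : E) t ⊆ A ∩ ball 0 s :=
    inter_subset_inter_right _ (ball_subset_ball hts.le)
  have hsub' : A ∩ closedBall (0 : E) t ⊆ A ∩ ball 0 s :=
    inter_subset_inter_right _ (closedBall_subset_ball hts)
  have hKc : IsCompact (A ∩ closedBall (0 : E) t) := (isCompact_closedBall _ _).inter_left hA
  have hKc' : IsCompact ((F ∘ y) '' (A ∩ closedBall (0 : E) t)) := by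
    apply hKc.image_of_continuousOn
    exact (h.smooth.continuousOn.comp h1.continuousOn h2).mono hsub'
  obtain ⟨L, hL, hLip⟩ := lipschitz_on_compact hM₀ isOpen_univ
    (f := G) h.smooth_inv hKc' (by
      rintro _ ⟨x, hx, rfl⟩
      exact h.maps (h2 (hsub' hx)))
  refine ⟨t, hrt, (h.smooth.comp h1 h2).mono hsub, ?_, c / (L + 1), by positivity, ?_⟩
  · intro x hx
    exact h.maps (h2 (hsub hx))
  · intro x hx x' hx'
    have hx1 : x ∈ A ∩ closedBall (0 : E) t := ⟨hx.1, ball_subset_closedBall hx.2⟩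
    have hx1' : x' ∈ A ∩ closedBall (0 : E) t := ⟨hx'.1, ball_subset_closedBall hx'.2⟩
    have h4 := hLip _ (mem_image_of_mem _ hx1) _ (mem_image_of_mem _ hx1')
    simp only [Function.comp_apply] at h4 ⊢
    rw [h.left_inv _ (h2 (hsub hx)), h.left_inv _ (h2 (hsub hx'))] at h4
    have h5 := h3 x (hsub hx) x' (hsub hx')
    rw [div_mul_eq_mul_div, div_le_iff₀ (by positivity)]
    have h6 := norm_nonneg (F (y x) - F (y x'))
    nlinarith

omit [FiniteDimensional ℝ E] in
/-- Transport of equivalences by a diffeomorphism. -/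
theorem Eqv.diffeo_comp {A M M₀ : Set E} (hM : IsClosed M) {r : ℝ} {y y' : E → E}
    (hy : IsEmb A r M univ y) (he : Eqv A r M univ y y')
    {F G : E → E} (h : PartDiffeo M univ M₀ univ F G) :
    Eqv A r M₀ univ (F ∘ y) (F ∘ y') := by
  obtain ⟨k, t, ht, htt⟩ := he
  obtain ⟨s, hs, hst, -, h2, -⟩ := hy.shrink ht
  obtain ⟨C, hC, hCW, hCs⟩ := k.supp
  obtain ⟨H, hH⟩ := h.transport isOpen_univ hM k (W := univ)
    ⟨C, hC, hCs, hCW, fun x _ => mem_univ _⟩
  refine ⟨H, s, hs, fun x hx => ?_⟩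
  have h3 := htt x ⟨hx.1, ball_subset_ball hst hx.2⟩
  show H.toFun (F (y x)) = F (y' x)
  rw [hH (y x) (h2 hx)]
  show F (k.toFun (y x)) = F (y' x)
  exact congrArg F h3

omit [FiniteDimensional ℝ E] in
/-- `F ∘ (G ∘ v)` and `v` have the same germ. -/
theorem PartDiffeo.germ_right {A M M₀ : Set E} {r : ℝ} {v : E → E}
    (hv : IsEmb A r M₀ univ v) {F G : E → E} (h : PartDiffeo M univ M₀ univ F G) :
    GermEq A r (F ∘ (G ∘ v)) v := by
  obtain ⟨s, hs, -, h2, -⟩ := hv
  exact ⟨s, hs, fun x hx => h.right_inv _ (h2 hx)⟩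

namespace Sys

variable {n : ℕ} (𝔖 : Sys n E)

/-- A presentation of the embeddings into `M₀` by the codes `l, j`. -/
structure Pres (M₀ : Set E) (l j : ℕ → ℕ) where
  /-- the embedding coded by `(a, k, g)` -/
  sem : ℕ → ℕ → ℕ → E → E
  emb : ∀ a k g, 𝔖.mV a (l k) g → IsEmb (𝔖.A a) (𝔖.r a) M₀ univ (sem a k g)
  step : ∀ a k g a' k' g' c, 𝔖.mV a (l k) g → 𝔖.mV a' (l k') g' → 𝔖.mV a a' c →
    (𝔖.EqC l j a k (𝔖.mor a (l k) g) k' (𝔖.mor a' (l k') g' ∘ 𝔖.mor a a' c) ↔
      Eqv (𝔖.A a) (𝔖.r a) M₀ univ (sem a k g) (sem a' k' g' ∘ 𝔖.mor a a' c))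
  code : ∀ a v, IsEmb (𝔖.A a) (𝔖.r a) M₀ univ v →
    ∃ k g, 𝔖.mV a (l k) g ∧ Eqv (𝔖.A a) (𝔖.r a) M₀ univ (sem a k g) v

/-- A diffeomorphism `M ≅ M₀` presents the embeddings into `M₀` by the codes of `M`. -/
noncomputable def presOf {M M₀ : Set E} (hM : IsMfd n M) (hM₀ : IsMfd n M₀) {F G : E → E}
    (h : PartDiffeo M univ M₀ univ F G) : 𝔖.Pres M₀ (𝔖.idx M) (𝔖.jj M) where
  sem a k g := F ∘ (𝔖.y M k ∘ 𝔖.mor a (𝔖.idx M k) g)
  emb a k g hg := ((𝔖.y_emb hM k).comp (𝔖.mor_emb hg)).diffeo_comp (𝔖.hA a).closed hM₀ h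
  step a k g a' k' g' c hg hg' hc := by
    have h1 := (𝔖.y_emb hM k).comp (𝔖.mor_emb hg)
    have h2 := (𝔖.y_emb hM k').comp ((𝔖.mor_emb hg').comp (𝔖.mor_emb hc))
    rw [𝔖.eqC_iff hM (𝔖.mor_emb hg) ((𝔖.mor_emb hg').comp (𝔖.mor_emb hc))]
    constructor
    · intro h3
      exact h3.diffeo_comp hM.closed h1 h
    · intro h3
      have h4 := h3.diffeo_comp hM₀.closed (h1.diffeo_comp (𝔖.hA a).closed hM₀ h) h.symm
      have h5 : GermEq (𝔖.A a) (𝔖.r a) (G ∘ (F ∘ (𝔖.y M k ∘ 𝔖.mor a (𝔖.idx M k) g)))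
          (𝔖.y M k ∘ 𝔖.mor a (𝔖.idx M k) g) := h.symm.germ_right h1
      have h6 : GermEq (𝔖.A a) (𝔖.r a)
          (G ∘ (F ∘ (𝔖.y M k' ∘ (𝔖.mor a' (𝔖.idx M k') g' ∘ 𝔖.mor a a' c))))
          (𝔖.y M k' ∘ (𝔖.mor a' (𝔖.idx M k') g' ∘ 𝔖.mor a a' c)) := h.symm.germ_right h2
      exact ((Eqv.of_germEq h5.symm).trans h4).trans (Eqv.of_germEq h6)
  code a v hv := by
    have h1 : IsEmb (𝔖.A a) (𝔖.r a) M univ (G ∘ v) := hv.diffeo_comp (𝔖.hA a).closed hM h.symm
    obtain ⟨k, hk⟩ := 𝔖.exists_code hM h1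
    obtain ⟨g, hg, -, -, -, h2⟩ := hk k le_rfl
    refine ⟨k, g, hg, ?_⟩
    have h3 := h2.diffeo_comp hM.closed ((𝔖.y_emb hM k).comp (𝔖.mor_emb hg)) h
    exact h3.trans (Eqv.of_germEq (h.germ_right hv))

end Sys

/-- Two functions on `ℕ` with the same nonempty fibres, all infinite, differ by a permutation. -/
theorem exists_equiv_of_fibers {T : Type*} (f g : ℕ → T)
    (hf : ∀ x, {x' | f x' = f x}.Infinite) (hg : ∀ x, {x' | g x' = g x}.Infinite)
    (h1 : ∀ x, ∃ x', g x' = f x) (h2 : ∀ x, ∃ x', f x' = g x) :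
    ∃ σ : ℕ ≃ ℕ, ∀ x, g (σ x) = f x := by
  classical
  have key : ∀ t : T, Nonempty ({x // f x = t} ≃ {x // g x = t}) := by
    intro t
    by_cases ht : ∃ x, f x = t
    · obtain ⟨x, rfl⟩ := ht
      obtain ⟨x', hx'⟩ := h1 x
      have hi1 : Infinite {x' // f x' = f x} := (hf x).to_subtype
      have hi2 : Infinite {x' // g x' = f x} := by
        have := (hg x').to_subtype
        rwa [hx'] at this
      obtain ⟨e1⟩ := nonempty_denumerable {x' // f x' = f x}
      obtain ⟨e2⟩ := nonempty_denumerable {x' // g x' = f x}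
      exact ⟨Denumerable.equiv₂ _ _⟩
    · have he1 : IsEmpty {x // f x = t} := ⟨fun x => ht ⟨x.1, x.2⟩⟩
      have he2 : IsEmpty {x // g x = t} := by
        refine ⟨fun x => ht ?_⟩
        obtain ⟨x', hx'⟩ := h2 x.1
        exact ⟨x', hx'.trans x.2⟩
      exact ⟨Equiv.equivOfIsEmpty _ _⟩
  exact ⟨Equiv.ofFiberEquiv fun t => (key t).some, fun x => Equiv.ofFiberEquiv_map _ x⟩

namespace Sys

variable {n : ℕ} (𝔖 : Sys n E)

section Match

variable {𝔖} {M₀ : Set E} {l j l' j' : ℕ → ℕ} (P : 𝔖.Pres M₀ l j) (P' : 𝔖.Pres M₀ l' j')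

/-- Two last entries represent the same embedding. -/
def Pres.Match : Option Entry → Option Entry → Prop
  | none, none => True
  | some e, some e' => e.a = e'.a ∧ 𝔖.mV e.a (l e.k) e.g ∧ 𝔖.mV e'.a (l' e'.k) e'.g ∧
      Eqv (𝔖.A e.a) (𝔖.r e.a) M₀ univ (P.sem e.a e.k e.g) (P'.sem e'.a e'.k e'.g)
  | _, _ => False

theorem Pres.match_symm {p p' : Option Entry} (h : P.Match P' p p') : P'.Match P p' p := by
  cases p with
  | none =>
    cases p' with
    | none => trivial
    | some e' => exact h.elim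
  | some e =>
    cases p' with
    | none => exact h.elim
    | some e' =>
      obtain ⟨b, a, c, k, g⟩ := e
      obtain ⟨b', a', c', k', g'⟩ := e'
      obtain ⟨h1, h2, h3, h4⟩ := h
      simp only at h1
      subst h1
      exact ⟨rfl, h3, h2, h4.symm (P.emb _ _ _ h2)⟩

open Classical in
/-- The type of a child. -/
noncomputable def Pres.ty (p : Option Entry) (x : ℕ) : Option (ℕ × ℕ × Set (E → E)) :=
  if 𝔖.StepOK l j p (core x) then
    some ((core x).a, (core x).c, {v | Eqv (𝔖.A (core x).a) (𝔖.r (core x).a) M₀ univ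
      (P.sem (core x).a (core x).k (core x).g) v})
  else none

theorem Pres.ty_congr {p : Option Entry} {x x' : ℕ} (h : core x = core x') :
    P.ty p x = P.ty p x' := by
  unfold Pres.ty
  rw [h]

theorem Pres.infinite_ty (p : Option Entry) (x : ℕ) : {x' | P.ty p x' = P.ty p x}.Infinite :=
  (infinite_core (core x)).mono fun _ hx' => P.ty_congr hx'

theorem Pres.step_transfer {p p' : Option Entry} (h : P.Match P' p p') {e : Entry}
    (he : 𝔖.StepOK l j p e) {k g : ℕ} (hg : 𝔖.mV e.a (l' k) g)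
    (hE : Eqv (𝔖.A e.a) (𝔖.r e.a) M₀ univ (P'.sem e.a k g) (P.sem e.a e.k e.g)) :
    𝔖.StepOK l' j' p' ⟨0, e.a, e.c, k, g⟩ := by
  have hmV := (StepOK.mV 𝔖 he).2
  cases p with
  | none =>
    cases p' with
    | none => exact ⟨rfl, hg⟩
    | some e' => exact h.elim
  | some q =>
    cases p' with
    | none => exact h.elim
    | some q' =>
      obtain ⟨b, a, c, k₁, g₁⟩ := q
      obtain ⟨b', a', c', k', g'⟩ := q'
      obtain ⟨h1, h2, h3, h4⟩ := h
      simp only at h1
      subst h1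
      obtain ⟨-, h5, h6⟩ := he
      refine ⟨⟨rfl, hg⟩, h5, ?_⟩
      refine (P'.step _ _ _ _ _ _ _ h3 hg h5).mpr ?_
      have h7 := (P.step _ _ _ _ _ _ _ h2 hmV h5).mp h6
      have h8 := hE.comp_right (𝔖.mor_emb h5)
      have h9 := h4.symm (P.emb _ _ _ h2)
      exact (h9.trans h7).trans (h8.symm ((P'.emb _ _ _ hg).comp (𝔖.mor_emb h5)))

theorem Pres.exists_ty {p p' : Option Entry} (h : P.Match P' p p') (x : ℕ) :
    ∃ x', P'.ty p' x' = P.ty p x := by
  classical
  by_cases hx : 𝔖.StepOK l j p (core x)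
  · have hmV := (StepOK.mV 𝔖 hx).2
    have hemb := P.emb _ _ _ hmV
    obtain ⟨k, g, hg, hE⟩ := P'.code _ _ hemb
    have hemb' := P'.emb _ _ _ hg
    obtain ⟨x', hx'⟩ := (infinite_core ⟨0, (core x).a, (core x).c, k, g⟩).nonempty
    have hx' : core x' = ⟨0, (core x).a, (core x).c, k, g⟩ := hx'
    refine ⟨x', ?_⟩
    have hstep : 𝔖.StepOK l' j' p' (core x') := by
      rw [hx']
      exact P.step_transfer P' h hx hg hE
    unfold Pres.ty
    rw [if_pos hstep, if_pos hx, hx']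
    congr 3
    ext v
    exact ⟨fun h => (hE.symm hemb').trans h, fun h => hE.trans h⟩
  · obtain ⟨x', hx'⟩ := (infinite_core ⟨1, 0, 0, 0, 0⟩).nonempty
    have hx' : core x' = ⟨1, 0, 0, 0, 0⟩ := hx'
    refine ⟨x', ?_⟩
    have hstep : ¬ 𝔖.StepOK l' j' p' (core x') := by
      intro h
      have h1 := (StepOK.mV 𝔖 h).1
      rw [hx'] at h1
      exact absurd h1 (by norm_num)
    unfold Pres.ty
    rw [if_neg hstep, if_neg hx]

theorem Pres.exists_perm {p p' : Option Entry} (h : P.Match P' p p') :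
    ∃ σ : ℕ ≃ ℕ, ∀ x, P'.ty p' (σ x) = P.ty p x :=
  exists_equiv_of_fibers _ _ (P.infinite_ty p) (P'.infinite_ty p') (P.exists_ty P' h)
    (P'.exists_ty P (P.match_symm P' h))

theorem Pres.match_of_ty {p p' : Option Entry} {x x' : ℕ} (h : P'.ty p' x' = P.ty p x) :
    (𝔖.StepOK l j p (core x) ↔ 𝔖.StepOK l' j' p' (core x')) ∧
    (𝔖.StepOK l j p (core x) → P.Match P' (some (core x)) (some (core x')) ∧
      (core x).a = (core x').a ∧ (core x).c = (core x').c) := by
  classical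
  by_cases hx : 𝔖.StepOK l j p (core x)
  · by_cases hx' : 𝔖.StepOK l' j' p' (core x')
    · refine ⟨⟨fun _ => hx', fun _ => hx⟩, fun _ => ?_⟩
      unfold Pres.ty at h
      rw [if_pos hx, if_pos hx', Option.some.injEq, Prod.mk.injEq, Prod.mk.injEq] at h
      obtain ⟨h1, h2, h3⟩ := h
      refine ⟨⟨h1.symm, (StepOK.mV 𝔖 hx).2, (StepOK.mV 𝔖 hx').2, ?_⟩, h1.symm, h2.symm⟩
      have h4 : P'.sem (core x').a (core x').k (core x').g ∈
          {v | Eqv (𝔖.A (core x').a) (𝔖.r (core x').a) M₀ univ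
            (P'.sem (core x').a (core x').k (core x').g) v} := Eqv.refl _ _ _ _ _
      rw [h3] at h4
      exact h4
    · unfold Pres.ty at h
      rw [if_pos hx, if_neg hx'] at h
      exact absurd h (by simp)
  · by_cases hx' : 𝔖.StepOK l' j' p' (core x')
    · unfold Pres.ty at h
      rw [if_neg hx, if_pos hx'] at h
      exact absurd h (by simp)
    · exact ⟨⟨fun h => absurd h hx, fun h => absurd h hx'⟩, fun h => absurd h hx⟩

open Classical in
/-- The chosen permutation of the children. -/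
noncomputable def Pres.perm (s t : List ℕ) : ℕ ≃ ℕ :=
  if h : P.Match P' (s.map core).head? (t.map core).head? then
    Classical.choose (P.exists_perm P' h) else Equiv.refl ℕ

/-- The isomorphism of trees. -/
noncomputable def Pres.phi : List ℕ → List ℕ
  | [] => []
  | x :: s => P.perm P' s (Pres.phi s) x :: Pres.phi s

/-- The inverse isomorphism of trees. -/
noncomputable def Pres.psi : List ℕ → List ℕ
  | [] => []
  | y :: t => (P.perm P' (Pres.psi t) t).symm y :: Pres.psi t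

theorem Pres.psi_phi (s : List ℕ) : P.psi P' (P.phi P' s) = s := by
  induction s with
  | nil => rfl
  | cons x s ih =>
    show (P.perm P' (P.psi P' (P.phi P' s)) (P.phi P' s)).symm (P.perm P' s (P.phi P' s) x) ::
      P.psi P' (P.phi P' s) = x :: s
    rw [ih, Equiv.symm_apply_apply]

theorem Pres.phi_psi (t : List ℕ) : P.phi P' (P.psi P' t) = t := by
  induction t with
  | nil => rfl
  | cons y t ih =>
    show P.perm P' (P.psi P' t) (P.phi P' (P.psi P' t)) ((P.perm P' (P.psi P' t) t).symm y) ::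
      P.phi P' (P.psi P' t) = y :: t
    rw [ih, Equiv.apply_symm_apply]

theorem Pres.phi_spec (s : List ℕ) :
    (𝔖.Alive l j (s.map core) ↔ 𝔖.Alive l' j' ((P.phi P' s).map core)) ∧
    (𝔖.Alive l j (s.map core) →
      P.Match P' (s.map core).head? ((P.phi P' s).map core).head?) ∧
    (𝔖.Alive l j (s.map core) → lab (s.map core) = lab ((P.phi P' s).map core)) ∧
    (P.phi P' s).length = s.length := by
  induction s with
  | nil => exact ⟨Iff.rfl, fun _ => trivial, fun _ => rfl, rfl⟩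
  | cons x s ih =>
    obtain ⟨h1, h2, h3, h4⟩ := ih
    have hphi : P.phi P' (x :: s) = P.perm P' s (P.phi P' s) x :: P.phi P' s := rfl
    rw [hphi]
    simp only [List.map_cons, List.head?_cons, List.length_cons]
    by_cases hal : 𝔖.Alive l j (s.map core)
    · have hmatch := h2 hal
      have hperm : P.perm P' s (P.phi P' s) = Classical.choose (P.exists_perm P' hmatch) := by
        unfold Pres.perm
        rw [dif_pos hmatch]
      have hty := Classical.choose_spec (P.exists_perm P' hmatch) x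
      rw [← hperm] at hty
      obtain ⟨h5, h6⟩ := P.match_of_ty P' hty
      refine ⟨?_, ?_, ?_, by rw [h4]⟩
      · rw [alive_cons_iff, alive_cons_iff, h1, h5]
      · intro h
        exact (h6 h.2).1
      · intro h
        obtain ⟨-, h7, h8⟩ := h6 h.2
        simp only [lab, List.length_map]
        rw [h7, h8, h4]
    · refine ⟨?_, fun h => absurd h.1 hal, fun h => absurd h.1 hal, by rw [h4]⟩
      constructor
      · intro h
        exact absurd h.1 hal
      · intro h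
        exact absurd (h1.mpr h.1) hal

/-- Trees presented by the same manifold are isomorphic. -/
theorem Pres.iso (P : 𝔖.Pres M₀ l j) (P' : 𝔖.Pres M₀ l' j') : (𝔖.lamD l j).Iso (𝔖.lamD l' j') := by
  refine ⟨⟨P.phi P', P.psi P', P.psi_phi P', P.phi_psi P'⟩, rfl, fun s x => ⟨_, rfl⟩, fun s => ?_⟩
  obtain ⟨h1, -, h3, -⟩ := P.phi_spec P' s
  show 𝔖.lamD l' j' (P.phi P' s) = 𝔖.lamD l j s
  unfold lamD
  by_cases hal : 𝔖.Alive l j (s.map core)
  · rw [if_pos hal, if_pos (h1.mp hal), h3 hal]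
  · rw [if_neg hal, if_neg (fun h => hal (h1.mpr h))]

end Match

/-- Diffeomorphic manifolds have isomorphic trees. -/
theorem iso_of_diffeo {M M' : Set E} (hM : IsMfd n M) (hM' : IsMfd n M') {F G : E → E}
    (h : PartDiffeo M univ M' univ F G) :
    (𝔖.lamD (𝔖.idx M) (𝔖.jj M)).Iso (𝔖.lamD (𝔖.idx M') (𝔖.jj M')) := by
  have hid : PartDiffeo M' univ M' univ id id :=
    ⟨contDiffOn_id, contDiffOn_id, mapsTo_id _, mapsTo_id _, fun _ _ => rfl, fun _ _ => rfl⟩
  exact (𝔖.presOf hM hM' h).iso (𝔖.presOf hM' hM' hid)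

end Sys

end Pool.Agent.BorelManifold
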