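import Mathlib
import Pool.Agent.Lib.BorelManifold.NTMap

/-!
# Job J1: `NT k T` as a closed submanifold of `ℝ^N`
-/

namespace Pool.Agent.BorelManifold

open Set Topology
open scoped ContDiff

variable {k N : ℕ}

/-- projection to the first `k+2` coordinates -/
noncomputable def pr (hN : k + 3 ≤ N) : Eu N →L[ℝ] Eu (k + 2) :=
  LinearMap.toContinuousLinearMap
    { toFun := fun y => WithLp.toLp 2 fun i : Fin (k + 2) => y (Fin.castLE (by omega) i)
      map_add' := fun x y => by ext i; simp
      map_smul' := fun c x => by ext i; simp }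

lemma pr_apply (hN : k + 3 ≤ N) (y : Eu N) (i : Fin (k + 2)) :
    pr hN y i = y (Fin.castLE (by omega) i) := rfl

/-- inclusion of the first `k+2` coordinates -/
noncomputable def inc (k N : ℕ) : Eu (k + 2) →L[ℝ] Eu N :=
  LinearMap.toContinuousLinearMap
    { toFun := fun x => WithLp.toLp 2 fun i : Fin N => if h : i.1 < k + 2 then x ⟨i.1, h⟩ else 0
      map_add' := fun x y => by ext i; simp only [PiLp.add_apply]; split_ifs <;> simp
      map_smul' := fun c x => by
        ext i; simp only [PiLp.smul_apply, RingHom.id_apply, smul_eq_mul]; split_ifs <;> simp }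

lemma inc_apply (x : Eu (k + 2)) (i : Fin N) :
    inc k N x i = if h : i.1 < k + 2 then x ⟨i.1, h⟩ else 0 := rfl

/-- the index of the extra coordinate -/
def rI (hN : k + 3 ≤ N) : Fin N := ⟨k + 2, by omega⟩

/-- the extra unit vector -/
noncomputable def ev (hN : k + 3 ≤ N) : Eu N := EuclideanSpace.single (rI hN) 1

lemma pr_inc (hN : k + 3 ≤ N) (x : Eu (k + 2)) : pr hN (inc k N x) = x := by
  ext i
  rw [pr_apply, inc_apply]
  simp

lemma pr_ev (hN : k + 3 ≤ N) : pr hN (ev hN) = 0 := by
  ext i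
  rw [pr_apply]
  simp only [ev, PiLp.single_apply, PiLp.zero_apply]
  rw [if_neg]
  intro h
  have := congrArg Fin.val h
  simp [rI] at this
  omega

lemma inc_rI (hN : k + 3 ≤ N) (x : Eu (k + 2)) : inc k N x (rI hN) = 0 := by
  rw [inc_apply, dif_neg]
  simp [rI]

lemma ev_rI (hN : k + 3 ≤ N) : ev hN (rI hN) = 1 := by
  simp [ev]

/-- the graph map -/
noncomputable def gr (hN : k + 3 ≤ N) (T : Set (List ℕ)) (x : Eu (k + 2)) : Eu N :=
  inc k N x + rho T x • ev hN

lemma pr_gr (hN : k + 3 ≤ N) (T : Set (List ℕ)) (x : Eu (k + 2)) : pr hN (gr hN T x) = x := by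
  unfold gr
  rw [map_add, map_smul, pr_inc, pr_ev, smul_zero, add_zero]

lemma gr_rI (hN : k + 3 ≤ N) (T : Set (List ℕ)) (x : Eu (k + 2)) :
    gr hN T x (rI hN) = rho T x := by
  unfold gr
  rw [PiLp.add_apply, PiLp.smul_apply, inc_rI, ev_rI]
  simp

/-- the manifold -/
def MT (hN : k + 3 ≤ N) (T : Set (List ℕ)) : Set (Eu N) :=
  {y | pr hN y ∈ NT k T ∧ y = gr hN T (pr hN y)}

lemma gr_mem (hN : k + 3 ≤ N) {T : Set (List ℕ)} {x : Eu (k + 2)} (hx : x ∈ NT k T) :
    gr hN T x ∈ MT hN T := by
  refine ⟨?_, ?_⟩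
  · rw [pr_gr]; exact hx
  · rw [pr_gr]

lemma contDiffAt_gr (hN : k + 3 ≤ N) {T : Set (List ℕ)} (hT : IsTree T) {x : Eu (k + 2)}
    (hx : x ∈ NT k T) : ContDiffAt ℝ ∞ (gr hN T) x := by
  unfold gr
  exact (inc k N).contDiff.contDiffAt.add ((contDiffAt_rho hT hx).smul contDiffAt_const)

lemma isClosed_MT (hN : k + 3 ≤ N) {T : Set (List ℕ)} (hT : IsTree T) : IsClosed (MT hN T) := by
  rw [← isOpen_compl_iff, isOpen_iff_mem_nhds]
  intro y hy
  by_cases hx : pr hN y ∈ NT k T
  · have hne : y ≠ gr hN T (pr hN y) := fun h => hy ⟨hx, h⟩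
    have h1 : ContinuousAt (fun z => gr hN T (pr hN z)) y :=
      ContinuousAt.comp (f := fun z => pr hN z) (g := gr hN T)
        (contDiffAt_gr hN hT hx).continuousAt (pr hN).continuous.continuousAt
    have h2 : ∀ᶠ z in 𝓝 y, z ≠ gr hN T (pr hN z) := by
      have := (continuousAt_id.sub h1).eventually_ne (y := 0) (sub_ne_zero.2 hne)
      filter_upwards [this] with z hz h
      exact hz (sub_eq_zero.2 h)
    filter_upwards [h2] with z hz hzM
    exact hz hzM.2
  · obtain ⟨W, hW1, hW2, hW3⟩ := rho_proper hT hx (|y (rI hN)| + 1)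
    have h1 : ∀ᶠ z in 𝓝 y, pr hN z ∈ W := (pr hN).continuous.continuousAt.eventually_mem
      (hW1.mem_nhds hW2)
    have h2 : ∀ᶠ z in 𝓝 y, z (rI hN) < |y (rI hN)| + 1 := by
      have hc : Continuous fun z : Eu N => z (rI hN) := by fun_prop
      exact hc.continuousAt.eventually_lt continuousAt_const (by
        have := le_abs_self (y (rI hN)); linarith)
    filter_upwards [h1, h2] with z hz1 hz2 hzM
    have h3 := hW3 _ hz1 hzM.1
    have h4 : z (rI hN) = rho T (pr hN z) := by
      conv_lhs => rw [hzM.2]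
      rw [gr_rI]
    linarith

lemma isSubmanifold_MT (hN : k + 3 ≤ N) {T : Set (List ℕ)} (hT : IsTree T) :
    IsSubmanifold (k + 2) (MT hN T) := by
  have hprsub : ∀ (y : Eu N) (c : ℝ), pr hN (y - c • ev hN) = pr hN y := by
    intro y c; rw [map_sub, map_smul, pr_ev, smul_zero, sub_zero]
  have hpradd : ∀ (y : Eu N) (c : ℝ), pr hN (y + c • ev hN) = pr hN y := by
    intro y c; rw [map_add, map_smul, pr_ev, smul_zero, add_zero]
  have hopen : IsOpen {y : Eu N | pr hN y ∈ NT k T} := (isOpen_NT T).preimage (pr hN).continuous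
  have hsm : ContDiffOn ℝ ∞ (fun y : Eu N => rho T (pr hN y) • ev hN) {y | pr hN y ∈ NT k T} := by
    intro y hy
    have h1 : ContDiffAt ℝ ∞ (fun y : Eu N => rho T (pr hN y)) y :=
      (contDiffAt_rho hT hy).comp y (pr hN).contDiff.contDiffAt
    exact (h1.smul contDiffAt_const).contDiffWithinAt
  intro y hy
  let e : OpenPartialHomeomorph (Eu N) (Eu N) :=
    { toFun := fun y => y - rho T (pr hN y) • ev hN
      invFun := fun y => y + rho T (pr hN y) • ev hN
      source := {y | pr hN y ∈ NT k T}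
      target := {y | pr hN y ∈ NT k T}
      map_source' := fun y hy => by
        change pr hN (y - rho T (pr hN y) • ev hN) ∈ NT k T
        rw [hprsub]; exact hy
      map_target' := fun y hy => by
        change pr hN (y + rho T (pr hN y) • ev hN) ∈ NT k T
        rw [hpradd]; exact hy
      left_inv' := fun y _ => by
        rw [hprsub]; abel
      right_inv' := fun y _ => by
        rw [hpradd]; abel
      open_source := hopen
      open_target := hopen
      continuousOn_toFun := continuousOn_id.sub hsm.continuousOn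
      continuousOn_invFun := continuousOn_id.add hsm.continuousOn }
  refine ⟨e, LinearMap.range (inc k N).toLinearMap, hy.1, ?_, ?_, ?_, ?_⟩
  · exact contDiffOn_id.sub hsm
  · exact contDiffOn_id.add hsm
  · rw [LinearMap.finrank_range_of_inj]
    · simp
    · intro x x' h
      have := congrArg (pr hN) h
      simpa [pr_inc] using this
  · intro z _
    change z ∈ MT hN T ↔ z - rho T (pr hN z) • ev hN ∈ LinearMap.range (inc k N).toLinearMap
    constructor
    · intro h
      refine ⟨pr hN z, ?_⟩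
      have h2 := h.2
      unfold gr at h2
      change inc k N (pr hN z) = _
      rw [eq_sub_iff_add_eq, ← h2]
    · rintro ⟨x, hx⟩
      have hx' : inc k N x = z - rho T (pr hN z) • ev hN := hx
      have h1 := congrArg (pr hN) hx'
      rw [pr_inc, hprsub] at h1
      refine ⟨by assumption, ?_⟩
      unfold gr
      rw [← h1, hx', h1]
      abel

lemma MT_eq_image (hN : k + 3 ≤ N) (T : Set (List ℕ)) : MT hN T = gr hN T '' NT k T := by
  ext y
  constructor
  · intro h
    exact ⟨pr hN y, h.1, h.2.symm⟩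
  · rintro ⟨x, hx, rfl⟩
    exact gr_mem hN hx

lemma continuousOn_gr (hN : k + 3 ≤ N) {T : Set (List ℕ)} (hT : IsTree T) :
    ContinuousOn (gr hN T) (NT k T) := fun _ hx =>
  (contDiffAt_gr hN hT hx).continuousAt.continuousWithinAt

lemma isConnected_MT (hN : k + 3 ≤ N) {T : Set (List ℕ)} (hT : IsTree T) :
    IsConnected (MT hN T) := by
  rw [MT_eq_image]
  exact (isConnected_NT hT).image _ (continuousOn_gr hN hT)

lemma isTree_root : IsTree {([] : List ℕ)} := by
  refine ⟨rfl, fun j s h => ?_⟩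
  simp at h

open Classical in
/-- the tree itself, or the root if it is not a tree -/
noncomputable def fixT (T : Set (List ℕ)) : Set (List ℕ) := if IsTree T then T else {[]}

lemma isTree_fixT (T : Set (List ℕ)) : IsTree (fixT T) := by
  unfold fixT
  split_ifs with h
  · exact h
  · exact isTree_root

/-- the coded manifold -/
noncomputable def NN (hN : k + 3 ≤ N) (T : Set (List ℕ)) : ManifoldSpace (k + 2) N :=
  ⟨MT hN (fixT T), isClosed_MT hN (isTree_fixT T), isConnected_MT hN (isTree_fixT T),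
    isSubmanifold_MT hN (isTree_fixT T)⟩

lemma NN_val (hN : k + 3 ≤ N) {T : Set (List ℕ)} (hT : IsTree T) : (NN hN T).1 = MT hN T := by
  have h : fixT T = T := by unfold fixT; rw [if_pos hT]
  change MT hN (fixT T) = MT hN T
  rw [h]

lemma fn_iff {T : Set (List ℕ)} (hT : IsTree T) {x : Eu (k + 2)} (hx : x ∈ NT k T) (s : List ℕ) :
    fn T x = s ↔ Fin' T s x := by
  constructor
  · rintro rfl; exact fn_spec hx
  · intro h; exact fn_eq hT h

theorem statementJ1 (k N : ℕ) (hN : k + 3 ≤ N) : StatementJ1 k N := by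
  refine ⟨NN hN, ?_, ?_, ?_⟩
  · -- measurability
    intro Ω _ L hL hmeas
    apply measurable_generateFrom
    rintro _ ⟨O, hO, rfl⟩
    -- a countable dense set off the hyperplane
    obtain ⟨Q₀, hQ₀c, hQ₀d⟩ := TopologicalSpace.exists_countable_dense (Eu (k + 2))
    have hkey : (fun w => NN hN (L w)) ⁻¹' {M : ManifoldSpace (k + 2) N | (M.1 ∩ O).Nonempty} =
        ⋃ x ∈ Q₀ ∩ {x : Eu (k + 2) | x 1 ≠ 0}, ⋃ s : List ℕ,
          {w | (inc k N x + Rsum s x • ev hN ∈ O) ∧ Fin' (L w) s x} := by
      ext w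
      simp only [mem_preimage, mem_ofPred_eq, mem_iUnion]
      rw [NN_val hN (hL w)]
      constructor
      · rintro ⟨y, hy1, hy2⟩
        -- open set of x
        have h1 : IsOpen (NT k (L w) ∩ (gr hN (L w)) ⁻¹' O) :=
          (continuousOn_gr hN (hL w)).isOpen_inter_preimage (isOpen_NT _) hO
        have h2 : IsOpen {x : Eu (k + 2) | x 1 ≠ 0} := by
          have hc : Continuous fun x : Eu (k + 2) => x 1 := by fun_prop
          exact isOpen_ne.preimage hc
        have h3 : Dense {x : Eu (k + 2) | x 1 ≠ 0} := by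
          rw [Metric.dense_iff]
          intro x ε hε
          by_cases h : x 1 = 0
          · refine ⟨x + EuclideanSpace.single 1 (ε / 2), ?_, ?_⟩
            · rw [Metric.mem_ball, dist_eq_norm, add_sub_cancel_left, PiLp.norm_single,
                Real.norm_eq_abs, abs_of_pos (by linarith)]
              linarith
            · change (x + EuclideanSpace.single 1 (ε / 2) : Eu (k + 2)) 1 ≠ 0
              rw [PiLp.add_apply, PiLp.single_apply, if_pos rfl, h, zero_add]
              linarith
          · exact ⟨x, Metric.mem_ball_self hε, h⟩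
        have h4 : (NT k (L w) ∩ (gr hN (L w)) ⁻¹' O).Nonempty := by
          refine ⟨pr hN y, hy1.1, ?_⟩
          change gr hN (L w) (pr hN y) ∈ O
          rw [← hy1.2]; exact hy2
        have h5 := h3.inter_open_nonempty _ h1 h4
        obtain ⟨x, hx, hxQ⟩ := hQ₀d.inter_open_nonempty _ (h1.inter h2) h5
        refine ⟨x, ⟨hxQ, hx.2⟩, fn (L w) x, ?_, fn_spec hx.1.1⟩
        exact hx.1.2
      · rintro ⟨x, hx, s, hs1, hs2⟩
        have hxN : x ∈ NT k (L w) := mem_NT_iff.2 ⟨s, hs2⟩
        refine ⟨gr hN (L w) x, gr_mem hN hxN, ?_⟩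
        unfold gr rho
        rw [fn_eq (hL w) hs2]
        exact hs1
    rw [hkey]
    refine MeasurableSet.biUnion (hQ₀c.mono inter_subset_left) fun x _ => ?_
    refine MeasurableSet.iUnion fun s => ?_
    by_cases h : inc k N x + Rsum s x • ev hN ∈ O
    swap
    · have : {w | (inc k N x + Rsum s x • ev hN ∈ O) ∧ Fin' (L w) s x} = ∅ := by
        ext w; simp [h]
      rw [this]; exact MeasurableSet.empty
    by_cases h' : Ok s x
    swap
    · have : {w | (inc k N x + Rsum s x • ev hN ∈ O) ∧ Fin' (L w) s x} = ∅ := by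
        ext w; simp [Fin', h']
      rw [this]; exact MeasurableSet.empty
    have : {w | (inc k N x + Rsum s x • ev hN ∈ O) ∧ Fin' (L w) s x} =
        {w | s ∈ L w} ∩ ⋂ j : ℕ, {w | j :: s ∈ L w → 1 ≤ ‖co s x - ctr k j‖} := by
      ext w
      simp [Fin', h, h']
    rw [this]
    refine (hmeas s).inter (MeasurableSet.iInter fun j => ?_)
    by_cases h2 : 1 ≤ ‖co s x - ctr k j‖
    · simp [h2]
    · have : {w | j :: s ∈ L w → 1 ≤ ‖co s x - ctr k j‖} = {w | j :: s ∈ L w}ᶜ := by
        ext w; simp [h2]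
      rw [this]
      exact (hmeas _).compl
  · -- homeomorphism
    intro T hT
    rw [NN_val hN hT]
    exact ⟨{
      toFun := fun y => ⟨pr hN y.1, y.2.1⟩
      invFun := fun x => ⟨gr hN T x.1, gr_mem hN x.2⟩
      left_inv := fun y => Subtype.ext y.2.2.symm
      right_inv := fun x => Subtype.ext (pr_gr hN T x.1)
      continuous_toFun := ((pr hN).continuous.comp continuous_subtype_val).subtype_mk _
      continuous_invFun := ((continuousOn_iff_continuous_domRestrict.1
        (continuousOn_gr hN hT))).subtype_mk _ }⟩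
  · -- diffeomorphisms
    intro T Φ hT hΦ
    obtain ⟨P, P', H, K, hd⟩ := exists_autData k hΦ
    have hT2 : IsTree (Φ '' T) := isTree_image hd hT
    refine ⟨fun y => gr hN (Φ '' T) (Dm Φ H T (pr hN y)),
      fun y => gr hN T (Dm Φ.symm (fun s => K (Φ.symm s)) (Φ '' T) (pr hN y)), ?_, ?_, ?_, ?_, ?_, ?_⟩
    · rw [NN_val hN hT]
      intro y hy
      refine ⟨{y | pr hN y ∈ NT k T}, _, (isOpen_NT T).preimage (pr hN).continuous, hy.1, ?_,
        fun _ _ => rfl⟩
      intro z hz
      have hz' : pr hN z ∈ NT k T := hz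
      exact ((contDiffAt_gr hN hT2 (Dm_mem hd hT hz')).comp z
        ((contDiffAt_Dm hd hT hz').comp z (pr hN).contDiff.contDiffAt)).contDiffWithinAt
    · rw [NN_val hN hT2]
      intro y hy
      refine ⟨{y | pr hN y ∈ NT k (Φ '' T)}, _, (isOpen_NT _).preimage (pr hN).continuous, hy.1, ?_,
        fun _ _ => rfl⟩
      intro z hz
      have hz' : pr hN z ∈ NT k (Φ '' T) := hz
      exact ((contDiffAt_gr hN hT (Dm_mem' hd hT hz')).comp z
        ((contDiffAt_Dm hd.symm hT2 hz').comp z (pr hN).contDiff.contDiffAt)).contDiffWithinAt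
    · rw [NN_val hN hT, NN_val hN hT2]
      intro y hy
      exact gr_mem hN (Dm_mem hd hT hy.1)
    · rw [NN_val hN hT, NN_val hN hT2]
      intro y hy
      exact gr_mem hN (Dm_mem' hd hT hy.1)
    · rw [NN_val hN hT]
      intro y hy
      change gr hN T (Dm Φ.symm (fun s => K (Φ.symm s)) (Φ '' T)
        (pr hN (gr hN (Φ '' T) (Dm Φ H T (pr hN y))))) = y
      rw [pr_gr, Dm_inv hd hT hy.1]
      exact hy.2.symm
    · rw [NN_val hN hT2]
      intro y hy
      change gr hN (Φ '' T) (Dm Φ H T
        (pr hN (gr hN T (Dm Φ.symm (fun s => K (Φ.symm s)) (Φ '' T) (pr hN y))))) = y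
      rw [pr_gr, Dm_inv' hd hT hy.1]
      exact hy.2.symm

end Pool.Agent.BorelManifold
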