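import Pool.Agent.Lib.BorelManifold.LocalInverse

/-!
# Smooth retractions onto closed submanifolds (tubular neighbourhoods)
-/

namespace Pool.Agent.BorelManifold

open Set Topology Filter
open scoped ContDiff InnerProductSpace

section Lower

variable {V V' : Type*} [NormedAddCommGroup V] [NormedSpace ℝ V] [FiniteDimensional ℝ V]
  [NormedAddCommGroup V'] [NormedSpace ℝ V']

/-- A map with injective strict derivative satisfies a lower Lipschitz bound near the point. -/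
theorem exists_lower_bound {φ : V → V'} {A : V →L[ℝ] V'} {v₀ : V}
    (hA : HasStrictFDerivAt φ A v₀) (hinj : Function.Injective A) :
    ∃ c : ℝ, 0 < c ∧ ∃ D : Set V, IsOpen D ∧ v₀ ∈ D ∧
      ∀ v ∈ D, ∀ w ∈ D, c * ‖v - w‖ ≤ ‖φ v - φ w‖ := by
  obtain ⟨K, hK0, hK⟩ := (A : V →ₗ[ℝ] V').exists_antilipschitzWith
    (LinearMap.ker_eq_bot.mpr hinj)
  have hKpos : (0 : ℝ) < K := by exact_mod_cast hK0
  set c : ℝ := (2 * K)⁻¹ with hc
  have hcpos : 0 < c := by positivity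
  have h1 := hA.isLittleO.def hcpos
  rw [nhds_prod_eq] at h1
  obtain ⟨t, ht, h2⟩ := eventually_prod_self_iff'.mp h1
  obtain ⟨D, hDt, hD, hvD⟩ := mem_nhds_iff.mp ht
  refine ⟨c, hcpos, D, hD, hvD, fun v hv w hw => ?_⟩
  have h3 : ‖φ v - φ w - A (v - w)‖ ≤ c * ‖v - w‖ := h2 v (hDt hv) w (hDt hw)
  have h4 : ‖v - w‖ ≤ K * ‖A (v - w)‖ := by
    have := hK.le_mul_dist v w
    rw [dist_eq_norm, dist_eq_norm] at this
    simpa using this
  have h5 : ‖A (v - w)‖ ≤ ‖φ v - φ w‖ + ‖φ v - φ w - A (v - w)‖ := by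
    have : A (v - w) = (φ v - φ w) - (φ v - φ w - A (v - w)) := by abel
    calc ‖A (v - w)‖ = ‖(φ v - φ w) - (φ v - φ w - A (v - w))‖ := by rw [← this]
      _ ≤ _ := norm_sub_le _ _
  have h6 : 2 * c * ‖v - w‖ ≤ ‖A (v - w)‖ := by
    rw [hc]
    have : 2 * (2 * (K : ℝ))⁻¹ = (K : ℝ)⁻¹ := by
      field_simp
    rw [this, inv_mul_le_iff₀ hKpos]
    exact h4
  linarith

end Lower

variable {E : Type*} [NormedAddCommGroup E] [InnerProductSpace ℝ E] [FiniteDimensional ℝ E]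

/-- Local uniqueness and smoothness of the nearest point in a submanifold. -/
theorem nearest_point_local {n : ℕ} {M : Set E} (hM : IsSubmanifold n M) (hcl : IsClosed M)
    {x₀ : E} (hx₀ : x₀ ∈ M) :
    ∃ (r : ℝ) (π : E → E), 0 < r ∧ ContDiffOn ℝ ∞ π (Metric.ball x₀ r) ∧
      ∀ z ∈ Metric.ball x₀ r, ∀ p ∈ M, (∀ q ∈ M, ‖z - p‖ ≤ ‖z - q‖) → p = π z := by
  classical
  obtain ⟨e, V, hxe, he, hes, hV, heM⟩ := hM x₀ hx₀
  have hCV : CompleteSpace V := FiniteDimensional.complete ℝ V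
  let v₀ : V := ⟨e x₀, (heM x₀ hxe).mp hx₀⟩
  let ψ : V → E := fun v => e.symm (v : E)
  let D : Set V := {v | (v : E) ∈ e.target}
  have hDopen : IsOpen D := e.open_target.preimage continuous_subtype_val
  have hv₀ : v₀ ∈ D := e.map_source hxe
  have hψ : ContDiffOn ℝ ∞ ψ D :=
    hes.comp (V.subtypeL.contDiff.contDiffOn) (fun v hv => hv)
  have hψv₀ : ψ v₀ = x₀ := e.left_inv hxe
  have hψM : ∀ v ∈ D, ψ v ∈ M := by
    intro v hv
    refine (heM _ (e.map_target hv)).mpr ?_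
    rw [e.right_inv hv]
    exact v.2
  set A : V →L[ℝ] E := fderiv ℝ ψ v₀ with hAdef
  have hψat : ∀ v ∈ D, ContDiffAt ℝ ∞ ψ v := fun v hv => (hψ v hv).contDiffAt (hDopen.mem_nhds hv)
  have hψdiff : ∀ v ∈ D, HasFDerivAt ψ (fderiv ℝ ψ v) v := fun v hv =>
    ((hψat v hv).differentiableAt (by simp)).hasFDerivAt
  have hAinj : ∀ w, A w = 0 → w = 0 := by
    intro w hw
    have h1 : HasFDerivAt (fun v : V => e (ψ v)) ((fderiv ℝ e x₀).comp A) v₀ := by
      have h2 : HasFDerivAt e (fderiv ℝ e x₀) (ψ v₀) := by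
        rw [hψv₀]
        exact (((he x₀ hxe).contDiffAt (e.open_source.mem_nhds hxe)).differentiableAt
          (by simp)).hasFDerivAt
      exact h2.comp v₀ (hψdiff v₀ hv₀)
    have h3 : HasFDerivAt (fun v : V => e (ψ v)) V.subtypeL v₀ := by
      have h4 : HasFDerivAt (fun v : V => (v : E)) V.subtypeL v₀ := V.subtypeL.hasFDerivAt
      apply h4.congr_of_eventuallyEq
      filter_upwards [hDopen.mem_nhds hv₀] with v hv
      exact e.right_inv hv
    have h5 := h1.unique h3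
    have h6 : ((fderiv ℝ e x₀).comp A) w = V.subtypeL w := by rw [h5]
    rw [ContinuousLinearMap.comp_apply, hw, map_zero] at h6
    exact Subtype.ext h6.symm
  -- the map `G`
  let F : E × V → (V →L[ℝ] ℝ) := fun p => (innerSL ℝ (p.1 - ψ p.2)).comp (fderiv ℝ ψ p.2)
  let G : E × V → E × (V →L[ℝ] ℝ) := fun p => (p.1, F p)
  have hDprod : IsOpen {p : E × V | p.2 ∈ D} := hDopen.preimage continuous_snd
  have hfd : ContDiffOn ℝ ∞ (fun v => fderiv ℝ ψ v) D :=
    hψ.fderiv_of_isOpen hDopen (by simp)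
  have hψ2 : ContDiffOn ℝ ∞ (fun p : E × V => ψ p.2) {p : E × V | p.2 ∈ D} :=
    hψ.comp contDiff_snd.contDiffOn (fun p hp => hp)
  have hfd2 : ContDiffOn ℝ ∞ (fun p : E × V => fderiv ℝ ψ p.2) {p : E × V | p.2 ∈ D} :=
    hfd.comp contDiff_snd.contDiffOn (fun p hp => hp)
  have hF : ContDiffOn ℝ ∞ F {p : E × V | p.2 ∈ D} := by
    have h1 : ContDiffOn ℝ ∞ (fun p : E × V => innerSL ℝ (p.1 - ψ p.2)) {p : E × V | p.2 ∈ D} :=
      (innerSL ℝ (E := E)).contDiff.comp_contDiffOn (contDiff_fst.contDiffOn.sub hψ2)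
    exact h1.clm_comp hfd2
  have hG : ContDiffOn ℝ ∞ G {p : E × V | p.2 ∈ D} := contDiff_fst.contDiffOn.prodMk hF
  have hp₀ : ((x₀, v₀) : E × V) ∈ {p : E × V | p.2 ∈ D} := hv₀
  have hGat : ContDiffAt ℝ ∞ G (x₀, v₀) := (hG _ hp₀).contDiffAt (hDprod.mem_nhds hp₀)
  -- its derivative at `(x₀, v₀)` is injective
  have hGinj : Function.Injective (fderiv ℝ G (x₀, v₀)) := by
    rw [injective_iff_map_eq_zero]
    rintro ⟨ζ, w⟩ hζw
    have hc : HasFDerivAt (fun p : E × V => innerSL ℝ (p.1 - ψ p.2))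
        ((innerSL ℝ (E := E)).comp
          (ContinuousLinearMap.fst ℝ E V - A.comp (ContinuousLinearMap.snd ℝ E V))) (x₀, v₀) := by
      have h1 : HasFDerivAt (fun p : E × V => p.1 - ψ p.2)
          (ContinuousLinearMap.fst ℝ E V - A.comp (ContinuousLinearMap.snd ℝ E V)) (x₀, v₀) := by
        refine hasFDerivAt_fst.sub ?_
        exact HasFDerivAt.comp (g := ψ) (x₀, v₀) (hψdiff v₀ hv₀) hasFDerivAt_snd
      exact (innerSL ℝ (E := E)).hasFDerivAt.comp (x₀, v₀) h1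
    have hd : HasFDerivAt (fun p : E × V => fderiv ℝ ψ p.2)
        (fderiv ℝ (fun p : E × V => fderiv ℝ ψ p.2) (x₀, v₀)) (x₀, v₀) :=
      (((hfd2 _ hp₀).contDiffAt (hDprod.mem_nhds hp₀)).differentiableAt (by simp)).hasFDerivAt
    have hFd := hc.clm_comp hd
    have hGd : HasFDerivAt G _ (x₀, v₀) := hasFDerivAt_fst.prodMk hFd
    rw [hGd.fderiv] at hζw
    have hζ : ζ = 0 := congrArg Prod.fst hζw
    subst hζ
    have h2 := congrArg Prod.snd hζw
    have h3 := congrArg (fun (L : V →L[ℝ] ℝ) => L w) h2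
    simp [hψv₀] at h3
    have h4 : A w = 0 := inner_self_eq_zero.mp h3
    rw [hAinj w h4]
    rfl
  obtain ⟨c, hc, D₁, hD₁, hpD₁, hlow⟩ :=
    exists_lower_bound (hGat.hasStrictFDerivAt (by simp)) hGinj
  have hfin : Module.finrank ℝ (E × V) = Module.finrank ℝ (E × (V →L[ℝ] ℝ)) := by
    rw [Module.finrank_prod, Module.finrank_prod]
    congr 1
    rw [← LinearEquiv.finrank_eq (LinearMap.toContinuousLinearMap (𝕜 := ℝ) (E := V) (F' := ℝ))]
    exact (Subspace.dual_finrank_eq).symm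
  obtain ⟨hopen, g, hg, hginv⟩ := antilipschitz_local_inverse hfin
    (hDprod.inter hD₁) (hG.mono inter_subset_left) hc
    (fun v hv w hw => hlow v hv.2 w hw.2)
  set S := {p : E × V | p.2 ∈ D} ∩ D₁ with hS
  have hSopen : IsOpen S := hDprod.inter hD₁
  -- choose the radius
  have hcont : ContinuousAt (fun q : E × E => (q.1, V.orthogonalProjectionOnto (e q.2))) (x₀, x₀) := by
    have : ContinuousAt e x₀ := (e.continuousOn_toFun.continuousAt (e.open_source.mem_nhds hxe))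
    have h1 : ContinuousAt (fun q : E × E => e q.2) (x₀, x₀) :=
      ContinuousAt.comp (f := Prod.snd) (g := e) this continuousAt_snd
    exact continuousAt_fst.prodMk
      ((V.orthogonalProjectionOnto).continuous.continuousAt.comp h1)
  have hproj : ∀ y (hy : y ∈ V), V.orthogonalProjectionOnto y = ⟨y, hy⟩ := fun y hy =>
    V.orthogonalProjectionOnto_mem_subspace_eq_self ⟨y, hy⟩
  have hnhds : ∀ᶠ q : E × E in 𝓝 (x₀, x₀),
      (q.1, V.orthogonalProjectionOnto (e q.2)) ∈ S ∧ q.2 ∈ e.source := by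
    refine (hcont.eventually (hSopen.mem_nhds ?_)).and ?_
    · have : (x₀, V.orthogonalProjectionOnto (e x₀)) = (x₀, v₀) := by
        rw [hproj (e x₀) ((heM x₀ hxe).mp hx₀)]
      show (x₀, V.orthogonalProjectionOnto (e x₀)) ∈ S
      rw [this]
      exact ⟨hp₀, hpD₁⟩
    · exact continuousAt_snd.eventually (e.open_source.mem_nhds hxe)
  rw [nhds_prod_eq, eventually_prod_self_iff'] at hnhds
  obtain ⟨t, ht, hball⟩ := hnhds
  obtain ⟨ρ, hρ, hρt⟩ := Metric.mem_nhds_iff.mp ht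
  -- critical points are given by `g`
  have key : ∀ z ∈ Metric.ball x₀ (ρ / 2), ∀ p ∈ M, (∀ q ∈ M, ‖z - p‖ ≤ ‖z - q‖) →
      ∃ v : V, (z, v) ∈ S ∧ G (z, v) = (z, 0) ∧ ψ v = p := by
    intro z hz p hp hmin
    have hzx : ‖z - x₀‖ < ρ / 2 := by simpa [dist_eq_norm] using hz
    have hpx : p ∈ Metric.ball x₀ ρ := by
      rw [Metric.mem_ball, dist_eq_norm]
      have h1 := hmin x₀ hx₀
      have h2 : p - x₀ = (z - x₀) - (z - p) := by abel
      rw [h2]
      have := norm_sub_le (z - x₀) (z - p)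
      linarith
    have hzball : z ∈ Metric.ball x₀ ρ :=
      Metric.ball_subset_ball (by linarith) hz
    obtain ⟨hS1, hps⟩ := hball z (hρt hzball) p (hρt hpx)
    have hpV : e p ∈ V := (heM p hps).mp hp
    rw [hproj (e p) hpV] at hS1
    have hψp : ψ ⟨e p, hpV⟩ = p := e.left_inv hps
    refine ⟨⟨e p, hpV⟩, hS1, ?_, hψp⟩
    have hvD : (⟨e p, hpV⟩ : V) ∈ D := hS1.1
    set v : V := ⟨e p, hpV⟩ with hv
    -- `v` is a local minimum of the squared distance
    have hloc : IsLocalMin (fun v : V => ‖z - ψ v‖ ^ 2) v := by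
      filter_upwards [hDopen.mem_nhds hvD] with w hw
      show ‖z - ψ v‖ ^ 2 ≤ ‖z - ψ w‖ ^ 2
      rw [hψp]
      have := hmin (ψ w) (hψM w hw)
      gcongr
    have hder : HasFDerivAt (fun v : V => ‖z - ψ v‖ ^ 2) _ v :=
      ((hψdiff v hvD).const_sub z).norm_sq
    have h0 := hloc.hasFDerivAt_eq_zero hder
    refine Prod.ext rfl ?_
    ext u
    have h1 := congrArg (fun (L : V →L[ℝ] ℝ) => L u) h0
    simp at h1
    show ((innerSL ℝ (z - ψ v)).comp (fderiv ℝ ψ v)) u = 0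
    simp
    linarith
  refine ⟨ρ / 2, fun z => ψ (g (z, 0)).2, by positivity, ?_, ?_⟩
  · -- smoothness
    have hmem : ∀ z ∈ Metric.ball x₀ (ρ / 2), ((z, 0) : E × (V →L[ℝ] ℝ)) ∈ G '' S := by
      intro z hz
      obtain ⟨p, hp, hpd⟩ := hcl.exists_infDist_eq_dist ⟨x₀, hx₀⟩ z
      have hmin : ∀ q ∈ M, ‖z - p‖ ≤ ‖z - q‖ := by
        intro q hq
        rw [← dist_eq_norm, ← dist_eq_norm, ← hpd]
        exact Metric.infDist_le_dist_of_mem hq
      obtain ⟨v, hv1, hv2, -⟩ := key z hz p hp hmin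
      exact ⟨(z, v), hv1, hv2⟩
    have h1 : ContDiffOn ℝ ∞ (fun z : E => g (z, 0)) (Metric.ball x₀ (ρ / 2)) :=
      hg.comp (contDiff_id.prodMk contDiff_const).contDiffOn hmem
    have h2 : ContDiffOn ℝ ∞ (fun z : E => (g (z, 0)).2) (Metric.ball x₀ (ρ / 2)) :=
      contDiff_snd.comp_contDiffOn h1
    refine hψ.comp h2 ?_
    intro z hz
    obtain ⟨⟨z', v⟩, hv1, hv2⟩ := hmem z hz
    show (g (z, 0)).2 ∈ D
    rw [← hv2, hginv _ hv1]
    exact hv1.1
  · intro z hz p hp hmin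
    obtain ⟨v, hv1, hv2, hv3⟩ := key z hz p hp hmin
    show p = ψ (g (z, 0)).2
    rw [← hv2, hginv _ hv1, hv3]

/-- **Tubular neighbourhood theorem** in the form of a smooth neighbourhood retraction. -/
theorem exists_smooth_retraction {n : ℕ} {M : Set E} (hM : IsSubmanifold n M)
    (hcl : IsClosed M) (hne : M.Nonempty) :
    ∃ (O : Set E) (π : E → E), IsOpen O ∧ M ⊆ O ∧ ContDiffOn ℝ ∞ π O ∧ (∀ z, π z ∈ M) ∧
      ∀ x ∈ M, π x = x := by
  classical
  choose! r ρ hr hρ hρu using fun x (hx : x ∈ M) => nearest_point_local hM hcl hx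
  have hex : ∀ z : E, ∃ p ∈ M, ∀ q ∈ M, ‖z - p‖ ≤ ‖z - q‖ := by
    intro z
    obtain ⟨p, hp, hpd⟩ := hcl.exists_infDist_eq_dist hne z
    refine ⟨p, hp, fun q hq => ?_⟩
    rw [← dist_eq_norm, ← dist_eq_norm, ← hpd]
    exact Metric.infDist_le_dist_of_mem hq
  choose π hπM hπmin using hex
  refine ⟨⋃ x ∈ M, Metric.ball x (r x), π, isOpen_biUnion fun x _ => Metric.isOpen_ball, ?_, ?_,
    hπM, ?_⟩
  · intro x hx
    exact mem_iUnion₂.mpr ⟨x, hx, Metric.mem_ball_self (hr x hx)⟩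
  · intro z hz
    obtain ⟨x, hx, hzx⟩ := mem_iUnion₂.mp hz
    have h1 : ContDiffAt ℝ ∞ (ρ x) z :=
      (hρ x hx z hzx).contDiffAt (Metric.isOpen_ball.mem_nhds hzx)
    have h2 : π =ᶠ[𝓝 z] ρ x := by
      filter_upwards [Metric.isOpen_ball.mem_nhds hzx] with w hw
      exact hρu x hx w hw (π w) (hπM w) (hπmin w)
    exact (h1.congr_of_eventuallyEq h2).contDiffWithinAt
  · intro x hx
    have h1 := hπmin x x hx
    rw [sub_self, norm_zero] at h1
    exact (sub_eq_zero.mp (norm_le_zero_iff.mp h1)).symm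

end Pool.Agent.BorelManifold
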